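import Pool.Agent.Helper39_W1.Defs

/-! Module SPAN: basic facts on the context. -/

set_option autoImplicit false
set_option linter.unusedSectionVars false

noncomputable section

namespace Helper39W1

universe u

namespace Ctx

variable {F : Type u} [Field F] [CharZero F] {ι : Type} [DecidableEq ι] {L P : Type u} [LieRing L]
  [LieAlgebra F L] [CommRing P] [Algebra F P] (c : Ctx F ι L P)

section Span
variable {c}

theorem X_mem_g {A : Finset ι} {i : ι} (h : i ∈ A) : c.X i ∈ c.g A :=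
  LieSubalgebra.subset_lieSpan ⟨i, by exact_mod_cast h, rfl⟩

theorem g_mono {A B : Finset ι} (h : A ⊆ B) : c.g A ≤ c.g B :=
  LieSubalgebra.lieSpan_mono (Set.image_mono (by exact_mod_cast h))

theorem Sop_mem_g {A : Finset ι} {a b e v : L} (ha : a ∈ c.g A) (hb : b ∈ c.g A) (he : e ∈ c.g A)
    (hv : v ∈ c.g A) : Sop F a b e v ∈ c.g A := by
  have : Sop F a b e v = ⁅a, ⁅⁅b, e⁆, v⁆⁆ + ⁅b, ⁅⁅e, a⁆, v⁆⁆ + ⁅e, ⁅⁅a, b⁆, v⁆⁆ := by
    simp [Sop]
  rw [this]
  have h : ∀ {x y : L}, x ∈ c.g A → y ∈ c.g A → ⁅x, y⁆ ∈ c.g A := fun hx hy =>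
    LieSubalgebra.lie_mem _ hx hy
  exact add_mem (add_mem (h ha (h (h hb he) hv)) (h hb (h (h he ha) hv))) (h he (h (h ha hb) hv))

theorem adl_mem_M {y : ι} {x : L} (J : List L) (hx : x ∈ c.M y) : adl J x ∈ c.M y := by
  induction J with
  | nil => exact hx
  | cons a J ih => exact LieSubmodule.lie_mem _ ih

theorem adl_mem_g {A : Finset ι} {x : L} (J : List L) (hJ : ∀ a ∈ J, a ∈ c.g A) (hx : x ∈ c.g A) :
    adl J x ∈ c.g A := by
  induction J with
  | nil => exact hx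
  | cons a J ih =>
    exact LieSubalgebra.lie_mem _ (hJ a (by simp)) (ih fun b hb => hJ b (by simp [hb]))

/-- induction principle for `g A` -/
theorem sp_induction {A : Finset ι} {p : L → Prop} (hX : ∀ i ∈ A, p (c.X i)) (h0 : p 0)
    (hadd : ∀ u v, u ∈ c.g A → v ∈ c.g A → p u → p v → p (u + v))
    (hsmul : ∀ (t : F) u, u ∈ c.g A → p u → p (t • u))
    (hlie : ∀ u v, u ∈ c.g A → v ∈ c.g A → p u → p v → p ⁅u, v⁆) {u : L} (hu : u ∈ c.g A) :
    p u := by
  let V : LieSubalgebra F L :=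
    { carrier := {u | u ∈ c.g A ∧ p u}
      add_mem' := fun {a b} ha hb => ⟨add_mem ha.1 hb.1, hadd a b ha.1 hb.1 ha.2 hb.2⟩
      zero_mem' := ⟨zero_mem _, h0⟩
      smul_mem' := fun t a ha => ⟨SMulMemClass.smul_mem t ha.1, hsmul t a ha.1 ha.2⟩
      lie_mem' := fun {a b} ha hb =>
        ⟨LieSubalgebra.lie_mem _ ha.1 hb.1, hlie a b ha.1 hb.1 ha.2 hb.2⟩ }
  have hV : c.g A ≤ V := by
    refine LieSubalgebra.lieSpan_le.2 ?_
    rintro _ ⟨i, hi, rfl⟩
    have hi' : i ∈ A := by exact_mod_cast hi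
    exact ⟨X_mem_g hi', hX i hi'⟩
  exact (hV hu).2

theorem mem_g_insert {A : Finset ι} {y : ι} {u : L} (hu : u ∈ c.g (insert y A)) :
    ∃ u₀ ∈ c.g A, ∃ u₁ ∈ Submodule.span F {w : L | ∃ J : List L, (∀ a ∈ J, a ∈ c.g A) ∧
      w = adl J (c.X y)}, u = u₀ + u₁ := by
  set W := Submodule.span F {w : L | ∃ J : List L, (∀ a ∈ J, a ∈ c.g A) ∧
      w = adl J (c.X y)} with hW
  have hWM : ∀ w ∈ W, w ∈ c.M y := by
    intro w hw
    have : W ≤ (c.M y).toSubmodule := by
      refine Submodule.span_le.2 ?_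
      rintro _ ⟨J, -, rfl⟩
      exact adl_mem_M J (c.X_mem y)
    exact this hw
  have hbW : ∀ b ∈ c.g A, ∀ w ∈ W, ⁅b, w⁆ ∈ W := by
    intro b hb w hw
    induction hw using Submodule.span_induction with
    | mem w hw =>
      obtain ⟨J, hJ, rfl⟩ := hw
      exact Submodule.subset_span ⟨b :: J, by
        intro a ha
        rcases List.mem_cons.1 ha with rfl | ha
        · exact hb
        · exact hJ a ha, rfl⟩
    | zero => simp
    | add x z _ _ hx hz => rw [lie_add]; exact add_mem hx hz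
    | smul t x _ hx => rw [lie_smul]; exact Submodule.smul_mem _ t hx
  refine sp_induction (c := c) (A := insert y A)
    (p := fun u => ∃ u₀ ∈ c.g A, ∃ u₁ ∈ W, u = u₀ + u₁) ?_ ?_ ?_ ?_ ?_ hu
  · intro i hi
    rcases Finset.mem_insert.1 hi with rfl | hi
    · exact ⟨0, zero_mem _, c.X i, Submodule.subset_span ⟨[], by simp, rfl⟩, by simp⟩
    · exact ⟨c.X i, X_mem_g hi, 0, zero_mem _, by simp⟩
  · exact ⟨0, zero_mem _, 0, zero_mem _, by simp⟩
  · rintro u v - - ⟨u₀, hu₀, u₁, hu₁, rfl⟩ ⟨v₀, hv₀, v₁, hv₁, rfl⟩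
    exact ⟨u₀ + v₀, add_mem hu₀ hv₀, u₁ + v₁, add_mem hu₁ hv₁, by abel⟩
  · rintro t u - ⟨u₀, hu₀, u₁, hu₁, rfl⟩
    exact ⟨t • u₀, SMulMemClass.smul_mem t hu₀, t • u₁, Submodule.smul_mem _ t hu₁, by
      rw [smul_add]⟩
  · rintro u v - - ⟨u₀, hu₀, u₁, hu₁, rfl⟩ ⟨v₀, hv₀, v₁, hv₁, rfl⟩
    refine ⟨⁅u₀, v₀⁆, LieSubalgebra.lie_mem _ hu₀ hv₀, ⁅u₀, v₁⁆ - ⁅v₀, u₁⁆,
      sub_mem (hbW _ hu₀ _ hv₁) (hbW _ hv₀ _ hu₁), ?_⟩
    have h0 : ⁅u₁, v₁⁆ = 0 := c.comm y _ (hWM _ hu₁) _ (hWM _ hv₁)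
    rw [add_lie, lie_add, lie_add, h0, ← lie_skew v₀ u₁]
    abel

theorem ret_of_mem_g {A : Finset ι} {y : ι} (hy : y ∉ A) {u : L} (hu : u ∈ c.g A) :
    c.ret y u = u := by
  refine sp_induction (c := c) (A := A) (p := fun u => c.ret y u = u) ?_ ?_ ?_ ?_ ?_ hu
  · intro i hi
    exact c.ret_X y i (fun h => hy (h ▸ hi))
  · simp
  · intro u v _ _ h1 h2
    rw [map_add, h1, h2]
  · intro t u _ h1
    rw [map_smul, h1]
  · intro u v _ _ h1 h2
    rw [LieHom.map_lie, h1, h2]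

theorem mem_g_insert_M {A : Finset ι} {y : ι} (hy : y ∉ A) {u : L} (hu : u ∈ c.g (insert y A))
    (hM : u ∈ c.M y) : u ∈ Submodule.span F {w : L | ∃ J : List L, (∀ a ∈ J, a ∈ c.g A) ∧
      w = adl J (c.X y)} := by
  obtain ⟨u₀, hu₀, u₁, hu₁, rfl⟩ := mem_g_insert hu
  have h1 : u₁ ∈ c.M y := by
    have : Submodule.span F {w : L | ∃ J : List L, (∀ a ∈ J, a ∈ c.g A) ∧
      w = adl J (c.X y)} ≤ (c.M y).toSubmodule := by
      refine Submodule.span_le.2 ?_
      rintro _ ⟨J, -, rfl⟩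
      exact adl_mem_M J (c.X_mem y)
    exact this hu₁
  have h2 : c.ret y (u₀ + u₁) = 0 := c.ret_M y _ hM
  rw [map_add, ret_of_mem_g hy hu₀, c.ret_M y _ h1, add_zero] at h2
  rw [h2, zero_add]
  exact hu₁

theorem ret_mem_erase {A : Finset ι} {y : ι} {u : L} (hu : u ∈ c.g A) :
    c.ret y u ∈ c.g (A.erase y) := by
  refine sp_induction (c := c) (A := A) (p := fun u => c.ret y u ∈ c.g (A.erase y))
    ?_ ?_ ?_ ?_ ?_ hu
  · intro i hi
    by_cases h : i = y
    · subst h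
      rw [c.ret_M i _ (c.X_mem i)]
      exact zero_mem _
    · rw [c.ret_X y i h]
      exact X_mem_g (Finset.mem_erase.2 ⟨h, hi⟩)
  · simp
  · intro u v _ _ h1 h2
    rw [map_add]
    exact add_mem h1 h2
  · intro t u _ h1
    rw [map_smul]
    exact SMulMemClass.smul_mem t h1
  · intro u v _ _ h1 h2
    rw [LieHom.map_lie]
    exact LieSubalgebra.lie_mem _ h1 h2

theorem sub_ret_mem {A : Finset ι} {y : ι} {u : L} (hu : u ∈ c.g A) : u - c.ret y u ∈ c.M y := by
  refine sp_induction (c := c) (A := A) (p := fun u => u - c.ret y u ∈ c.M y)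
    ?_ ?_ ?_ ?_ ?_ hu
  · intro i hi
    by_cases h : i = y
    · subst h
      rw [c.ret_M i _ (c.X_mem i), sub_zero]
      exact c.X_mem i
    · rw [c.ret_X y i h, sub_self]
      exact zero_mem _
  · simp
  · intro u v _ _ h1 h2
    rw [map_add]
    have : u + v - (c.ret y u + c.ret y v) = (u - c.ret y u) + (v - c.ret y v) := by abel
    rw [this]
    exact add_mem h1 h2
  · intro t u _ h1
    rw [map_smul, ← smul_sub]
    exact SMulMemClass.smul_mem t h1
  · intro u v _ _ h1 h2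
    rw [LieHom.map_lie]
    have : ⁅u, v⁆ - ⁅c.ret y u, c.ret y v⁆ = ⁅c.ret y u, v - c.ret y v⁆ - ⁅v, u - c.ret y u⁆ := by
      rw [lie_sub, lie_sub, ← lie_skew u v, ← lie_skew v (c.ret y u)]
      abel
    rw [this]
    exact sub_mem (LieSubmodule.lie_mem _ h2) (LieSubmodule.lie_mem _ h1)

theorem p_mem_fr {A : Finset ι} {y : ι} (hy : y ∉ A) {u : L} (hu : u ∈ c.g A) :
    c.p u ∈ c.fr y := by
  refine sp_induction (c := c) (A := A) (p := fun u => c.p u ∈ c.fr y)
    ?_ ?_ ?_ ?_ ?_ hu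
  · intro i hi
    exact c.fr_X y i (fun h => hy (h ▸ hi))
  · simp
  · intro u v _ _ h1 h2
    rw [map_add]
    exact add_mem h1 h2
  · intro t u _ h1
    rw [map_smul]
    exact SMulMemClass.smul_mem t h1
  · intro u v _ _ h1 h2
    rw [c.p_lie]
    exact sub_mem (mul_mem h1 (c.fr_d y _ h2)) (mul_mem h2 (c.fr_d y _ h1))

theorem co_fr {y : ι} (k : ℕ) {r : P} (hr : r ∈ c.fr y) : c.co y k r = 0 := by
  have := c.co_mul y k r 1 hr
  rw [mul_one, c.co_one, mul_zero] at this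
  exact this

theorem co_p_adl {A : Finset ι} {y : ι} (hy : y ∉ A) (J : List L) (hJ : ∀ a ∈ J, a ∈ c.g A) :
    c.co y J.length (c.p (adl J (c.X y))) = (J.map c.p).prod ∧
      ∀ k, J.length < k → c.co y k (c.p (adl J (c.X y))) = 0 := by
  induction J with
  | nil =>
    refine ⟨by simpa [adl] using c.co_X_zero y, ?_⟩
    intro k hk
    obtain ⟨k, rfl⟩ : ∃ k', k = k' + 1 := ⟨k - 1, by simp at hk; omega⟩
    exact c.co_X_succ y k
  | cons a J ih =>
    have ha : c.p a ∈ c.fr y := p_mem_fr hy (hJ a (by simp))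
    obtain ⟨ih1, ih2⟩ := ih fun b hb => hJ b (by simp [hb])
    have key : ∀ k, c.co y (k + 1) (c.p (adl (a :: J) (c.X y))) =
        c.p a * (c.co y k (c.p (adl J (c.X y))) + c.d (c.co y (k + 1) (c.p (adl J (c.X y)))))
          - c.d (c.p a) * c.co y (k + 1) (c.p (adl J (c.X y))) := by
      intro k
      have : adl (a :: J) (c.X y) = ⁅a, adl J (c.X y)⁆ := rfl
      rw [this, c.p_lie, map_sub, c.co_mul y _ _ _ ha, c.co_d_succ,
        mul_comm (c.p (adl J (c.X y))) _, c.co_mul y _ _ _ (c.fr_d y _ ha)]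
    refine ⟨?_, ?_⟩
    · rw [List.length_cons, key, ih1, ih2 _ (Nat.lt_succ_self _)]
      simp
    · intro k hk
      rw [List.length_cons] at hk
      obtain ⟨k, rfl⟩ : ∃ k', k = k' + 1 := ⟨k - 1, by omega⟩
      rw [key, ih2 k (by omega), ih2 (k + 1) (by omega)]
      simp

theorem prod_mem_fr {A : Finset ι} {y : ι} (hy : y ∉ A) (J : List L) (hJ : ∀ a ∈ J, a ∈ c.g A) :
    (J.map c.p).prod ∈ c.fr y := by
  induction J with
  | nil => simp
  | cons a J ih =>
    rw [List.map_cons, List.prod_cons]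
    exact mul_mem (p_mem_fr hy (hJ a (by simp))) (ih fun b hb => hJ b (by simp [hb]))

/-- elements of `g A` in `M i` are spanned by `[a, b]` with `a ∈ M i` and by the letter -/
theorem mem_M_span {A : Finset ι} {i : ι} {u : L} (hu : u ∈ c.g A) (hM : u ∈ c.M i) :
    u ∈ Submodule.span F ({w : L | w = c.X i ∧ i ∈ A} ∪ {w : L | ∃ a ∈ c.g A, ∃ b ∈ c.g A, a ∈ c.M i ∧
      w = ⁅b, a⁆}) := by
  by_cases hi : i ∈ A
  · have hA : insert i (A.erase i) = A := Finset.insert_erase hi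
    have hu' : u ∈ c.g (insert i (A.erase i)) := by rw [hA]; exact hu
    have h := mem_g_insert_M (Finset.notMem_erase i A) hu' hM
    refine Submodule.span_mono ?_ h
    rintro _ ⟨J, hJ, rfl⟩
    have hJ' : ∀ a ∈ J, a ∈ c.g A := fun a ha => g_mono (Finset.erase_subset i A) (hJ a ha)
    cases J with
    | nil => exact Or.inl ⟨rfl, hi⟩
    | cons b J =>
      exact Or.inr ⟨adl J (c.X i), adl_mem_g J (fun a ha => hJ' a (by simp [ha])) (X_mem_g hi),
        b, hJ' b (by simp), adl_mem_M J (c.X_mem i), rfl⟩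
  · have h1 := ret_of_mem_g hi hu
    rw [c.ret_M i u hM] at h1
    rw [← h1]
    exact zero_mem _

theorem inj_iff (A : Finset ι) : c.Iprop A 1 ↔ c.Inj A := by
  constructor
  · intro h v hv hp
    have hrel : c.Rel A 1 (List.sum : List L → L) := by
      refine ⟨?_, ?_, ?_, ?_, ?_⟩
      · intro l l' _ hp
        exact hp.sum_eq
      · rintro a b l ⟨hl, -⟩ -
        obtain rfl : l = [] := by simpa using hl
        simp
      · rintro t a l ⟨hl, -⟩
        obtain rfl : l = [] := by simpa using hl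
        simp
      · rintro a b e l ⟨hl, -⟩
        simp at hl
      · rintro i a b l ⟨hl, -⟩
        simp at hl
    have := h L List.sum hrel (v, c.p v) (Submodule.subset_span ⟨[v], ⟨rfl, by simpa using hv⟩, by
      simp⟩) hp
    exact this
  · intro h G _ _ f hf v hv hv2
    have hz : f [0] = 0 := by
      have := hf.smul 0 0 [] ⟨rfl, by simp⟩
      simpa using this
    have key : ∀ w : G × P, w ∈ Submodule.span F {w : G × P | ∃ l, c.Lst A 1 l ∧
        w = (f l, (l.map c.p).prod)} → ∃ a ∈ c.g A, w = (f [a], c.p a) := by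
      intro w hw
      induction hw using Submodule.span_induction with
      | mem w hw =>
        obtain ⟨l, ⟨hl, hl'⟩, rfl⟩ := hw
        obtain ⟨a, rfl⟩ := List.length_eq_one_iff.1 hl
        exact ⟨a, hl' a (by simp), by simp⟩
      | zero => exact ⟨0, zero_mem _, by rw [hz, map_zero]; rfl⟩
      | add x z _ _ hx hz' =>
        obtain ⟨a, ha, rfl⟩ := hx
        obtain ⟨b, hb, rfl⟩ := hz'
        refine ⟨a + b, add_mem ha hb, ?_⟩
        rw [hf.add a b [] ⟨rfl, by simpa using ha⟩ ⟨rfl, by simpa using hb⟩, map_add]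
        rfl
      | smul t x _ hx =>
        obtain ⟨a, ha, rfl⟩ := hx
        refine ⟨t • a, SMulMemClass.smul_mem t ha, ?_⟩
        rw [hf.smul t a [] ⟨rfl, by simpa using ha⟩, map_smul]
        rfl
    replace key := key v hv
    obtain ⟨a, ha, rfl⟩ := key
    have : a = 0 := h a ha hv2
    subst this
    exact hz
end Span

end Ctx

end Helper39W1
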