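import Pool.Agent.Helper39_W1.FnCalc
import Pool.Agent.Helper39_W1.Span

/-! Module BPF: facts on the algebra `BP A`. -/

set_option autoImplicit false
set_option linter.unusedSectionVars false

noncomputable section

namespace Helper39W1

universe u

namespace Ctx

variable {F : Type u} [Field F] [CharZero F] {ι : Type} [DecidableEq ι] {L P : Type u} [LieRing L]
  [LieAlgebra F L] [CommRing P] [Algebra F P] (c : Ctx F ι L P)

section BPF
variable {c}

theorem SS_mem_BP {A : Finset ι} {a b e : L} (ha : a ∈ c.g A) (hb : b ∈ c.g A) (he : e ∈ c.g A) :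
    c.SS a b e ∈ c.BP A :=
  Algebra.subset_adjoin ⟨a, ha, b, hb, e, he, rfl⟩

theorem BP_mono {A B : Finset ι} (h : A ⊆ B) : c.BP A ≤ c.BP B := by
  apply Algebra.adjoin_mono
  rintro w ⟨a, ha, b, hb, e, he, hw⟩
  exact ⟨a, g_mono h ha, b, g_mono h hb, e, g_mono h he, hw⟩

theorem bpf_algebraMap_fst (t : F) (v : L) :
    (algebraMap F (Module.End F L × P) t).1 v = t • v := by
  rw [Prod.algebraMap_apply]
  rfl

theorem BP_maps_g' {A B : Finset ι} (hAB : A ⊆ B) {w : Module.End F L × P} (hw : w ∈ c.BP A)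
    {v : L} (hv : v ∈ c.g B) : w.1 v ∈ c.g B := by
  unfold BP at hw
  induction hw using Algebra.adjoin_induction generalizing v with
  | mem w hw =>
    obtain ⟨a, ha, b, hb, e, he, rfl⟩ := hw
    exact Sop_mem_g (g_mono hAB ha) (g_mono hAB hb) (g_mono hAB he) hv
  | algebraMap t =>
    rw [bpf_algebraMap_fst]
    exact (c.g B).smul_mem t hv
  | add w w' _ _ h h' =>
    exact (c.g B).add_mem (h hv) (h' hv)
  | mul w w' _ _ h h' =>
    exact h (h' hv)

theorem BP_maps_g {A : Finset ι} {w : Module.End F L × P} (hw : w ∈ c.BP A) {v : L}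
    (hv : v ∈ c.g A) : w.1 v ∈ c.g A :=
  BP_maps_g' (Finset.Subset.refl A) hw hv

theorem BP_maps_M {A : Finset ι} {w : Module.End F L × P} (hw : w ∈ c.BP A) {i : ι} {v : L}
    (hv : v ∈ c.M i) : w.1 v ∈ c.M i := by
  unfold BP at hw
  induction hw using Algebra.adjoin_induction generalizing v with
  | mem w hw =>
    obtain ⟨a, ha, b, hb, e, he, rfl⟩ := hw
    change Sop F a b e v ∈ c.M i
    rw [Sop_apply]
    exact add_mem (add_mem (LieSubmodule.lie_mem _ (LieSubmodule.lie_mem _ hv))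
      (LieSubmodule.lie_mem _ (LieSubmodule.lie_mem _ hv)))
      (LieSubmodule.lie_mem _ (LieSubmodule.lie_mem _ hv))
  | algebraMap t =>
    rw [bpf_algebraMap_fst]
    exact (c.M i).smul_mem t hv
  | add w w' _ _ h h' =>
    exact (c.M i).add_mem (h hv) (h' hv)
  | mul w w' _ _ h h' =>
    exact h (h' hv)

theorem SS_p (a b e v : L) : c.p ((c.SS a b e).1 v) = (c.SS a b e).2 * c.p v := by
  change c.p (Sop F a b e v) = -(2 * Wr c.d (c.p a) (c.p b) (c.p e)) * c.p v
  simp only [Sop_apply, map_add, map_sub, c.p_lie, Derivation.leibniz, smul_eq_mul, Wr]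
  ring

theorem BP_p {A : Finset ι} {w : Module.End F L × P} (hw : w ∈ c.BP A) (v : L) :
    c.p (w.1 v) = w.2 * c.p v := by
  unfold BP at hw
  induction hw using Algebra.adjoin_induction generalizing v with
  | mem w hw =>
    obtain ⟨a, ha, b, hb, e, he, rfl⟩ := hw
    exact SS_p a b e v
  | algebraMap t =>
    rw [bpf_algebraMap_fst, Prod.algebraMap_apply, map_smul, Algebra.smul_def]
  | add w w' _ _ h h' =>
    change c.p (w.1 v + w'.1 v) = (w.2 + w'.2) * c.p v
    rw [map_add, h, h', add_mul]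
  | mul w w' _ _ h h' =>
    change c.p (w.1 (w'.1 v)) = (w.2 * w'.2) * c.p v
    rw [h, h', mul_assoc]

theorem bpf_two_mul_mem (S : Subalgebra F P) {r : P} (hr : r ∈ S) : 2 * r ∈ S := by
  rw [two_mul]
  exact S.add_mem hr hr

theorem BP_fr {A : Finset ι} {y : ι} (hy : y ∉ A) {w : Module.End F L × P} (hw : w ∈ c.BP A) :
    w.2 ∈ c.fr y := by
  unfold BP at hw
  induction hw using Algebra.adjoin_induction with
  | mem w hw =>
    obtain ⟨a, ha, b, hb, e, he, rfl⟩ := hw
    have ha' := p_mem_fr hy ha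
    have hb' := p_mem_fr hy hb
    have he' := p_mem_fr hy he
    have ha1 := c.fr_d y _ ha'
    have hb1 := c.fr_d y _ hb'
    have he1 := c.fr_d y _ he'
    have ha2 := c.fr_d y _ ha1
    have hb2 := c.fr_d y _ hb1
    have he2 := c.fr_d y _ he1
    change -(2 * Wr c.d (c.p a) (c.p b) (c.p e)) ∈ c.fr y
    apply neg_mem
    apply bpf_two_mul_mem
    unfold Wr
    exact add_mem (sub_mem (mul_mem ha' (sub_mem (mul_mem hb1 he2) (mul_mem he1 hb2)))
      (mul_mem hb' (sub_mem (mul_mem ha1 he2) (mul_mem he1 ha2))))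
      (mul_mem he' (sub_mem (mul_mem ha1 hb2) (mul_mem hb1 ha2)))
  | algebraMap t =>
    rw [Prod.algebraMap_apply]
    exact (c.fr y).algebraMap_mem t
  | add w w' _ _ h h' =>
    exact (c.fr y).add_mem h h'
  | mul w w' _ _ h h' =>
    exact (c.fr y).mul_mem h h'

/-- `D_x` is a derivation, additive, … on pairs -/
theorem DD_mul (x : L) (v w : Module.End F L × P) :
    c.DD x (v * w) = c.DD x v * w + v * c.DD x w := by
  apply Prod.ext
  · exact Dop_mul x v.1 w.1
  · change c.p x * c.d (v.2 * w.2) = c.p x * c.d v.2 * w.2 + v.2 * (c.p x * c.d w.2)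
    simp only [Derivation.leibniz, smul_eq_mul]
    ring

theorem DD_add (x : L) (v w : Module.End F L × P) : c.DD x (v + w) = c.DD x v + c.DD x w := by
  apply Prod.ext
  · exact Dop_add x v.1 w.1
  · change c.p x * c.d (v.2 + w.2) = c.p x * c.d v.2 + c.p x * c.d w.2
    rw [map_add, mul_add]

theorem DD_smul (t : F) (x : L) (v : Module.End F L × P) : c.DD x (t • v) = t • c.DD x v := by
  apply Prod.ext
  · exact Dop_smul t x v.1
  · change c.p x * c.d (t • v.2) = t • (c.p x * c.d v.2)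
    rw [Derivation.map_smul, mul_smul_comm]

theorem DD_add_left (x y : L) (v : Module.End F L × P) :
    c.DD (x + y) v = c.DD x v + c.DD y v := by
  apply Prod.ext
  · exact Dop_add_left x y v.1
  · change c.p (x + y) * c.d v.2 = c.p x * c.d v.2 + c.p y * c.d v.2
    rw [map_add, add_mul]

theorem DD_smul_left (t : F) (x : L) (v : Module.End F L × P) :
    c.DD (t • x) v = t • c.DD x v := by
  apply Prod.ext
  · exact Dop_smul_left t x v.1
  · change c.p (t • x) * c.d v.2 = t • (c.p x * c.d v.2)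
    rw [map_smul, smul_mul_assoc]

theorem DD_lie (x y : L) (v : Module.End F L × P) :
    c.DD ⁅x, y⁆ v = c.DD x (c.DD y v) - c.DD y (c.DD x v) := by
  apply Prod.ext
  · exact Dop_lie x y v.1
  · change c.p ⁅x, y⁆ * c.d v.2 =
      c.p x * c.d (c.p y * c.d v.2) - c.p y * c.d (c.p x * c.d v.2)
    simp only [c.p_lie, Derivation.leibniz, smul_eq_mul]
    ring

theorem DD_SS (x a b e : L) : c.DD x (c.SS a b e) = c.SS ⁅x, a⁆ b e + c.SS a ⁅x, b⁆ e
    + c.SS a b ⁅x, e⁆ := by
  apply Prod.ext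
  · exact Dop_Sop x a b e
  · change c.p x * c.d (-(2 * Wr c.d (c.p a) (c.p b) (c.p e))) =
      -(2 * Wr c.d (c.p ⁅x, a⁆) (c.p b) (c.p e)) + -(2 * Wr c.d (c.p a) (c.p ⁅x, b⁆) (c.p e))
        + -(2 * Wr c.d (c.p a) (c.p b) (c.p ⁅x, e⁆))
    simp only [two_mul, c.p_lie, Derivation.leibniz, smul_eq_mul, Wr, map_add, map_sub, map_neg]
    ring

theorem BP_DD {A : Finset ι} {a : L} (ha : a ∈ c.g A) {w : Module.End F L × P} (hw : w ∈ c.BP A) :
    c.DD a w ∈ c.BP A := by
  unfold BP at hw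
  induction hw using Algebra.adjoin_induction with
  | mem w hw =>
    obtain ⟨a', ha', b, hb, e, he, rfl⟩ := hw
    rw [DD_SS]
    exact add_mem (add_mem (SS_mem_BP ((c.g A).lie_mem ha ha') hb he)
      (SS_mem_BP ha' ((c.g A).lie_mem ha hb) he)) (SS_mem_BP ha' hb ((c.g A).lie_mem ha he))
  | algebraMap t =>
    have h : c.DD a (algebraMap F (Module.End F L × P) t) = 0 := by
      apply Prod.ext
      · change Dop a (algebraMap F (Module.End F L × P) t).1 = 0
        ext v
        rw [Dop_apply, bpf_algebraMap_fst, bpf_algebraMap_fst, lie_smul, sub_self]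
        rfl
      · change c.p a * c.d (algebraMap F (Module.End F L × P) t).2 = 0
        rw [Prod.algebraMap_apply, Derivation.map_algebraMap, mul_zero]
    rw [h]
    exact zero_mem _
  | add w w' _ _ h h' =>
    rw [DD_add]
    exact add_mem h h'
  | mul w w' hw hw' h h' =>
    rw [DD_mul]
    exact add_mem (mul_mem h hw') (mul_mem hw h')

theorem BP_ret {A : Finset ι} {y : ι} (hy : y ∉ A) {w : Module.End F L × P} (hw : w ∈ c.BP A)
    (v : L) : c.ret y (w.1 v) = w.1 (c.ret y v) := by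
  unfold BP at hw
  induction hw using Algebra.adjoin_induction generalizing v with
  | mem w hw =>
    obtain ⟨a, ha, b, hb, e, he, rfl⟩ := hw
    change c.ret y (Sop F a b e v) = Sop F a b e (c.ret y v)
    simp only [Sop_apply, map_add, LieHom.map_lie, ret_of_mem_g hy ha, ret_of_mem_g hy hb,
      ret_of_mem_g hy he]
  | algebraMap t =>
    rw [bpf_algebraMap_fst, bpf_algebraMap_fst, map_smul]
  | add w w' _ _ h h' =>
    change c.ret y (w.1 v + w'.1 v) = w.1 (c.ret y v) + w'.1 (c.ret y v)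
    rw [map_add, h, h']
  | mul w w' _ _ h h' =>
    change c.ret y (w.1 (w'.1 v)) = w.1 (w'.1 (c.ret y v))
    rw [h, h']

variable [St5 L]

theorem bpf_aux {A : Finset ι} {w : Module.End F L × P} (hw : w ∈ c.BP A) :
    ∀ φ : Module.End F L, Fn φ → w.1 * φ = φ * w.1 ∧ Fn (w.1 * φ) := by
  unfold BP at hw
  induction hw using Algebra.adjoin_induction with
  | mem w hw =>
    obtain ⟨a, ha, b, hb, e, he, rfl⟩ := hw
    intro φ h
    refine ⟨h.comm_Sop a b e, ?_⟩
    intro z v
    change Dop z (Sop F a b e * φ) v = Dop v (Sop F a b e * φ) z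
    have key : ∀ x : L, Dop x (Sop F a b e) * φ = φ * Dop x (Sop F a b e) := by
      intro x
      rw [Dop_Sop, add_mul, add_mul, mul_add, mul_add, h.comm_Sop, h.comm_Sop, h.comm_Sop]
    have hS : Dop z (Sop F a b e) (φ v) = Dop v (Sop F a b e) (φ z) := by
      have h1 := LinearMap.congr_fun (key z) v
      have h2 := LinearMap.congr_fun (key v) z
      rw [Module.End.mul_apply, Module.End.mul_apply] at h1 h2
      rw [h1, h2, fn_Sop a b e z v]
    rw [Dop_mul, Dop_mul, LinearMap.add_apply, LinearMap.add_apply, Module.End.mul_apply,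
      Module.End.mul_apply, Module.End.mul_apply, Module.End.mul_apply, hS, h z v]
  | algebraMap t =>
    intro φ h
    have h1 : (algebraMap F (Module.End F L × P) t).1 * φ = t • φ := by
      ext v
      rw [Module.End.mul_apply, bpf_algebraMap_fst]
      rfl
    have h2 : φ * (algebraMap F (Module.End F L × P) t).1 = t • φ := by
      ext v
      rw [Module.End.mul_apply, bpf_algebraMap_fst, map_smul]
      rfl
    rw [h1, h2]
    exact ⟨rfl, h.smul t⟩
  | add w w' _ _ h h' =>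
    intro φ hφ
    change (w.1 + w'.1) * φ = φ * (w.1 + w'.1) ∧ Fn ((w.1 + w'.1) * φ)
    rw [add_mul, mul_add, (h φ hφ).1, (h' φ hφ).1]
    refine ⟨rfl, ?_⟩
    rw [← (h φ hφ).1, ← (h' φ hφ).1]
    exact (h φ hφ).2.add (h' φ hφ).2
  | mul w w' _ _ h h' =>
    intro φ hφ
    change (w.1 * w'.1) * φ = φ * (w.1 * w'.1) ∧ Fn ((w.1 * w'.1) * φ)
    constructor
    · rw [mul_assoc, (h' φ hφ).1, ← mul_assoc, (h φ hφ).1, mul_assoc]
    · rw [mul_assoc]
      exact (h _ (h' φ hφ).2).2

theorem BP_fn {A : Finset ι} {w : Module.End F L × P} (hw : w ∈ c.BP A) : Fn w.1 := by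
  have h := (bpf_aux hw 1 Fn.one).2
  rwa [mul_one] at h

theorem BP_comm_fn {A : Finset ι} {w : Module.End F L × P} (hw : w ∈ c.BP A)
    {φ : Module.End F L} (h : Fn φ) : w.1 * φ = φ * w.1 := (bpf_aux hw φ h).1

theorem BP_mul_fn {A : Finset ι} {w : Module.End F L × P} (hw : w ∈ c.BP A)
    {φ : Module.End F L} (h : Fn φ) : Fn (w.1 * φ) := (bpf_aux hw φ h).2

theorem BP_dop_comm {A : Finset ι} {w : Module.End F L × P} (hw : w ∈ c.BP A)
    {φ : Module.End F L} (h : Fn φ) (x : L) : Dop x w.1 * φ = φ * Dop x w.1 := by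
  have h1 := BP_comm_fn hw h
  have h2 := BP_comm_fn hw (h.dop x)
  have h3 := Dop_mul x w.1 φ
  have h4 := Dop_mul x φ w.1
  rw [h1] at h3
  rw [h3, ← h2] at h4
  have h5 : Dop x w.1 * φ + w.1 * Dop x φ = φ * Dop x w.1 + w.1 * Dop x φ := by
    rw [h4, add_comm]
  exact add_right_cancel h5

/-- `D_{b x} = b D_x` -/
theorem BP_Dop {A : Finset ι} {w : Module.End F L × P} (hw : w ∈ c.BP A)
    {φ : Module.End F L} (h : Fn φ) (x : L) : Dop (w.1 x) φ = w.1 * Dop x φ := by
  have h1 : Dop (w.1 x) φ = LieAlgebra.ad F L (w.1 x) * φ - φ * LieAlgebra.ad F L (w.1 x) := rfl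
  have h2 : Dop x φ = LieAlgebra.ad F L x * φ - φ * LieAlgebra.ad F L x := rfl
  rw [h1, (BP_fn hw).ad_apply, sub_mul, mul_sub, BP_dop_comm hw h, h2, mul_sub,
    ← mul_assoc φ w.1, ← BP_comm_fn hw h, mul_assoc, mul_assoc]
  abel

/-- `(D_a w) (D_b φ) = (D_b w) (D_a φ)` -/
theorem BP_Dop_Dop {A : Finset ι} {w : Module.End F L × P} (hw : w ∈ c.BP A)
    {φ : Module.End F L} (h : Fn φ) (a b : L) : Dop a w.1 * Dop b φ = Dop b w.1 * Dop a φ := by
  have hf := BP_fn hw
  have r1 := h.rel (w.1 a) b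
  have r2 := h.rel a (w.1 b)
  have r3 := h.rel a b
  rw [hf.ad_apply, BP_Dop hw h] at r1
  rw [hf.ad_apply, BP_Dop hw h] at r2
  have r4 : Dop ⁅w.1 a, b⁆ φ + Dop ⁅a, w.1 b⁆ φ = (2 : F) • (w.1 * Dop ⁅a, b⁆ φ) := by
    rw [← Dop_add_left, hf.lie, Dop_smul_left, BP_Dop hw h]
  rw [← r1, ← r2, ← r3] at r4
  have c1 := BP_comm_fn hw (h.dop b)
  have c2 := BP_comm_fn hw (h.dop a)
  have e1 : Dop b φ * (w.1 * LieAlgebra.ad F L a) = w.1 * (Dop b φ * LieAlgebra.ad F L a) := by
    rw [← mul_assoc, ← c1, mul_assoc]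
  have e2 : Dop a φ * (w.1 * LieAlgebra.ad F L b) = w.1 * (Dop a φ * LieAlgebra.ad F L b) := by
    rw [← mul_assoc, ← c2, mul_assoc]
  have r5 : Dop a φ * Dop b w.1 - Dop b φ * Dop a w.1 =
      (Dop b φ * (w.1 * LieAlgebra.ad F L a - Dop a w.1) - w.1 * Dop a φ * LieAlgebra.ad F L b +
        (w.1 * Dop b φ * LieAlgebra.ad F L a - Dop a φ * (w.1 * LieAlgebra.ad F L b - Dop b w.1))) -
        (2 : F) • (w.1 * (Dop b φ * LieAlgebra.ad F L a - Dop a φ * LieAlgebra.ad F L b)) := by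
    rw [two_smul, mul_sub, mul_sub, mul_sub, e1, e2, mul_assoc, mul_assoc]
    abel
  rw [r4, sub_self, sub_eq_zero] at r5
  rw [BP_dop_comm hw (h.dop b), BP_dop_comm hw (h.dop a), r5]

end BPF

end Ctx

end Helper39W1
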