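import Pool.Agent.Helper39_W1.Defs

set_option autoImplicit false

noncomputable section

namespace Helper39W1

universe u

section LLapi

theorem LLaux_st5_map {F : Type u} [Field F] {L : Type u} [LieRing L] [LieAlgebra F L]
    {L' : Type u} [LieRing L'] [LieAlgebra F L'] (f : L →ₗ⁅F⁆ L') (x : Fin 4 → L) (z : L) :
    f (st5 x z) = st5 (fun i => f (x i)) (f z) := by
  simp [st5, map_sum, map_zsmul, LieHom.map_lie]

variable (F : Type u) [Field F] (ι : Type)

/-- the quotient map as a homomorphism of Lie algebras -/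
def LLmk : FreeLieAlgebra F ι →ₗ⁅F⁆ LL F ι :=
  { (LieSubmodule.Quotient.mk' (relIdeal F ι) : FreeLieAlgebra F ι →ₗ[F] LL F ι) with
    map_lie' := fun {x y} => LieSubmodule.Quotient.mk_bracket (I := relIdeal F ι) x y }

theorem LLmk_apply (x : FreeLieAlgebra F ι) :
    LLmk F ι x = LieSubmodule.Quotient.mk (N := relIdeal F ι) x := rfl

theorem LLmk_of (i : ι) : LLmk F ι (FreeLieAlgebra.of F i) = LX F ι i := rfl

theorem LLmk_surj : Function.Surjective (LLmk F ι) :=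
  LieSubmodule.Quotient.surjective_mk' (relIdeal F ι)

theorem LLmk_eq_zero (x : FreeLieAlgebra F ι) : LLmk F ι x = 0 ↔ x ∈ relIdeal F ι :=
  LieSubmodule.Quotient.mk_eq_zero (N := relIdeal F ι)

instance : St5 (LL F ι) where
  eq_zero := fun x z => by
    choose x' hx' using fun i => LLmk_surj F ι (x i)
    obtain ⟨z', rfl⟩ := LLmk_surj F ι z
    have h1 : x = fun i => LLmk F ι (x' i) := funext fun i => (hx' i).symm
    rw [h1, ← LLaux_st5_map, LLmk_eq_zero]
    exact LieSubmodule.subset_lieSpan (Or.inl ⟨x', z', rfl⟩)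

theorem LM_le_map (i : ι) (a : LL F ι) (ha : a ∈ LM F ι i) :
    ∃ a' ∈ MF F ι i, LLmk F ι a' = a := by
  have key : LM F ι i ≤ LieIdeal.map (LLmk F ι) (MF F ι i) := by
    rw [LM, LieSubmodule.lieSpan_le]
    intro x hx
    rw [Set.mem_singleton_iff] at hx
    subst hx
    rw [← LLmk_of]
    exact LieIdeal.mem_map (LieSubmodule.subset_lieSpan rfl)
  have h := key ha
  obtain ⟨x, hx⟩ := LieIdeal.mem_map_of_surjective (LLmk_surj F ι) h
  exact ⟨x, x.2, hx⟩

theorem LM_comm (i : ι) (a b : LL F ι) (ha : a ∈ LM F ι i) (hb : b ∈ LM F ι i) : ⁅a, b⁆ = 0 := by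
  obtain ⟨a', ha', rfl⟩ := LM_le_map F ι i a ha
  obtain ⟨b', hb', rfl⟩ := LM_le_map F ι i b hb
  rw [← LieHom.map_lie, LLmk_eq_zero]
  exact LieSubmodule.subset_lieSpan (Or.inr ⟨i, a', ha', b', hb', rfl⟩)

theorem LX_gen : LieSubalgebra.lieSpan F (LL F ι) (Set.range (LX F ι)) = ⊤ := by
  rw [eq_top_iff]
  intro x _
  obtain ⟨x, rfl⟩ := LLmk_surj F ι x
  let K := LieSubalgebra.lieSpan F (LL F ι) (Set.range (LX F ι))
  let g : ι → K := fun i => ⟨LX F ι i, LieSubalgebra.subset_lieSpan ⟨i, rfl⟩⟩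
  have h : K.incl.comp (FreeLieAlgebra.lift F g) = LLmk F ι := by
    apply FreeLieAlgebra.hom_ext
    intro i
    rw [LieHom.comp_apply, FreeLieAlgebra.lift_of_apply, LLmk_of]
    rfl
  rw [← h]
  exact (FreeLieAlgebra.lift F g x).2

theorem LL_lift {A : Type u} [LieRing A] [LieAlgebra F A] [St5 A] (a : ι → A)
    (N : ι → LieIdeal F A) (ha : ∀ i, a i ∈ N i) (hN : ∀ i, ∀ u ∈ N i, ∀ v ∈ N i, ⁅u, v⁆ = 0) :
    ∃ f : LL F ι →ₗ⁅F⁆ A, (∀ i, f (LX F ι i) = a i) ∧ ∀ i, ∀ u ∈ LM F ι i, f u ∈ N i := by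
  have hM : ∀ i, MF F ι i ≤ LieIdeal.comap (FreeLieAlgebra.lift F a) (N i) := by
    intro i
    rw [MF, LieSubmodule.lieSpan_le]
    intro x hx
    rw [Set.mem_singleton_iff] at hx
    subst hx
    show _ ∈ LieIdeal.comap (FreeLieAlgebra.lift F a) (N i)
    rw [LieIdeal.mem_comap, FreeLieAlgebra.lift_of_apply]
    exact ha i
  have hrel : relIdeal F ι ≤ (FreeLieAlgebra.lift F a).ker := by
    rw [relIdeal, LieSubmodule.lieSpan_le]
    rintro x (⟨y, z, rfl⟩ | ⟨i, y, hy, z, hz, rfl⟩)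
    · show _ ∈ (FreeLieAlgebra.lift F a).ker
      rw [LieHom.mem_ker, LLaux_st5_map]
      exact St5.eq_zero _ _
    · show _ ∈ (FreeLieAlgebra.lift F a).ker
      rw [LieHom.mem_ker, LieHom.map_lie]
      have h1 := hM i hy
      have h2 := hM i hz
      rw [LieIdeal.mem_comap] at h1 h2
      exact hN i _ h1 _ h2
  let f0 : LL F ι →ₗ[F] A := Submodule.liftQ (relIdeal F ι).toSubmodule
    (FreeLieAlgebra.lift F a : FreeLieAlgebra F ι →ₗ[F] A) (fun x hx => by
      have := hrel hx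
      rw [LieHom.mem_ker] at this
      exact this)
  have hf0 : ∀ x, f0 (LLmk F ι x) = FreeLieAlgebra.lift F a x := fun x => rfl
  let f : LL F ι →ₗ⁅F⁆ A :=
    { f0 with
      map_lie' := fun {x y} => by
        obtain ⟨x, rfl⟩ := LLmk_surj F ι x
        obtain ⟨y, rfl⟩ := LLmk_surj F ι y
        show f0 ⁅LLmk F ι x, LLmk F ι y⁆ = ⁅f0 (LLmk F ι x), f0 (LLmk F ι y)⁆
        rw [← LieHom.map_lie, hf0, hf0, hf0, LieHom.map_lie] }
  have hf : ∀ x, f (LLmk F ι x) = FreeLieAlgebra.lift F a x := fun x => rfl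
  refine ⟨f, fun i => ?_, fun i u hu => ?_⟩
  · rw [← LLmk_of, hf, FreeLieAlgebra.lift_of_apply]
  · obtain ⟨u', hu', rfl⟩ := LM_le_map F ι i u hu
    rw [hf]
    exact hM i hu'

theorem LL_hom_ext {A : Type u} [LieRing A] [LieAlgebra F A] (f f' : LL F ι →ₗ⁅F⁆ A)
    (h : ∀ i, f (LX F ι i) = f' (LX F ι i)) : f = f' := by
  have h1 : f.comp (LLmk F ι) = f'.comp (LLmk F ι) := by
    apply FreeLieAlgebra.hom_ext
    intro i
    rw [LieHom.comp_apply, LieHom.comp_apply, LLmk_of]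
    exact h i
  ext x
  obtain ⟨x, rfl⟩ := LLmk_surj F ι x
  rw [← LieHom.comp_apply, h1, LieHom.comp_apply]

end LLapi

end Helper39W1
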