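import Pool.Agent.Helper39_W1.Defs

/-!
# The model algebra (module MODEL)
-/

set_option autoImplicit false
set_option linter.unusedSectionVars false

noncomputable section

namespace Helper39W1

universe u

section Model
variable (F : Type u) [Field F] (ι : Type) [DecidableEq ι]

/-- the `P`-part of the context -/
structure PData (P : Type u) [CommRing P] [Algebra F P] where
  d : Derivation F P P
  eps : ι → P
  fr : ι → Subalgebra F P
  fr_d : ∀ y, ∀ r ∈ fr y, d r ∈ fr y
  fr_eps : ∀ y i, i ≠ y → eps i ∈ fr y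
  E : ι → Ideal P
  E_sq : ∀ i, ∀ a ∈ E i, ∀ b ∈ E i, a * b = 0
  E_d : ∀ i, ∀ a ∈ E i, d a ∈ E i
  eps_mem : ∀ i, eps i ∈ E i
  co : ι → ℕ → P →ₗ[F] P
  co_mul : ∀ y k r s, r ∈ fr y → co y k (r * s) = r * co y k s
  co_one : ∀ y k, co y k 1 = 0
  co_d_zero : ∀ y s, co y 0 (d s) = d (co y 0 s)
  co_d_succ : ∀ y k s, co y (k + 1) (d s) = co y k s + d (co y (k + 1) s)
  co_eps_zero : ∀ y, co y 0 (eps y) = 1
  co_eps_succ : ∀ y k, co y (k + 1) (eps y) = 0
  retP : ι → P →ₐ[F] P
  retP_d : ∀ y r, retP y (d r) = d (retP y r)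
  retP_fr : ∀ y, ∀ r ∈ fr y, retP y r = r
  retP_E : ∀ y, ∀ r ∈ E y, retP y r = 0

namespace ModelAux

/-- The relations. -/
def J : Ideal (MvPolynomial (ι ⊕ ι) F) :=
  Ideal.span (Set.range fun i : ι => (MvPolynomial.X (Sum.inl i) : MvPolynomial (ι ⊕ ι) F) ^ 2)

/-- The model algebra. -/
def Q : Type u := MvPolynomial (ι ⊕ ι) F ⧸ J F ι

instance : CommRing (Q F ι) := inferInstanceAs (CommRing (MvPolynomial (ι ⊕ ι) F ⧸ J F ι))
instance : Algebra F (Q F ι) := inferInstanceAs (Algebra F (MvPolynomial (ι ⊕ ι) F ⧸ J F ι))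

/-- The quotient map. -/
def mkQ : MvPolynomial (ι ⊕ ι) F →ₐ[F] Q F ι := Ideal.Quotient.mkₐ F (J F ι)

lemma mkQ_surj : Function.Surjective (mkQ F ι) := Ideal.Quotient.mk_surjective

lemma mkQ_zero {r : MvPolynomial (ι ⊕ ι) F} (h : r ∈ J F ι) : mkQ F ι r = 0 :=
  Ideal.Quotient.eq_zero_iff_mem.2 h

variable {ι}

/-- The generators of square zero. -/
def ep (i : ι) : Q F ι := mkQ F ι (MvPolynomial.X (Sum.inl i))
/-- The free generators. -/
def xi (i : ι) : Q F ι := mkQ F ι (MvPolynomial.X (Sum.inr i))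

variable {F}

lemma ep_sq (i : ι) : ep F i * ep F i = 0 := by
  unfold ep
  rw [← map_mul, ← pow_two]
  exact mkQ_zero F ι (Ideal.subset_span ⟨i, rfl⟩)

lemma Q_induction {p : Q F ι → Prop} (hC : ∀ a : F, p (algebraMap F (Q F ι) a))
    (hadd : ∀ r s, p r → p s → p (r + s)) (hmul : ∀ r s, p r → p s → p (r * s))
    (hep : ∀ i, p (ep F i)) (hxi : ∀ i, p (xi F i)) (r : Q F ι) : p r := by
  obtain ⟨r, rfl⟩ := mkQ_surj F ι r
  induction r using MvPolynomial.induction_on with
  | C a =>
    have : mkQ F ι (MvPolynomial.C a) = algebraMap F (Q F ι) a := (mkQ F ι).commutes a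
    rw [this]
    exact hC a
  | add r s hr hs => rw [map_add]; exact hadd _ _ hr hs
  | mul_X r i hr =>
    rw [map_mul]
    refine hmul _ _ hr ?_
    rcases i with i | i
    · exact hep i
    · exact hxi i

section Lift

variable {A : Type u} [CommRing A] [Algebra F A]

lemma J_le (a b : ι → A) (ha : ∀ i, a i ^ 2 = 0) (r : MvPolynomial (ι ⊕ ι) F)
    (hr : r ∈ J F ι) : MvPolynomial.aeval (R := F) (Sum.elim a b) r = 0 := by
  have h : J F ι ≤ RingHom.ker (MvPolynomial.aeval (R := F) (Sum.elim a b)) := by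
    unfold J
    rw [Ideal.span_le]
    rintro _ ⟨i, rfl⟩
    simp only [SetLike.mem_coe, RingHom.mem_ker, map_pow, MvPolynomial.aeval_X, Sum.elim_inl]
    exact ha i
  exact RingHom.mem_ker.1 (h hr)

/-- The universal property. -/
def lft (a b : ι → A) (ha : ∀ i, a i ^ 2 = 0) : Q F ι →ₐ[F] A :=
  (Ideal.Quotient.liftₐ (J F ι) (MvPolynomial.aeval (Sum.elim a b)) (J_le a b ha) :
    (MvPolynomial (ι ⊕ ι) F ⧸ J F ι) →ₐ[F] A)

lemma lft_mk (a b : ι → A) (ha : ∀ i, a i ^ 2 = 0) (r : MvPolynomial (ι ⊕ ι) F) :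
    lft a b ha (mkQ F ι r) = MvPolynomial.aeval (R := F) (Sum.elim a b) r := rfl

@[simp] lemma lft_ep (a b : ι → A) (ha : ∀ i, a i ^ 2 = 0) (i : ι) :
    lft a b ha (ep F i) = a i := by
  unfold ep
  rw [lft_mk]
  simp

@[simp] lemma lft_xi (a b : ι → A) (ha : ∀ i, a i ^ 2 = 0) (i : ι) :
    lft a b ha (xi F i) = b i := by
  unfold xi
  rw [lft_mk]
  simp

end Lift

/-- Algebra homs agreeing on the generators are equal. -/
lemma hom_ext {A : Type u} [CommRing A] [Algebra F A] {f g : Q F ι →ₐ[F] A}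
    (h1 : ∀ i, f (ep F i) = g (ep F i)) (h2 : ∀ i, f (xi F i) = g (xi F i)) (r : Q F ι) :
    f r = g r := by
  induction r using Q_induction with
  | hC a => rw [AlgHom.commutes, AlgHom.commutes]
  | hadd r s hr hs => rw [map_add, map_add, hr, hs]
  | hmul r s hr hs => rw [map_mul, map_mul, hr, hs]
  | hep i => exact h1 i
  | hxi i => exact h2 i

/-- The derivation as an algebra homomorphism. -/
def dl : Q F ι →ₐ[F] DualNumber (Q F ι) :=
  lft (A := DualNumber (Q F ι))
    (fun i => (TrivSqZeroExt.inl (ep F i) + TrivSqZeroExt.inr (xi F i * ep F i) :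
      DualNumber (Q F ι)))
    (fun i => (TrivSqZeroExt.inl (xi F i) : DualNumber (Q F ι))) (by
      intro i
      rw [pow_two]
      refine TrivSqZeroExt.ext ?_ ?_
      · simp [ep_sq]
      · simp only [TrivSqZeroExt.snd_mul, TrivSqZeroExt.fst_add, TrivSqZeroExt.fst_inl,
          TrivSqZeroExt.fst_inr, add_zero, TrivSqZeroExt.snd_add, TrivSqZeroExt.snd_inl,
          TrivSqZeroExt.snd_inr, zero_add, smul_eq_mul, MulOpposite.smul_eq_mul_unop,
          MulOpposite.unop_op, TrivSqZeroExt.snd_zero]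
        have := ep_sq (F := F) i
        linear_combination (2 * xi F i) * this)

lemma dl_fst (r : Q F ι) : (dl r).fst = r := by
  have := hom_ext (f := (TrivSqZeroExt.fstHom F (Q F ι) (Q F ι)).comp dl)
    (g := AlgHom.id F (Q F ι)) (by intro i; simp [dl]) (by intro i; simp [dl]) r
  simpa using this

/-- The derivation. -/
def dd : Derivation F (Q F ι) (Q F ι) :=
  Derivation.mk' ((TrivSqZeroExt.sndHom (Q F ι) (Q F ι)).restrictScalars F ∘ₗ dl.toLinearMap) (by
    intro a b
    simp only [LinearMap.comp_apply, AlgHom.toLinearMap_apply, LinearMap.restrictScalars_apply,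
      TrivSqZeroExt.sndHom_apply, map_mul, TrivSqZeroExt.snd_mul, dl_fst,
      MulOpposite.smul_eq_mul_unop, MulOpposite.unop_op, smul_eq_mul]
    ring)

lemma dd_apply (r : Q F ι) : dd r = (dl r).snd := rfl

@[simp] lemma dd_ep (i : ι) : dd (ep F i) = xi F i * ep F i := by
  rw [dd_apply]; simp [dl]
@[simp] lemma dd_xi (i : ι) : dd (xi F i) = 0 := by
  rw [dd_apply]; simp [dl]

/-! ### Coefficientwise derivation of `P[T]` -/

/-- The derivation applied to the coefficients. -/
def dc (p : Polynomial (Q F ι)) : Polynomial (Q F ι) :=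
  ∑ n ∈ p.support, Polynomial.monomial n (dd (p.coeff n))

@[simp] lemma coeff_dc (p : Polynomial (Q F ι)) (n : ℕ) : (dc p).coeff n = dd (p.coeff n) := by
  unfold dc
  rw [Polynomial.finsetSum_coeff]
  simp only [Polynomial.coeff_monomial]
  rw [Finset.sum_ite_eq' p.support n]
  split_ifs with h
  · rfl
  · rw [Polynomial.notMem_support_iff.1 h, map_zero]

lemma dc_add (p q : Polynomial (Q F ι)) : dc (p + q) = dc p + dc q := by
  ext n; simp

lemma dc_mul (p q : Polynomial (Q F ι)) : dc (p * q) = dc p * q + p * dc q := by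
  ext n
  simp only [coeff_dc, Polynomial.coeff_mul, Polynomial.coeff_add, map_sum, Derivation.leibniz,
    smul_eq_mul, Finset.sum_add_distrib]
  rw [add_comm]
  congr 1
  exact Finset.sum_congr rfl fun x _ => mul_comm _ _

lemma dc_C (r : Q F ι) : dc (Polynomial.C r) = Polynomial.C (dd r) := by
  ext n
  rw [coeff_dc, Polynomial.coeff_C, Polynomial.coeff_C]
  split_ifs <;> simp

lemma dc_one : dc (1 : Polynomial (Q F ι)) = 0 := by
  have := dc_C (F := F) (ι := ι) 1
  rw [map_one] at this
  rw [this]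
  simp

lemma dc_X : dc (Polynomial.X : Polynomial (Q F ι)) = 0 := by
  ext n
  rw [coeff_dc, Polynomial.coeff_X]
  split_ifs <;> simp

lemma dc_zero : dc (0 : Polynomial (Q F ι)) = 0 := by
  ext n; simp

/-! ### Separation of the letter `y` -/

/-- The letter `y` is sent to the dual number and to the polynomial variable. -/
def al (y : ι) : Q F ι →ₐ[F] DualNumber (Polynomial (Q F ι)) :=
  lft (A := DualNumber (Polynomial (Q F ι)))
    (fun i => (if i = y then TrivSqZeroExt.inr 1 else TrivSqZeroExt.inl (Polynomial.C (ep F i)) :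
      DualNumber (Polynomial (Q F ι))))
    (fun i => (if i = y then TrivSqZeroExt.inl Polynomial.X else
      TrivSqZeroExt.inl (Polynomial.C (xi F i)) : DualNumber (Polynomial (Q F ι)))) (by
      intro i
      split_ifs with h
      · rw [pow_two, TrivSqZeroExt.inr_mul_inr]
      · rw [pow_two]
        refine TrivSqZeroExt.ext ?_ ?_
        · rw [TrivSqZeroExt.fst_mul, TrivSqZeroExt.fst_inl, ← map_mul, ep_sq, map_zero,
            TrivSqZeroExt.fst_zero]
        · simp)

/-- Constants. -/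
def io : Q F ι →ₐ[F] DualNumber (Polynomial (Q F ι)) :=
  (TrivSqZeroExt.inlAlgHom F (Polynomial (Q F ι)) (Polynomial (Q F ι))).comp
    (Polynomial.CAlgHom (R := F) (A := Q F ι))

lemma io_apply (r : Q F ι) : io r = TrivSqZeroExt.inl (Polynomial.C r) := rfl

lemma al_ep_self (y : ι) : al y (ep F y) = (TrivSqZeroExt.inr 1 :
    DualNumber (Polynomial (Q F ι))) := by simp [al]
lemma al_ep_ne {y i : ι} (h : i ≠ y) : al y (ep F i) =
    (TrivSqZeroExt.inl (Polynomial.C (ep F i)) : DualNumber (Polynomial (Q F ι))) := by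
  simp [al, h]
lemma al_xi_self (y : ι) : al y (xi F y) = (TrivSqZeroExt.inl Polynomial.X :
    DualNumber (Polynomial (Q F ι))) := by simp [al]
lemma al_xi_ne {y i : ι} (h : i ≠ y) : al y (xi F i) =
    (TrivSqZeroExt.inl (Polynomial.C (xi F i)) : DualNumber (Polynomial (Q F ι))) := by
  simp [al, h]

lemma al_dd (y : ι) (r : Q F ι) : (al y (dd r)).fst = dc (al y r).fst ∧
    (al y (dd r)).snd = dc (al y r).snd + Polynomial.X * (al y r).snd := by
  induction r using Q_induction with
  | hC a =>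
    have h1 : dd (algebraMap F (Q F ι) a) = 0 := Derivation.map_algebraMap _ _
    rw [h1, map_zero, AlgHom.commutes]
    have h2 : (algebraMap F (DualNumber (Polynomial (Q F ι))) a) =
        TrivSqZeroExt.inl (Polynomial.C (algebraMap F (Q F ι) a)) := rfl
    rw [h2, TrivSqZeroExt.fst_inl, TrivSqZeroExt.snd_inl, dc_C, h1, dc_zero]
    simp
  | hadd r s hr hs =>
    rw [map_add, map_add, map_add, TrivSqZeroExt.fst_add, TrivSqZeroExt.fst_add,
      TrivSqZeroExt.snd_add, TrivSqZeroExt.snd_add, hr.1, hr.2, hs.1, hs.2, dc_add, dc_add]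
    exact ⟨rfl, by ring⟩
  | hmul r s hr hs =>
    rw [Derivation.leibniz, map_add, smul_eq_mul, smul_eq_mul, map_mul, map_mul, map_mul]
    simp only [TrivSqZeroExt.fst_add, TrivSqZeroExt.snd_add, TrivSqZeroExt.fst_mul,
      TrivSqZeroExt.snd_mul, MulOpposite.smul_eq_mul_unop, MulOpposite.unop_op, smul_eq_mul,
      hr.1, hr.2, hs.1, hs.2, dc_add, dc_mul]
    exact ⟨by ring, by ring⟩
  | hep i =>
    by_cases h : i = y
    · subst h
      rw [dd_ep, map_mul, al_ep_self, al_xi_self]
      simp [dc_one, dc_zero]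
    · rw [dd_ep, map_mul, al_ep_ne h, al_xi_ne h]
      simp [dc_zero, dc_C]
  | hxi i =>
    by_cases h : i = y
    · subst h
      rw [dd_xi, map_zero, al_xi_self]
      simp [dc_zero, dc_X]
    · rw [dd_xi, map_zero, al_xi_ne h]
      simp [dc_zero, dc_C]

/-- The elements not containing the letter `y`. -/
def frQ (y : ι) : Subalgebra F (Q F ι) := AlgHom.equalizer (al y) io

lemma mem_frQ {y : ι} {r : Q F ι} : r ∈ frQ y ↔ al y r = io r := Iff.rfl

/-- The coefficients. -/
def coQ (y : ι) (k : ℕ) : Q F ι →ₗ[F] Q F ι :=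
  ((Polynomial.lcoeff (Q F ι) k).restrictScalars F) ∘ₗ
    ((TrivSqZeroExt.sndHom (Polynomial (Q F ι)) (Polynomial (Q F ι))).restrictScalars F) ∘ₗ
      (al y).toLinearMap

lemma coQ_apply (y : ι) (k : ℕ) (r : Q F ι) : coQ y k r = (al y r).snd.coeff k := rfl

/-- The retraction. -/
def rt (y : ι) : Q F ι →ₐ[F] Q F ι :=
  lft (A := Q F ι) (fun i => if i = y then 0 else ep F i) (fun i => xi F i) (by
    intro i
    split_ifs
    · simp
    · rw [pow_two, ep_sq])

lemma rt_eq (y : ι) (r : Q F ι) :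
    rt y r = (al y r).fst.eval (xi F y) := by
  have := hom_ext (f := rt y) (g := ((Polynomial.aeval (R := Q F ι) (xi F y)).restrictScalars
    F).comp ((TrivSqZeroExt.fstHom F (Polynomial (Q F ι)) (Polynomial (Q F ι))).comp (al y)))
    (by
      intro i
      by_cases h : i = y
      · subst h
        simp only [AlgHom.comp_apply, al_ep_self]
        simp [rt]
      · simp only [AlgHom.comp_apply, al_ep_ne h]
        simp [rt, h])
    (by
      intro i
      by_cases h : i = y
      · subst h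
        simp only [AlgHom.comp_apply, al_xi_self]
        simp [rt]
      · simp only [AlgHom.comp_apply, al_xi_ne h]
        simp [rt]) r
  rw [this]
  simp

/-- The ideal of the letter. -/
def EQ (i : ι) : Ideal (Q F ι) := Ideal.span {ep F i}

lemma mem_EQ {i : ι} {r : Q F ι} : r ∈ EQ i ↔ ∃ s, r = ep F i * s := by
  unfold EQ
  rw [Ideal.mem_span_singleton]
  rfl

end ModelAux

open ModelAux

theorem exists_PData' : ∃ (P : Type u) (_ : CommRing P) (_ : Algebra F P),
    Nontrivial P ∧ Nonempty (PData F ι P) := by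
  refine ⟨Q F ι, inferInstance, inferInstance, (lft (F := F) (ι := ι) (A := F) (fun _ => 0)
    (fun _ => 0) (by simp)).toRingHom.domain_nontrivial, ⟨{
    d := dd
    eps := fun i => ep F i
    fr := fun y => frQ y
    fr_d := ?_
    fr_eps := ?_
    E := fun i => EQ i
    E_sq := ?_
    E_d := ?_
    eps_mem := ?_
    co := fun y k => coQ y k
    co_mul := ?_
    co_one := ?_
    co_d_zero := ?_
    co_d_succ := ?_
    co_eps_zero := ?_
    co_eps_succ := ?_
    retP := fun y => rt y
    retP_d := ?_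
    retP_fr := ?_
    retP_E := ?_ }⟩⟩
  · intro y r hr
    rw [mem_frQ] at hr ⊢
    have h := al_dd y r
    rw [hr, io_apply, TrivSqZeroExt.fst_inl, TrivSqZeroExt.snd_inl, dc_C, dc_zero] at h
    rw [io_apply]
    refine TrivSqZeroExt.ext ?_ ?_
    · rw [h.1, TrivSqZeroExt.fst_inl]
    · rw [h.2, TrivSqZeroExt.snd_inl]
      simp
  · intro y i hi
    rw [mem_frQ, al_ep_ne hi, io_apply]
  · intro i a ha b hb
    rw [mem_EQ] at ha hb
    obtain ⟨s, rfl⟩ := ha
    obtain ⟨t, rfl⟩ := hb
    have := ep_sq (F := F) i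
    linear_combination (s * t) * this
  · intro i a ha
    rw [mem_EQ] at ha ⊢
    obtain ⟨s, rfl⟩ := ha
    refine ⟨dd s + xi F i * s, ?_⟩
    rw [Derivation.leibniz, dd_ep, smul_eq_mul, smul_eq_mul]
    ring
  · intro i
    exact Ideal.subset_span rfl
  · intro y k r s hr
    rw [mem_frQ] at hr
    rw [coQ_apply, coQ_apply, map_mul, hr, io_apply]
    simp
  · intro y k
    rw [coQ_apply, map_one]
    simp
  · intro y s
    rw [coQ_apply, coQ_apply, (al_dd y s).2]
    simp
  · intro y k s
    rw [coQ_apply, coQ_apply, coQ_apply, (al_dd y s).2]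
    simp [add_comm]
  · intro y
    rw [coQ_apply, al_ep_self]
    simp
  · intro y k
    rw [coQ_apply, al_ep_self]
    simp [Polynomial.coeff_one]
  · intro y r
    induction r using Q_induction with
    | hC a =>
      have h1 : dd (algebraMap F (Q F ι) a) = 0 := Derivation.map_algebraMap _ _
      rw [AlgHom.commutes, h1, map_zero]
    | hadd r s hr hs => rw [map_add, map_add, map_add, map_add, hr, hs]
    | hmul r s hr hs =>
      rw [Derivation.leibniz, map_add, smul_eq_mul, smul_eq_mul, map_mul, map_mul, map_mul, hr, hs,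
        Derivation.leibniz, smul_eq_mul, smul_eq_mul]
    | hep i =>
      rw [dd_ep, map_mul]
      by_cases h : i = y
      · simp [rt, h]
      · simp [rt, h]
    | hxi i =>
      rw [dd_xi, map_zero]
      simp [rt]
  · intro y r hr
    rw [mem_frQ] at hr
    rw [rt_eq, hr, io_apply]
    simp
  · intro y r hr
    rw [mem_EQ] at hr
    obtain ⟨s, rfl⟩ := hr
    rw [map_mul]
    simp [rt]

theorem exists_PData : ∃ (P : Type u) (_ : CommRing P) (_ : Algebra F P), Nonempty (PData F ι P) := by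
  obtain ⟨P, i1, i2, _, h⟩ := exists_PData' F ι
  exact ⟨P, i1, i2, h⟩

end Model

end Helper39W1
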