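import Pool.Agent.Helper39_W1.WLie
import Pool.Agent.Helper39_W1.Model
import Pool.Agent.Helper39_W1.LLApi

set_option autoImplicit false

noncomputable section

namespace Helper39W1

universe u

section
variable {F : Type u} [Field F] {P : Type u} [CommRing P] [Algebra F P] (d : Derivation F P P)

/-- a `d`-stable ideal as a Lie ideal of `W(P,d)` -/
def WIdeal (E : Ideal P) (hE : ∀ a ∈ E, d a ∈ E) : LieIdeal F (W F d) :=
  { (E.restrictScalars F : Submodule F P) with
    lie_mem := by
      intro x m hm
      obtain ⟨x, rfl⟩ := (W.mk F d).surjective x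
      obtain ⟨m, rfl⟩ := (W.mk F d).surjective m
      have h2 : m ∈ E := hm
      change x * d m - m * d x ∈ E
      exact E.sub_mem (E.mul_mem_left _ (hE _ h2)) (E.mul_mem_right _ h2) }

theorem mem_WIdeal (E : Ideal P) (hE : ∀ a ∈ E, d a ∈ E) (r : P) :
    W.mk F d r ∈ WIdeal d E hE ↔ r ∈ E := Iff.rfl

end

theorem exists_Ctx (F : Type u) [Field F] (ι : Type) [DecidableEq ι] :
    ∃ (P : Type u) (_ : CommRing P) (_ : Algebra F P) (c : Ctx F ι (LL F ι) P),
      Nontrivial P ∧ c.X = LX F ι ∧ c.M = LM F ι := by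
  obtain ⟨P, iP, iA, hnt, ⟨D⟩⟩ := exists_PData' F ι
  obtain ⟨f, hf, hfM⟩ := LL_lift F ι (A := W F D.d) (fun i => W.mk F D.d (D.eps i))
    (fun i => WIdeal D.d (D.E i) (D.E_d i)) (fun i => D.eps_mem i) (by
      intro i u hu v hv
      obtain ⟨u', rfl⟩ := (W.mk F D.d).surjective u
      obtain ⟨v', rfl⟩ := (W.mk F D.d).surjective v
      rw [mem_WIdeal] at hu hv
      rw [W.mk_lie, D.E_sq i u' hu _ (D.E_d i v' hv), D.E_sq i v' hv _ (D.E_d i u' hu), sub_self,
        map_zero])
  have hret : ∀ y : ι, ∃ g : LL F ι →ₗ⁅F⁆ LL F ι, (∀ i, g (LX F ι i) = if i = y then 0 else LX F ι i)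
      ∧ ∀ u ∈ LM F ι y, g u = 0 := by
    intro y
    obtain ⟨g, hg, hgM⟩ := LL_lift F ι (A := LL F ι) (fun i => if i = y then 0 else LX F ι i)
      (fun i => if i = y then ⊥ else LM F ι i) (by
        intro i
        by_cases h : i = y
        · simp [h]
        · simp only [h, if_false]
          exact LieSubmodule.subset_lieSpan (Set.mem_singleton _)) (by
        intro i u hu v hv
        by_cases h : i = y
        · simp only [h, if_true] at hu
          rw [(LieSubmodule.mem_bot _).mp hu, zero_lie]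
        · simp only [h, if_false] at hu hv
          exact LM_comm F ι i u v hu hv)
    refine ⟨g, hg, fun u hu => ?_⟩
    have := hgM y u hu
    simp only [if_true] at this
    exact (LieSubmodule.mem_bot _).mp this
  choose ret hretX hretM using hret
  let p : LL F ι →ₗ[F] P := (W.mk F D.d).symm.toLinearMap ∘ₗ (f : LL F ι →ₗ[F] W F D.d)
  have hp : ∀ a, W.mk F D.d (p a) = f a := fun a => (W.mk F D.d).apply_symm_apply (f a)
  have hp' : ∀ a r, f a = W.mk F D.d r → p a = r := by
    intro a r h
    apply (W.mk F D.d).injective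
    rw [hp, h]
  have hpX : ∀ i, p (LX F ι i) = D.eps i := fun i => hp' _ _ (hf i)
  refine ⟨P, iP, iA, {
    X := LX F ι
    M := LM F ι
    X_mem := fun i => LieSubmodule.subset_lieSpan (Set.mem_singleton _)
    comm := fun i a ha b hb => LM_comm F ι i a b ha hb
    d := D.d
    p := p
    p_lie := fun a b => hp' _ _ (by rw [LieHom.map_lie, ← hp a, ← hp b, W.mk_lie])
    fr := D.fr
    fr_d := D.fr_d
    fr_X := fun y i h => by rw [hpX]; exact D.fr_eps y i h
    E := D.E
    E_sq := D.E_sq
    E_d := D.E_d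
    p_M := fun i a ha => by
      have h := hfM i a ha
      rw [← hp a] at h
      exact h
    co := D.co
    co_mul := D.co_mul
    co_one := D.co_one
    co_d_zero := D.co_d_zero
    co_d_succ := D.co_d_succ
    co_X_zero := fun y => by rw [hpX]; exact D.co_eps_zero y
    co_X_succ := fun y k => by rw [hpX]; exact D.co_eps_succ y k
    ret := ret
    ret_X := fun y i h => by rw [hretX]; simp [h]
    ret_M := hretM
    retP := D.retP
    retP_p := fun y a => ?_
    retP_fr := D.retP_fr
    retP_E := D.retP_E }, hnt, rfl, rfl⟩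
  let R : W F D.d →ₗ⁅F⁆ W F D.d :=
    { (W.mk F D.d).toLinearMap ∘ₗ (D.retP y).toLinearMap ∘ₗ (W.mk F D.d).symm.toLinearMap with
      map_lie' := by
        intro a b
        obtain ⟨a', rfl⟩ := (W.mk F D.d).surjective a
        obtain ⟨b', rfl⟩ := (W.mk F D.d).surjective b
        change W.mk F D.d (D.retP y (a' * D.d b' - b' * D.d a')) =
          W.mk F D.d (D.retP y a' * D.d (D.retP y b') - D.retP y b' * D.d (D.retP y a'))
        rw [map_sub, map_mul, map_mul, D.retP_d, D.retP_d] }
  have hR : ∀ r, R (W.mk F D.d r) = W.mk F D.d (D.retP y r) := fun r => rfl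
  have heq : R.comp f = f.comp (ret y) := by
    apply LL_hom_ext
    intro i
    rw [LieHom.comp_apply, LieHom.comp_apply, hf, hR, hretX]
    by_cases h : i = y
    · subst h
      simp only [if_true, map_zero]
      rw [D.retP_E _ _ (D.eps_mem _), map_zero]
    · simp only [h, if_false]
      rw [hf, D.retP_fr _ _ (D.fr_eps y i h)]
  have h2 := congrArg (fun g : LL F ι →ₗ⁅F⁆ W F D.d => g a) heq
  simp only [LieHom.comp_apply] at h2
  rw [← hp a, hR] at h2
  symm
  exact hp' _ _ h2.symm

end Helper39W1
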