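import Mathlib

/-!
Common definitions for the proof that the standard Lie identity of degree 5 is a basis of the
identities of the Witt algebra `W_1` (characteristic 0).
-/

set_option autoImplicit false

noncomputable section

namespace Helper39W1

universe u

section Basic

variable (F : Type u) [Field F] {L : Type u} [LieRing L] [LieAlgebra F L]

/-- `S(a,b,c) = ad a ∘ ad [b,c] + ad b ∘ ad [c,a] + ad c ∘ ad [a,b]`. -/
def Sop (a b c : L) : Module.End F L :=
  LieAlgebra.ad F L a * LieAlgebra.ad F L ⁅b, c⁆ + LieAlgebra.ad F L b * LieAlgebra.ad F L ⁅c, a⁆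
    + LieAlgebra.ad F L c * LieAlgebra.ad F L ⁅a, b⁆

variable {F}

/-- `D_x φ = [ad x, φ]`. -/
def Dop (x : L) (φ : Module.End F L) : Module.End F L :=
  LieAlgebra.ad F L x * φ - φ * LieAlgebra.ad F L x

/-- `φ` is function like. -/
def Fn (φ : Module.End F L) : Prop := ∀ z w : L, Dop z φ w = Dop w φ z

end Basic

/-- The standard polynomial of degree 5 evaluated at `x 0, …, x 3, z`. -/
def st5 {L : Type u} [LieRing L] (x : Fin 4 → L) (z : L) : L :=
  ∑ σ : Equiv.Perm (Fin 4),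
    ((Equiv.Perm.sign σ : ℤˣ) : ℤ) • ⁅x (σ 0), ⁅x (σ 1), ⁅x (σ 2), ⁅x (σ 3), z⁆⁆⁆⁆

/-- Lie rings satisfying the standard identity of degree 5. -/
class St5 (L : Type u) [LieRing L] : Prop where
  eq_zero : ∀ (x : Fin 4 → L) (z : L), st5 x z = 0

section Model

variable {F : Type u} [Field F] {P : Type u} [CommRing P] [Algebra F P]

/-- The Wronskian of three elements. -/
def Wr (d : Derivation F P P) (f g h : P) : P :=
  f * (d g * d (d h) - d h * d (d g)) - g * (d f * d (d h) - d h * d (d f))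
    + h * (d f * d (d g) - d g * d (d f))

end Model

/-- The data used in the proof: a Lie algebra `L` with letters `X i`, the ideals `M i` of the
elements containing the letter `X i`, a commutative differential algebra `P` and a
symbol map `p : L → P` which is a Lie homomorphism for the bracket `f d(g) - g d(f)`;
for every letter `y` the coefficients of `ξ_y^k ε_y` `co y k : P → P`, and retractions. -/
structure Ctx (F : Type u) [Field F] (ι : Type) (L P : Type u) [LieRing L] [LieAlgebra F L]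
    [CommRing P] [Algebra F P] where
  X : ι → L
  M : ι → LieIdeal F L
  X_mem : ∀ i, X i ∈ M i
  comm : ∀ i, ∀ a ∈ M i, ∀ b ∈ M i, ⁅a, b⁆ = 0
  d : Derivation F P P
  p : L →ₗ[F] P
  p_lie : ∀ a b, p ⁅a, b⁆ = p a * d (p b) - p b * d (p a)
  /-- elements of `P` not involving the letter `y` -/
  fr : ι → Subalgebra F P
  fr_d : ∀ y, ∀ r ∈ fr y, d r ∈ fr y
  fr_X : ∀ y i, i ≠ y → p (X i) ∈ fr y
  /-- elements of `P` divisible by `ε_y` -/
  E : ι → Ideal P
  E_sq : ∀ i, ∀ a ∈ E i, ∀ b ∈ E i, a * b = 0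
  E_d : ∀ i, ∀ a ∈ E i, d a ∈ E i
  p_M : ∀ i, ∀ a ∈ M i, p a ∈ E i
  co : ι → ℕ → P →ₗ[F] P
  co_mul : ∀ y k r s, r ∈ fr y → co y k (r * s) = r * co y k s
  co_one : ∀ y k, co y k 1 = 0
  co_d_zero : ∀ y s, co y 0 (d s) = d (co y 0 s)
  co_d_succ : ∀ y k s, co y (k + 1) (d s) = co y k s + d (co y (k + 1) s)
  co_X_zero : ∀ y, co y 0 (p (X y)) = 1
  co_X_succ : ∀ y k, co y (k + 1) (p (X y)) = 0
  /-- the retraction killing the letter `y` -/
  ret : ι → L →ₗ⁅F⁆ L
  ret_X : ∀ y i, i ≠ y → ret y (X i) = X i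
  ret_M : ∀ y, ∀ a ∈ M y, ret y a = 0
  retP : ι → P →ₐ[F] P
  retP_p : ∀ y a, retP y (p a) = p (ret y a)
  retP_fr : ∀ y, ∀ r ∈ fr y, retP y r = r
  retP_E : ∀ y, ∀ r ∈ E y, retP y r = 0

/-- `adl [a1,…,an] x = [a1,[a2,…,[an,x]]]` -/
def adl {L : Type u} [LieRing L] (l : List L) (x : L) : L := l.foldr (fun a u => ⁅a, u⁆) x

namespace Ctx

variable {F : Type u} [Field F] {ι : Type} {L P : Type u} [LieRing L] [LieAlgebra F L]
    [CommRing P] [Algebra F P] (c : Ctx F ι L P)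

/-- the subalgebra generated by the letters in `A` -/
def g (A : Finset ι) : LieSubalgebra F L := LieSubalgebra.lieSpan F L (c.X '' (A : Set ι))

/-- lists of length `m` of elements of `g A` -/
def Lst (A : Finset ι) (m : ℕ) (l : List L) : Prop := l.length = m ∧ ∀ a ∈ l, a ∈ c.g A

/-- The relations of a function on lists of length `m` of elements of `g A`. -/
structure Rel (A : Finset ι) (m : ℕ) {G : Type u} [AddCommGroup G] [Module F G]
    (f : List L → G) : Prop where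
  perm : ∀ l l' : List L, c.Lst A m l → l.Perm l' → f l = f l'
  add : ∀ a b l, c.Lst A m (a :: l) → c.Lst A m (b :: l) → f ((a + b) :: l) = f (a :: l) + f (b :: l)
  smul : ∀ (t : F) a l, c.Lst A m (a :: l) → f ((t • a) :: l) = t • f (a :: l)
  T : ∀ a b e l, c.Lst A m (a :: ⁅b, e⁆ :: l) → a ∈ c.g A → b ∈ c.g A → e ∈ c.g A →
    f (a :: ⁅b, e⁆ :: l) + f (b :: ⁅e, a⁆ :: l) + f (e :: ⁅a, b⁆ :: l) = 0
  N : ∀ i a b l, c.Lst A m (a :: b :: l) → a ∈ c.M i → b ∈ c.M i → f (a :: b :: l) = 0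

/-- The statement `I(A, m)`; for `m = 1` it is the injectivity of `p` on `g A`. -/
def Iprop (A : Finset ι) (m : ℕ) : Prop :=
  ∀ (G : Type u) [AddCommGroup G] [Module F G] (f : List L → G), c.Rel A m f →
    ∀ v : G × P, v ∈ Submodule.span F {w : G × P | ∃ l, c.Lst A m l ∧ w = (f l, (l.map c.p).prod)} →
      v.2 = 0 → v.1 = 0

/-- injectivity of `p` on `g A` -/
def Inj (A : Finset ι) : Prop := ∀ v ∈ c.g A, c.p v = 0 → v = 0

/-- `S(a,b,c)` together with its value in the model. -/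
def SS (a b e : L) : Module.End F L × P := (Sop F a b e, -(2 * Wr c.d (c.p a) (c.p b) (c.p e)))

/-- `D_x` on pairs (operator, value). -/
def DD (x : L) (w : Module.End F L × P) : Module.End F L × P := (Dop x w.1, c.p x * c.d w.2)

/-- the algebra generated by the `S(a,b,c)`, `a,b,c ∈ g A`, with values. -/
def BP (A : Finset ι) : Subalgebra F (Module.End F L × P) :=
  Algebra.adjoin F {w | ∃ a ∈ c.g A, ∃ b ∈ c.g A, ∃ e ∈ c.g A, w = c.SS a b e}

/-- closed symmetric function valued forms -/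
structure IsForm (A : Finset ι) (η : L → Module.End F L × P) : Prop where
  add : ∀ v w, η (v + w) = η v + η w
  smul : ∀ (t : F) v, η (t • v) = t • η v
  sym : ∀ v w, (η v).1 w = (η w).1 v
  fn : ∀ v, Fn (η v).1
  closed : ∀ a b, c.DD a (η b) - c.DD b (η a) = η ⁅a, b⁆
  mem : ∀ v ∈ c.g A, η v ∈ c.BP A
  val : ∃ r : P, (∀ y, y ∉ A → r ∈ c.fr y) ∧ ∀ v, (η v).2 = r * c.p v

/-- the forms coming from a standard cycle -/
def cyc (x₁ x₂ x₃ x₄ t v : L) : Module.End F L × P :=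
  c.SS x₁ (Sop F x₂ x₃ x₄ t) v - c.SS x₂ (Sop F x₁ x₃ x₄ t) v
    + c.SS x₃ (Sop F x₁ x₂ x₄ t) v - c.SS x₄ (Sop F x₁ x₂ x₃ t) v

/-- exact part of `𝒪`: values at `y`. -/
def OE0 (A : Finset ι) (y : ι) : Submodule F (Module.End F L × P) :=
  Submodule.span F {w | ∃ b ∈ c.BP A, ∃ f ∈ c.BP A, w = b * c.DD (c.X y) f}

/-- exact part of `𝒪`: values at `[e,y]`. -/
def OE1 (A : Finset ι) (y : ι) : Submodule F (Module.End F L × P) :=
  Submodule.span F {w | ∃ b ∈ c.BP A, ∃ f ∈ c.BP A, ∃ e ∈ c.g A, w = b * c.DD ⁅e, c.X y⁆ f}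

/-- cyclic part of `𝒪`: values at `y`. -/
def OC0 (A : Finset ι) (y : ι) : Submodule F (Module.End F L × P) :=
  Submodule.span F {w | ∃ b ∈ c.BP A, ∃ x₁ ∈ c.g A, ∃ x₂ ∈ c.g A, ∃ x₃ ∈ c.g A, ∃ x₄ ∈ c.g A,
    ∃ t ∈ c.g A, w = b * c.cyc x₁ x₂ x₃ x₄ t (c.X y)}

/-- cyclic part of `𝒪`: values at `[e,y]`. -/
def OC1 (A : Finset ι) (y : ι) : Submodule F (Module.End F L × P) :=
  Submodule.span F {w | ∃ b ∈ c.BP A, ∃ x₁ ∈ c.g A, ∃ x₂ ∈ c.g A, ∃ x₃ ∈ c.g A, ∃ x₄ ∈ c.g A,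
    ∃ t ∈ c.g A, ∃ e ∈ c.g A, w = b * c.cyc x₁ x₂ x₃ x₄ t ⁅e, c.X y⁆}

/-- exact part -/
def OE (A : Finset ι) (y : ι) : Submodule F (Module.End F L × P) := c.OE0 A y ⊔ c.OE1 A y

/-- the part at `y` -/
def O0 (A : Finset ι) (y : ι) : Submodule F (Module.End F L × P) := c.OE0 A y ⊔ c.OC0 A y

/-- the space `𝒪` -/
def OO (A : Finset ι) (y : ι) : Submodule F (Module.End F L × P) :=
  (c.OE0 A y ⊔ c.OE1 A y) ⊔ (c.OC0 A y ⊔ c.OC1 A y)

/-- `D_{c1} ⋯ D_{ck}` -/
def DDl (l : List L) (w : Module.End F L × P) : Module.End F L × P := l.foldr c.DD w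

/-- the span of the `b D_{c1} ⋯ D_{cj} S(a,a',y)`, `j ≤ k`. -/
def KK (A : Finset ι) (y : ι) (k : ℕ) : Submodule F (Module.End F L × P) :=
  Submodule.span F {w | ∃ b ∈ c.BP A, ∃ l : List L, l.length ≤ k ∧ (∀ a ∈ l, a ∈ c.g A) ∧
    ∃ a₁ ∈ c.g A, ∃ a₂ ∈ c.g A, w = b * c.DDl l (c.SS a₁ a₂ (c.X y))}

/-- filtration with exact forms only -/
def HE (A : Finset ι) (y : ι) (k : ℕ) : Submodule F (Module.End F L × P) := c.OE A y ⊔ c.KK A y k

/-- full filtration -/
def HH (A : Finset ι) (y : ι) (k : ℕ) : Submodule F (Module.End F L × P) := c.OO A y ⊔ c.KK A y k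

/-- elements of `B` linear in `y` -/
def BY [DecidableEq ι] (A : Finset ι) (y : ι) : Submodule F (Module.End F L × P) :=
  Submodule.span F {w | ∃ b ∈ c.BP A, ∃ a₁ ∈ c.g A, ∃ a₂ ∈ c.g A, ∃ v ∈ c.g (insert y A),
    v ∈ c.M y ∧ w = b * c.SS a₁ a₂ v}

/-- Lemma H2 as a property -/
def H2prop (A : Finset ι) : Prop :=
  ∀ (G : Type u) [AddCommGroup G] [Module F G] (q : L →ₗ[F] L →ₗ[F] G),
    (∀ a ∈ c.g A, q a a = 0) →
    (∀ a ∈ c.g A, ∀ b ∈ c.g A, ∀ e ∈ c.g A, q ⁅a, b⁆ e + q ⁅b, e⁆ a + q ⁅e, a⁆ b = 0) →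
    (∀ i, ∀ a ∈ c.g A, ∀ b ∈ c.g A, a ∈ c.M i → b ∈ c.M i → q a b = 0) →
    (∀ x₁ ∈ c.g A, ∀ x₂ ∈ c.g A, ∀ x₃ ∈ c.g A, ∀ x₄ ∈ c.g A, ∀ t ∈ c.g A,
      q x₁ (Sop F x₂ x₃ x₄ t) - q x₂ (Sop F x₁ x₃ x₄ t) + q x₃ (Sop F x₁ x₂ x₄ t)
        - q x₄ (Sop F x₁ x₂ x₃ t) = 0) →
    ∃ h : L →ₗ[F] G, (∀ a ∈ c.g A, ∀ b ∈ c.g A, h ⁅a, b⁆ = q a b) ∧ ∀ i ∈ A, h (c.X i) = 0

/-- existence of the projection on the letters -/
def PiProp : Prop :=
  ∃ π : L →ₗ[F] L, (∀ i, π (c.X i) = c.X i) ∧ ∀ a b : L, π ⁅a, b⁆ = 0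

/-- a transposition of letters -/
structure IsSwap (y z : ι) (τ : L →ₗ⁅F⁆ L) : Prop where
  left : τ (c.X y) = c.X z
  right : τ (c.X z) = c.X y
  other : ∀ i, i ≠ y → i ≠ z → τ (c.X i) = c.X i

/-- a symmetric multilinear element of degree at least two is zero. -/
def SymProp (C : Finset ι) : Prop :=
  2 ≤ C.card → ∀ u ∈ c.g C, (∀ i ∈ C, u ∈ c.M i) →
    (∀ y ∈ C, ∀ z ∈ C, y ≠ z → ∃ τ : L →ₗ⁅F⁆ L, c.IsSwap y z τ ∧ τ u = u) → u = 0

end Ctx

end Helper39W1

namespace Helper39W1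

universe u

section LLdef

variable (F : Type u) [Field F] (ι : Type)

/-- the ideal of the free Lie algebra generated by the letter `i` -/
def MF (i : ι) : LieIdeal F (FreeLieAlgebra F ι) :=
  LieSubmodule.lieSpan F (FreeLieAlgebra F ι) {FreeLieAlgebra.of F i}

/-- the relations: the standard identity and `[M_i, M_i] = 0` -/
def relSet : Set (FreeLieAlgebra F ι) :=
  {u | ∃ (x : Fin 4 → FreeLieAlgebra F ι) (z : FreeLieAlgebra F ι), u = st5 x z} ∪
    {u | ∃ i, ∃ a ∈ MF F ι i, ∃ b ∈ MF F ι i, u = ⁅a, b⁆}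

/-- the ideal of relations -/
def relIdeal : LieIdeal F (FreeLieAlgebra F ι) :=
  LieSubmodule.lieSpan F (FreeLieAlgebra F ι) (relSet F ι)

/-- the Lie algebra of the multilinear elements of the relatively free algebra -/
abbrev LL : Type u := FreeLieAlgebra F ι ⧸ relIdeal F ι

/-- the letters -/
def LX (i : ι) : LL F ι := LieSubmodule.Quotient.mk (N := relIdeal F ι) (FreeLieAlgebra.of F i)

/-- the ideal of the elements containing the letter `i` -/
def LM (i : ι) : LieIdeal F (LL F ι) := LieSubmodule.lieSpan F (LL F ι) {LX F ι i}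

end LLdef

section Wdef

variable (F : Type u) [Field F] {P : Type u} [CommRing P] [Algebra F P]

/-- the Lie algebra of the vector fields `f ∂`: the space `P` with the bracket
`[f, g] = f d(g) - g d(f)` -/
def W (_d : Derivation F P P) : Type u := P

variable (d : Derivation F P P)

instance : AddCommGroup (W F d) := inferInstanceAs (AddCommGroup P)
instance : Module F (W F d) := inferInstanceAs (Module F P)

/-- the identity map `P → W(P,d)` -/
def W.mk : P ≃ₗ[F] W F d := LinearEquiv.refl F P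

theorem W.aux_leibniz (f g h : P) :
    f * d (g * d h - h * d g) - (g * d h - h * d g) * d f =
      ((f * d g - g * d f) * d h - h * d (f * d g - g * d f)) +
      (g * d (f * d h - h * d f) - (f * d h - h * d f) * d g) := by
  simp only [map_sub, Derivation.leibniz, smul_eq_mul]
  ring

instance : LieRing (W F d) where
  bracket := fun (f g : P) => f * d g - g * d f
  add_lie := fun (f g h : P) => by
    change (f + g) * d h - h * d (f + g) = (f * d h - h * d f) + (g * d h - h * d g)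
    rw [map_add]; ring
  lie_add := fun (f g h : P) => by
    change f * d (g + h) - (g + h) * d f = (f * d g - g * d f) + (f * d h - h * d f)
    rw [map_add]; ring
  lie_self := fun (f : P) => by
    change f * d f - f * d f = 0
    ring
  leibniz_lie := fun (f g h : P) => W.aux_leibniz F d f g h

theorem W.mk_lie (f g : P) : ⁅W.mk F d f, W.mk F d g⁆ = W.mk F d (f * d g - g * d f) := rfl

instance : LieAlgebra F (W F d) where
  lie_smul := fun (t : F) (f g : P) => by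
    change f * d (t • g) - (t • g) * d f = t • (f * d g - g * d f)
    rw [Derivation.map_smul, mul_smul_comm, smul_mul_assoc, smul_sub]

end Wdef

section Final

variable {F : Type u} [Field F]

/-- A T-ideal of the free Lie algebra on countably many letters: an ideal stable under all
endomorphisms. -/
def IsTIdeal (I : LieIdeal F (FreeLieAlgebra F ℕ)) : Prop :=
  ∀ φ : FreeLieAlgebra F ℕ →ₗ⁅F⁆ FreeLieAlgebra F ℕ, ∀ u ∈ I, φ u ∈ I

/-- The smallest T-ideal containing the set `S`. -/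
def TIdeal (S : Set (FreeLieAlgebra F ℕ)) : LieIdeal F (FreeLieAlgebra F ℕ) :=
  sInf {I | IsTIdeal I ∧ S ⊆ (I : Set (FreeLieAlgebra F ℕ))}

/-- `u` is an identity of the Lie algebra `A`. -/
def IsIdentity (A : Type u) [LieRing A] [LieAlgebra F A] (u : FreeLieAlgebra F ℕ) : Prop :=
  ∀ φ : FreeLieAlgebra F ℕ →ₗ⁅F⁆ A, φ u = 0

end Final

end Helper39W1
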