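import Mathlib

set_option autoImplicit false
set_option linter.unusedSectionVars false

noncomputable section

namespace Helper39W1

universe u v

namespace EZ

/-! ## The combinatorial core of the module EZERO -/

section So
variable {V : Type u} [LieRing V]

/-- `S(p,q,r) c` -/
def So (p q r c : V) : V := ⁅p, ⁅⁅q, r⁆, c⁆⁆ + ⁅q, ⁅⁅r, p⁆, c⁆⁆ + ⁅r, ⁅⁅p, q⁆, c⁆⁆

theorem So_add1 (p p' q r c : V) : So (p + p') q r c = So p q r c + So p' q r c := by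
  simp only [So, lie_add, add_lie]; abel
theorem So_add2 (p q q' r c : V) : So p (q + q') r c = So p q r c + So p q' r c := by
  simp only [So, lie_add, add_lie]; abel
theorem So_add3 (p q r r' c : V) : So p q (r + r') c = So p q r c + So p q r' c := by
  simp only [So, lie_add, add_lie]; abel
theorem So_add4 (p q r c c' : V) : So p q r (c + c') = So p q r c + So p q r c' := by
  simp only [So, lie_add]; abel
theorem So_neg1 (p q r c : V) : So (-p) q r c = - So p q r c := by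
  simp only [So, lie_neg, neg_lie]; abel
theorem So_swap12 (p q r c : V) : So q p r c = - So p q r c := by
  simp only [So]
  rw [← lie_skew r q, ← lie_skew q p, ← lie_skew p r]
  simp only [lie_neg, neg_lie]; abel
theorem So_swap23 (p q r c : V) : So p r q c = - So p q r c := by
  simp only [So]
  rw [← lie_skew r q, ← lie_skew q p, ← lie_skew p r]
  simp only [lie_neg, neg_lie]; abel

theorem So_same (x b c : V) : So x b c x = -(⁅⁅x, b⁆, ⁅x, c⁆⁆ + ⁅⁅x, b⁆, ⁅x, c⁆⁆) := by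
  simp only [So]
  have e1 : ⁅x, ⁅⁅b, c⁆, x⁆⁆ = - ⁅x, ⁅x, ⁅b, c⁆⁆⁆ := by rw [← lie_skew ⁅b, c⁆ x, lie_neg]
  have e2 : ⁅x, ⁅x, ⁅b, c⁆⁆⁆ = ⁅⁅x, ⁅x, b⁆⁆, c⁆ + ⁅⁅x, b⁆, ⁅x, c⁆⁆ + (⁅⁅x, b⁆, ⁅x, c⁆⁆
      + ⁅b, ⁅x, ⁅x, c⁆⁆⁆) := by
    rw [leibniz_lie x b c, lie_add, leibniz_lie x ⁅x, b⁆ c, leibniz_lie x b ⁅x, c⁆]
  have e3 : ⁅b, ⁅⁅c, x⁆, x⁆⁆ = ⁅b, ⁅x, ⁅x, c⁆⁆⁆ := by
    rw [← lie_skew ⁅c, x⁆ x, ← lie_skew c x]
    simp only [lie_neg, neg_neg]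
  have e4 : ⁅c, ⁅⁅x, b⁆, x⁆⁆ = ⁅⁅x, ⁅x, b⁆⁆, c⁆ := by
    rw [← lie_skew ⁅x, b⁆ x, lie_neg, lie_skew]
  rw [e1, e2, e3, e4]
  abel

end So

section noF
variable {V : Type u} [LieRing V] {G : Type u} [AddCommGroup G]

/-- the relations of the symbols `[pq|a^b]` -/
structure Brk (br : V → V → V → V → G) : Prop where
  add1 : ∀ p p' q a b, br (p + p') q a b = br p q a b + br p' q a b
  add3 : ∀ p q a a' b, br p q (a + a') b = br p q a b + br p q a' b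
  sym : ∀ p q a b, br p q a b = br q p a b
  alt : ∀ p q a b, br p q b a = - br p q a b
  R3 : ∀ p q a b, br p q a b + br p a b q + br p b q a = 0
  R2 : ∀ p d e a b, br p ⁅d, e⁆ a b = br p ⁅a, b⁆ d e
  U : ∀ p a b e w, br p ⁅b, e⁆ a w + br p ⁅e, a⁆ b w + br p ⁅a, b⁆ e w = 0
  B : ∀ p q r c c' i j, br (So p q r c) c' i j = br c (So p q r c') i j

/-- `A(c,c',v;x)` -/
def Aq (br : V → V → V → V → G) (c c' v x₁ x₂ x₃ x₄ : V) : G :=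
  br (So x₂ x₃ x₄ c) c' v x₁ - br (So x₁ x₃ x₄ c) c' v x₂ + br (So x₁ x₂ x₄ c) c' v x₃
    - br (So x₁ x₂ x₃ c) c' v x₄

/-- full polarization of a 4-additive map -/
theorem polar {Q : V → V → V → V → G}
    (a1 : ∀ a a' b c d, Q (a + a') b c d = Q a b c d + Q a' b c d)
    (a2 : ∀ a b b' c d, Q a (b + b') c d = Q a b c d + Q a b' c d)
    (a3 : ∀ a b c c' d, Q a b (c + c') d = Q a b c d + Q a b c' d)
    (a4 : ∀ a b c d d', Q a b c (d + d') = Q a b c d + Q a b c d')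
    (s1 : ∀ a b c d, Q a b c d = Q b a c d)
    (s2 : ∀ a b c d, Q a b c d = Q a c b d)
    (hq : ∀ x, Q x x x x = 0) (a b c d : V) :
    (6 : ℕ) • (Q a b c d + Q d b c a + Q a d c b + Q a b d c) = 0 := by
  have key : Q (a + b + c + d) (a + b + c + d) (a + b + c + d) (a + b + c + d)
      - Q (a + b + c) (a + b + c) (a + b + c) (a + b + c)
      - Q (a + b + d) (a + b + d) (a + b + d) (a + b + d)
      - Q (a + c + d) (a + c + d) (a + c + d) (a + c + d)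
      - Q (b + c + d) (b + c + d) (b + c + d) (b + c + d)
      + Q (a + b) (a + b) (a + b) (a + b) + Q (a + c) (a + c) (a + c) (a + c)
      + Q (a + d) (a + d) (a + d) (a + d) + Q (b + c) (b + c) (b + c) (b + c)
      + Q (b + d) (b + d) (b + d) (b + d) + Q (c + d) (c + d) (c + d) (c + d)
      - Q a a a a - Q b b b b - Q c c c c - Q d d d d
      = (Q a b c d + Q a c b d + Q b a c d + Q b c a d + Q c a b d + Q c b a d)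
      + (Q d b c a + Q d c b a + Q b d c a + Q b c d a + Q c d b a + Q c b d a)
      + (Q a d c b + Q a c d b + Q d a c b + Q d c a b + Q c a d b + Q c d a b)
      + (Q a b d c + Q a d b c + Q b a d c + Q b d a c + Q d a b c + Q d b a c) := by
    simp only [a1, a2, a3, a4]
    abel
  simp only [hq] at key
  have t : ∀ a b c d, Q a b c d + Q a c b d + Q b a c d + Q b c a d + Q c a b d + Q c b a d
      = 6 • Q a b c d := by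
    intro a b c d
    have e1 : Q a c b d = Q a b c d := s2 _ _ _ _
    have e2 : Q b a c d = Q a b c d := s1 _ _ _ _
    have e3 : Q b c a d = Q a b c d := by rw [s2, s1]
    have e4 : Q c a b d = Q a b c d := by rw [s1, s2]
    have e5 : Q c b a d = Q a b c d := by rw [s2, s1, s2]
    rw [e1, e2, e3, e4, e5]
    abel
  rw [t, t, t, t] at key
  simp only [smul_add]
  rw [← key]
  abel

variable {br : V → V → V → V → G} (h : Brk br)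
include h

theorem Brk.add2 (p q q' a b : V) : br p (q + q') a b = br p q a b + br p q' a b := by
  rw [h.sym, h.add1, h.sym q, h.sym q']

theorem Brk.add4 (p q a b b' : V) : br p q a (b + b') = br p q a b + br p q a b' := by
  rw [h.alt, h.add3, h.alt p q a b, h.alt p q a b']; abel

theorem Brk.zero1 (q a b : V) : br 0 q a b = 0 := by
  have := h.add1 0 0 q a b
  rw [add_zero] at this
  simpa using this

theorem Brk.neg1 (p q a b : V) : br (-p) q a b = - br p q a b := by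
  have := h.add1 p (-p) q a b
  rw [add_neg_cancel, h.zero1] at this
  exact (neg_eq_of_add_eq_zero_right this.symm).symm

theorem Brk.neg2 (p q a b : V) : br p (-q) a b = - br p q a b := by
  rw [h.sym, h.neg1, h.sym]

theorem Brk.zero2 (p a b : V) : br p 0 a b = 0 := by
  rw [h.sym, h.zero1]

theorem Brk.zero3 (p q b : V) : br p q 0 b = 0 := by
  have := h.add3 p q 0 0 b
  rw [add_zero] at this
  simpa using this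

theorem Brk.neg3 (p q a b : V) : br p q (-a) b = - br p q a b := by
  have := h.add3 p q a (-a) b
  rw [add_neg_cancel, h.zero3] at this
  exact (neg_eq_of_add_eq_zero_right this.symm).symm

theorem Brk.neg4 (p q a b : V) : br p q a (-b) = - br p q a b := by
  rw [h.alt, h.neg3, h.alt p q a b, neg_neg]

theorem A_symm12 (c c' v x₁ x₂ x₃ x₄ : V) : Aq br c' c v x₁ x₂ x₃ x₄ = Aq br c c' v x₁ x₂ x₃ x₄ := by
  simp only [Aq]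
  rw [h.sym _ c, h.sym _ c, h.sym _ c, h.sym _ c, ← h.B, ← h.B, ← h.B, ← h.B]

theorem A_symm23 (hcyc : ∀ x₁ x₂ x₃ x₄ : V,
      So x₂ x₃ x₄ x₁ - So x₁ x₃ x₄ x₂ + So x₁ x₂ x₄ x₃ - So x₁ x₂ x₃ x₄ = 0)
    (c c' v x₁ x₂ x₃ x₄ : V) : Aq br c v c' x₁ x₂ x₃ x₄ = Aq br c c' v x₁ x₂ x₃ x₄ := by
  simp only [Aq]
  have e : ∀ f x, br f c' v x - br f v c' x = - br f x c' v := by
    intro f x
    have h1 := h.R3 f c' v x
    have h2 := h.alt f v c' x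
    have h3 := eq_neg_of_add_eq_zero_right h1
    rw [h3, h2]
    abel
  have e1 := e (So x₂ x₃ x₄ c) x₁
  have e2 := e (So x₁ x₃ x₄ c) x₂
  have e3 := e (So x₁ x₂ x₄ c) x₃
  have e4 := e (So x₁ x₂ x₃ c) x₄
  have hc := congrArg (fun u => br c u c' v) (hcyc x₁ x₂ x₃ x₄)
  simp only [sub_eq_add_neg, h.add2, h.neg2, h.zero2] at hc
  rw [h.B _ _ _ c x₁ c' v] at e1
  rw [h.B _ _ _ c x₂ c' v] at e2
  rw [h.B _ _ _ c x₃ c' v] at e3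
  rw [h.B _ _ _ c x₄ c' v] at e4
  rw [← sub_eq_zero]
  have : br (So x₂ x₃ x₄ c) v c' x₁ - br (So x₁ x₃ x₄ c) v c' x₂ + br (So x₁ x₂ x₄ c) v c' x₃
      - br (So x₁ x₂ x₃ c) v c' x₄ - (br (So x₂ x₃ x₄ c) c' v x₁ - br (So x₁ x₃ x₄ c) c' v x₂
      + br (So x₁ x₂ x₄ c) c' v x₃ - br (So x₁ x₂ x₃ c) c' v x₄)
      = -(br (So x₂ x₃ x₄ c) c' v x₁ - br (So x₂ x₃ x₄ c) v c' x₁)
        + (br (So x₁ x₃ x₄ c) c' v x₂ - br (So x₁ x₃ x₄ c) v c' x₂)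
        - (br (So x₁ x₂ x₄ c) c' v x₃ - br (So x₁ x₂ x₄ c) v c' x₃)
        + (br (So x₁ x₂ x₃ c) c' v x₄ - br (So x₁ x₂ x₃ c) v c' x₄) := by abel
  rw [this, e1, e2, e3, e4, ← hc]
  abel

theorem A_swap12 (c c' v x₁ x₂ x₃ x₄ : V) : Aq br c c' v x₂ x₁ x₃ x₄ = - Aq br c c' v x₁ x₂ x₃ x₄ := by
  simp only [Aq, So_swap12 x₁ x₂, h.neg1]
  abel

theorem A_swap23 (c c' v x₁ x₂ x₃ x₄ : V) : Aq br c c' v x₁ x₃ x₂ x₄ = - Aq br c c' v x₁ x₂ x₃ x₄ := by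
  simp only [Aq, So_swap12 x₂ x₃, So_swap23 x₁ x₂ x₃, h.neg1]
  abel

theorem A_swap34 (c c' v x₁ x₂ x₃ x₄ : V) : Aq br c c' v x₁ x₂ x₄ x₃ = - Aq br c c' v x₁ x₂ x₃ x₄ := by
  simp only [Aq, So_swap23 x₂ x₃ x₄, So_swap23 x₁ x₃ x₄, h.neg1]
  abel

/-- `S(p,q,r)[cc'|i^j]` in terms of the symbols `[c' [i,j] | p ^ w]` -/
theorem term (p q r c c' i j : V) :
    br (So p q r c) c' i j = br c' ⁅i, j⁆ p ⁅⁅q, r⁆, c⁆ - br c' ⁅i, j⁆ q ⁅⁅p, r⁆, c⁆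
      + br c' ⁅i, j⁆ r ⁅⁅p, q⁆, c⁆ := by
  rw [h.sym, So, h.add2, h.add2, h.R2, h.R2 c' q, h.R2 c' r, ← lie_skew p r, neg_lie, h.neg4]
  abel

theorem Zq (c c' u₁ u₂ u₃ u₄ u₅ : V) :
    br (So u₃ u₄ u₅ c) c' u₁ u₂ - br (So u₂ u₄ u₅ c) c' u₁ u₃ + br (So u₂ u₃ u₅ c) c' u₁ u₄
      - br (So u₂ u₃ u₄ c) c' u₁ u₅ + br (So u₁ u₄ u₅ c) c' u₂ u₃ - br (So u₁ u₃ u₅ c) c' u₂ u₄
      + br (So u₁ u₃ u₄ c) c' u₂ u₅ + br (So u₁ u₂ u₅ c) c' u₃ u₄ - br (So u₁ u₂ u₄ c) c' u₃ u₅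
      + br (So u₁ u₂ u₃ c) c' u₄ u₅ = 0 := by
  have U : ∀ a b e w, br c' ⁅a, b⁆ e w - br c' ⁅a, e⁆ b w + br c' ⁅b, e⁆ a w = 0 := by
    intro a b e w
    have := h.U c' a b e w
    rw [← lie_skew e a, h.neg2] at this
    rw [← this]
    abel
  rw [term h, term h, term h, term h, term h, term h, term h, term h, term h, term h]
  have U45 := U u₁ u₂ u₃ ⁅⁅u₄, u₅⁆, c⁆
  have U35 := U u₁ u₂ u₄ ⁅⁅u₃, u₅⁆, c⁆
  have U34 := U u₁ u₂ u₅ ⁅⁅u₃, u₄⁆, c⁆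
  have U25 := U u₁ u₃ u₄ ⁅⁅u₂, u₅⁆, c⁆
  have U24 := U u₁ u₃ u₅ ⁅⁅u₂, u₄⁆, c⁆
  have U23 := U u₁ u₄ u₅ ⁅⁅u₂, u₃⁆, c⁆
  have U15 := U u₂ u₃ u₄ ⁅⁅u₁, u₅⁆, c⁆
  have U14 := U u₂ u₃ u₅ ⁅⁅u₁, u₄⁆, c⁆
  have U13 := U u₂ u₄ u₅ ⁅⁅u₁, u₃⁆, c⁆
  have U12 := U u₃ u₄ u₅ ⁅⁅u₁, u₂⁆, c⁆
  have tot : (0 : G) = 0 - 0 + 0 + 0 - 0 + 0 - 0 + 0 - 0 + 0 := by abel
  refine Eq.trans ?_ tot.symm
  nth_rewrite 1 [← U45]
  nth_rewrite 1 [← U35]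
  nth_rewrite 1 [← U34]
  nth_rewrite 1 [← U25]
  nth_rewrite 1 [← U24]
  nth_rewrite 1 [← U23]
  nth_rewrite 1 [← U15]
  nth_rewrite 1 [← U14]
  nth_rewrite 1 [← U13]
  nth_rewrite 1 [← U12]
  abel

/-- the relation (ii) -/
theorem A_ii (c c' v x₁ x₂ x₃ x₄ : V) :
    Aq br c c' x₁ v x₂ x₃ x₄ + Aq br c c' x₂ x₁ v x₃ x₄ + Aq br c c' x₃ x₁ x₂ v x₄
      + Aq br c c' x₄ x₁ x₂ x₃ v = Aq br c c' v x₁ x₂ x₃ x₄ := by
  have hZ := Zq h c c' v x₁ x₂ x₃ x₄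
  have hZ2 := congrArg₂ (fun a b => a + b) hZ hZ
  simp only [add_zero] at hZ2
  rw [← sub_eq_zero, ← neg_eq_zero, ← hZ2]
  simp only [Aq]
  have b1 : ∀ p, br p c' x₁ v = - br p c' v x₁ := fun p => h.alt _ _ _ _
  have b2 : ∀ p, br p c' x₂ v = - br p c' v x₂ := fun p => h.alt _ _ _ _
  have b3 : ∀ p, br p c' x₃ v = - br p c' v x₃ := fun p => h.alt _ _ _ _
  have b4 : ∀ p, br p c' x₄ v = - br p c' v x₄ := fun p => h.alt _ _ _ _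
  have b5 : ∀ p, br p c' x₂ x₁ = - br p c' x₁ x₂ := fun p => h.alt _ _ _ _
  have b6 : ∀ p, br p c' x₃ x₁ = - br p c' x₁ x₃ := fun p => h.alt _ _ _ _
  have b7 : ∀ p, br p c' x₄ x₁ = - br p c' x₁ x₄ := fun p => h.alt _ _ _ _
  have b8 : ∀ p, br p c' x₃ x₂ = - br p c' x₂ x₃ := fun p => h.alt _ _ _ _
  have b9 : ∀ p, br p c' x₄ x₂ = - br p c' x₂ x₄ := fun p => h.alt _ _ _ _
  have b10 : ∀ p, br p c' x₄ x₃ = - br p c' x₃ x₄ := fun p => h.alt _ _ _ _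
  have c1 : So x₁ v x₃ c = - So v x₁ x₃ c := So_swap12 _ _ _ _
  have c2 : So x₁ v x₄ c = - So v x₁ x₄ c := So_swap12 _ _ _ _
  have c3 : So x₂ v x₄ c = - So v x₂ x₄ c := So_swap12 _ _ _ _
  have c4 : So x₁ x₂ v c = So v x₁ x₂ c := by rw [So_swap23, So_swap12, neg_neg]
  have c5 : So x₁ x₃ v c = So v x₁ x₃ c := by rw [So_swap23, So_swap12, neg_neg]
  have c6 : So x₂ x₃ v c = So v x₂ x₃ c := by rw [So_swap23, So_swap12, neg_neg]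
  simp only [c1, c2, c3, c4, c5, c6, b1, b2, b3, b4, b5, b6, b7, b8, b9, b10, h.neg1, neg_neg]
  abel

end noF

section withF

theorem eq_zero_of_two (F : Type v) [Field F] [CharZero F] {G : Type u}
    [AddCommGroup G] [Module F G] {g : G} (h : g + g = 0) : g = 0 := by
  have : (2 : F) • g = 0 := by rw [two_smul]; exact h
  rcases smul_eq_zero.1 this with h | h
  · exact absurd h two_ne_zero
  · exact h

variable (F : Type v) [Field F] [CharZero F] {V : Type u} [LieRing V] {G : Type u}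
  [AddCommGroup G] [mFG : Module F G] {br : V → V → V → V → G} (h : Brk br)
include F mFG h

theorem Brk.self (p q a : V) : br p q a a = 0 := by
  have := h.alt p q a a
  apply eq_zero_of_two F
  nth_rewrite 1 [this]
  abel

/-- the relation (i) on the diagonal -/
theorem A_diag (x x₂ x₃ x₄ : V) : Aq br x x x x x₂ x₃ x₄ = 0 := by
  simp only [Aq]
  rw [Brk.self F h, So_same, So_same, So_same]
  simp only [h.neg1, h.add1]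
  have e2 : br ⁅⁅x, x₃⁆, ⁅x, x₄⁆⁆ x x x₂ = br x ⁅x, x₂⁆ ⁅x, x₃⁆ ⁅x, x₄⁆ := by
    rw [h.sym, h.R2]
  have e3 : br ⁅⁅x, x₂⁆, ⁅x, x₄⁆⁆ x x x₃ = - br x ⁅x, x₃⁆ ⁅x, x₄⁆ ⁅x, x₂⁆ := by
    rw [h.sym, h.R2, h.alt]
  have e4 : br ⁅⁅x, x₂⁆, ⁅x, x₃⁆⁆ x x x₄ = br x ⁅x, x₄⁆ ⁅x, x₂⁆ ⁅x, x₃⁆ := by
    rw [h.sym, h.R2]
  rw [e2, e3, e4]
  have := h.R3 x ⁅x, x₂⁆ ⁅x, x₃⁆ ⁅x, x₄⁆
  have h2 : 0 - -(br x ⁅x, x₂⁆ ⁅x, x₃⁆ ⁅x, x₄⁆ + br x ⁅x, x₂⁆ ⁅x, x₃⁆ ⁅x, x₄⁆)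
      + -(-br x ⁅x, x₃⁆ ⁅x, x₄⁆ ⁅x, x₂⁆ + -br x ⁅x, x₃⁆ ⁅x, x₄⁆ ⁅x, x₂⁆)
      - -(br x ⁅x, x₄⁆ ⁅x, x₂⁆ ⁅x, x₃⁆ + br x ⁅x, x₄⁆ ⁅x, x₂⁆ ⁅x, x₃⁆)
      = (br x ⁅x, x₂⁆ ⁅x, x₃⁆ ⁅x, x₄⁆ + br x ⁅x, x₃⁆ ⁅x, x₄⁆ ⁅x, x₂⁆
        + br x ⁅x, x₄⁆ ⁅x, x₂⁆ ⁅x, x₃⁆)
      + (br x ⁅x, x₂⁆ ⁅x, x₃⁆ ⁅x, x₄⁆ + br x ⁅x, x₃⁆ ⁅x, x₄⁆ ⁅x, x₂⁆
        + br x ⁅x, x₄⁆ ⁅x, x₂⁆ ⁅x, x₃⁆) := by abel
  rw [h2, this, add_zero]

/-- the relation (i), polarized -/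
theorem A_polar (hcyc : ∀ x₁ x₂ x₃ x₄ : V,
      So x₂ x₃ x₄ x₁ - So x₁ x₃ x₄ x₂ + So x₁ x₂ x₄ x₃ - So x₁ x₂ x₃ x₄ = 0)
    (c c' v x₁ x₂ x₃ x₄ : V) :
    Aq br c c' v x₁ x₂ x₃ x₄ + Aq br x₁ c' v c x₂ x₃ x₄ + Aq br c x₁ v c' x₂ x₃ x₄
      + Aq br c c' x₁ v x₂ x₃ x₄ = 0 := by
  have := polar (Q := fun c c' v x => Aq br c c' v x x₂ x₃ x₄) ?_ ?_ ?_ ?_ ?_ ?_ ?_ c c' v x₁
  · have h6 : (6 : F) • (Aq br c c' v x₁ x₂ x₃ x₄ + Aq br x₁ c' v c x₂ x₃ x₄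
      + Aq br c x₁ v c' x₂ x₃ x₄ + Aq br c c' x₁ v x₂ x₃ x₄) = 0 := by
      rw [← this, ← Nat.cast_smul_eq_nsmul F]
      norm_num
    rcases smul_eq_zero.1 h6 with h6 | h6
    · norm_num at h6
    · exact h6
  · intro a a' b c d
    simp only [Aq, So_add4, h.add1]
    abel
  · intro a b b' c d
    simp only [Aq, h.add2]
    abel
  · intro a b c c' d
    simp only [Aq, h.add3]
    abel
  · intro a b c d d'
    simp only [Aq, So_add1, h.add4, h.add1]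
    abel
  · intro a b c d
    exact A_symm12 h _ _ _ _ _ _ _
  · intro a b c d
    exact A_symm23 h hcyc _ _ _ _ _ _ _
  · intro x
    exact A_diag F h _ _ _ _

theorem A_zero (hcyc : ∀ x₁ x₂ x₃ x₄ : V,
      So x₂ x₃ x₄ x₁ - So x₁ x₃ x₄ x₂ + So x₁ x₂ x₄ x₃ - So x₁ x₂ x₃ x₄ = 0)
    (c c' v x₁ x₂ x₃ x₄ : V) : Aq br c c' v x₁ x₂ x₃ x₄ = 0 := by
  have s12 := fun c c' v x₁ x₂ x₃ x₄ => A_symm12 h c c' v x₁ x₂ x₃ x₄
  have s23 := fun c c' v x₁ x₂ x₃ x₄ => A_symm23 h hcyc c c' v x₁ x₂ x₃ x₄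
  have P1 := A_polar F h hcyc c c' v x₁ x₂ x₃ x₄
  have P2 := A_polar F h hcyc c c' v x₂ x₁ x₃ x₄
  have P3 := A_polar F h hcyc c c' v x₃ x₁ x₂ x₄
  have P4 := A_polar F h hcyc c c' v x₄ x₁ x₂ x₃
  rw [A_swap12 h, A_swap12 h _ _ _ x₁ c, A_swap12 h _ _ _ x₁ c', A_swap12 h _ _ _ x₁ v] at P2
  rw [A_swap12 h, A_swap12 h _ _ _ x₁ c, A_swap12 h _ _ _ x₁ c', A_swap12 h _ _ _ x₁ v] at P3
  rw [A_swap23 h, A_swap23 h _ _ _ x₁ x₂ c, A_swap23 h _ _ _ x₁ x₂ c', A_swap23 h _ _ _ x₁ x₂ v,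
    neg_neg, neg_neg, neg_neg, neg_neg] at P3
  rw [A_swap12 h, A_swap12 h _ _ _ x₁ c, A_swap12 h _ _ _ x₁ c', A_swap12 h _ _ _ x₁ v] at P4
  rw [A_swap23 h, A_swap23 h _ _ _ x₁ x₂ c, A_swap23 h _ _ _ x₁ x₂ c', A_swap23 h _ _ _ x₁ x₂ v,
    neg_neg, neg_neg, neg_neg, neg_neg] at P4
  rw [A_swap34 h, A_swap34 h _ _ _ x₁ x₂ x₃ c, A_swap34 h _ _ _ x₁ x₂ x₃ c',
    A_swap34 h _ _ _ x₁ x₂ x₃ v] at P4
  have Q3 := A_ii h c c' v x₁ x₂ x₃ x₄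
  have Q2 := A_ii h c v c' x₁ x₂ x₃ x₄
  have Q1 := A_ii h v c' c x₁ x₂ x₃ x₄
  have t : ∀ a b c x₁ x₂ x₃ x₄, Aq br c b a x₁ x₂ x₃ x₄ = Aq br a b c x₁ x₂ x₃ x₄ := by
    intro a b c x₁ x₂ x₃ x₄
    rw [s12 b c, s23 b a c, s12 a b]
  rw [s23 c c' v] at Q2
  rw [t c c' v] at Q1
  rw [s23 c x₁ v, s23 c x₂ v, s23 c x₃ v, s23 c x₄ v] at Q2
  rw [t x₁ c' v, t x₂ c' v, t x₃ c' v, t x₄ c' v] at Q1
  generalize Aq br c c' v x₁ x₂ x₃ x₄ = A at *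
  have h7 : (7 : ℕ) • A = 0 := by
    have e1 := sub_eq_zero.2 Q1.symm
    have e2 := sub_eq_zero.2 Q2.symm
    have e3 := sub_eq_zero.2 Q3.symm
    have : (0 : G) = 0 - 0 + 0 - 0 + 0 + 0 + 0 := by abel
    refine Eq.trans ?_ this.symm
    nth_rewrite 1 [← P1]
    nth_rewrite 1 [← P2]
    nth_rewrite 1 [← P3]
    nth_rewrite 1 [← P4]
    nth_rewrite 1 [← e1]
    nth_rewrite 1 [← e2]
    nth_rewrite 1 [← e3]
    abel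
  have h7' : (7 : F) • A = 0 := by
    rw [← h7, ← Nat.cast_smul_eq_nsmul F]
    norm_num
  rcases smul_eq_zero.1 h7' with h6 | h6
  · norm_num at h6
  · exact h6

end withF

end EZ

end Helper39W1
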