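import Pool.Agent.Helper39_W1.HEx
import Pool.Agent.Helper39_W1.EZCore

set_option autoImplicit false
set_option linter.unusedSectionVars false

noncomputable section

namespace Helper39W1

universe u

namespace Ctx

variable {F : Type u} [Field F] [CharZero F] {ι : Type} [DecidableEq ι] {L P : Type u} [LieRing L]
  [LieAlgebra F L] [CommRing P] [Algebra F P] (c : Ctx F ι L P)

section EZ
variable {c}

theorem ez_SS_add1 (a a' b e : L) : c.SS (a + a') b e = c.SS a b e + c.SS a' b e := by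
  apply Prod.ext
  · exact Sop_add1 a a' b e
  · change -(2 * Wr c.d (c.p (a + a')) (c.p b) (c.p e))
      = -(2 * Wr c.d (c.p a) (c.p b) (c.p e)) + -(2 * Wr c.d (c.p a') (c.p b) (c.p e))
    simp only [Wr, map_add]
    ring

theorem ez_SS_swap (a b e : L) : c.SS b a e = - c.SS a b e := by
  apply Prod.ext
  · exact Sop_swap12 a b e
  · change -(2 * Wr c.d (c.p b) (c.p a) (c.p e)) = - -(2 * Wr c.d (c.p a) (c.p b) (c.p e))
    simp only [Wr]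
    ring

variable [St5 L]

theorem ez_tri {A : Finset ι} {y : ι} {q a b : L} (hq : q ∈ c.g A) (ha : a ∈ c.g A)
    (hb : b ∈ c.g A) {f : Module.End F L × P} (hf : f ∈ c.BP A) :
    c.DD ⁅q, ⁅a, ⁅b, c.X y⁆⁆⁆ f ∈ c.HE A y 1 := by
  rw [DD_lie]
  refine sub_mem (DD_HE hq (DD_two_mem_HE0 ha hb hf)) ?_
  exact hex_HE_mono (Nat.zero_le _) (DD_two_mem_HE0 ha hb (BP_DD hq hf))

/-- `Θ_f(p,q,a,b)` -/
def ezTh (c : Ctx F ι L P) (y : ι) (f : Module.End F L × P) (p q a b : L) :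
    Module.End F L × P := c.DD ⁅p, ⁅q, ⁅a, ⁅b, c.X y⁆⁆⁆⁆ f

theorem ez_Th_swap {A : Finset ι} {y : ι} {p q a b : L} (hp : p ∈ c.g A) (hq : q ∈ c.g A)
    (ha : a ∈ c.g A) (hb : b ∈ c.g A) {f : Module.End F L × P} (hf : f ∈ c.BP A) :
    c.ezTh y f p q a b - c.ezTh y f p q b a ∈ c.HE A y 1 := by
  have h := ez_tri (c := c) (y := y) hp hq (LieSubalgebra.lie_mem _ ha hb) hf
  rw [lie_lie, lie_sub, lie_sub, hex_DD_sub_left] at h
  exact h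

theorem ez_R4' {A : Finset ι} {y : ι} {p q a b : L} (hp : p ∈ c.g A) (hq : q ∈ c.g A)
    (ha : a ∈ c.g A) (hb : b ∈ c.g A) {f : Module.End F L × P} (hf : f ∈ c.BP A) :
    c.DD p (c.DD q (c.SS (f.1 a) b (c.X y))) - (f * c.DD p (c.DD q (c.SS a b (c.X y)))
      + (2 : F) • c.ezTh y f p q a b) ∈ c.HE A y 1 := by
  rw [G_pair hf a b (c.X y)]
  have e1 : c.DD p (c.DD q (f * c.SS a b (c.X y) - (2 : F) • c.DD ⁅b, c.X y⁆ (c.DD a f)
      + (2 : F) • c.DD ⁅a, ⁅b, c.X y⁆⁆ f)) - (f * c.DD p (c.DD q (c.SS a b (c.X y)))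
      + (2 : F) • c.ezTh y f p q a b)
      = (c.DD p (c.DD q f) * c.SS a b (c.X y) + c.DD q f * c.DD p (c.SS a b (c.X y))
        + c.DD p f * c.DD q (c.SS a b (c.X y)))
        - (2 : F) • c.DD p (c.DD q (c.DD ⁅b, c.X y⁆ (c.DD a f)))
        + (2 : F) • (c.DD ⁅q, ⁅a, ⁅b, c.X y⁆⁆⁆ (c.DD p f)
          + c.DD p (c.DD ⁅a, ⁅b, c.X y⁆⁆ (c.DD q f))) := by
    have e2 : c.DD p (c.DD q (c.DD ⁅a, ⁅b, c.X y⁆⁆ f)) = c.ezTh y f p q a b
        + c.DD ⁅q, ⁅a, ⁅b, c.X y⁆⁆⁆ (c.DD p f) + c.DD p (c.DD ⁅a, ⁅b, c.X y⁆⁆ (c.DD q f)) := by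
      have h1 : c.DD q (c.DD ⁅a, ⁅b, c.X y⁆⁆ f) = c.DD ⁅q, ⁅a, ⁅b, c.X y⁆⁆⁆ f
          + c.DD ⁅a, ⁅b, c.X y⁆⁆ (c.DD q f) := by rw [c.DD_lie q]; abel
      rw [h1, DD_add, ezTh, c.DD_lie p ⁅q, _⁆]
      abel
    rw [DD_add, hex_DD_sub, DD_smul, DD_smul, DD_mul, DD_add, hex_DD_sub, DD_smul, DD_smul,
      DD_add, DD_mul, DD_mul, e2]
    simp only [smul_add]
    abel
  rw [e1]
  refine add_mem (sub_mem (add_mem (add_mem ?_ ?_) ?_) (Submodule.smul_mem _ _ ?_))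
    (Submodule.smul_mem _ _ (add_mem ?_ ?_))
  · exact hex_KK_le (hex_bSS_mem (BP_DD hp (BP_DD hq hf)) ha hb)
  · exact hex_KK_le (hex_KK_mem (l := [p]) (BP_DD hq hf) (by simp) (by simpa using hp) ha hb)
  · exact hex_KK_le (hex_KK_mem (l := [q]) (BP_DD hp hf) (by simp) (by simpa using hq) ha hb)
  · exact DD_HE hp (DD_OE hq (hex_OE1_le (hex_OE1_mem' (BP_DD ha hf) hb)))
  · exact ez_tri hq ha hb (BP_DD hp hf)
  · exact DD_HE hp (DD_two_mem_HE0 ha hb (BP_DD hq hf))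

/-- the symbols in the quotient -/
def ezBr (c : Ctx F ι L P) (A : Finset ι) (y : ι) (p q a b : c.g A) :
    (Module.End F L × P) ⧸ c.HE A y 1 :=
  (c.HE A y 1).mkQ (c.DD p (c.DD q (c.SS a b (c.X y))))

theorem ez_mkQ_eq {A : Finset ι} {y : ι} {v w : Module.End F L × P} :
    (c.HE A y 1).mkQ v = (c.HE A y 1).mkQ w ↔ v - w ∈ c.HE A y 1 :=
  Submodule.Quotient.eq _

theorem ez_mkQ_zero {A : Finset ι} {y : ι} {v : Module.End F L × P} :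
    (c.HE A y 1).mkQ v = 0 ↔ v ∈ c.HE A y 1 := by
  rw [Submodule.mkQ_apply, Submodule.Quotient.mk_eq_zero]

theorem ez_So_coe {A : Finset ι} (p q r v : c.g A) :
    ((EZ.So p q r v : c.g A) : L) = (c.SS (p : L) q r).1 v := by
  change _ = Sop F (p : L) q r v
  rw [Sop_apply]
  simp only [EZ.So, AddMemClass.coe_add, LieSubalgebra.coe_bracket]

theorem ez_Fn_DD {v : Module.End F L × P} (h : Fn v.1) (x : L) : Fn (c.DD x v).1 := h.dop x

theorem ez_Fn_SS (a b e : L) : Fn (c.SS a b e).1 := fn_Sop a b e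

theorem ez_S_br {A : Finset ι} {y : ι} (p q r v v' i j : c.g A) :
    c.DD ((EZ.So p q r v : c.g A) : L) (c.DD v' (c.SS i j (c.X y)))
      = c.SS (p : L) q r * c.DD v (c.DD v' (c.SS i j (c.X y))) := by
  rw [ez_So_coe]
  exact DD_BP (B := A) (SS_mem_BP p.2 q.2 r.2) _ (ez_Fn_DD (ez_Fn_SS _ _ _) _)

theorem ez_brk (A : Finset ι) (y : ι) : EZ.Brk (c.ezBr A y) where
  add1 p p' q a b := by
    simp only [ezBr, AddMemClass.coe_add, DD_add_left, map_add]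
  add3 p q a a' b := by
    simp only [ezBr, AddMemClass.coe_add, ez_SS_add1, DD_add, map_add]
  sym p q a b := by
    simp only [ezBr]
    rw [ez_mkQ_eq, ← DD_lie]
    have := hex_KK_mem (c := c) (y := y) (k := 1) (l := [⁅(p : L), (q : L)⁆]) (one_mem (c.BP A))
      (by simp) (by simpa using LieSubalgebra.lie_mem _ p.2 q.2) a.2 b.2
    rw [one_mul] at this
    exact hex_KK_le this
  alt p q a b := by
    simp only [ezBr]
    rw [ez_SS_swap, hex_DD_neg, hex_DD_neg, map_neg]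
  R3 p q a b := by
    simp only [ezBr]
    rw [← map_add, ← map_add, ← DD_add, ← DD_add, ez_mkQ_zero]
    exact hex_OE_le (DD_OE0 p.2 (R3_mem a.2 b.2 q.2))
  R2 p d e a b := by
    simp only [ezBr, LieSubalgebra.coe_bracket]
    rw [ez_mkQ_eq, ← hex_DD_sub]
    exact hex_HE_mono (Nat.zero_le _) (DD_OE p.2 (R2_mem a.2 b.2 d.2 e.2))
  U p a b e w := by
    have e1 := DD_OE p.2 (R6_mem (c := c) (y := y) a.2 b.2 e.2 w.2)
    have e2 := DD_OE p.2 (R2_mem (c := c) (y := y) b.2 e.2 w.2 a.2)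
    have e3 := DD_OE p.2 (R2_mem (c := c) (y := y) e.2 a.2 w.2 b.2)
    have e4 := DD_OE p.2 (R2_mem (c := c) (y := y) a.2 b.2 w.2 e.2)
    have e5 := sub_mem e1 (add_mem (add_mem e2 e3) e4)
    simp only [ezBr, LieSubalgebra.coe_bracket]
    rw [← map_add, ← map_add, ez_mkQ_zero]
    refine hex_HE_mono (Nat.zero_le _) ?_
    rw [← neg_mem_iff]
    convert e5 using 1
    rw [ez_SS_swap (w : L) a, ez_SS_swap (w : L) b, ez_SS_swap (w : L) e]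
    simp only [hex_DD_neg, hex_DD_sub, DD_add]
    abel
  B p q r v v' i j := by
    have hS : c.SS (p : L) q r ∈ c.BP A := SS_mem_BP p.2 q.2 r.2
    simp only [ezBr]
    rw [ez_S_br, ez_mkQ_eq, ez_So_coe, DD_BP (B := A) hS _ (ez_Fn_SS _ _ _), DD_mul]
    rw [sub_add_cancel_right, neg_mem_iff]
    exact hex_KK_le (hex_KK_mem (l := [(v' : L)]) (BP_DD v.2 hS) (by simp) (by simpa using v'.2)
      i.2 j.2)

end EZ

/-! ## Module EZERO (file EZero.lean) -/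
theorem ezero [St5 L] {A : Finset ι} {y : ι} {x₁ x₂ x₃ x₄ t e e' : L} (h₁ : x₁ ∈ c.g A)
    (h₂ : x₂ ∈ c.g A) (h₃ : x₃ ∈ c.g A) (h₄ : x₄ ∈ c.g A) (ht : t ∈ c.g A) (he : e ∈ c.g A)
    (he' : e' ∈ c.g A) :
    c.DD e (c.DD e' (c.cyc x₁ x₂ x₃ x₄ t (c.X y))) ∈ c.HE A y 1 := by
  lift x₁ to c.g A using h₁
  lift x₂ to c.g A using h₂
  lift x₃ to c.g A using h₃
  lift x₄ to c.g A using h₄
  lift t to c.g A using ht
  lift e to c.g A using he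
  lift e' to c.g A using he'
  have hB := ez_brk (c := c) A y
  have hcyc : ∀ x₁ x₂ x₃ x₄ : c.g A,
      EZ.So x₂ x₃ x₄ x₁ - EZ.So x₁ x₃ x₄ x₂ + EZ.So x₁ x₂ x₄ x₃ - EZ.So x₁ x₂ x₃ x₄ = 0 := by
    intro x₁ x₂ x₃ x₄
    apply Subtype.ext
    have := cyc_apply (F := F) (x₁ : L) x₂ x₃ x₄
    simp only [AddMemClass.coe_add, AddSubgroupClass.coe_sub, ez_So_coe]
    exact this
  have hA := EZ.A_zero F hB hcyc e e' t x₁ x₂ x₃ x₄
  -- the relation R4'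
  have R4 : ∀ p q r a b : c.g A, c.ezBr A y e e' (EZ.So p q r a) b
      = c.ezBr A y (EZ.So p q r e) e' a b
        + (2 : F) • (c.HE A y 1).mkQ (c.ezTh y (c.SS (p : L) q r) e e' a b) := by
    intro p q r a b
    have h := ez_R4' (c := c) (y := y) e.2 e'.2 a.2 b.2 (SS_mem_BP p.2 q.2 r.2)
    simp only [ezBr]
    rw [ez_S_br, ez_So_coe, ← map_smul, ← map_add, ez_mkQ_eq]
    exact h
  have Th : ∀ p q r a b : c.g A, (c.HE A y 1).mkQ (c.ezTh y (c.SS (p : L) q r) e e' a b)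
      = (c.HE A y 1).mkQ (c.ezTh y (c.SS (p : L) q r) e e' b a) := by
    intro p q r a b
    rw [ez_mkQ_eq]
    exact ez_Th_swap e.2 e'.2 a.2 b.2 (SS_mem_BP p.2 q.2 r.2)
  have h0 := congrArg (fun u => c.ezBr A y e e' u t) (hcyc x₁ x₂ x₃ x₄)
  simp only [sub_eq_add_neg, hB.add3, hB.neg3, hB.zero3] at h0
  rw [R4, R4, R4, R4, Th _ _ _ x₁, Th _ _ _ x₂, Th _ _ _ x₃, Th _ _ _ x₄,
    hB.alt _ _ t x₁, hB.alt _ _ t x₂, hB.alt _ _ t x₃, hB.alt _ _ t x₄] at h0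
  rw [← ez_mkQ_zero]
  have hE : (c.HE A y 1).mkQ (c.DD e (c.DD e' (c.cyc x₁ x₂ x₃ x₄ t (c.X y))))
      = c.ezBr A y e e' x₁ (EZ.So x₂ x₃ x₄ t) - c.ezBr A y e e' x₂ (EZ.So x₁ x₃ x₄ t)
        + c.ezBr A y e e' x₃ (EZ.So x₁ x₂ x₄ t) - c.ezBr A y e e' x₄ (EZ.So x₁ x₂ x₃ t) := by
    simp only [ezBr, ← map_add, ← map_sub, ← DD_add, ← hex_DD_sub, ez_So_coe]
    rfl
  rw [hE, hB.alt _ _ _ x₁, hB.alt _ _ _ x₂, hB.alt _ _ _ x₃, hB.alt _ _ _ x₄, R4, R4, R4, R4]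
  simp only [EZ.Aq] at hA
  have hz : (0 : (Module.End F L × P) ⧸ c.HE A y 1) = - 0 - 0 - 0 := by abel
  refine Eq.trans ?_ hz.symm
  nth_rewrite 1 [← hA]
  nth_rewrite 1 [← h0]
  nth_rewrite 1 [← hA]
  abel

end Ctx

end Helper39W1
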