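import Pool.Agent.Helper39_W1.Defs

set_option autoImplicit false

noncomputable section

namespace Helper39W1

universe u

section Level0
variable {F : Type u} [Field F] {L : Type u} [LieRing L] [LieAlgebra F L]

theorem Sop_apply (a b c z : L) :
    Sop F a b c z = ⁅a, ⁅⁅b, c⁆, z⁆⁆ + ⁅b, ⁅⁅c, a⁆, z⁆⁆ + ⁅c, ⁅⁅a, b⁆, z⁆⁆ := by
  simp only [Sop, LinearMap.add_apply, Module.End.mul_apply, LieAlgebra.ad_apply]

theorem Sop_add1 (a a' b c : L) : Sop F (a + a') b c = Sop F a b c + Sop F a' b c := by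
  ext z; simp only [Sop_apply, LinearMap.add_apply, add_lie, lie_add]; abel
theorem Sop_add2 (a b b' c : L) : Sop F a (b + b') c = Sop F a b c + Sop F a b' c := by
  ext z; simp only [Sop_apply, LinearMap.add_apply, add_lie, lie_add]; abel
theorem Sop_add3 (a b c c' : L) : Sop F a b (c + c') = Sop F a b c + Sop F a b c' := by
  ext z; simp only [Sop_apply, LinearMap.add_apply, add_lie, lie_add]; abel
theorem Sop_smul1 (t : F) (a b c : L) : Sop F (t • a) b c = t • Sop F a b c := by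
  ext z; simp only [Sop_apply, LinearMap.smul_apply, smul_lie, lie_smul, smul_add]
theorem Sop_smul2 (t : F) (a b c : L) : Sop F a (t • b) c = t • Sop F a b c := by
  ext z; simp only [Sop_apply, LinearMap.smul_apply, smul_lie, lie_smul, smul_add]
theorem Sop_smul3 (t : F) (a b c : L) : Sop F a b (t • c) = t • Sop F a b c := by
  ext z; simp only [Sop_apply, LinearMap.smul_apply, smul_lie, lie_smul, smul_add]
theorem Sop_neg1 (a b c : L) : Sop F (-a) b c = - Sop F a b c := by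
  ext z; simp only [Sop_apply, LinearMap.neg_apply, neg_lie, lie_neg, neg_add_rev]; abel
theorem Sop_neg2 (a b c : L) : Sop F a (-b) c = - Sop F a b c := by
  ext z; simp only [Sop_apply, LinearMap.neg_apply, neg_lie, lie_neg, neg_add_rev]; abel
theorem Sop_neg3 (a b c : L) : Sop F a b (-c) = - Sop F a b c := by
  ext z; simp only [Sop_apply, LinearMap.neg_apply, neg_lie, lie_neg, neg_add_rev]; abel
theorem Sop_sub1 (a a' b c : L) : Sop F (a - a') b c = Sop F a b c - Sop F a' b c := by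
  rw [sub_eq_add_neg, Sop_add1, Sop_neg1, ← sub_eq_add_neg]
theorem Sop_sub2 (a b b' c : L) : Sop F a (b - b') c = Sop F a b c - Sop F a b' c := by
  rw [sub_eq_add_neg, Sop_add2, Sop_neg2, ← sub_eq_add_neg]
theorem Sop_sub3 (a b c c' : L) : Sop F a b (c - c') = Sop F a b c - Sop F a b c' := by
  rw [sub_eq_add_neg, Sop_add3, Sop_neg3, ← sub_eq_add_neg]
theorem Sop_zero1 (b c : L) : Sop F 0 b c = 0 := by
  ext z; simp [Sop_apply]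
theorem Sop_zero2 (a c : L) : Sop F a 0 c = 0 := by
  ext z; simp [Sop_apply]
theorem Sop_zero3 (a b : L) : Sop F a b 0 = 0 := by
  ext z; simp [Sop_apply]
theorem Sop_swap12 (a b c : L) : Sop F b a c = - Sop F a b c := by
  ext z
  simp only [Sop_apply, LinearMap.neg_apply]
  rw [← lie_skew a c, ← lie_skew c b, ← lie_skew b a]
  simp only [neg_lie, lie_neg]; abel
theorem Sop_swap23 (a b c : L) : Sop F a c b = - Sop F a b c := by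
  ext z
  simp only [Sop_apply, LinearMap.neg_apply]
  rw [← lie_skew c b, ← lie_skew b a, ← lie_skew a c]
  simp only [neg_lie, lie_neg]; abel
theorem Sop_swap13 (a b c : L) : Sop F c b a = - Sop F a b c := by
  ext z
  simp only [Sop_apply, LinearMap.neg_apply]
  rw [← lie_skew c b, ← lie_skew b a, ← lie_skew a c]
  simp only [neg_lie, lie_neg]; abel
theorem Sop_cyc (a b c : L) : Sop F b c a = Sop F a b c := by
  ext z
  simp only [Sop_apply]; abel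
theorem Sop_self12 (a c : L) : Sop F a a c = 0 := by
  ext z
  simp only [Sop_apply, lie_self, zero_lie, lie_zero, add_zero, LinearMap.zero_apply]
  rw [← lie_skew a c]; simp
theorem Sop_self23 (a c : L) : Sop F c a a = 0 := by
  rw [Sop_cyc, Sop_cyc, Sop_self12]
theorem Sop_self13 (a c : L) : Sop F a c a = 0 := by
  rw [Sop_swap23 a a c, Sop_self12, neg_zero]

theorem Dop_apply (x z : L) (φ : Module.End F L) :
    (Dop x φ : Module.End F L) z = ⁅x, φ z⁆ - φ ⁅x, z⁆ := by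
  simp only [Dop, LinearMap.sub_apply, Module.End.mul_apply, LieAlgebra.ad_apply]
theorem Dop_add (x : L) (φ ψ : Module.End F L) : Dop x (φ + ψ) = Dop x φ + Dop x ψ := by
  simp only [Dop, mul_add, add_mul]; abel
theorem Dop_sub (x : L) (φ ψ : Module.End F L) : Dop x (φ - ψ) = Dop x φ - Dop x ψ := by
  simp only [Dop, mul_sub, sub_mul]; abel
theorem Dop_neg (x : L) (φ : Module.End F L) : Dop x (-φ) = - Dop x φ := by
  simp only [Dop, mul_neg, neg_mul]; abel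
theorem Dop_smul (t : F) (x : L) (φ : Module.End F L) : Dop x (t • φ) = t • Dop x φ := by
  simp only [Dop, mul_smul_comm, smul_mul_assoc, smul_sub]
theorem Dop_mul (x : L) (φ ψ : Module.End F L) : Dop x (φ * ψ) = Dop x φ * ψ + φ * Dop x ψ := by
  simp only [Dop]; noncomm_ring
theorem Dop_one (x : L) : Dop x (1 : Module.End F L) = 0 := by
  simp [Dop]
theorem Dop_zero (x : L) : Dop x (0 : Module.End F L) = 0 := by
  simp [Dop]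
theorem Dop_add_left (x y : L) (φ : Module.End F L) : Dop (x + y) φ = Dop x φ + Dop y φ := by
  simp only [Dop, map_add, mul_add, add_mul]; abel
theorem Dop_sub_left (x y : L) (φ : Module.End F L) : Dop (x - y) φ = Dop x φ - Dop y φ := by
  simp only [Dop, map_sub, mul_sub, sub_mul]; abel
theorem Dop_smul_left (t : F) (x : L) (φ : Module.End F L) : Dop (t • x) φ = t • Dop x φ := by
  simp only [Dop, map_smul, mul_smul_comm, smul_mul_assoc, smul_sub]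
theorem Dop_zero_left (φ : Module.End F L) : Dop (0 : L) φ = 0 := by
  simp [Dop]
theorem Dop_neg_left (x : L) (φ : Module.End F L) : Dop (-x) φ = - Dop x φ := by
  simp only [Dop, map_neg, mul_neg, neg_mul]; abel
theorem ad_lie_eq (x y : L) : LieAlgebra.ad F L ⁅x, y⁆ =
    LieAlgebra.ad F L x * LieAlgebra.ad F L y - LieAlgebra.ad F L y * LieAlgebra.ad F L x := by
  ext z; simp [Module.End.mul_apply]
theorem Dop_lie (x y : L) (φ : Module.End F L) :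
    Dop ⁅x, y⁆ φ = Dop x (Dop y φ) - Dop y (Dop x φ) := by
  simp only [Dop, ad_lie_eq]; noncomm_ring
theorem Dop_ad (x y : L) : Dop x (LieAlgebra.ad F L y) = LieAlgebra.ad F L ⁅x, y⁆ := by
  rw [ad_lie_eq, Dop]

theorem jacobi' (a b c : L) : ⁅⁅a, b⁆, c⁆ + ⁅⁅b, c⁆, a⁆ + ⁅⁅c, a⁆, b⁆ = 0 := by
  have := lie_jacobi a b c
  rw [← lie_skew ⁅a, b⁆ c, ← lie_skew ⁅b, c⁆ a, ← lie_skew ⁅c, a⁆ b]
  rw [← neg_eq_zero, ← this]; abel

/-- (0.2) -/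
theorem Dop_Sop (x a b c : L) :
    Dop x (Sop F a b c) = Sop F ⁅x, a⁆ b c + Sop F a ⁅x, b⁆ c + Sop F a b ⁅x, c⁆ := by
  simp only [Sop, Dop_add, Dop_mul, Dop_ad]
  rw [leibniz_lie x b c, leibniz_lie x c a, leibniz_lie x a b]
  simp only [map_add, mul_add]
  abel

theorem Sop_apply_norm (b c x a : L) :
    Sop F b c x a = -⁅b, ⁅a, ⁅c, x⁆⁆⁆ + ⁅c, ⁅a, ⁅b, x⁆⁆⁆ - ⁅⁅⁅b, c⁆, a⁆, x⁆ := by
  simp only [Sop_apply]
  have e1 : ⁅⁅c, x⁆, a⁆ = -⁅a, ⁅c, x⁆⁆ := by rw [lie_skew]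
  have e2 : ⁅⁅x, b⁆, a⁆ = ⁅a, ⁅b, x⁆⁆ := by
    rw [← lie_skew x b, neg_lie, lie_skew]
  have e3 : ⁅x, ⁅⁅b, c⁆, a⁆⁆ = -⁅⁅⁅b, c⁆, a⁆, x⁆ := by rw [lie_skew]
  rw [e1, e2, e3, lie_neg]; abel

/-- (0.3) -/
theorem Sop_apply_comm (a b c x : L) :
    Sop F b c x a = Sop F a b c x - (2 : F) • ⁅⁅b, c⁆, ⁅a, x⁆⁆ := by
  simp only [Sop_apply]
  have e1 : ⁅⁅c, x⁆, a⁆ = -⁅a, ⁅c, x⁆⁆ := by rw [lie_skew]
  have e2 : ⁅⁅x, b⁆, a⁆ = ⁅a, ⁅b, x⁆⁆ := by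
    rw [← lie_skew x b, neg_lie, lie_skew]
  have e3 : ⁅x, ⁅⁅b, c⁆, a⁆⁆ = -⁅⁅⁅b, c⁆, a⁆, x⁆ := by rw [lie_skew]
  rw [e1, e2, e3]
  simp only [lie_lie, lie_sub, sub_lie, lie_neg, neg_sub, smul_sub, two_smul]
  abel

theorem perm_sum {M : Type u} [AddCommGroup M] (n : ℕ) (f : Equiv.Perm (Fin (n + 1)) → M) :
    ∑ σ, f σ = ∑ p : Fin (n + 1), ∑ e : Equiv.Perm (Fin n), f (Equiv.Perm.decomposeFin.symm (p, e)) := by
  rw [← Equiv.sum_comp Equiv.Perm.decomposeFin.symm, Fintype.sum_prod_type]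

theorem perm_sum_two {M : Type u} [AddCommGroup M] (f : Fin 2 → Fin 2 → M) :
    ∑ σ : Equiv.Perm (Fin 2), ((Equiv.Perm.sign σ : ℤˣ) : ℤ) • f (σ 0) (σ 1) = f 0 1 - f 1 0 := by
  have h : (Finset.univ : Finset (Equiv.Perm (Fin 2))) = {1, Equiv.swap 0 1} := by decide
  rw [h, Finset.sum_pair (by decide)]
  simp [sub_eq_add_neg]

theorem perm_sum_three {M : Type u} [AddCommGroup M] (f : Fin 3 → Fin 3 → Fin 3 → M) :
    ∑ σ : Equiv.Perm (Fin 3), ((Equiv.Perm.sign σ : ℤˣ) : ℤ) • f (σ 0) (σ 1) (σ 2) = 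
      f 0 1 2 - f 0 2 1 - f 1 0 2 + f 1 2 0 + f 2 0 1 - f 2 1 0 := by
  have h1 : (1 : Fin 3) = Fin.succ 0 := rfl
  have h2 : (2 : Fin 3) = Fin.succ 1 := rfl
  rw [perm_sum]
  have key : ∀ p : Fin 3, ∑ e : Equiv.Perm (Fin 2), ((Equiv.Perm.sign (Equiv.Perm.decomposeFin.symm (p, e)) : ℤˣ) : ℤ) •
      f (Equiv.Perm.decomposeFin.symm (p, e) 0) (Equiv.Perm.decomposeFin.symm (p, e) 1) (Equiv.Perm.decomposeFin.symm (p, e) 2) =
      (if p = 0 then (1:ℤ) else -1) • (f p (Equiv.swap 0 p 1) (Equiv.swap 0 p 2) - f p (Equiv.swap 0 p 2) (Equiv.swap 0 p 1)) := by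
    intro p
    have := perm_sum_two (fun a b => (if p = 0 then (1:ℤ) else -1) • f p (Equiv.swap 0 p a.succ) (Equiv.swap 0 p b.succ))
    rw [smul_sub]
    refine Eq.trans ?_ this
    refine Finset.sum_congr rfl fun e _ => ?_
    rw [h1, h2]
    simp only [Equiv.Perm.decomposeFin_symm_apply_zero, Equiv.Perm.decomposeFin_symm_apply_succ, Equiv.Perm.decomposeFin.symm_sign]
    by_cases hp : p = 0
    · simp [hp]
    · simp [hp]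
  rw [Finset.sum_congr rfl fun p _ => key p]
  rw [Fin.sum_univ_three]
  have e1 : (Equiv.swap (0:Fin 3) 1) 1 = 0 := by decide
  have e2 : (Equiv.swap (0:Fin 3) 1) 2 = 2 := by decide
  have e3 : (Equiv.swap (0:Fin 3) 2) 1 = 1 := by decide
  have e4 : (Equiv.swap (0:Fin 3) 2) 2 = 0 := by decide
  simp [e1,e2,e3,e4]
  abel

theorem perm_sum_four {M : Type u} [AddCommGroup M] (f : Fin 4 → Fin 4 → Fin 4 → Fin 4 → M) :
    ∑ σ : Equiv.Perm (Fin 4), ((Equiv.Perm.sign σ : ℤˣ) : ℤ) • f (σ 0) (σ 1) (σ 2) (σ 3) =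
      f 0 1 2 3 - f 0 1 3 2 - f 0 2 1 3 + f 0 2 3 1 + f 0 3 1 2 - f 0 3 2 1
      - f 1 0 2 3 + f 1 0 3 2 + f 1 2 0 3 - f 1 2 3 0 - f 1 3 0 2 + f 1 3 2 0
      + f 2 0 1 3 - f 2 0 3 1 - f 2 1 0 3 + f 2 1 3 0 + f 2 3 0 1 - f 2 3 1 0
      - f 3 0 1 2 + f 3 0 2 1 + f 3 1 0 2 - f 3 1 2 0 - f 3 2 0 1 + f 3 2 1 0 := by
  have h1 : (1 : Fin 4) = Fin.succ 0 := rfl
  have h2 : (2 : Fin 4) = Fin.succ 1 := rfl
  have h3 : (3 : Fin 4) = Fin.succ 2 := rfl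
  rw [perm_sum]
  have key : ∀ p : Fin 4, ∑ e : Equiv.Perm (Fin 3), ((Equiv.Perm.sign (Equiv.Perm.decomposeFin.symm (p, e)) : ℤˣ) : ℤ) •
      f (Equiv.Perm.decomposeFin.symm (p, e) 0) (Equiv.Perm.decomposeFin.symm (p, e) 1) (Equiv.Perm.decomposeFin.symm (p, e) 2)
        (Equiv.Perm.decomposeFin.symm (p, e) 3) =
      (if p = 0 then (1:ℤ) else -1) • (f p (Equiv.swap 0 p 1) (Equiv.swap 0 p 2) (Equiv.swap 0 p 3) - f p (Equiv.swap 0 p 1) (Equiv.swap 0 p 3) (Equiv.swap 0 p 2)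
        - f p (Equiv.swap 0 p 2) (Equiv.swap 0 p 1) (Equiv.swap 0 p 3) + f p (Equiv.swap 0 p 2) (Equiv.swap 0 p 3) (Equiv.swap 0 p 1)
        + f p (Equiv.swap 0 p 3) (Equiv.swap 0 p 1) (Equiv.swap 0 p 2) - f p (Equiv.swap 0 p 3) (Equiv.swap 0 p 2) (Equiv.swap 0 p 1)) := by
    intro p
    have := perm_sum_three (fun a b c => (if p = 0 then (1:ℤ) else -1) • f p (Equiv.swap 0 p a.succ) (Equiv.swap 0 p b.succ) (Equiv.swap 0 p c.succ))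
    simp only [smul_sub, smul_add]
    refine Eq.trans ?_ this
    refine Finset.sum_congr rfl fun e _ => ?_
    rw [h1, h2, h3]
    simp only [Equiv.Perm.decomposeFin_symm_apply_zero, Equiv.Perm.decomposeFin_symm_apply_succ, Equiv.Perm.decomposeFin.symm_sign]
    by_cases hp : p = 0
    · simp [hp]
    · simp [hp]
  rw [Finset.sum_congr rfl fun p _ => key p]
  rw [Fin.sum_univ_four]
  have e1 : (Equiv.swap (0:Fin 4) 1) 1 = 0 := by decide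
  have e2 : (Equiv.swap (0:Fin 4) 1) 2 = 2 := by decide
  have e3 : (Equiv.swap (0:Fin 4) 1) 3 = 3 := by decide
  have e4 : (Equiv.swap (0:Fin 4) 2) 1 = 1 := by decide
  have e5 : (Equiv.swap (0:Fin 4) 2) 2 = 0 := by decide
  have e6 : (Equiv.swap (0:Fin 4) 2) 3 = 3 := by decide
  have e7 : (Equiv.swap (0:Fin 4) 3) 1 = 1 := by decide
  have e8 : (Equiv.swap (0:Fin 4) 3) 2 = 2 := by decide
  have e9 : (Equiv.swap (0:Fin 4) 3) 3 = 0 := by decide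
  simp [e1,e2,e3,e4,e5,e6,e7,e8,e9]
  abel

/-- the standard polynomial in terms of `S` -/
theorem st5_eq (x₁ x₂ x₃ x₄ z : L) :
    st5 ![x₁, x₂, x₃, x₄] z = ⁅x₁, Sop F x₂ x₃ x₄ z⁆ - ⁅x₂, Sop F x₁ x₃ x₄ z⁆
      + ⁅x₃, Sop F x₁ x₂ x₄ z⁆ - ⁅x₄, Sop F x₁ x₂ x₃ z⁆ := by
  rw [st5]
  rw [perm_sum_four (fun i j k l => ⁅(![x₁, x₂, x₃, x₄] : Fin 4 → L) i, ⁅(![x₁, x₂, x₃, x₄] : Fin 4 → L) j,
    ⁅(![x₁, x₂, x₃, x₄] : Fin 4 → L) k, ⁅(![x₁, x₂, x₃, x₄] : Fin 4 → L) l, z⁆⁆⁆⁆)]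
  have h0 : (![x₁, x₂, x₃, x₄] : Fin 4 → L) 0 = x₁ := rfl
  have h1 : (![x₁, x₂, x₃, x₄] : Fin 4 → L) 1 = x₂ := rfl
  have h2 : (![x₁, x₂, x₃, x₄] : Fin 4 → L) 2 = x₃ := rfl
  have h3 : (![x₁, x₂, x₃, x₄] : Fin 4 → L) 3 = x₄ := rfl
  simp only [h0, h1, h2, h3, Sop_apply, lie_lie, lie_add, lie_sub]
  abel

theorem st5_eq' (x₁ x₂ x₃ x₄ z : L) :
    st5 ![x₁, x₂, x₃, x₄] z = (Sop F ⁅x₁, x₂⁆ x₃ x₄ - Sop F ⁅x₁, x₃⁆ x₂ x₄ + Sop F ⁅x₁, x₄⁆ x₂ x₃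
      + Sop F ⁅x₂, x₃⁆ x₁ x₄ - Sop F ⁅x₂, x₄⁆ x₁ x₃ + Sop F ⁅x₃, x₄⁆ x₁ x₂) z := by
  rw [st5_eq (F := F)]
  simp only [Sop_apply, LinearMap.add_apply, LinearMap.sub_apply, lie_lie, lie_add, lie_sub, sub_lie]
  abel

theorem st5_hom {L' : Type u} [LieRing L'] [LieAlgebra F L'] (f : L →ₗ⁅F⁆ L') (x : Fin 4 → L)
    (z : L) : f (st5 x z) = st5 (fun i => f (x i)) (f z) := by
  simp only [st5, map_sum, map_zsmul, LieHom.map_lie]

variable [St5 L]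

/-- (0.4) -/
theorem Sop_boundary (x₁ x₂ x₃ x₄ : L) :
    Sop F ⁅x₁, x₂⁆ x₃ x₄ - Sop F ⁅x₁, x₃⁆ x₂ x₄ + Sop F ⁅x₁, x₄⁆ x₂ x₃
      + Sop F ⁅x₂, x₃⁆ x₁ x₄ - Sop F ⁅x₂, x₄⁆ x₁ x₃ + Sop F ⁅x₃, x₄⁆ x₁ x₂ = 0 := by
  ext z
  rw [← st5_eq', St5.eq_zero]; rfl

/-- (0.5) -/
theorem Dop_Sop' (z a b c : L) :
    Dop z (Sop F a b c) = Sop F ⁅a, b⁆ c z + Sop F ⁅b, c⁆ a z + Sop F ⁅c, a⁆ b z := by
  have h := Sop_boundary (F := F) a b c z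
  have e1 : Sop F ⁅z, a⁆ b c = - Sop F ⁅a, z⁆ b c := by rw [← lie_skew a z, Sop_neg1, neg_neg]
  have e2 : Sop F a ⁅z, b⁆ c = Sop F ⁅b, z⁆ a c := by
    rw [Sop_swap12 ⁅z, b⁆ a c, ← lie_skew z b, Sop_neg1, neg_neg]
  have e3 : Sop F a b ⁅z, c⁆ = - Sop F ⁅c, z⁆ a b := by
    rw [← lie_skew c z, Sop_neg1, neg_neg, Sop_cyc]
  have e4 : Sop F ⁅c, a⁆ b z = - Sop F ⁅a, c⁆ b z := by rw [← lie_skew a c, Sop_neg1, neg_neg]
  rw [Dop_Sop, e1, e2, e3, e4]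
  rw [← sub_eq_zero, ← neg_eq_zero, ← h]
  abel

theorem cyc_lie (x₁ x₂ x₃ x₄ z : L) :
    ⁅x₁, Sop F x₂ x₃ x₄ z⁆ - ⁅x₂, Sop F x₁ x₃ x₄ z⁆
      + ⁅x₃, Sop F x₁ x₂ x₄ z⁆ - ⁅x₄, Sop F x₁ x₂ x₃ z⁆ = 0 := by
  rw [← st5_eq, St5.eq_zero]

omit [St5 L] in
theorem cyc_apply (x₁ x₂ x₃ x₄ : L) :
    Sop F x₂ x₃ x₄ x₁ - Sop F x₁ x₃ x₄ x₂ + Sop F x₁ x₂ x₄ x₃ - Sop F x₁ x₂ x₃ x₄ = 0 := by
  rw [Sop_apply_norm x₂ x₃ x₄ x₁, Sop_apply_norm x₁ x₃ x₄ x₂, Sop_apply_norm x₁ x₂ x₄ x₃]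
  simp only [Sop_apply, lie_lie, lie_sub, sub_lie]
  abel

/-- (0.6) -/
theorem fn_Sop (a b c : L) : Fn (Sop F a b c) := by
  intro z w
  rw [Dop_Sop', Dop_Sop']
  simp only [LinearMap.add_apply]
  have h1 := Sop_apply_comm (F := F) w ⁅a, b⁆ c z
  have h2 := Sop_apply_comm (F := F) w ⁅b, c⁆ a z
  have h3 := Sop_apply_comm (F := F) w ⁅c, a⁆ b z
  rw [h1, h2, h3, Sop_cyc w ⁅a, b⁆ c, Sop_cyc w ⁅b, c⁆ a, Sop_cyc w ⁅c, a⁆ b]
  have hJ : ⁅⁅⁅a, b⁆, c⁆, ⁅w, z⁆⁆ + ⁅⁅⁅b, c⁆, a⁆, ⁅w, z⁆⁆ + ⁅⁅⁅c, a⁆, b⁆, ⁅w, z⁆⁆ = 0 := by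
    rw [← add_lie, ← add_lie]
    rw [jacobi', zero_lie]
  have h4 : (2 : F) • (⁅⁅⁅a, b⁆, c⁆, ⁅w, z⁆⁆ + ⁅⁅⁅b, c⁆, a⁆, ⁅w, z⁆⁆ + ⁅⁅⁅c, a⁆, b⁆, ⁅w, z⁆⁆) = 0 := by
    rw [hJ, smul_zero]
  rw [← sub_eq_zero, ← neg_eq_zero, ← h4]
  simp only [smul_add]
  abel

end Level0

end Helper39W1
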