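import Pool.Agent.Helper39_W1.LLApi
import Pool.Agent.Helper39_W1.Level0

set_option autoImplicit false

noncomputable section

namespace Helper39W1

universe u

section H2aux

/-- a two cocycle with values in `G` -/
structure H2Coc (F : Type u) [Field F] (L G : Type u) [LieRing L] [LieAlgebra F L]
    [AddCommGroup G] [Module F G] where
  q : L →ₗ[F] L →ₗ[F] G
  self : ∀ a, q a a = 0
  coc : ∀ a b e, q ⁅a, b⁆ e + q ⁅b, e⁆ a + q ⁅e, a⁆ b = 0

variable {F : Type u} [Field F] {L G : Type u} [LieRing L] [LieAlgebra F L]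
    [AddCommGroup G] [Module F G]

theorem H2Coc.skew (κ : H2Coc F L G) (a b : L) : κ.q a b = - κ.q b a := by
  have h := κ.self (a + b)
  simp only [map_add, LinearMap.add_apply] at h
  rw [κ.self, κ.self, zero_add, add_zero] at h
  exact (eq_neg_of_add_eq_zero_right h)

/-- the central extension -/
def H2Ext (_κ : H2Coc F L G) : Type u := L × G

variable (κ : H2Coc F L G)

instance : AddCommGroup (H2Ext κ) := inferInstanceAs (AddCommGroup (L × G))
instance : Module F (H2Ext κ) := inferInstanceAs (Module F (L × G))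

theorem H2Coc.leibniz (x y z : L) : κ.q x ⁅y, z⁆ = κ.q ⁅x, y⁆ z + κ.q y ⁅x, z⁆ := by
  have h := κ.coc x y z
  rw [κ.skew x ⁅y, z⁆, κ.skew y ⁅x, z⁆, ← lie_skew z x, map_neg, LinearMap.neg_apply] at *
  have h2 : κ.q ⁅y, z⁆ x = - κ.q ⁅x, y⁆ z + κ.q ⁅x, z⁆ y := by
    have h' : κ.q ⁅y, z⁆ x + (κ.q ⁅x, y⁆ z - κ.q ⁅x, z⁆ y) = 0 := by
      rw [← h]; abel
    rw [eq_neg_of_add_eq_zero_left h']; abel
  rw [h2]; abel

instance : LieRing (H2Ext κ) where
  bracket := fun (a b : L × G) => (⁅a.1, b.1⁆, κ.q a.1 b.1)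
  add_lie := fun (a b e : L × G) => by
    change (⁅a.1 + b.1, e.1⁆, κ.q (a.1 + b.1) e.1) = (⁅a.1, e.1⁆, κ.q a.1 e.1) + (⁅b.1, e.1⁆, κ.q b.1 e.1)
    rw [add_lie, map_add, LinearMap.add_apply]; rfl
  lie_add := fun (a b e : L × G) => by
    change (⁅a.1, b.1 + e.1⁆, κ.q a.1 (b.1 + e.1)) = (⁅a.1, b.1⁆, κ.q a.1 b.1) + (⁅a.1, e.1⁆, κ.q a.1 e.1)
    rw [lie_add, map_add]; rfl
  lie_self := fun (a : L × G) => by
    change (⁅a.1, a.1⁆, κ.q a.1 a.1) = (0 : L × G)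
    rw [lie_self, κ.self]; rfl
  leibniz_lie := fun (a b e : L × G) => by
    change (⁅a.1, ⁅b.1, e.1⁆⁆, κ.q a.1 ⁅b.1, e.1⁆) = (⁅⁅a.1, b.1⁆, e.1⁆, κ.q ⁅a.1, b.1⁆ e.1) +
      (⁅b.1, ⁅a.1, e.1⁆⁆, κ.q b.1 ⁅a.1, e.1⁆)
    rw [leibniz_lie, κ.leibniz]; rfl

theorem H2Ext.lie_fst (a b : H2Ext κ) : (⁅a, b⁆ : H2Ext κ).1 = ⁅a.1, b.1⁆ := rfl
theorem H2Ext.lie_snd (a b : H2Ext κ) : (⁅a, b⁆ : H2Ext κ).2 = κ.q a.1 b.1 := rfl

instance : LieAlgebra F (H2Ext κ) where
  lie_smul := fun (t : F) (a b : L × G) => by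
    change (⁅a.1, t • b.1⁆, κ.q a.1 (t • b.1)) = t • (⁅a.1, b.1⁆, κ.q a.1 b.1)
    rw [lie_smul, map_smul]; rfl

/-- the projection -/
def H2Ext.fst : H2Ext κ →ₗ⁅F⁆ L :=
  { (LinearMap.fst F L G : L × G →ₗ[F] L) with
    map_lie' := fun {_ _} => rfl }

/-- the elements -/
def H2Ext.mk (a : L) (b : G) : H2Ext κ := ((a, b) : L × G)

/-- the second component -/
def H2Ext.snd : H2Ext κ →ₗ[F] G := (LinearMap.snd F L G : L × G →ₗ[F] G)

theorem H2Ext.fst_apply (a : H2Ext κ) : H2Ext.fst κ a = a.1 := rfl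
theorem H2Ext.snd_apply (a : H2Ext κ) : H2Ext.snd κ a = a.2 := rfl
theorem H2Ext.fst_mk (a : L) (b : G) : H2Ext.fst κ (H2Ext.mk κ a b) = a := rfl
theorem H2Ext.snd_mk (a : L) (b : G) : H2Ext.snd κ (H2Ext.mk κ a b) = b := rfl
theorem H2Ext.snd_lie (a b : H2Ext κ) : H2Ext.snd κ ⁅a, b⁆ = κ.q (H2Ext.fst κ a) (H2Ext.fst κ b) := rfl
theorem H2Ext.ext' (a b : H2Ext κ) (h1 : H2Ext.fst κ a = H2Ext.fst κ b)
    (h2 : H2Ext.snd κ a = H2Ext.snd κ b) : a = b := Prod.ext h1 h2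

theorem H2aux_Sop_map {L' : Type u} [LieRing L'] [LieAlgebra F L'] (f : L →ₗ⁅F⁆ L') (a b e z : L) :
    f (Sop F a b e z) = Sop F (f a) (f b) (f e) (f z) := by
  simp [Sop, LinearMap.add_apply, LieAlgebra.ad_apply]

theorem H2Ext.st5 [St5 L]
    (h : ∀ x₁ x₂ x₃ x₄ t : L, κ.q x₁ (Sop F x₂ x₃ x₄ t) - κ.q x₂ (Sop F x₁ x₃ x₄ t)
        + κ.q x₃ (Sop F x₁ x₂ x₄ t) - κ.q x₄ (Sop F x₁ x₂ x₃ t) = 0) : St5 (H2Ext κ) where
  eq_zero := fun x z => by
    apply H2Ext.ext'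
    · rw [LLaux_st5_map, map_zero]
      exact St5.eq_zero _ _
    · have hx : x = ![x 0, x 1, x 2, x 3] := by
        funext i; fin_cases i <;> rfl
      rw [hx, st5_eq (F := F), map_zero, map_sub, map_add, map_sub]
      simp only [H2Ext.snd_lie, H2aux_Sop_map]
      exact h _ _ _ _ _

/-- an abelian Lie algebra -/
def H2Ab (V : Type u) : Type u := V
instance (V : Type u) [AddCommGroup V] : AddCommGroup (H2Ab V) := inferInstanceAs (AddCommGroup V)
instance (V : Type u) [AddCommGroup V] [Module F V] : Module F (H2Ab V) :=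
  inferInstanceAs (Module F V)
instance (V : Type u) [AddCommGroup V] : LieRing (H2Ab V) where
  bracket := fun _ _ => 0
  add_lie := fun _ _ _ => (add_zero (0 : V)).symm
  lie_add := fun _ _ _ => (add_zero (0 : V)).symm
  lie_self := fun _ => rfl
  leibniz_lie := fun _ _ _ => (add_zero (0 : V)).symm
theorem H2Ab.lie_eq (V : Type u) [AddCommGroup V] (a b : H2Ab V) : ⁅a, b⁆ = 0 := rfl
instance (V : Type u) [AddCommGroup V] [Module F V] : LieAlgebra F (H2Ab V) where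
  lie_smul := fun t a b => by
    rw [H2Ab.lie_eq, H2Ab.lie_eq, smul_zero]
instance (V : Type u) [AddCommGroup V] : St5 (H2Ab V) where
  eq_zero := fun x z => by
    rw [Helper39W1.st5]
    apply Finset.sum_eq_zero
    intro σ _
    rw [H2Ab.lie_eq, smul_zero]

end H2aux

section LLprops
variable {F : Type u} [Field F] [CharZero F] {ι : Type} [DecidableEq ι] {P : Type u} [CommRing P]
  [Algebra F P] (c : Ctx F ι (LL F ι) P) (hX : c.X = LX F ι) (hM : c.M = LM F ι)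
include hX hM

theorem LL_H2 (A : Finset ι) : c.H2prop A := by
  intro G _ _ q hself hcoc hN hcyc
  obtain ⟨ρ, hρ1, hρ2⟩ := LL_lift F ι (A := LL F ι) (fun i => if i ∈ A then LX F ι i else 0)
    (fun i => LM F ι i) (fun i => by
      by_cases h : i ∈ A
      · simp only [h, if_true]; exact LieSubmodule.subset_lieSpan rfl
      · simp only [h, if_false]; exact (LM F ι i).zero_mem)
    (fun i u hu v hv => LM_comm F ι i u v hu hv)
  -- the image of `ρ` lies in `g A`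
  have hρg : ∀ x, ρ x ∈ c.g A := by
    intro x
    have hx : x ∈ LieSubalgebra.lieSpan F (LL F ι) (Set.range (LX F ι)) := by
      rw [LX_gen]; trivial
    have hle : LieSubalgebra.lieSpan F (LL F ι) (Set.range (LX F ι)) ≤
        LieSubalgebra.comap ρ (c.g A) := by
      rw [LieSubalgebra.lieSpan_le]
      rintro _ ⟨i, rfl⟩
      show ρ (LX F ι i) ∈ c.g A
      rw [hρ1]
      by_cases h : i ∈ A
      · rw [if_pos h, ← hX]
        exact LieSubalgebra.subset_lieSpan ⟨i, h, rfl⟩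
      · rw [if_neg h]; exact (c.g A).zero_mem
    exact hle hx
  have hρfix : ∀ x ∈ c.g A, ρ x = x := by
    intro x hx
    let K : LieSubalgebra F (LL F ι) :=
      { (LinearMap.eqLocus (ρ : LL F ι →ₗ[F] LL F ι) LinearMap.id) with
        lie_mem' := fun {a b} ha hb => by
          have ha' : ρ a = a := ha
          have hb' : ρ b = b := hb
          show ρ ⁅a, b⁆ = ⁅a, b⁆
          rw [LieHom.map_lie, ha', hb'] }
    have hle : c.g A ≤ K := by
      rw [Ctx.g, LieSubalgebra.lieSpan_le]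
      rintro _ ⟨i, hi, rfl⟩
      show ρ (c.X i) = c.X i
      have hi' : i ∈ A := hi
      rw [hX, hρ1, if_pos hi']
    exact hle hx
  let κ : H2Coc F (LL F ι) G :=
    { q := (q.compl₁₂ (ρ : LL F ι →ₗ[F] LL F ι) (ρ : LL F ι →ₗ[F] LL F ι))
      self := fun a => hself _ (hρg a)
      coc := fun a b e => by
        show q (ρ ⁅a, b⁆) (ρ e) + q (ρ ⁅b, e⁆) (ρ a) + q (ρ ⁅e, a⁆) (ρ b) = 0
        rw [LieHom.map_lie, LieHom.map_lie, LieHom.map_lie]
        exact hcoc _ (hρg a) _ (hρg b) _ (hρg e) }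
  have hκ : ∀ a b, κ.q a b = q (ρ a) (ρ b) := fun a b => rfl
  have : St5 (H2Ext κ) := H2Ext.st5 κ (fun x₁ x₂ x₃ x₄ t => by
    simp only [hκ, H2aux_Sop_map]
    exact hcyc _ (hρg _) _ (hρg _) _ (hρg _) _ (hρg _) _ (hρg _))
  obtain ⟨s, hs1, -⟩ := LL_lift F ι (A := H2Ext κ) (fun i => H2Ext.mk κ (LX F ι i) 0)
    (fun i => LieIdeal.comap (H2Ext.fst κ) (LM F ι i)) (fun i => by
      rw [LieIdeal.mem_comap, H2Ext.fst_mk]
      exact LieSubmodule.subset_lieSpan rfl)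
    (fun i u hu v hv => by
      rw [LieIdeal.mem_comap] at hu hv
      apply H2Ext.ext'
      · rw [LieHom.map_lie, map_zero]
        exact LM_comm F ι i _ _ hu hv
      · rw [H2Ext.snd_lie, hκ, map_zero]
        apply hN i _ (hρg _) _ (hρg _)
        · rw [hM]; exact hρ2 i _ hu
        · rw [hM]; exact hρ2 i _ hv)
  have hs : ∀ x, H2Ext.fst κ (s x) = x := by
    have h1 : (H2Ext.fst κ).comp s = LieHom.id := by
      apply LL_hom_ext
      intro i
      rw [LieHom.comp_apply, hs1]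
      rfl
    intro x
    rw [← LieHom.comp_apply, h1]
    rfl
  refine ⟨(H2Ext.snd κ).comp (s : LL F ι →ₗ[F] H2Ext κ), fun a ha b hb => ?_, fun i _ => ?_⟩
  · show H2Ext.snd κ (s ⁅a, b⁆) = q a b
    rw [LieHom.map_lie, H2Ext.snd_lie, hs, hs, hκ, hρfix a ha, hρfix b hb]
  · show H2Ext.snd κ (s (c.X i)) = 0
    rw [hX, hs1]
    rfl

theorem LL_Pi : c.PiProp := by
  obtain ⟨f, hf, -⟩ := LL_lift F ι (A := H2Ab (ι →₀ F)) (fun i => (Finsupp.single i 1 : ι →₀ F))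
    (fun _ => ⊤) (fun _ => LieSubmodule.mem_top _) (fun _ _ _ _ _ => H2Ab.lie_eq _ _ _)
  let g : H2Ab (ι →₀ F) →ₗ[F] LL F ι := Finsupp.linearCombination F (LX F ι)
  have hg : ∀ i, g (Finsupp.single i 1 : ι →₀ F) = LX F ι i := by
    intro i
    show Finsupp.linearCombination F (LX F ι) (Finsupp.single i 1) = _
    rw [Finsupp.linearCombination_single, one_smul]
  refine ⟨g.comp (f : LL F ι →ₗ[F] H2Ab (ι →₀ F)), fun i => ?_, fun a b => ?_⟩
  · show g (f (c.X i)) = c.X i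
    rw [hX, hf, hg]
  · show g (f ⁅a, b⁆) = 0
    rw [LieHom.map_lie, H2Ab.lie_eq, map_zero]

end LLprops

end Helper39W1
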