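import Pool.Agent.Helper39_W1.WLie

set_option autoImplicit false

noncomputable section

namespace Helper39W1

universe u

section iw

open MvPolynomial in
/-- the derivation of the ring of differential polynomials -/
def iwD (F : Type u) [Field F] :
    Derivation F (MvPolynomial (ℕ × ℕ) F) (MvPolynomial (ℕ × ℕ) F) :=
  MvPolynomial.mkDerivation F (fun p => MvPolynomial.X (p.1, p.2 + 1))

/-- Lie homomorphism induced by a homomorphism of differential algebras -/
def iwMap {F : Type u} [Field F] {P Q : Type u} [CommRing P] [Algebra F P] [CommRing Q]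
    [Algebra F Q] (d : Derivation F P P) (d' : Derivation F Q Q) (α : P →ₐ[F] Q)
    (h : ∀ r, α (d r) = d' (α r)) : W F d →ₗ⁅F⁆ W F d' where
  toFun x := W.mk F d' (α ((W.mk F d).symm x))
  map_add' x y := by simp
  map_smul' t x := by simp
  map_lie' := by
    intro x y
    obtain ⟨f, rfl⟩ := (W.mk F d).surjective x
    obtain ⟨g, rfl⟩ := (W.mk F d).surjective y
    rw [W.mk_lie]
    simp only [LinearEquiv.symm_apply_apply]
    rw [W.mk_lie]
    simp [h]

theorem iwMap_apply {F : Type u} [Field F] {P Q : Type u} [CommRing P] [Algebra F P] [CommRing Q]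
    [Algebra F Q] (d : Derivation F P P) (d' : Derivation F Q Q) (α : P →ₐ[F] Q)
    (h : ∀ r, α (d r) = d' (α r)) (f : P) :
    iwMap d d' α h (W.mk F d f) = W.mk F d' (α f) := by
  change W.mk F d' (α ((W.mk F d).symm (W.mk F d f))) = _
  rw [LinearEquiv.symm_apply_apply]

/-- the homomorphism from the differential polynomials -/
def iwHom {F : Type u} [Field F] {P : Type u} [CommRing P] [Algebra F P] (d : Derivation F P P)
    (ψ : ℕ → P) : MvPolynomial (ℕ × ℕ) F →ₐ[F] P :=
  MvPolynomial.aeval (fun p => (d : P → P)^[p.2] (ψ p.1))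

theorem iwHom_X {F : Type u} [Field F] {P : Type u} [CommRing P] [Algebra F P]
    (d : Derivation F P P) (ψ : ℕ → P) (p : ℕ × ℕ) :
    iwHom d ψ (MvPolynomial.X p) = (d : P → P)^[p.2] (ψ p.1) := by
  rw [iwHom, MvPolynomial.aeval_X]

theorem iwHom_d {F : Type u} [Field F] {P : Type u} [CommRing P] [Algebra F P]
    (d : Derivation F P P) (ψ : ℕ → P) (r : MvPolynomial (ℕ × ℕ) F) :
    iwHom d ψ (iwD F r) = d (iwHom d ψ r) := by
  induction r using MvPolynomial.induction_on with
  | C a =>
    rw [← MvPolynomial.algebraMap_eq, Derivation.map_algebraMap, map_zero, AlgHom.commutes,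
      Derivation.map_algebraMap]
  | add p q hp hq => simp only [map_add, hp, hq]
  | mul_X p n hp =>
    rw [Derivation.leibniz, map_add, map_mul, Derivation.leibniz, smul_eq_mul, smul_eq_mul,
      map_mul, map_mul, hp, iwHom_X]
    congr 2
    rw [iwD, MvPolynomial.mkDerivation_X, iwHom_X]
    simp only [Function.iterate_succ_apply']

/-- the Lie algebra `W(F[X], d/dX)` as the Lie algebra of derivations -/
def iwDer (F : Type u) [Field F] : W F (Polynomial.derivative' : Derivation F (Polynomial F)
    (Polynomial F)) →ₗ⁅F⁆ Derivation F (Polynomial F) (Polynomial F) where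
  toFun x := ((W.mk F Polynomial.derivative').symm x) • Polynomial.derivative'
  map_add' x y := by simp [add_smul]
  map_smul' t x := by simp
  map_lie' := by
    intro x y
    obtain ⟨f, rfl⟩ := (W.mk F _).surjective x
    obtain ⟨g, rfl⟩ := (W.mk F _).surjective y
    rw [W.mk_lie]
    simp only [LinearEquiv.symm_apply_apply]
    ext1
    simp [Derivation.commutator_apply]

theorem iwDer_apply (F : Type u) [Field F] (f : Polynomial F) :
    iwDer F (W.mk F _ f) = f • Polynomial.derivative' := by
  change ((W.mk F Polynomial.derivative').symm (W.mk F _ f)) • Polynomial.derivative' = _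
  rw [LinearEquiv.symm_apply_apply]

theorem iwDer_inj (F : Type u) [Field F] : Function.Injective (iwDer F) := by
  rw [injective_iff_map_eq_zero]
  intro x hx
  obtain ⟨f, rfl⟩ := (W.mk F _).surjective x
  rw [iwDer_apply] at hx
  have := congrArg (fun D : Derivation F (Polynomial F) (Polynomial F) => D Polynomial.X) hx
  simp at this
  rw [this, map_zero]

theorem iwDer_surj (F : Type u) [Field F] : Function.Surjective (iwDer F) := by
  intro D
  refine ⟨W.mk F _ (D Polynomial.X), ?_⟩
  rw [iwDer_apply]
  apply Polynomial.derivation_ext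
  simp

end iw

theorem W1_St5 (F : Type u) [Field F] : St5 (Derivation F (Polynomial F) (Polynomial F)) := by
  constructor
  intro x z
  choose y hy using fun i => iwDer_surj F (x i)
  obtain ⟨t, ht⟩ := iwDer_surj F z
  have := st5_hom (iwDer F) y t
  rw [St5.eq_zero, map_zero, ht] at this
  simp only [hy] at this
  exact this.symm

section iw2

variable {F : Type u} [Field F]

/-- the universal value of `u` -/
def iwq (u : FreeLieAlgebra F ℕ) : MvPolynomial (ℕ × ℕ) F :=
  (W.mk F (iwD F)).symm
    (FreeLieAlgebra.lift F (fun i : ℕ => W.mk F (iwD F) (MvPolynomial.X (i, 0))) u)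

theorem iw_value (u : FreeLieAlgebra F ℕ) {P : Type u} [CommRing P] [Algebra F P]
    (d : Derivation F P P) (φ : FreeLieAlgebra F ℕ →ₗ⁅F⁆ W F d) :
    φ u = W.mk F d (iwHom d (fun i => (W.mk F d).symm (φ (FreeLieAlgebra.of F i))) (iwq u)) := by
  set ψ : ℕ → P := fun i => (W.mk F d).symm (φ (FreeLieAlgebra.of F i)) with hψ
  have h1 : φ = (iwMap (iwD F) d (iwHom d ψ) (iwHom_d d ψ)).comp
      (FreeLieAlgebra.lift F (fun i : ℕ => W.mk F (iwD F) (MvPolynomial.X (i, 0)))) := by
    apply FreeLieAlgebra.hom_ext
    intro i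
    rw [LieHom.comp_apply, FreeLieAlgebra.lift_of_apply, iwMap_apply, iwHom_X]
    simp [hψ]
  have h2 : FreeLieAlgebra.lift F (fun i : ℕ => W.mk F (iwD F) (MvPolynomial.X (i, 0))) u =
      W.mk F (iwD F) (iwq u) := by
    rw [iwq, LinearEquiv.apply_symm_apply]
  conv_lhs => rw [h1]
  rw [LieHom.comp_apply, h2, iwMap_apply]

variable [CharZero F]

/-- polynomial with prescribed Taylor coefficients -/
def iwg (t : ℕ × ℕ → F) (K : ℕ) (i : ℕ) : Polynomial F :=
  ∑ k ∈ Finset.range (K + 1), Polynomial.monomial k (t (i, k) / (k.factorial : F))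

theorem iwg_deriv (t : ℕ × ℕ → F) (K : ℕ) (i k : ℕ) (hk : k ≤ K) :
    Polynomial.eval 0 ((Polynomial.derivative' : Derivation F (Polynomial F) (Polynomial F))^[k]
      (iwg t K i)) = t (i, k) := by
  have h1 : ((Polynomial.derivative' : Derivation F (Polynomial F) (Polynomial F)) :
      Polynomial F → Polynomial F) = Polynomial.derivative := by
    ext1 p; simp
  rw [h1, ← Polynomial.coeff_zero_eq_eval_zero, Polynomial.coeff_iterate_derivative]
  simp only [zero_add, Nat.descFactorial_self, nsmul_eq_mul]
  rw [iwg, Polynomial.finsetSum_coeff]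
  simp only [Polynomial.coeff_monomial]
  rw [Finset.sum_ite_eq' (Finset.range (K + 1)) k]
  rw [if_pos (Finset.mem_range.2 (by omega))]
  have : (k.factorial : F) ≠ 0 := by exact_mod_cast k.factorial_ne_zero
  field_simp

theorem iwq_zero (u : FreeLieAlgebra F ℕ)
    (hu : IsIdentity (Derivation F (Polynomial F) (Polynomial F)) u) : iwq u = 0 := by
  apply MvPolynomial.funext
  intro t
  rw [map_zero]
  set K : ℕ := (iwq u).vars.sup Prod.snd with hK
  set φ : FreeLieAlgebra F ℕ →ₗ⁅F⁆ W F (Polynomial.derivative' : Derivation F (Polynomial F)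
    (Polynomial F)) := FreeLieAlgebra.lift F (fun i => W.mk F _ (iwg t K i)) with hφ
  have h1 : φ u = 0 := by
    have := hu ((iwDer F).comp φ)
    rw [LieHom.comp_apply] at this
    exact (injective_iff_map_eq_zero _).1 (iwDer_inj F) _ this
  rw [iw_value] at h1
  have h2 := (LinearEquiv.map_eq_zero_iff _).1 h1
  have h3 : (fun i => (W.mk F (Polynomial.derivative' : Derivation F (Polynomial F)
    (Polynomial F))).symm (φ (FreeLieAlgebra.of F i))) = iwg t K := by
    ext1 i
    rw [hφ, FreeLieAlgebra.lift_of_apply, LinearEquiv.symm_apply_apply]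
  rw [h3] at h2
  have h4 := congrArg (Polynomial.eval 0) h2
  rw [Polynomial.eval_zero] at h4
  rw [← h4]
  change (MvPolynomial.eval t) (iwq u) = ((Polynomial.evalRingHom (0 : F)).comp
    (iwHom (Polynomial.derivative' : Derivation F (Polynomial F)
    (Polynomial F)) (iwg t K)).toRingHom) (iwq u)
  apply MvPolynomial.hom_congr_vars
  · ext a
    simp
  · intro p hp _
    have hp2 : p.2 ≤ K := Finset.le_sup (f := Prod.snd) hp
    simp only [MvPolynomial.eval_X, RingHom.comp_apply]
    change _ = Polynomial.eval 0 (iwHom _ (iwg t K) (MvPolynomial.X p))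
    rw [iwHom_X, iwg_deriv t K _ _ hp2]
  · rfl

end iw2

theorem id_W {F : Type u} [Field F] [CharZero F] (u : FreeLieAlgebra F ℕ)
    (hu : IsIdentity (Derivation F (Polynomial F) (Polynomial F)) u) {P : Type u} [CommRing P]
    [Algebra F P] (d : Derivation F P P) : IsIdentity (W F d) u := by
  intro φ
  rw [iw_value, iwq_zero u hu, map_zero, map_zero]

end Helper39W1
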