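import Pool.Agent.Helper39_W1.Level0
import Pool.Agent.Helper39_W1.LLApi

/-!
# From multilinear elements to all elements (module LIN)
-/

set_option autoImplicit false
set_option linter.unusedSectionVars false
set_option linter.unusedSimpArgs false

noncomputable section

namespace Helper39W1

universe u

namespace LinAux

open TensorProduct

variable (F : Type u) [Field F]

/-- The relations. -/
def JL : Ideal (MvPolynomial (ℕ × ℕ) F) :=
  Ideal.span (Set.range fun p : ℕ × ℕ => (MvPolynomial.X p : MvPolynomial (ℕ × ℕ) F) ^ 2)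

/-- The algebra with generators of square zero. -/
def Lam : Type u := MvPolynomial (ℕ × ℕ) F ⧸ JL F

instance : CommRing (Lam F) := inferInstanceAs (CommRing (MvPolynomial (ℕ × ℕ) F ⧸ JL F))
instance : Algebra F (Lam F) := inferInstanceAs (Algebra F (MvPolynomial (ℕ × ℕ) F ⧸ JL F))

/-- The quotient map. -/
def mkL : MvPolynomial (ℕ × ℕ) F →ₐ[F] Lam F := Ideal.Quotient.mkₐ F (JL F)

lemma mkL_surj : Function.Surjective (mkL F) := Ideal.Quotient.mk_surjective

lemma mkL_zero {r : MvPolynomial (ℕ × ℕ) F} : mkL F r = 0 ↔ r ∈ JL F :=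
  Ideal.Quotient.eq_zero_iff_mem

/-- The generators. -/
def el (p : ℕ × ℕ) : Lam F := mkL F (MvPolynomial.X p)

lemma el_sq (p : ℕ × ℕ) : el F p * el F p = 0 := by
  unfold el
  rw [← map_mul, ← pow_two, mkL_zero]
  exact Ideal.subset_span ⟨p, rfl⟩

/-- The squarefree exponent of a finite set. -/
def exS (S : Finset (ℕ × ℕ)) : (ℕ × ℕ) →₀ ℕ := Multiset.toFinsupp S.val

lemma exS_apply (S : Finset (ℕ × ℕ)) (p : ℕ × ℕ) : exS S p = if p ∈ S then 1 else 0 := by
  unfold exS
  rw [Multiset.toFinsupp_apply, Multiset.count_eq_of_nodup S.nodup]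
  rfl

lemma mem_support_exS (S : Finset (ℕ × ℕ)) (p : ℕ × ℕ) : p ∈ (exS S).support ↔ p ∈ S := by
  rw [Finsupp.mem_support_iff, exS_apply]
  split_ifs with h <;> simp [h]

lemma exS_erase {S : Finset (ℕ × ℕ)} {p : ℕ × ℕ} :
    exS S - Finsupp.single p 1 = exS (S.erase p) := by
  ext q
  rw [Finsupp.coe_tsub, Pi.sub_apply, exS_apply, exS_apply, Finsupp.single_apply]
  by_cases h : p = q
  · subst h
    simp only [if_true, Finset.notMem_erase, if_false]
    split_ifs <;> rfl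
  · simp only [if_neg h, Nat.sub_zero, Finset.mem_erase]
    by_cases h2 : q ∈ S
    · rw [if_pos h2, if_pos ⟨fun h3 => h h3.symm, h2⟩]
    · rw [if_neg h2, if_neg (fun h3 => h2 h3.2)]

lemma exS_eq_zero {S : Finset (ℕ × ℕ)} : 0 = exS S ↔ S = ∅ := by
  constructor
  · intro h
    ext p
    have := exS_apply S p
    rw [← h] at this
    by_cases hp : p ∈ S
    · rw [if_pos hp] at this
      simp at this
    · simp [hp]
  · rintro rfl
    ext p
    rw [exS_apply]
    simp

variable {F}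

lemma coeff_JL (S : Finset (ℕ × ℕ)) {a : MvPolynomial (ℕ × ℕ) F} (ha : a ∈ JL F) :
    MvPolynomial.coeff (exS S) a = 0 := by
  have key : ∀ a ∈ JL F, ∀ r : MvPolynomial (ℕ × ℕ) F, ∀ S : Finset (ℕ × ℕ),
      MvPolynomial.coeff (exS S) (r * a) = 0 := by
    intro a ha
    unfold JL Ideal.span at ha
    induction ha using Submodule.span_induction with
    | mem x hx =>
      obtain ⟨p, rfl⟩ := hx
      intro r S
      change MvPolynomial.coeff (exS S) (r * MvPolynomial.X p ^ 2) = 0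
      rw [pow_two, ← mul_assoc, MvPolynomial.coeff_mul_X', MvPolynomial.coeff_mul_X', exS_erase]
      split_ifs with h1 h2
      · rw [mem_support_exS] at h2
        exact absurd h2 (Finset.notMem_erase _ _)
      · rfl
      · rfl
    | zero => intro r S; simp
    | add x y _ _ hx hy => intro r S; rw [mul_add, MvPolynomial.coeff_add, hx, hy, add_zero]
    | smul t x _ hx => intro r S; rw [smul_eq_mul, ← mul_assoc]; exact hx _ S
  have := key a ha 1 S
  rwa [one_mul] at this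

lemma coeff_eq {S : Finset (ℕ × ℕ)} {a b : MvPolynomial (ℕ × ℕ) F} (h : mkL F a = mkL F b) :
    MvPolynomial.coeff (exS S) a = MvPolynomial.coeff (exS S) b := by
  have h1 : a - b ∈ JL F := by rw [← mkL_zero, map_sub, h, sub_self]
  have h2 := coeff_JL S h1
  rw [MvPolynomial.coeff_sub] at h2
  exact sub_eq_zero.1 h2

lemma mk_inv (r : Lam F) : mkL F (Function.surjInv (mkL_surj F) r) = r :=
  Function.surjInv_eq (mkL_surj F) r

/-- The coefficient of a squarefree monomial. -/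
def lamS (S : Finset (ℕ × ℕ)) : Lam F →ₗ[F] F where
  toFun r := MvPolynomial.coeff (exS S) (Function.surjInv (mkL_surj F) r)
  map_add' r s := by
    rw [← MvPolynomial.coeff_add]
    apply coeff_eq
    rw [map_add, mk_inv, mk_inv, mk_inv]
  map_smul' t r := by
    rw [RingHom.id_apply, ← MvPolynomial.coeff_smul]
    apply coeff_eq
    rw [map_smul, mk_inv, mk_inv]

lemma lamS_mk (S : Finset (ℕ × ℕ)) (a : MvPolynomial (ℕ × ℕ) F) :
    lamS S (mkL F a) = MvPolynomial.coeff (exS S) a :=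
  coeff_eq (mk_inv _)

lemma lamS_one (S : Finset (ℕ × ℕ)) : lamS (F := F) S 1 = if S = ∅ then 1 else 0 := by
  rw [← map_one (mkL F), lamS_mk, MvPolynomial.coeff_one]
  simp only [exS_eq_zero]

lemma lamS_mul (S : Finset (ℕ × ℕ)) (p : ℕ × ℕ) (r : Lam F) :
    lamS S (el F p * r) = if p ∈ S then lamS (S.erase p) r else 0 := by
  obtain ⟨a, rfl⟩ := mkL_surj F r
  unfold el
  rw [← map_mul, lamS_mk, lamS_mk, mul_comm, MvPolynomial.coeff_mul_X', exS_erase]
  simp only [mem_support_exS]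

/-- The sum of the generators. -/
def eN (F : Type u) [Field F] (N i : ℕ) : Lam F := ∑ j ∈ Finset.range N, el F (i, j)

lemma lamS_word (N : ℕ) (l : List ℕ) : ∀ S : Finset (ℕ × ℕ), (∀ p ∈ S, p.2 < N) →
    ∃ k : ℕ, lamS S ((l.map (eN F N)).prod) = (k : F) ∧ (0 < k ↔ S.val.map Prod.fst = (l : Multiset ℕ)) := by
  induction l with
  | nil =>
    intro S _
    refine ⟨if S = ∅ then 1 else 0, ?_, ?_⟩
    · rw [List.map_nil, List.prod_nil, lamS_one]
      split_ifs <;> simp
    · simp only [Multiset.coe_nil, Multiset.map_eq_zero, Finset.val_eq_zero]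
      split_ifs with h <;> simp [h]
  | cons i l ih =>
    intro S hS
    choose! k hk1 hk2 using ih
    refine ⟨∑ j ∈ Finset.range N, if (i, j) ∈ S then k (S.erase (i, j)) else 0, ?_, ?_⟩
    · rw [List.map_cons, List.prod_cons]
      unfold eN
      rw [Finset.sum_mul, map_sum, Nat.cast_sum]
      refine Finset.sum_congr rfl fun j _ => ?_
      rw [lamS_mul]
      split_ifs with h
      · rw [← hk1 _ (fun p hp => hS p (Finset.mem_of_mem_erase hp))]
        rfl
      · simp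
    · rw [Finset.sum_pos_iff]
      constructor
      · rintro ⟨j, hj, hpos⟩
        split_ifs at hpos with h
        · rw [hk2 _ (fun p hp => hS p (Finset.mem_of_mem_erase hp))] at hpos
          have h1 : S.val = (i, j) ::ₘ (S.erase (i, j)).val := by
            rw [Finset.erase_val, Multiset.cons_erase h]
          rw [h1, Multiset.map_cons, hpos]
          rfl
        · exact absurd hpos (lt_irrefl _)
      · intro h
        have h1 : i ∈ S.val.map Prod.fst := by rw [h]; simp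
        obtain ⟨⟨i', j⟩, hp, rfl⟩ := Multiset.mem_map.1 h1
        have hp' : (i', j) ∈ S := hp
        refine ⟨j, Finset.mem_range.2 (hS _ hp'), ?_⟩
        rw [if_pos hp', hk2 _ (fun p hp => hS p (Finset.mem_of_mem_erase hp))]
        have h1 : S.val = (i', j) ::ₘ (S.erase (i', j)).val := by
          rw [Finset.erase_val, Multiset.cons_erase hp]
        rw [h1, Multiset.map_cons, ← Multiset.cons_coe, Multiset.cons_inj_right] at h
        exact h

lemma exists_S (l : List ℕ) : ∃ S : Finset (ℕ × ℕ), (∀ p ∈ S, p.2 < l.length) ∧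
    S.val.map Prod.fst = (l : Multiset ℕ) := by
  classical
  induction l with
  | nil => exact ⟨∅, by simp, rfl⟩
  | cons i l ih =>
    obtain ⟨S, h1, h2⟩ := ih
    have h3 : (i, l.length) ∉ S := fun h => absurd (h1 _ h) (lt_irrefl _)
    refine ⟨insert (i, l.length) S, ?_, ?_⟩
    · intro p hp
      rw [Finset.mem_insert] at hp
      rw [List.length_cons]
      rcases hp with rfl | hp
      · exact Nat.lt_succ_self _
      · exact (h1 p hp).trans (Nat.lt_succ_self _)
    · rw [Finset.insert_val_of_notMem h3, Multiset.map_cons, h2]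
      rfl

/-! ### The Lie algebra `Λ ⊗ R` -/

section Tensor

variable {R : Type u} [LieRing R] [LieAlgebra F R]

lemma ind_tensor (f : Lam F ⊗[F] R → Lam F ⊗[F] R) (hadd : ∀ a b, f (a + b) = f a + f b)
    (htm : ∀ a r, f (a ⊗ₜ r) = 0) (x : Lam F ⊗[F] R) : f x = 0 := by
  induction x using TensorProduct.induction_on with
  | zero =>
    have := hadd 0 0
    rw [add_zero] at this
    exact left_eq_add.1 this
  | tmul a r => exact htm a r
  | add a b ha hb => rw [hadd, ha, hb, add_zero]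

lemma st5_tmul [St5 R] (a : Fin 4 → Lam F) (b : Lam F) (r : Fin 4 → R) (s : R) :
    st5 (fun i => a i ⊗ₜ[F] r i) (b ⊗ₜ[F] s) = 0 := by
  unfold st5
  have h1 : ∀ σ : Equiv.Perm (Fin 4),
      ⁅a (σ 0) ⊗ₜ[F] r (σ 0), ⁅a (σ 1) ⊗ₜ[F] r (σ 1), ⁅a (σ 2) ⊗ₜ[F] r (σ 2),
        ⁅a (σ 3) ⊗ₜ[F] r (σ 3), b ⊗ₜ[F] s⁆⁆⁆⁆ =
      ((∏ i, a i) * b) ⊗ₜ[F] ⁅r (σ 0), ⁅r (σ 1), ⁅r (σ 2), ⁅r (σ 3), s⁆⁆⁆⁆ := by
    intro σ
    simp only [LieAlgebra.ExtendScalars.bracket_tmul]
    congr 1
    rw [← Equiv.prod_comp σ a, Fin.prod_univ_four]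
    ring
  simp only [h1]
  have h2 : ∀ (n : ℤ) (c : Lam F) (w : R), n • (c ⊗ₜ[F] w) = c ⊗ₜ[F] (n • w) := by
    intro n c w
    exact (TensorProduct.tmul_smul n c w).symm
  simp only [h2]
  rw [← TensorProduct.tmul_sum]
  have h3 := St5.eq_zero r s
  unfold st5 at h3
  rw [h3, TensorProduct.tmul_zero]

instance [St5 R] : St5 (Lam F ⊗[F] R) where
  eq_zero x z := by
    have hx : x = ![x 0, x 1, x 2, x 3] := by
      ext i; fin_cases i <;> rfl
    rw [hx]
    generalize x 0 = x0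
    generalize x 1 = x1
    generalize x 2 = x2
    generalize x 3 = x3
    refine ind_tensor (fun x0 => st5 ![x0, x1, x2, x3] z) ?_ (fun a0 r0 => ?_) x0
    · intro a b
      simp only [st5_eq (F := F), Sop_add1, Sop_add2, Sop_add3, add_lie, lie_add,
        LinearMap.add_apply]
      abel
    refine ind_tensor (fun x1 => st5 ![a0 ⊗ₜ r0, x1, x2, x3] z) ?_ (fun a1 r1 => ?_) x1
    · intro a b
      simp only [st5_eq (F := F), Sop_add1, Sop_add2, Sop_add3, add_lie, lie_add,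
        LinearMap.add_apply]
      abel
    refine ind_tensor (fun x2 => st5 ![a0 ⊗ₜ r0, a1 ⊗ₜ r1, x2, x3] z) ?_ (fun a2 r2 => ?_) x2
    · intro a b
      simp only [st5_eq (F := F), Sop_add1, Sop_add2, Sop_add3, add_lie, lie_add,
        LinearMap.add_apply]
      abel
    refine ind_tensor (fun x3 => st5 ![a0 ⊗ₜ r0, a1 ⊗ₜ r1, a2 ⊗ₜ r2, x3] z) ?_
      (fun a3 r3 => ?_) x3
    · intro a b
      simp only [st5_eq (F := F), Sop_add1, Sop_add2, Sop_add3, add_lie, lie_add,
        LinearMap.add_apply]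
      abel
    refine ind_tensor (fun z => st5 ![a0 ⊗ₜ r0, a1 ⊗ₜ r1, a2 ⊗ₜ r2, a3 ⊗ₜ r3] z) ?_
      (fun b s => ?_) z
    · intro a b
      simp only [st5_eq (F := F), map_add, lie_add]
      abel
    have h := st5_tmul ![a0, a1, a2, a3] b ![r0, r1, r2, r3] s
    have h2 : (fun i => ![a0, a1, a2, a3] i ⊗ₜ[F] ![r0, r1, r2, r3] i) =
        ![a0 ⊗ₜ[F] r0, a1 ⊗ₜ[F] r1, a2 ⊗ₜ[F] r2, a3 ⊗ₜ[F] r3] := by
      ext i; fin_cases i <;> rfl
    rw [h2] at h
    exact h

/-- The ideal of a letter. -/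
def NN (p : ℕ × ℕ) : LieIdeal F (Lam F ⊗[F] R) where
  carrier := {x | ∃ y : Lam F ⊗[F] R, x = el F p • y}
  add_mem' := by
    rintro _ _ ⟨y, rfl⟩ ⟨z, rfl⟩
    exact ⟨y + z, (smul_add _ _ _).symm⟩
  zero_mem' := ⟨0, (smul_zero _).symm⟩
  smul_mem' := by
    rintro t _ ⟨y, rfl⟩
    exact ⟨t • y, smul_comm _ _ _⟩
  lie_mem := by
    rintro x _ ⟨y, rfl⟩
    exact ⟨⁅x, y⁆, lie_smul _ _ _⟩

lemma mem_NN {p : ℕ × ℕ} {x : Lam F ⊗[F] R} : x ∈ NN (F := F) (R := R) p ↔ ∃ y, x = el F p • y :=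
  Iff.rfl

lemma NN_comm (p : ℕ × ℕ) : ∀ u ∈ NN (F := F) (R := R) p, ∀ v ∈ NN (F := F) (R := R) p,
    ⁅u, v⁆ = 0 := by
  intro u hu v hv
  rw [mem_NN] at hu hv
  obtain ⟨y, rfl⟩ := hu
  obtain ⟨z, rfl⟩ := hv
  rw [lie_smul, smul_lie, smul_smul, el_sq, zero_smul]

end Tensor

/-! ### Words -/

/-- Right normed words. -/
def wd (F : Type u) [Field F] (l : List ℕ) (i : ℕ) : FreeLieAlgebra F ℕ :=
  l.foldr (fun j w => ⁅FreeLieAlgebra.of F j, w⁆) (FreeLieAlgebra.of F i)

lemma wd_nil (i : ℕ) : wd F [] i = FreeLieAlgebra.of F i := rfl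
lemma wd_cons (j : ℕ) (l : List ℕ) (i : ℕ) :
    wd F (j :: l) i = ⁅FreeLieAlgebra.of F j, wd F l i⁆ := rfl

lemma free_gen : LieSubalgebra.lieSpan F (FreeLieAlgebra F ℕ)
    (Set.range (FreeLieAlgebra.of F)) = ⊤ := by
  rw [eq_top_iff]
  intro x _
  let K := LieSubalgebra.lieSpan F (FreeLieAlgebra F ℕ) (Set.range (FreeLieAlgebra.of F))
  let g : ℕ → K := fun i => ⟨FreeLieAlgebra.of F i, LieSubalgebra.subset_lieSpan ⟨i, rfl⟩⟩
  have h : K.incl.comp (FreeLieAlgebra.lift F g) = LieHom.id := by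
    apply FreeLieAlgebra.hom_ext
    intro i
    rw [LieHom.comp_apply, FreeLieAlgebra.lift_of_apply]
    rfl
  have h2 : x = K.incl (FreeLieAlgebra.lift F g x) := by
    rw [← LieHom.comp_apply, h]
    rfl
  rw [h2]
  exact (FreeLieAlgebra.lift F g x).2

lemma wd_span (u : FreeLieAlgebra F ℕ) :
    u ∈ Submodule.span F (Set.range fun k : List ℕ × ℕ => wd F k.1 k.2) := by
  set V := Submodule.span F (Set.range fun k : List ℕ × ℕ => wd F k.1 k.2) with hV
  have h1 : ∀ i : ℕ, ∀ v ∈ V, ⁅FreeLieAlgebra.of F i, v⁆ ∈ V := by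
    intro i v hv
    rw [hV] at hv
    induction hv using Submodule.span_induction with
    | mem x hx =>
      obtain ⟨k, rfl⟩ := hx
      exact Submodule.subset_span ⟨(i :: k.1, k.2), rfl⟩
    | zero => rw [lie_zero]; exact V.zero_mem
    | add x y _ _ hx hy => rw [lie_add]; exact V.add_mem hx hy
    | smul t x _ hx => rw [lie_smul]; exact V.smul_mem t hx
  have h2 : ∀ a : FreeLieAlgebra F ℕ, ∀ v ∈ V, ⁅a, v⁆ ∈ V := by
    intro a
    have ha : a ∈ LieSubalgebra.lieSpan F (FreeLieAlgebra F ℕ)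
      (Set.range (FreeLieAlgebra.of F)) := by rw [free_gen]; trivial
    induction ha using LieSubalgebra.lieSpan_induction with
    | mem x hx =>
      obtain ⟨i, rfl⟩ := hx
      exact h1 i
    | zero => intro v _; rw [zero_lie]; exact V.zero_mem
    | add x y _ _ hx hy => intro v hv; rw [add_lie]; exact V.add_mem (hx v hv) (hy v hv)
    | smul t x _ hx => intro v hv; rw [smul_lie]; exact V.smul_mem t (hx v hv)
    | lie x y _ _ hx hy =>
      intro v hv
      rw [lie_lie]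
      exact V.sub_mem (hx _ (hy v hv)) (hy _ (hx v hv))
  have hu : u ∈ LieSubalgebra.lieSpan F (FreeLieAlgebra F ℕ)
      (Set.range (FreeLieAlgebra.of F)) := by rw [free_gen]; trivial
  induction hu using LieSubalgebra.lieSpan_induction with
  | mem x hx =>
    obtain ⟨i, rfl⟩ := hx
    exact Submodule.subset_span ⟨([], i), rfl⟩
  | zero => exact V.zero_mem
  | add x y _ _ hx hy => exact V.add_mem hx hy
  | smul t x _ hx => exact V.smul_mem t hx
  | lie x y _ _ hx hy => exact h2 x y hy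

lemma mem_TIdeal {S : Set (FreeLieAlgebra F ℕ)} {u : FreeLieAlgebra F ℕ} :
    u ∈ TIdeal S ↔ ∀ I : LieIdeal F (FreeLieAlgebra F ℕ), IsTIdeal I →
      S ⊆ (I : Set (FreeLieAlgebra F ℕ)) → u ∈ I := by
  unfold TIdeal
  rw [← SetLike.mem_coe, LieSubmodule.coe_sInf]
  simp only [Set.mem_ofPred_eq, Set.mem_iInter, and_imp, SetLike.mem_coe]

end LinAux

open LinAux TensorProduct

theorem lin_final {F : Type u} [Field F] [CharZero F] (u : FreeLieAlgebra F ℕ)
    (h : ∀ N : ℕ, FreeLieAlgebra.lift F (fun i => ∑ j ∈ Finset.range N, LX F (ℕ × ℕ) (i, j)) u = 0) :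
    u ∈ TIdeal {st5 (fun i : Fin 4 => FreeLieAlgebra.of F (i : ℕ)) (FreeLieAlgebra.of F 4)} := by
  classical
  set S0 : Set (FreeLieAlgebra F ℕ) :=
    {st5 (fun i : Fin 4 => FreeLieAlgebra.of F (i : ℕ)) (FreeLieAlgebra.of F 4)} with hS0
  have hT : IsTIdeal (TIdeal S0) := by
    intro φ v hv
    rw [mem_TIdeal] at hv ⊢
    intro I hI hI2
    exact hI φ v (hv I hI hI2)
  have hS : S0 ⊆ (TIdeal S0 : Set (FreeLieAlgebra F ℕ)) := by
    intro v hv
    change v ∈ TIdeal S0
    rw [mem_TIdeal]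
    intro I _ hI2
    exact hI2 hv
  let R : Type u := FreeLieAlgebra F ℕ ⧸ TIdeal S0
  let π : FreeLieAlgebra F ℕ →ₗ⁅F⁆ R :=
    { (LieSubmodule.Quotient.mk' (TIdeal S0) : FreeLieAlgebra F ℕ →ₗ[F] R) with
      map_lie' := fun {x y} => LieSubmodule.Quotient.mk_bracket (I := TIdeal S0) x y }
  have hπ : Function.Surjective π := LieSubmodule.Quotient.surjective_mk' (TIdeal S0)
  have hπ0 : ∀ x, π x = 0 ↔ x ∈ TIdeal S0 := fun x =>
    LieSubmodule.Quotient.mk_eq_zero (N := TIdeal S0)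
  have hR : St5 R := ⟨fun x z => by
    choose x' hx' using fun i => hπ (x i)
    obtain ⟨z', rfl⟩ := hπ z
    have h1 : x = fun i => π (x' i) := funext fun i => (hx' i).symm
    rw [h1, ← LLaux_st5_map, hπ0]
    let φ : FreeLieAlgebra F ℕ →ₗ⁅F⁆ FreeLieAlgebra F ℕ :=
      FreeLieAlgebra.lift F (fun n => if hn : n < 4 then x' ⟨n, hn⟩ else z')
    have h2 : st5 x' z' = φ (st5 (fun i : Fin 4 => FreeLieAlgebra.of F (i : ℕ))
        (FreeLieAlgebra.of F 4)) := by
      rw [LLaux_st5_map]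
      congr 1
      · funext i
        rw [FreeLieAlgebra.lift_of_apply, dif_pos i.2]
      · rw [FreeLieAlgebra.lift_of_apply, dif_neg (lt_irrefl _)]
    rw [h2]
    exact hT φ _ (hS rfl)⟩
  rw [← hπ0]
  -- the homomorphism to the tensor product
  obtain ⟨f, hf, -⟩ := LL_lift F (ℕ × ℕ) (A := Lam F ⊗[F] R)
    (fun p => el F p ⊗ₜ[F] π (FreeLieAlgebra.of F p.1)) (fun p => NN (F := F) (R := R) p)
    (fun p => mem_NN.2 ⟨1 ⊗ₜ[F] π (FreeLieAlgebra.of F p.1), by
      rw [TensorProduct.smul_tmul', smul_eq_mul, mul_one]⟩)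
    (fun p => NN_comm p)
  have hΨ : ∀ N : ℕ, f.comp (FreeLieAlgebra.lift F
      (fun i => ∑ j ∈ Finset.range N, LX F (ℕ × ℕ) (i, j))) =
      FreeLieAlgebra.lift F (fun i => eN F N i ⊗ₜ[F] π (FreeLieAlgebra.of F i)) := by
    intro N
    apply FreeLieAlgebra.hom_ext
    intro i
    rw [LieHom.comp_apply, FreeLieAlgebra.lift_of_apply, FreeLieAlgebra.lift_of_apply, map_sum]
    simp only [hf]
    unfold eN
    rw [TensorProduct.sum_tmul]
  have hΨ0 : ∀ N : ℕ, FreeLieAlgebra.lift F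
      (fun i => eN F N i ⊗ₜ[F] π (FreeLieAlgebra.of F i)) u = 0 := by
    intro N
    rw [← hΨ, LieHom.comp_apply, h, map_zero]
  have hword : ∀ (N : ℕ) (l : List ℕ) (i : ℕ), FreeLieAlgebra.lift F
      (fun i => eN F N i ⊗ₜ[F] π (FreeLieAlgebra.of F i)) (wd F l i) =
      (((l ++ [i]).map (eN F N)).prod) ⊗ₜ[F] π (wd F l i) := by
    intro N l i
    induction l with
    | nil => rw [wd_nil, FreeLieAlgebra.lift_of_apply]; simp
    | cons j l ih =>
      rw [wd_cons, LieHom.map_lie, ih, FreeLieAlgebra.lift_of_apply,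
        LieAlgebra.ExtendScalars.bracket_tmul, LieHom.map_lie]
      simp
  obtain ⟨c, hc⟩ := (Finsupp.mem_span_range_iff_exists_finsupp).1 (wd_span u)
  -- the multidegree
  let ms : List ℕ × ℕ → Multiset ℕ := fun k => ((k.1 ++ [k.2] : List ℕ) : Multiset ℕ)
  have hud : ∀ k₀ : List ℕ × ℕ,
      ∑ k ∈ c.support with ms k = ms k₀, c k • π (wd F k.1 k.2) = 0 := by
    intro k₀
    obtain ⟨S, hS1, hS2⟩ := exists_S (k₀.1 ++ [k₀.2])
    set N := (k₀.1 ++ [k₀.2]).length with hN
    have hl : ∀ l : List ℕ, ∃ n : ℕ, lamS S ((l.map (eN F N)).prod) = (n : F) ∧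
      (0 < n ↔ S.val.map Prod.fst = (l : Multiset ℕ)) := fun l => lamS_word N l S hS1
    let Θ : Lam F ⊗[F] R →ₗ[F] R :=
      (TensorProduct.lid F R).toLinearMap ∘ₗ (TensorProduct.map (lamS S) LinearMap.id)
    have hΘ : ∀ (a : Lam F) (r : R), Θ (a ⊗ₜ[F] r) = lamS S a • r := by
      intro a r
      simp [Θ]
    have h0 := hΨ0 N
    rw [← hc, Finsupp.sum, map_sum] at h0
    have h1 := congrArg Θ h0
    rw [map_zero, map_sum] at h1
    simp only [map_smul, hword, hΘ] at h1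
    have h2 : ∀ k ∈ c.support, c k • (lamS S (((k.1 ++ [k.2]).map (eN F N)).prod) •
        π (wd F k.1 k.2)) = if ms k = ms k₀ then
          lamS S (((k₀.1 ++ [k₀.2]).map (eN F N)).prod) • (c k • π (wd F k.1 k.2)) else 0 := by
      intro k _
      split_ifs with hk
      · have hp : (k.1 ++ [k.2]).Perm (k₀.1 ++ [k₀.2]) := Multiset.coe_eq_coe.1 hk
        rw [(hp.map (eN F N)).prod_eq, smul_comm]
      · obtain ⟨n, hn1, hn2⟩ := hl (k.1 ++ [k.2])
        have : n = 0 := by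
          by_contra h3
          have h4 := hn2.1 (Nat.pos_of_ne_zero h3)
          exact hk (h4.symm.trans hS2)
        rw [hn1, this, Nat.cast_zero, zero_smul, smul_zero]
    rw [Finset.sum_congr rfl h2, ← Finset.sum_filter, ← Finset.smul_sum] at h1
    obtain ⟨n, hn1, hn2⟩ := hl (k₀.1 ++ [k₀.2])
    have hn : 0 < n := hn2.2 hS2
    rw [hn1] at h1
    rcases smul_eq_zero.1 h1 with h3 | h3
    · exact absurd (Nat.cast_eq_zero.1 h3) hn.ne'
    · exact h3
  rw [← hc, Finsupp.sum, map_sum]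
  simp only [map_smul]
  rw [← Finset.sum_fiberwise_of_maps_to (g := ms) (t := c.support.image ms)
    (fun k hk => Finset.mem_image_of_mem _ hk)]
  apply Finset.sum_eq_zero
  intro d hd
  obtain ⟨k₀, -, rfl⟩ := Finset.mem_image.1 hd
  exact hud k₀

end Helper39W1
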