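import Pool.Agent.Helper39_W1.LLApi
import Pool.Agent.Helper39_W1.Span

set_option autoImplicit false
set_option linter.unusedSectionVars false

noncomputable section

namespace Helper39W1

universe u

section SymAux

variable (F : Type u) [Field F] (ι : Type)

theorem Sym_exists_phi (σ : Equiv.Perm ι) :
    ∃ φ : LL F ι →ₗ⁅F⁆ LL F ι, ∀ i, φ (LX F ι i) = LX F ι (σ i) := by
  obtain ⟨φ, h, -⟩ := LL_lift F ι (A := LL F ι) (fun i => LX F ι (σ i))
    (fun i => LM F ι (σ i)) (fun i => LieSubmodule.subset_lieSpan rfl)
    (fun i u hu v hv => LM_comm F ι (σ i) u v hu hv)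
  exact ⟨φ, h⟩

/-- the homomorphism given by a permutation of the letters -/
def symPhi (σ : Equiv.Perm ι) : LL F ι →ₗ⁅F⁆ LL F ι := (Sym_exists_phi F ι σ).choose

theorem symPhi_X (σ : Equiv.Perm ι) (i : ι) : symPhi F ι σ (LX F ι i) = LX F ι (σ i) :=
  (Sym_exists_phi F ι σ).choose_spec i

theorem symPhi_mul (σ τ : Equiv.Perm ι) (x : LL F ι) :
    symPhi F ι (σ * τ) x = symPhi F ι σ (symPhi F ι τ x) := by
  have h : symPhi F ι (σ * τ) = (symPhi F ι σ).comp (symPhi F ι τ) := by
    apply LL_hom_ext
    intro i
    rw [LieHom.comp_apply, symPhi_X, symPhi_X, symPhi_X, Equiv.Perm.mul_apply]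
  rw [h, LieHom.comp_apply]

theorem symPhi_one (x : LL F ι) : symPhi F ι 1 x = x := by
  have h : symPhi F ι 1 = LieHom.id := by
    apply LL_hom_ext
    intro i
    rw [symPhi_X]
    rfl
  rw [h]; rfl

theorem sym_adl_map {F : Type u} [Field F] {L : Type u} [LieRing L] [LieAlgebra F L]
    {L' : Type u} [LieRing L'] [LieAlgebra F L'] (f : L →ₗ⁅F⁆ L') (l : List L) (x : L) :
    f (adl l x) = adl (l.map f) (f x) := by
  induction l with
  | nil => rfl
  | cons a l ih =>
    show f ⁅a, adl l x⁆ = ⁅f a, adl (l.map f) (f x)⁆
    rw [LieHom.map_lie, ih]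

theorem sym_adl_append {L : Type u} [LieRing L] (l l' : List L) (x : L) :
    adl (l ++ l') x = adl l (adl l' x) := by
  rw [adl, List.foldr_append]; rfl

end SymAux

section LLprops
variable {F : Type u} [Field F] [CharZero F] {ι : Type} [DecidableEq ι] {P : Type u} [CommRing P]
  [Algebra F P] (c : Ctx F ι (LL F ι) P) (hX : c.X = LX F ι) (hM : c.M = LM F ι)

/-- words with letters in `C` containing all the letters of `B` -/
def symW (C B : Finset ι) : Set (LL F ι) :=
  {w | ∃ (l : List ι) (i : ι), i ∈ C ∧ (∀ j ∈ l, j ∈ C) ∧ (∀ j ∈ B, j ∈ i :: l) ∧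
    w = adl (l.map c.X) (c.X i)}

theorem sym_span_g (C : Finset ι) (u : LL F ι) (hu : u ∈ c.g C) :
    u ∈ Submodule.span F (symW c C ∅) := by
  have hbr : ∀ a, a ∈ c.g C → ∀ v ∈ Submodule.span F (symW c C ∅),
      ⁅a, v⁆ ∈ Submodule.span F (symW c C ∅) := by
    intro a ha
    refine Ctx.sp_induction (c := c) (A := C)
      (p := fun a => ∀ v ∈ Submodule.span F (symW c C ∅), ⁅a, v⁆ ∈ Submodule.span F (symW c C ∅))
      ?_ ?_ ?_ ?_ ?_ ha
    · intro i hi v hv
      induction hv using Submodule.span_induction with
      | mem w hw =>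
        obtain ⟨l, j, hj, hl, -, rfl⟩ := hw
        refine Submodule.subset_span ⟨i :: l, j, hj, ?_, ?_, rfl⟩
        · intro k hk
          rcases List.mem_cons.1 hk with rfl | hk
          · exact hi
          · exact hl k hk
        · intro k hk
          simp at hk
      | zero => simp
      | add x z _ _ hx hz => rw [lie_add]; exact add_mem hx hz
      | smul t x _ hx => rw [lie_smul]; exact Submodule.smul_mem _ t hx
    · intro v _
      rw [zero_lie]; exact zero_mem _
    · intro a b _ _ h1 h2 v hv
      rw [add_lie]; exact add_mem (h1 v hv) (h2 v hv)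
    · intro t a _ h1 v hv
      rw [smul_lie]; exact Submodule.smul_mem _ t (h1 v hv)
    · intro a b _ _ h1 h2 v hv
      rw [lie_lie]
      exact sub_mem (h1 _ (h2 v hv)) (h2 _ (h1 v hv))
  refine Ctx.sp_induction (c := c) (A := C) (p := fun u => u ∈ Submodule.span F (symW c C ∅))
    ?_ ?_ ?_ ?_ ?_ hu
  · intro i hi
    exact Submodule.subset_span ⟨[], i, hi, by simp, by simp, rfl⟩
  · exact zero_mem _
  · intro a b _ _ h1 h2; exact add_mem h1 h2
  · intro t a _ h1; exact Submodule.smul_mem _ t h1
  · intro a b ha _ _ h2; exact hbr a ha b h2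

/-- a word containing the letter `j` lies in `M j` -/
theorem sym_word_mem_M (l : List ι) (i j : ι) (h : j ∈ i :: l) :
    adl (l.map c.X) (c.X i) ∈ c.M j := by
  induction l with
  | nil =>
    have : j = i := by simpa using h
    subst this
    exact c.X_mem j
  | cons k l ih =>
    by_cases hk : j = k
    · subst hk
      show ⁅c.X j, adl (l.map c.X) (c.X i)⁆ ∈ c.M j
      rw [← lie_skew]
      exact neg_mem (LieSubmodule.lie_mem _ (c.X_mem j))
    · have : j ∈ i :: l := by
        rcases List.mem_cons.1 h with h | h
        · exact List.mem_cons.2 (Or.inl h)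
        · rcases List.mem_cons.1 h with h | h
          · exact absurd h hk
          · exact List.mem_cons.2 (Or.inr h)
      exact LieSubmodule.lie_mem _ (ih this)

/-- a word with a repeated letter is zero -/
theorem sym_word_zero (l : List ι) (i : ι) (h : ¬ (i :: l).Nodup) :
    adl (l.map c.X) (c.X i) = 0 := by
  induction l with
  | nil => simp at h
  | cons k l ih =>
    by_cases hk : k ∈ i :: l
    · show ⁅c.X k, adl (l.map c.X) (c.X i)⁆ = 0
      exact c.comm k _ (c.X_mem k) _ (sym_word_mem_M c l i k hk)
    · have : ¬ (i :: l).Nodup := by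
        intro h'
        apply h
        have h2 : (k :: i :: l).Nodup := List.nodup_cons.2 ⟨hk, h'⟩
        exact (List.Perm.swap i k l).nodup_iff.1 h2 |> fun h3 => h3
      show ⁅c.X k, adl (l.map c.X) (c.X i)⁆ = 0
      rw [ih this, lie_zero]

/-- a word not containing the letter `j` is fixed by `ret j` -/
theorem sym_ret_word (l : List ι) (i j : ι) (h : j ∉ i :: l) :
    c.ret j (adl (l.map c.X) (c.X i)) = adl (l.map c.X) (c.X i) := by
  induction l with
  | nil =>
    have : i ≠ j := by
      rintro rfl; simp at h
    exact c.ret_X j i this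
  | cons k l ih =>
    have h1 : j ∉ i :: l := by
      intro h'
      apply h
      rcases List.mem_cons.1 h' with h' | h'
      · exact List.mem_cons.2 (Or.inl h')
      · exact List.mem_cons.2 (Or.inr (List.mem_cons.2 (Or.inr h')))
    have h2 : k ≠ j := by
      rintro rfl; simp at h
    show c.ret j ⁅c.X k, adl (l.map c.X) (c.X i)⁆ = ⁅c.X k, adl (l.map c.X) (c.X i)⁆
    rw [LieHom.map_lie, ih h1, c.ret_X j k h2]

theorem sym_span_B (C : Finset ι) (u : LL F ι) (hu : u ∈ c.g C) (hM : ∀ i ∈ C, u ∈ c.M i)
    (B : Finset ι) (hB : B ⊆ C) : u ∈ Submodule.span F (symW c C B) := by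
  induction B using Finset.induction_on with
  | empty => exact sym_span_g c C u hu
  | insert j B hj ih =>
    have h1 := ih (fun k hk => hB (Finset.mem_insert_of_mem hk))
    have hjC : j ∈ C := hB (Finset.mem_insert_self j B)
    have h2 : ∀ v ∈ Submodule.span F (symW c C B), v - c.ret j v ∈
        Submodule.span F (symW c C (insert j B)) := by
      intro v hv
      induction hv using Submodule.span_induction with
      | mem w hw =>
        obtain ⟨l, i, hi, hl, hBl, rfl⟩ := hw
        by_cases hjl : j ∈ i :: l
        · rw [c.ret_M j _ (sym_word_mem_M c l i j hjl), sub_zero]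
          refine Submodule.subset_span ⟨l, i, hi, hl, ?_, rfl⟩
          intro k hk
          rcases Finset.mem_insert.1 hk with rfl | hk
          · exact hjl
          · exact hBl k hk
        · rw [sym_ret_word c l i j hjl, sub_self]
          exact zero_mem _
      | zero => simp
      | add x z _ _ hx hz =>
        rw [map_add, add_sub_add_comm]; exact add_mem hx hz
      | smul t x _ hx =>
        rw [map_smul, ← smul_sub]; exact Submodule.smul_mem _ t hx
    have h3 := h2 u h1
    rwa [c.ret_M j u (hM j hjC), sub_zero] at h3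

include hX hM

theorem LL_swap (y z : ι) (h : y ≠ z) : ∃ τ : LL F ι →ₗ⁅F⁆ LL F ι, c.IsSwap y z τ := by
  refine ⟨symPhi F ι (Equiv.swap y z), ?_, ?_, ?_⟩
  · rw [hX, symPhi_X, Equiv.swap_apply_left]
  · rw [hX, symPhi_X, Equiv.swap_apply_right]
  · intro i h1 h2
    rw [hX, symPhi_X, Equiv.swap_apply_of_ne_of_ne h1 h2]

theorem sym_isSwap_eq {y z : ι} {τ : LL F ι →ₗ⁅F⁆ LL F ι} (h : c.IsSwap y z τ) :
    τ = symPhi F ι (Equiv.swap y z) := by
  apply LL_hom_ext
  intro i
  rw [symPhi_X]
  by_cases h1 : i = y
  · subst h1
    rw [Equiv.swap_apply_left]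
    have := h.left
    rwa [hX] at this
  · by_cases h2 : i = z
    · subst h2
      rw [Equiv.swap_apply_right]
      have := h.right
      rwa [hX] at this
    · rw [Equiv.swap_apply_of_ne_of_ne h1 h2]
      have := h.other i h1 h2
      rwa [hX] at this

theorem LL_Sym (C : Finset ι) : c.SymProp C := by
  intro hcard u hu huM hsw
  -- `u` is invariant
  have hinv : ∀ σ : Equiv.Perm {x // x ∈ C}, symPhi F ι (Equiv.Perm.ofSubtype σ) u = u := by
    intro σ
    induction σ using Equiv.Perm.swap_induction_on with
    | one => rw [map_one]; exact symPhi_one F ι u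
    | swap_mul f x y hxy ih =>
      rw [map_mul, symPhi_mul, ih, Equiv.Perm.ofSubtype_swap_eq]
      obtain ⟨τ, hτ, hτu⟩ := hsw x.1 x.2 y.1 y.2 (fun h => hxy (Subtype.ext h))
      rw [sym_isSwap_eq c hX hM hτ] at hτu
      exact hτu
  have hspan := sym_span_B c C u hu huM C (Finset.Subset.refl C)
  -- averaging kills the words
  have hT : ∀ v ∈ Submodule.span F (symW c C C),
      ∑ σ : Equiv.Perm {x // x ∈ C}, symPhi F ι (Equiv.Perm.ofSubtype σ) v = 0 := by
    intro v hv
    induction hv using Submodule.span_induction with
    | mem w hw =>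
      obtain ⟨l, i, hi, hl, hBl, rfl⟩ := hw
      by_cases hnd : (i :: l).Nodup
      · rcases List.eq_nil_or_concat l with rfl | ⟨l', j, rfl⟩
        · exfalso
          have : C ⊆ {i} := by
            intro k hk
            have := hBl k hk
            simpa using this
          have := Finset.card_le_card this
          rw [Finset.card_singleton] at this
          omega
        · rw [List.concat_eq_append] at *
          have hjC : j ∈ C := hl j (by simp)
          have hij : i ≠ j := by
            rintro rfl
            simp at hnd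
          have hl' : ∀ k ∈ l', k ≠ i ∧ k ≠ j := by
            intro k hk
            constructor
            · rintro rfl
              simp [hk] at hnd
            · rintro rfl
              rw [List.nodup_cons, List.nodup_append] at hnd
              exact hnd.2.2.2 k hk k (by simp) rfl
          set w := adl ((l' ++ [j]).map c.X) (c.X i) with hw
          have hτ : symPhi F ι (Equiv.swap i j) w = - w := by
            rw [hw, List.map_append, sym_adl_append, sym_adl_map]
            have e1 : (l'.map c.X).map (symPhi F ι (Equiv.swap i j)) = l'.map c.X := by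
              rw [List.map_map]
              apply List.map_congr_left
              intro k hk
              rw [Function.comp_apply, hX, symPhi_X,
                Equiv.swap_apply_of_ne_of_ne (hl' k hk).1 (hl' k hk).2]
            have e2 : symPhi F ι (Equiv.swap i j) (adl ([j].map c.X) (c.X i)) =
                - adl ([j].map c.X) (c.X i) := by
              show symPhi F ι (Equiv.swap i j) ⁅c.X j, c.X i⁆ = - ⁅c.X j, c.X i⁆
              rw [LieHom.map_lie, hX, symPhi_X, symPhi_X, Equiv.swap_apply_left,
                Equiv.swap_apply_right, lie_skew]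
            rw [e1, e2]
            clear e1 e2
            induction l'.map c.X with
            | nil => rfl
            | cons a l ih =>
              show ⁅a, adl l _⁆ = - ⁅a, adl l _⁆
              rw [ih, lie_neg]
          have hsum : ∑ σ : Equiv.Perm {x // x ∈ C}, symPhi F ι (Equiv.Perm.ofSubtype σ) w =
              - ∑ σ : Equiv.Perm {x // x ∈ C}, symPhi F ι (Equiv.Perm.ofSubtype σ) w := by
            conv_lhs =>
              rw [← Equiv.sum_comp (Equiv.mulRight (Equiv.swap (⟨i, hi⟩ : {x // x ∈ C}) ⟨j, hjC⟩))]
            rw [← Finset.sum_neg_distrib]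
            apply Finset.sum_congr rfl
            intro σ _
            rw [Equiv.coe_mulRight, map_mul, symPhi_mul, Equiv.Perm.ofSubtype_swap_eq, hτ, map_neg]
          have h2 : (2 : F) • ∑ σ : Equiv.Perm {x // x ∈ C},
              symPhi F ι (Equiv.Perm.ofSubtype σ) w = 0 := by
            rw [two_smul]
            nth_rewrite 1 [hsum]
            exact neg_add_cancel _
          exact (smul_eq_zero.1 h2).resolve_left two_ne_zero
      · rw [sym_word_zero c l i hnd]
        simp
    | zero => simp
    | add x z _ _ hx hz =>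
      simp only [map_add]
      rw [Finset.sum_add_distrib, hx, hz, add_zero]
    | smul t x _ hx =>
      simp only [map_smul]
      rw [← Finset.smul_sum, hx, smul_zero]
  have h := hT u hspan
  rw [Finset.sum_congr rfl (fun σ _ => hinv σ), Finset.sum_const, ← Nat.cast_smul_eq_nsmul F] at h
  refine (smul_eq_zero.1 h).resolve_left ?_
  refine Nat.cast_ne_zero.2 ?_
  rw [Finset.card_univ]
  exact Fintype.card_ne_zero

end LLprops

end Helper39W1
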