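import Pool.Agent.Helper39_W1.PartD
import Pool.Agent.Helper39_W1.CtxEx
import Pool.Agent.Helper39_W1.H2
import Pool.Agent.Helper39_W1.Sym
import Pool.Agent.Helper39_W1.IdW
import Pool.Agent.Helper39_W1.Lin

set_option autoImplicit false

noncomputable section

namespace Helper39W1

universe u

open Ctx

/-- every element lies in the subalgebra generated by finitely many letters -/
theorem exists_mem_g {F : Type u} [Field F] {ι : Type} [DecidableEq ι] {P : Type u} [CommRing P]
    [Algebra F P] (c : Ctx F ι (LL F ι) P) (hX : c.X = LX F ι) (v : LL F ι) :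
    ∃ A : Finset ι, v ∈ c.g A := by
  have hv : v ∈ LieSubalgebra.lieSpan F (LL F ι) (Set.range (LX F ι)) := by
    rw [LX_gen]; exact LieSubalgebra.mem_top v
  have mono : ∀ {A B : Finset ι}, A ⊆ B → c.g A ≤ c.g B := fun h =>
    LieSubalgebra.lieSpan_mono (Set.image_mono (by exact_mod_cast h))
  induction hv using LieSubalgebra.lieSpan_induction with
  | mem x hx =>
    obtain ⟨i, rfl⟩ := hx
    exact ⟨{i}, by rw [← hX]; exact LieSubalgebra.subset_lieSpan ⟨i, by simp, rfl⟩⟩
  | zero => exact ⟨∅, (c.g ∅).zero_mem⟩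
  | smul t x _ hx =>
    obtain ⟨A, hA⟩ := hx
    exact ⟨A, (c.g A).smul_mem t hA⟩
  | add x y _ _ hx hy =>
    obtain ⟨A, hA⟩ := hx
    obtain ⟨B, hB⟩ := hy
    exact ⟨A ∪ B, (c.g _).add_mem (mono Finset.subset_union_left hA)
      (mono Finset.subset_union_right hB)⟩
  | lie x y _ _ hx hy =>
    obtain ⟨A, hA⟩ := hx
    obtain ⟨B, hB⟩ := hy
    exact ⟨A ∪ B, (c.g _).lie_mem (mono Finset.subset_union_left hA)
      (mono Finset.subset_union_right hB)⟩

/-- faithfulness of the model -/
theorem LL_inj {F : Type u} [Field F] [CharZero F] {ι : Type} [DecidableEq ι] {P : Type u}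
    [CommRing P] [Algebra F P] [Nontrivial P] (c : Ctx F ι (LL F ι) P) (hX : c.X = LX F ι)
    (hM : c.M = LM F ι) (v : LL F ι) (hv : c.p v = 0) : v = 0 := by
  obtain ⟨A, hA⟩ := exists_mem_g c hX v
  exact c.main_inj (LL_H2 c hX hM) (LL_Pi c hX hM) (LL_Sym c hX hM) (LL_swap c hX hM) A v hA hv

/-- the set of the identities of `A` as an ideal -/
def idIdeal (F : Type u) [Field F] (A : Type u) [LieRing A] [LieAlgebra F A] :
    LieIdeal F (FreeLieAlgebra F ℕ) := ⨅ φ : FreeLieAlgebra F ℕ →ₗ⁅F⁆ A, φ.ker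

theorem mem_idIdeal (F : Type u) [Field F] (A : Type u) [LieRing A] [LieAlgebra F A]
    (u : FreeLieAlgebra F ℕ) : u ∈ idIdeal F A ↔ IsIdentity A u := by
  rw [idIdeal, LieSubmodule.mem_iInf]
  rfl

/-- Main theorem: over a field of characteristic zero the standard Lie identity of degree five
is a basis of the identities of the Lie algebra `W_1 = Der F[x]`. -/
theorem final {F : Type u} [Field F] [CharZero F] (u : FreeLieAlgebra F ℕ) :
    IsIdentity (Derivation F (Polynomial F) (Polynomial F)) u ↔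
      u ∈ TIdeal {st5 (fun i : Fin 4 => FreeLieAlgebra.of F (i : ℕ)) (FreeLieAlgebra.of F 4)} := by
  constructor
  · intro hu
    apply lin_final
    intro N
    obtain ⟨P, _, _, c, _, hX, hM⟩ := exists_Ctx F (ℕ × ℕ)
    apply LL_inj c hX hM
    let pW : LL F (ℕ × ℕ) →ₗ⁅F⁆ W F c.d :=
      { (W.mk F c.d).toLinearMap ∘ₗ c.p with
        map_lie' := by
          intro a b
          change W.mk F c.d (c.p ⁅a, b⁆) = ⁅W.mk F c.d (c.p a), W.mk F c.d (c.p b)⁆
          rw [c.p_lie, W.mk_lie] }
    have h := id_W u hu c.d (pW.comp (FreeLieAlgebra.lift F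
      (fun i => ∑ j ∈ Finset.range N, LX F (ℕ × ℕ) (i, j))))
    rw [LieHom.comp_apply] at h
    exact (W.mk F c.d).injective (by rw [map_zero]; exact h)
  · intro hu
    rw [← mem_idIdeal]
    refine (sInf_le ?_ : TIdeal {st5 (fun i : Fin 4 => FreeLieAlgebra.of F (i : ℕ))
      (FreeLieAlgebra.of F 4)} ≤ idIdeal F (Derivation F (Polynomial F) (Polynomial F))) hu
    refine ⟨?_, ?_⟩
    · intro φ v hv
      rw [mem_idIdeal] at hv ⊢
      intro ψ
      exact hv (ψ.comp φ)
    · intro v hv
      rw [Set.mem_singleton_iff] at hv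
      subst hv
      refine (mem_idIdeal F _ _).mpr fun φ => ?_
      rw [st5_hom]
      exact (W1_St5 F).eq_zero _ _

end Helper39W1
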