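import Pool.Agent.Helper39_W1.Level0

set_option autoImplicit false

noncomputable section

namespace Helper39W1

universe u

section Fn
variable {F : Type u} [Field F] [CharZero F] {L : Type u} [LieRing L] [LieAlgebra F L]

omit [CharZero F] in
theorem Fn.add {φ ψ : Module.End F L} (h : Fn φ) (h' : Fn ψ) : Fn (φ + ψ) := by
  intro z w
  rw [Dop_add, Dop_add, LinearMap.add_apply, LinearMap.add_apply, h z w, h' z w]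
omit [CharZero F] in
theorem Fn.smul {φ : Module.End F L} (t : F) (h : Fn φ) : Fn (t • φ) := by
  intro z w
  rw [Dop_smul, Dop_smul, LinearMap.smul_apply, LinearMap.smul_apply, h z w]
omit [CharZero F] in
theorem Fn.one : Fn (1 : Module.End F L) := by
  intro z w
  rw [Dop_one, Dop_one]; rfl
omit [CharZero F] in
theorem Fn.lie {φ : Module.End F L} (h : Fn φ) (a b : L) :
    ⁅φ a, b⁆ + ⁅a, φ b⁆ = (2 : F) • φ ⁅a, b⁆ := by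
  have := h a b
  rw [Dop_apply, Dop_apply, ← lie_skew b (φ a), ← lie_skew b a, map_neg] at this
  linear_combination (norm := module) this
omit [CharZero F] in
theorem Fn.ad_apply {φ : Module.End F L} (h : Fn φ) (a : L) :
    LieAlgebra.ad F L (φ a) = φ * LieAlgebra.ad F L a - Dop a φ := by
  ext w
  have := h.lie a w
  simp only [LieAlgebra.ad_apply, LinearMap.sub_apply, Module.End.mul_apply, Dop_apply]
  linear_combination (norm := module) this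
omit [CharZero F] in
theorem Fn.dop {φ : Module.End F L} (h : Fn φ) (x : L) : Fn (Dop x φ) := by
  intro z w
  have e : ∀ z w : L, Dop z (Dop x φ) w = ⁅x, Dop z φ w⁆ - Dop z φ ⁅x, w⁆ - Dop w φ ⁅x, z⁆ := by
    intro z w
    have h1 : Dop z (Dop x φ) = Dop x (Dop z φ) - Dop ⁅x, z⁆ φ := by rw [Dop_lie]; abel
    rw [h1, LinearMap.sub_apply, Dop_apply x w (Dop z φ), h ⁅x, z⁆ w]
  rw [e z w, e w z, h z w]; abel
omit [CharZero F] in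
theorem Fn.rel_apply {φ : Module.End F L} (h : Fn φ) (a b z : L) :
    Dop b φ ⁅a, z⁆ - Dop a φ ⁅b, z⁆ = Dop ⁅a, b⁆ φ z := by
  have h1 : Dop ⁅a, b⁆ φ z = ⁅a, Dop z φ b⁆ - Dop b φ ⁅a, z⁆ - ⁅b, Dop z φ a⁆ + Dop a φ ⁅b, z⁆ := by
    rw [Dop_lie, LinearMap.sub_apply, Dop_apply a z (Dop b φ), Dop_apply b z (Dop a φ), h b z, h a z]
    abel
  have h2 := (h.dop z).lie a b
  rw [h z ⁅a, b⁆, ← lie_skew (Dop z φ a) b] at h2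
  linear_combination (norm := module) h1 + h2
omit [CharZero F] in
theorem Fn.rel {φ : Module.End F L} (h : Fn φ) (a b : L) :
    Dop b φ * LieAlgebra.ad F L a - Dop a φ * LieAlgebra.ad F L b = Dop ⁅a, b⁆ φ := by
  ext z
  simpa only [LinearMap.sub_apply, Module.End.mul_apply, LieAlgebra.ad_apply] using h.rel_apply a b z
omit [CharZero F] in
theorem Fn.closed3 {φ : Module.End F L} (h : Fn φ) (a b z : L) :
    Dop a φ ⁅b, z⁆ + Dop b φ ⁅z, a⁆ + Dop z φ ⁅a, b⁆ = 0 := by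
  have := h.rel_apply a b z
  rw [← h z ⁅a, b⁆] at this
  rw [← lie_skew z a, map_neg]
  linear_combination (norm := module) -this

theorem Fn.cyc1_apply {φ : Module.End F L} (h : Fn φ) (a b c w : L) :
    Dop a φ ⁅⁅b, c⁆, w⁆ + Dop b φ ⁅⁅c, a⁆, w⁆ + Dop c φ ⁅⁅a, b⁆, w⁆ = 0 := by
  have h1 := h.closed3 a ⁅b, c⁆ w
  have h2 := h.closed3 b ⁅c, a⁆ w
  have h3 := h.closed3 c ⁅a, b⁆ w
  have k1 := h.closed3 b c ⁅w, a⁆
  have k2 := h.closed3 c a ⁅w, b⁆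
  have k3 := h.closed3 a b ⁅w, c⁆
  rw [h ⁅b, c⁆ ⁅w, a⁆] at h1
  rw [h ⁅c, a⁆ ⁅w, b⁆] at h2
  rw [h ⁅a, b⁆ ⁅w, c⁆] at h3
  have hJ : Dop w φ ⁅a, ⁅b, c⁆⁆ + Dop w φ ⁅b, ⁅c, a⁆⁆ + Dop w φ ⁅c, ⁅a, b⁆⁆ = 0 := by
    rw [← map_add, ← map_add, lie_jacobi, map_zero]
  have e : ∀ x y : L, ⁅x, ⁅w, y⁆⁆ = -⁅x, ⁅y, w⁆⁆ := by
    intro x y; rw [← lie_skew w y, lie_neg]
  have f : ∀ x y : L, ⁅⁅w, x⁆, y⁆ = ⁅y, ⁅x, w⁆⁆ := by
    intro x y; rw [← lie_skew ⁅w, x⁆ y, ← lie_skew w x, lie_neg, neg_neg]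
  rw [e, f] at k1 k2 k3
  simp only [lie_lie, map_sub, map_neg] at h1 h2 h3 k1 k2 k3 hJ ⊢
  have this : (2 : F) • (Dop a φ ⁅b, ⁅c, w⁆⁆ - Dop a φ ⁅c, ⁅b, w⁆⁆ + (Dop b φ ⁅c, ⁅a, w⁆⁆ - Dop b φ ⁅a, ⁅c, w⁆⁆)
    + (Dop c φ ⁅a, ⁅b, w⁆⁆ - Dop c φ ⁅b, ⁅a, w⁆⁆)) = 0 := by
    linear_combination (norm := module) h1 + h2 + h3 - k1 - k2 - k3 - hJ
  exact (smul_eq_zero.mp this).resolve_left two_ne_zero

theorem Fn.cyc1 {φ : Module.End F L} (h : Fn φ) (a b c : L) :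
    Dop a φ * LieAlgebra.ad F L ⁅b, c⁆ + Dop b φ * LieAlgebra.ad F L ⁅c, a⁆
      + Dop c φ * LieAlgebra.ad F L ⁅a, b⁆ = 0 := by
  ext w
  simpa only [LinearMap.add_apply, Module.End.mul_apply, LieAlgebra.ad_apply, LinearMap.zero_apply]
    using h.cyc1_apply a b c w

theorem Fn.cyc3_apply {φ : Module.End F L} (h : Fn φ) (a b c w : L) :
    Dop ⁅b, c⁆ φ ⁅a, w⁆ + Dop ⁅c, a⁆ φ ⁅b, w⁆ + Dop ⁅a, b⁆ φ ⁅c, w⁆ = 0 := by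
  have h0 := h.cyc1_apply a b c w
  have h1 := h.closed3 a ⁅b, c⁆ w
  have h2 := h.closed3 b ⁅c, a⁆ w
  have h3 := h.closed3 c ⁅a, b⁆ w
  have hJ : Dop w φ ⁅a, ⁅b, c⁆⁆ + Dop w φ ⁅b, ⁅c, a⁆⁆ + Dop w φ ⁅c, ⁅a, b⁆⁆ = 0 := by
    rw [← map_add, ← map_add, lie_jacobi, map_zero]
  rw [← lie_skew w a, map_neg] at h1
  rw [← lie_skew w b, map_neg] at h2
  rw [← lie_skew w c, map_neg] at h3
  linear_combination (norm := module) h0 - h1 - h2 - h3 + hJ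

theorem Fn.cyc2 {φ : Module.End F L} (h : Fn φ) (a b c : L) :
    Dop a (Dop ⁅b, c⁆ φ) + Dop b (Dop ⁅c, a⁆ φ) + Dop c (Dop ⁅a, b⁆ φ) = 0 := by
  ext w
  simp only [LinearMap.add_apply, LinearMap.zero_apply]
  rw [Dop_apply a w (Dop ⁅b, c⁆ φ), Dop_apply b w (Dop ⁅c, a⁆ φ), Dop_apply c w (Dop ⁅a, b⁆ φ)]
  rw [h ⁅b, c⁆ w, h ⁅c, a⁆ w, h ⁅a, b⁆ w]
  have e0 := h.cyc3_apply a b c w
  have e1 := Dop_apply a ⁅b, c⁆ (Dop w φ)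
  have e2 := Dop_apply b ⁅c, a⁆ (Dop w φ)
  have e3 := Dop_apply c ⁅a, b⁆ (Dop w φ)
  have e4 := (h.dop w).closed3 a b c
  have hJ : Dop w φ ⁅a, ⁅b, c⁆⁆ + Dop w φ ⁅b, ⁅c, a⁆⁆ + Dop w φ ⁅c, ⁅a, b⁆⁆ = 0 := by
    rw [← map_add, ← map_add, lie_jacobi, map_zero]
  linear_combination (norm := module) e4 - e0 - e1 - e2 - e3 + hJ

/-- `Σcyc (D_{[b,c]}φ) ad a = 0` -/
theorem Fn.cyc3 {φ : Module.End F L} (h : Fn φ) (a b c : L) :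
    Dop ⁅b, c⁆ φ * LieAlgebra.ad F L a + Dop ⁅c, a⁆ φ * LieAlgebra.ad F L b
      + Dop ⁅a, b⁆ φ * LieAlgebra.ad F L c = 0 := by
  ext w
  simpa only [LinearMap.add_apply, Module.End.mul_apply, LieAlgebra.ad_apply, LinearMap.zero_apply]
    using h.cyc3_apply a b c w

theorem Fn.comm_Sop {φ : Module.End F L} (h : Fn φ) (a b c : L) :
    Sop F a b c * φ = φ * Sop F a b c := by
  have h1 := h.cyc1 a b c
  have h2 := h.cyc2 a b c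
  have h3 := h.cyc3 a b c
  have key : Sop F a b c * φ - φ * Sop F a b c =
      (Dop a φ * LieAlgebra.ad F L ⁅b, c⁆ + Dop b φ * LieAlgebra.ad F L ⁅c, a⁆
      + Dop c φ * LieAlgebra.ad F L ⁅a, b⁆) +
      (Dop a (Dop ⁅b, c⁆ φ) + Dop b (Dop ⁅c, a⁆ φ) + Dop c (Dop ⁅a, b⁆ φ)) +
      (Dop ⁅b, c⁆ φ * LieAlgebra.ad F L a + Dop ⁅c, a⁆ φ * LieAlgebra.ad F L b
      + Dop ⁅a, b⁆ φ * LieAlgebra.ad F L c) := by
    simp only [Sop, Dop]; noncomm_ring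
  rw [h1, h2, h3] at key
  rw [← sub_eq_zero, key]; simp

/-- (G) -/
theorem Fn.G {φ : Module.End F L} (h : Fn φ) (a b c : L) :
    Sop F (φ a) b c = φ * Sop F a b c - (2 : F) • Dop ⁅b, c⁆ (Dop a φ)
      + (2 : F) • Dop ⁅a, ⁅b, c⁆⁆ φ := by
  have e1 : LieAlgebra.ad F L (φ a) = φ * LieAlgebra.ad F L a - Dop a φ := h.ad_apply a
  have e2 : LieAlgebra.ad F L ⁅c, φ a⁆ = φ * LieAlgebra.ad F L ⁅c, a⁆ - Dop ⁅c, a⁆ φ
      + (Dop c φ * LieAlgebra.ad F L a - Dop a (Dop c φ)) := by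
    have : ⁅c, φ a⁆ = φ ⁅c, a⁆ + Dop c φ a := by rw [Dop_apply]; abel
    rw [this, map_add, h.ad_apply, (h.dop c).ad_apply]
  have e3 : LieAlgebra.ad F L ⁅φ a, b⁆ = φ * LieAlgebra.ad F L ⁅a, b⁆ - Dop ⁅a, b⁆ φ
      - (Dop b φ * LieAlgebra.ad F L a - Dop a (Dop b φ)) := by
    have : ⁅φ a, b⁆ = φ ⁅a, b⁆ - Dop b φ a := by
      rw [Dop_apply, ← lie_skew a b, ← lie_skew (φ a) b, map_neg]; abel
    rw [this, map_sub, h.ad_apply, (h.dop b).ad_apply]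
  have r1 := h.cyc1 a b c
  have r2 := h.rel b c
  have r3 := (h.dop a).rel b c
  have r4 := h.rel a ⁅b, c⁆
  have r5 := Dop_lie (F := F) b c φ
  have r6 := Dop_lie (F := F) b c (Dop a φ)
  have key : Sop F (φ a) b c = φ * Sop F a b c
      + (Dop a φ * LieAlgebra.ad F L ⁅b, c⁆ + Dop b φ * LieAlgebra.ad F L ⁅c, a⁆
        + Dop c φ * LieAlgebra.ad F L ⁅a, b⁆ - (2 : F) • (Dop a φ * LieAlgebra.ad F L ⁅b, c⁆))
      + ((Dop c φ * LieAlgebra.ad F L b - Dop b φ * LieAlgebra.ad F L c)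
        + (Dop b (Dop c φ) - Dop c (Dop b φ))) * LieAlgebra.ad F L a
      - (Dop c (Dop a φ) * LieAlgebra.ad F L b - Dop b (Dop a φ) * LieAlgebra.ad F L c)
      - (Dop b (Dop c (Dop a φ)) - Dop c (Dop b (Dop a φ))) := by
    rw [Sop, e1, e2, e3]
    simp only [Dop, Sop, ad_lie_eq, two_smul]; noncomm_ring
  rw [key, r1, r2, r3, ← r5, ← r6, ← r4, ← two_smul F (Dop ⁅b, c⁆ φ)]
  simp only [smul_mul_assoc]
  module

omit [CharZero F] in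
/-- (Γ) -/
theorem Fn.Gamma {φ : Module.End F L} (h : Fn φ) (a b : L) :
    (LieAlgebra.ad F L (φ a) * LieAlgebra.ad F L b + LieAlgebra.ad F L b * LieAlgebra.ad F L (φ a))
      - (LieAlgebra.ad F L a * LieAlgebra.ad F L (φ b) + LieAlgebra.ad F L (φ b) * LieAlgebra.ad F L a)
      = (4 : F) • Dop ⁅a, b⁆ φ := by
  have r1 := h.rel a b
  have r2 := Dop_lie (F := F) a b φ
  rw [h.ad_apply, h.ad_apply]
  have key : ((φ * LieAlgebra.ad F L a - Dop a φ) * LieAlgebra.ad F L b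
      + LieAlgebra.ad F L b * (φ * LieAlgebra.ad F L a - Dop a φ))
      - (LieAlgebra.ad F L a * (φ * LieAlgebra.ad F L b - Dop b φ)
      + (φ * LieAlgebra.ad F L b - Dop b φ) * LieAlgebra.ad F L a) =
      (3 : F) • (Dop b φ * LieAlgebra.ad F L a - Dop a φ * LieAlgebra.ad F L b)
        + (Dop a (Dop b φ) - Dop b (Dop a φ)) := by
    have h3 : ∀ x : Module.End F L, (3 : F) • x = x + x + x := by intro x; module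
    simp only [Dop, h3]; noncomm_ring
  rw [key, r1, ← r2]; module

variable [St5 L]

omit [CharZero F] in
/-- Plücker relation for the symmetrized products -/
theorem plucker (x₁ x₂ x₃ x₄ : L) :
    (LieAlgebra.ad F L ⁅x₁, x₂⁆ * LieAlgebra.ad F L ⁅x₃, x₄⁆ + LieAlgebra.ad F L ⁅x₃, x₄⁆ * LieAlgebra.ad F L ⁅x₁, x₂⁆)
    - (LieAlgebra.ad F L ⁅x₁, x₃⁆ * LieAlgebra.ad F L ⁅x₂, x₄⁆ + LieAlgebra.ad F L ⁅x₂, x₄⁆ * LieAlgebra.ad F L ⁅x₁, x₃⁆)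
    + (LieAlgebra.ad F L ⁅x₁, x₄⁆ * LieAlgebra.ad F L ⁅x₂, x₃⁆ + LieAlgebra.ad F L ⁅x₂, x₃⁆ * LieAlgebra.ad F L ⁅x₁, x₄⁆)
    = 0 := by
  rw [← Sop_boundary (F := F) x₁ x₂ x₃ x₄]
  simp only [Sop, ad_lie_eq]; noncomm_ring

/-- symmetrized product of adjoint operators -/
def QQ (x y : L) : Module.End F L :=
  LieAlgebra.ad F L x * LieAlgebra.ad F L y + LieAlgebra.ad F L y * LieAlgebra.ad F L x

omit [CharZero F] in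
theorem two_Dop_Sop (X c d e : L) :
    (2 : F) • Dop c (Sop F X d e) = QQ e ⁅c, ⁅X, d⁆⁆ + QQ X ⁅c, ⁅d, e⁆⁆ + QQ d ⁅c, ⁅e, X⁆⁆ := by
  have h := plucker (F := F) X d e c
  have key : Sop F ⁅X, d⁆ e c + Sop F ⁅d, e⁆ X c + Sop F ⁅e, X⁆ d c
      + (Sop F ⁅X, d⁆ e c + Sop F ⁅d, e⁆ X c + Sop F ⁅e, X⁆ d c) =
      (QQ e ⁅c, ⁅X, d⁆⁆ + QQ X ⁅c, ⁅d, e⁆⁆ + QQ d ⁅c, ⁅e, X⁆⁆) +
      ((LieAlgebra.ad F L ⁅X, d⁆ * LieAlgebra.ad F L ⁅e, c⁆ + LieAlgebra.ad F L ⁅e, c⁆ * LieAlgebra.ad F L ⁅X, d⁆)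
    - (LieAlgebra.ad F L ⁅X, e⁆ * LieAlgebra.ad F L ⁅d, c⁆ + LieAlgebra.ad F L ⁅d, c⁆ * LieAlgebra.ad F L ⁅X, e⁆)
    + (LieAlgebra.ad F L ⁅X, c⁆ * LieAlgebra.ad F L ⁅d, e⁆ + LieAlgebra.ad F L ⁅d, e⁆ * LieAlgebra.ad F L ⁅X, c⁆)) := by
    simp only [Sop, QQ, ad_lie_eq]; noncomm_ring
  rw [Dop_Sop', two_smul, key, h, add_zero]

omit [CharZero F] [St5 L] in
theorem QQ_add (x y z : L) : (QQ x (y + z) : Module.End F L) = QQ x y + QQ x z := by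
  simp only [QQ, map_add, mul_add, add_mul]; abel
omit [CharZero F] [St5 L] in
theorem QQ_neg (x y : L) : (QQ x (-y) : Module.End F L) = - QQ x y := by
  simp only [QQ, map_neg, mul_neg, neg_mul]; abel

/-- (P) -/
theorem Sop_P (a b c d e : L) :
    (2 : F) • Dop ⁅d, e⁆ (Sop F a b c) = Dop c (Sop F ⁅a, b⁆ d e) + Dop a (Sop F ⁅b, c⁆ d e)
      + Dop b (Sop F ⁅c, a⁆ d e) := by
  have h1 := two_Dop_Sop (F := F) ⁅a, b⁆ c d e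
  have h2 := two_Dop_Sop (F := F) ⁅b, c⁆ a d e
  have h3 := two_Dop_Sop (F := F) ⁅c, a⁆ b d e
  have hG := (fn_Sop (F := F) a b c).Gamma d e
  have hG' : QQ e (Sop F a b c d) - QQ d (Sop F a b c e) = (4 : F) • Dop ⁅d, e⁆ (Sop F a b c) := by
    rw [← hG]; simp only [QQ]; abel
  have hP := plucker (F := F) a b c ⁅d, e⁆
  have hP' : QQ ⁅a, b⁆ ⁅c, ⁅d, e⁆⁆ + QQ ⁅c, a⁆ ⁅b, ⁅d, e⁆⁆ + QQ ⁅b, c⁆ ⁅a, ⁅d, e⁆⁆ =
      (0 : Module.End F L) := by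
    rw [← hP, ← lie_skew a c]
    simp only [QQ, map_neg, mul_neg, neg_mul]; abel
  have hs : ∀ x y : L, ⁅x, ⁅e, y⁆⁆ = - ⁅x, ⁅y, e⁆⁆ := by
    intro x y; rw [← lie_skew e y, lie_neg]
  rw [hs, QQ_neg] at h1 h2 h3
  rw [Sop_apply, Sop_apply] at hG'
  simp only [QQ_add] at hG'
  have : (2 : F) • ((2 : F) • Dop ⁅d, e⁆ (Sop F a b c)) = (2 : F) • (Dop c (Sop F ⁅a, b⁆ d e)
      + Dop a (Sop F ⁅b, c⁆ d e) + Dop b (Sop F ⁅c, a⁆ d e)) := by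
    linear_combination (norm := module) - hG' - h1 - h2 - h3 - hP'
  exact smul_right_injective _ (two_ne_zero (α := F)) this

omit [CharZero F] in
/-- (R3) -/
theorem Sop_R3 (a b c y : L) :
    Dop c (Sop F a b y) + Dop a (Sop F b c y) + Dop b (Sop F c a y) = Dop y (Sop F a b c) := by
  have h1 := Dop_Sop' (F := F) c a b y
  have h2 := Dop_Sop' (F := F) a b c y
  have h3 := Dop_Sop' (F := F) b c a y
  have h0 := Dop_Sop' (F := F) y a b c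
  have h0' := Dop_Sop (F := F) y a b c
  have s1 := Sop_swap23 (F := F) ⁅a, b⁆ c y
  have s2 := Sop_swap23 (F := F) ⁅b, c⁆ a y
  have s3 := Sop_swap23 (F := F) ⁅c, a⁆ b y
  have t1 : Sop F ⁅b, y⁆ a c = Sop F a ⁅y, b⁆ c := by
    rw [← lie_skew b y, Sop_neg1, ← Sop_swap12]
  have t2 : Sop F ⁅y, a⁆ b c = Sop F ⁅y, a⁆ b c := rfl
  have t3 : Sop F ⁅c, y⁆ b a = Sop F a b ⁅y, c⁆ := by
    rw [← lie_skew c y, Sop_neg1, ← Sop_swap13]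
  have t4 : Sop F ⁅y, b⁆ c a = Sop F a ⁅y, b⁆ c := by rw [← Sop_cyc a ⁅y, b⁆ c]
  have t5 : Sop F ⁅a, y⁆ c b = Sop F ⁅y, a⁆ b c := by
    rw [← lie_skew a y, Sop_neg1, ← Sop_swap23]
  have t6 : Sop F ⁅y, c⁆ a b = Sop F a b ⁅y, c⁆ := by rw [← Sop_cyc ⁅y, c⁆ a b, ← Sop_cyc a b ⁅y, c⁆]
  rw [s1, t1, t2] at h1
  rw [s2, t3, t4] at h2
  rw [s3, t5, t6] at h3
  linear_combination (norm := module) h1 + h2 + h3 + h0 - 2 • h0'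

/-- (R2), doubled -/
theorem Sop_R2 (a b d e y : L) :
    (2 : F) • (Dop ⁅d, e⁆ (Sop F a b y) - Dop ⁅a, b⁆ (Sop F d e y)) =
      Dop y (Sop F ⁅a, b⁆ d e) - Dop y (Sop F a b ⁅d, e⁆) - Dop a (Dop y (Sop F b d e))
        + Dop b (Dop y (Sop F a d e)) - Dop ⁅y, d⁆ (Sop F a b e) + Dop ⁅y, e⁆ (Sop F a b d) := by
  have h1 := Sop_P (F := F) a b y d e
  have h2 := Sop_P (F := F) d e y a b
  have k1 := Dop_Sop (F := F) y b d e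
  have k2 := Dop_Sop (F := F) y a d e
  have k1' : Dop a (Dop y (Sop F b d e)) = Dop a (Sop F ⁅y, b⁆ d e) + Dop a (Sop F b ⁅y, d⁆ e)
      + Dop a (Sop F b d ⁅y, e⁆) := by rw [k1, Dop_add, Dop_add]
  have k2' : Dop b (Dop y (Sop F a d e)) = Dop b (Sop F ⁅y, a⁆ d e) + Dop b (Sop F a ⁅y, d⁆ e)
      + Dop b (Sop F a d ⁅y, e⁆) := by rw [k2, Dop_add, Dop_add]
  have r1 := Sop_R3 (F := F) a b e ⁅y, d⁆
  have r2 := Sop_R3 (F := F) a b d ⁅y, e⁆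
  have s1 : Sop F ⁅b, y⁆ d e = - Sop F ⁅y, b⁆ d e := by rw [← lie_skew y b, Sop_neg1, neg_neg]
  have s2 : Sop F ⁅e, y⁆ a b = - Sop F a b ⁅y, e⁆ := by
    rw [← lie_skew e y, Sop_neg1, ← Sop_cyc a b ⁅y, e⁆, ← Sop_cyc b ⁅y, e⁆ a]
  have s3 : Sop F ⁅y, d⁆ a b = Sop F a b ⁅y, d⁆ := by
    rw [← Sop_cyc a b ⁅y, d⁆, ← Sop_cyc b ⁅y, d⁆ a]
  have s4 : Sop F ⁅d, e⁆ a b = Sop F a b ⁅d, e⁆ := by
    rw [← Sop_cyc a b ⁅d, e⁆, ← Sop_cyc b ⁅d, e⁆ a]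
  have s5 : Sop F b e ⁅y, d⁆ = - Sop F b ⁅y, d⁆ e := by rw [Sop_swap23]
  have s6 : Sop F e a ⁅y, d⁆ = Sop F a ⁅y, d⁆ e := by rw [← Sop_cyc e a ⁅y, d⁆]
  have s7 : Sop F d a ⁅y, e⁆ = - Sop F a d ⁅y, e⁆ := by rw [Sop_swap12]
  rw [s1, Dop_neg] at h1
  rw [s4, s2, s3, Dop_neg] at h2
  rw [s5, s6, Dop_neg] at r1
  rw [s7, Dop_neg] at r2
  linear_combination (norm := module) h1 - h2 - r1 + r2 + k1' - k2'

/-- (R6), doubled; `p q r` cyclic -/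
theorem Sop_R6 (p q r w y : L) :
    (2 : F) • (Dop ⁅q, r⁆ (Sop F w p y) + Dop ⁅r, p⁆ (Sop F w q y) + Dop ⁅p, q⁆ (Sop F w r y)) =
      Dop y (Sop F ⁅w, p⁆ q r) + Dop y (Sop F ⁅w, q⁆ r p) + Dop y (Sop F ⁅w, r⁆ p q)
        - Dop w (Dop y (Sop F p q r)) + Dop ⁅y, w⁆ (Sop F p q r) := by
  have h1 := Sop_P (F := F) w p y q r
  have h2 := Sop_P (F := F) w q y r p
  have h3 := Sop_P (F := F) w r y p q
  have k1 := Dop_Sop (F := F) y p q r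
  have k1' : Dop w (Dop y (Sop F p q r)) = Dop w (Sop F ⁅y, p⁆ q r) + Dop w (Sop F ⁅y, q⁆ r p)
      + Dop w (Sop F ⁅y, r⁆ p q) := by
    rw [k1, Dop_add, Dop_add, ← Sop_cyc p ⁅y, q⁆ r, ← Sop_cyc ⁅y, r⁆ p q, ← Sop_cyc p q ⁅y, r⁆]
  have r1 := Sop_R3 (F := F) p q r ⁅y, w⁆
  have s1 : Sop F ⁅p, y⁆ q r = - Sop F ⁅y, p⁆ q r := by rw [← lie_skew y p, Sop_neg1, neg_neg]
  have s2 : Sop F ⁅q, y⁆ r p = - Sop F ⁅y, q⁆ r p := by rw [← lie_skew y q, Sop_neg1, neg_neg]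
  have s3 : Sop F ⁅r, y⁆ p q = - Sop F ⁅y, r⁆ p q := by rw [← lie_skew y r, Sop_neg1, neg_neg]
  have s4 : Sop F ⁅y, w⁆ q r = Sop F q r ⁅y, w⁆ := (Sop_cyc ⁅y, w⁆ q r).symm
  have s5 : Sop F ⁅y, w⁆ r p = Sop F r p ⁅y, w⁆ := (Sop_cyc ⁅y, w⁆ r p).symm
  have s6 : Sop F ⁅y, w⁆ p q = Sop F p q ⁅y, w⁆ := (Sop_cyc ⁅y, w⁆ p q).symm
  rw [s1, Dop_neg, s4] at h1
  rw [s2, Dop_neg, s5] at h2
  rw [s3, Dop_neg, s6] at h3
  linear_combination (norm := module) h1 + h2 + h3 + r1 + k1'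

omit [St5 L] in
/-- (R4) -/
theorem Sop_R4 {φ : Module.End F L} (h : Fn φ) (a b y : L) :
    Sop F (φ a) b y + Sop F a (φ b) y = (2 : F) • (φ * Sop F a b y)
      - (2 : F) • Dop ⁅b, y⁆ (Dop a φ) + (2 : F) • Dop ⁅a, y⁆ (Dop b φ)
      + (2 : F) • Dop ⁅⁅a, b⁆, y⁆ φ := by
  have h1 := h.G a b y
  have h2 := h.G b a y
  have s1 : Sop F a (φ b) y = - Sop F (φ b) a y := by rw [← Sop_swap12]
  have s2 : φ * Sop F b a y = - (φ * Sop F a b y) := by rw [Sop_swap12, mul_neg]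
  have s3 : Dop ⁅⁅a, b⁆, y⁆ φ = Dop ⁅a, ⁅b, y⁆⁆ φ - Dop ⁅b, ⁅a, y⁆⁆ φ := by
    rw [lie_lie, Dop_sub_left]
  rw [s2] at h2
  rw [s1, s3]
  linear_combination (norm := module) h1 - h2

end Fn

end Helper39W1
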