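import Pool.Agent.Helper39_W1.BPfacts

/-! Module FORMS: closed function valued forms. -/

set_option autoImplicit false
set_option linter.unusedSectionVars false

noncomputable section

namespace Helper39W1

universe u

namespace Ctx

variable {F : Type u} [Field F] [CharZero F] {ι : Type} [DecidableEq ι] {L P : Type u} [LieRing L]
  [LieAlgebra F L] [CommRing P] [Algebra F P] (c : Ctx F ι L P)

section Forms
variable {c} [St5 L]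

theorem IsForm.closed' {A : Finset ι} {η : L → Module.End F L × P} (h : c.IsForm A η) (e y z : L) :
    (η ⁅e, y⁆).1 z - (η ⁅e, z⁆).1 y = (η e).1 ⁅z, y⁆ := by
  have h1 : Dop e (η y).1 z - Dop y (η e).1 z = (η ⁅e, y⁆).1 z := by
    have := congrArg (fun q : Module.End F L × P => q.1 z) (h.closed e y)
    exact this
  have h2 := (h.fn z).lie e y
  rw [Dop_apply, Dop_apply] at h1
  -- symmetric rewriting
  have s1 : (η y).1 z = (η z).1 y := h.sym y z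
  have s2 : (η e).1 z = (η z).1 e := h.sym e z
  have s3 : (η y).1 ⁅e, z⁆ = (η ⁅e, z⁆).1 y := h.sym _ _
  have s4 : (η e).1 ⁅y, z⁆ = -(η e).1 ⁅z, y⁆ := by
    rw [← lie_skew, map_neg]
  have s5 : (η ⁅e, y⁆).1 z = (η z).1 ⁅e, y⁆ := h.sym _ _
  rw [s1, s2, s3, s4] at h1
  rw [two_smul, ← s5] at h2
  have h3 : ⁅(η z).1 e, y⁆ = -⁅y, (η z).1 e⁆ := (lie_skew _ _).symm
  rw [h3] at h2
  have h4 : (η ⁅e, y⁆).1 z - (η ⁅e, z⁆).1 y - (η e).1 ⁅z, y⁆ =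
      (-⁅y, (η z).1 e⁆ + ⁅e, (η z).1 y⁆) - (η ⁅e, y⁆).1 z - (η ⁅e, z⁆).1 y - (η e).1 ⁅z, y⁆ := by
    rw [h2]
    abel
  have h5 : (-⁅y, (η z).1 e⁆ + ⁅e, (η z).1 y⁆) - (η ⁅e, y⁆).1 z - (η ⁅e, z⁆).1 y
      - (η e).1 ⁅z, y⁆ = (⁅e, (η z).1 y⁆ - (η ⁅e, z⁆).1 y - (⁅y, (η z).1 e⁆ - -(η e).1 ⁅z, y⁆))
        - (η ⁅e, y⁆).1 z := by abel
  rw [h5, h1, sub_self] at h4
  exact sub_eq_zero.mp h4

theorem isForm_exact {A : Finset ι} {w : Module.End F L × P} (hw : w ∈ c.BP A) :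
    c.IsForm A (fun v => c.DD v w) where
  add v w' := DD_add_left v w' w
  smul t v := DD_smul_left t v w
  sym v w' := BP_fn hw v w'
  fn v := (BP_fn hw).dop v
  closed a b := (DD_lie a b w).symm
  mem v hv := BP_DD hv hw
  val := ⟨c.d w.2, fun _ hy => c.fr_d _ _ (BP_fr hy hw), fun _ => mul_comm _ _⟩

theorem frm_SS_add3 (x u v w : L) : c.SS x u (v + w) = c.SS x u v + c.SS x u w := by
  apply Prod.ext
  · exact Sop_add3 x u v w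
  · change -(2 * Wr c.d (c.p x) (c.p u) (c.p (v + w))) =
      -(2 * Wr c.d (c.p x) (c.p u) (c.p v)) + -(2 * Wr c.d (c.p x) (c.p u) (c.p w))
    simp only [map_add, Wr]
    ring

theorem frm_SS_smul3 (t : F) (x u v : L) : c.SS x u (t • v) = t • c.SS x u v := by
  apply Prod.ext
  · exact Sop_smul3 t x u v
  · change -(2 * Wr c.d (c.p x) (c.p u) (c.p (t • v))) = t • -(2 * Wr c.d (c.p x) (c.p u) (c.p v))
    rw [map_smul]
    simp only [Derivation.map_smul, Wr]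
    simp only [Algebra.smul_def]
    ring

theorem frm_Sop_neg2 (x u v : L) : Sop F x (-u) v = -Sop F x u v := by
  have h := Sop_smul2 (F := F) (-1) x u v
  rw [neg_one_smul, neg_one_smul] at h
  exact h

theorem frm_SS_closed (x u a b : L) : c.DD a (c.SS x u b) - c.DD b (c.SS x u a) =
    c.SS x u ⁅a, b⁆ - c.SS ⁅x, u⁆ a b := by
  apply Prod.ext
  · change Dop a (Sop F x u b) - Dop b (Sop F x u a) = Sop F x u ⁅a, b⁆ - Sop F ⁅x, u⁆ a b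
    rw [Dop_Sop, Dop_Sop', Sop_swap12 x ⁅u, a⁆ b, ← lie_skew a u, frm_Sop_neg2]
    abel
  · change c.p a * c.d (-(2 * Wr c.d (c.p x) (c.p u) (c.p b))) -
      c.p b * c.d (-(2 * Wr c.d (c.p x) (c.p u) (c.p a))) =
      -(2 * Wr c.d (c.p x) (c.p u) (c.p ⁅a, b⁆)) - -(2 * Wr c.d (c.p ⁅x, u⁆) (c.p a) (c.p b))
    simp only [two_mul, c.p_lie, Derivation.leibniz, smul_eq_mul, Wr, map_add, map_sub, map_neg]
    ring

theorem frm_SS_add1 (x u v w : L) : c.SS (x + u) v w = c.SS x v w + c.SS u v w := by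
  apply Prod.ext
  · exact Sop_add1 x u v w
  · change -(2 * Wr c.d (c.p (x + u)) (c.p v) (c.p w)) =
      -(2 * Wr c.d (c.p x) (c.p v) (c.p w)) + -(2 * Wr c.d (c.p u) (c.p v) (c.p w))
    simp only [map_add, Wr]
    ring

theorem frm_SS_zero1 (v w : L) : c.SS 0 v w = 0 := by
  have h := frm_SS_add1 (c := c) 0 0 v w
  rw [add_zero] at h
  exact left_eq_add.mp h

theorem frm_SS_neg1 (u v w : L) : c.SS (-u) v w = -c.SS u v w := by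
  have h := frm_SS_add1 (c := c) (-u) u v w
  rw [neg_add_cancel, frm_SS_zero1] at h
  exact eq_neg_of_add_eq_zero_left h.symm

theorem frm_SS_sub1 (x u v w : L) : c.SS (x - u) v w = c.SS x v w - c.SS u v w := by
  rw [sub_eq_add_neg, frm_SS_add1, frm_SS_neg1, ← sub_eq_add_neg]

theorem frm_sym (x u v w : L) : Sop F x u v w - Sop F x u w v = -((2 : F) • ⁅⁅x, u⁆, ⁅w, v⁆⁆) := by
  rw [Sop_apply_comm (F := F) w x u v, Sop_cyc (F := F) w x u]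
  abel

theorem frm_Fn_neg {φ : Module.End F L} (h : Fn φ) : Fn (-φ) := by
  have := h.smul (-1)
  rwa [neg_one_smul] at this

theorem frm_Fn_sub {φ ψ : Module.End F L} (h : Fn φ) (h' : Fn ψ) : Fn (φ - ψ) := by
  rw [sub_eq_add_neg]
  exact h.add (frm_Fn_neg h')

theorem frm_cyc_fst (x₁ x₂ x₃ x₄ t v w : L) : (c.cyc x₁ x₂ x₃ x₄ t v).1 w =
    Sop F x₁ (Sop F x₂ x₃ x₄ t) v w - Sop F x₂ (Sop F x₁ x₃ x₄ t) v w
      + Sop F x₃ (Sop F x₁ x₂ x₄ t) v w - Sop F x₄ (Sop F x₁ x₂ x₃ t) v w := rfl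

theorem isForm_cyc {A : Finset ι} {x₁ x₂ x₃ x₄ t : L} (h₁ : x₁ ∈ c.g A) (h₂ : x₂ ∈ c.g A)
    (h₃ : x₃ ∈ c.g A) (h₄ : x₄ ∈ c.g A) (ht : t ∈ c.g A) :
    c.IsForm A (c.cyc x₁ x₂ x₃ x₄ t) where
  add v w := by
    unfold cyc
    rw [frm_SS_add3, frm_SS_add3, frm_SS_add3, frm_SS_add3]
    abel
  smul s v := by
    unfold cyc
    rw [frm_SS_smul3, frm_SS_smul3, frm_SS_smul3, frm_SS_smul3, smul_sub, smul_add, smul_sub]
  sym v w := by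
    rw [← sub_eq_zero, frm_cyc_fst, frm_cyc_fst]
    have key := cyc_lie (F := F) x₁ x₂ x₃ x₄ t
    have e : (Sop F x₁ (Sop F x₂ x₃ x₄ t) v w - Sop F x₂ (Sop F x₁ x₃ x₄ t) v w
      + Sop F x₃ (Sop F x₁ x₂ x₄ t) v w - Sop F x₄ (Sop F x₁ x₂ x₃ t) v w) -
      (Sop F x₁ (Sop F x₂ x₃ x₄ t) w v - Sop F x₂ (Sop F x₁ x₃ x₄ t) w v
      + Sop F x₃ (Sop F x₁ x₂ x₄ t) w v - Sop F x₄ (Sop F x₁ x₂ x₃ t) w v) =
      (Sop F x₁ (Sop F x₂ x₃ x₄ t) v w - Sop F x₁ (Sop F x₂ x₃ x₄ t) w v) -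
      (Sop F x₂ (Sop F x₁ x₃ x₄ t) v w - Sop F x₂ (Sop F x₁ x₃ x₄ t) w v) +
      (Sop F x₃ (Sop F x₁ x₂ x₄ t) v w - Sop F x₃ (Sop F x₁ x₂ x₄ t) w v) -
      (Sop F x₄ (Sop F x₁ x₂ x₃ t) v w - Sop F x₄ (Sop F x₁ x₂ x₃ t) w v) := by abel
    rw [e, frm_sym, frm_sym, frm_sym, frm_sym]
    have e2 : -((2 : F) • ⁅⁅x₁, Sop F x₂ x₃ x₄ t⁆, ⁅w, v⁆⁆) -
        -((2 : F) • ⁅⁅x₂, Sop F x₁ x₃ x₄ t⁆, ⁅w, v⁆⁆) +
        -((2 : F) • ⁅⁅x₃, Sop F x₁ x₂ x₄ t⁆, ⁅w, v⁆⁆) -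
        -((2 : F) • ⁅⁅x₄, Sop F x₁ x₂ x₃ t⁆, ⁅w, v⁆⁆) =
        -((2 : F) • ⁅(⁅x₁, Sop F x₂ x₃ x₄ t⁆ - ⁅x₂, Sop F x₁ x₃ x₄ t⁆
          + ⁅x₃, Sop F x₁ x₂ x₄ t⁆ - ⁅x₄, Sop F x₁ x₂ x₃ t⁆), ⁅w, v⁆⁆) := by
      rw [sub_lie, add_lie, sub_lie, smul_sub, smul_add, smul_sub]
      abel
    rw [e2, key, zero_lie, smul_zero, neg_zero]
  fn v := by
    change Fn (Sop F x₁ (Sop F x₂ x₃ x₄ t) v - Sop F x₂ (Sop F x₁ x₃ x₄ t) v
      + Sop F x₃ (Sop F x₁ x₂ x₄ t) v - Sop F x₄ (Sop F x₁ x₂ x₃ t) v)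
    exact frm_Fn_sub ((frm_Fn_sub (fn_Sop _ _ _) (fn_Sop _ _ _)).add (fn_Sop _ _ _)) (fn_Sop _ _ _)
  closed a b := by
    unfold cyc
    have key := cyc_lie (F := F) x₁ x₂ x₃ x₄ t
    have dsub : ∀ (x : L) (v w : Module.End F L × P), c.DD x (v - w) = c.DD x v - c.DD x w := by
      intro x v w
      have h := DD_add (c := c) x (v - w) w
      rw [sub_add_cancel] at h
      rw [h, add_sub_cancel_right]
    rw [dsub, DD_add, dsub, dsub, DD_add, dsub]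
    have e : ∀ p1 p2 p3 p4 q1 q2 q3 q4 : Module.End F L × P,
        p1 - p2 + p3 - p4 - (q1 - q2 + q3 - q4) = (p1 - q1) - (p2 - q2) + (p3 - q3) - (p4 - q4) := by
      intros
      abel
    rw [e, frm_SS_closed, frm_SS_closed, frm_SS_closed, frm_SS_closed]
    have e2 : ∀ p1 p2 p3 p4 q1 q2 q3 q4 : Module.End F L × P,
        (p1 - q1) - (p2 - q2) + (p3 - q3) - (p4 - q4) =
        (p1 - p2 + p3 - p4) - (q1 - q2 + q3 - q4) := by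
      intros
      abel
    rw [e2, ← frm_SS_sub1, ← frm_SS_add1, ← frm_SS_sub1, key, frm_SS_zero1, sub_zero]
  mem v hv := by
    unfold cyc
    exact sub_mem (add_mem (sub_mem (SS_mem_BP h₁ (Sop_mem_g h₂ h₃ h₄ ht) hv)
      (SS_mem_BP h₂ (Sop_mem_g h₁ h₃ h₄ ht) hv)) (SS_mem_BP h₃ (Sop_mem_g h₁ h₂ h₄ ht) hv))
      (SS_mem_BP h₄ (Sop_mem_g h₁ h₂ h₃ ht) hv)
  val := by
    have key := cyc_lie (F := F) x₁ x₂ x₃ x₄ t
    have key1 := congrArg c.p key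
    simp only [map_sub, map_add, map_zero, c.p_lie] at key1
    have key2 := congrArg c.d key1
    simp only [map_sub, map_add, map_zero, Derivation.leibniz, smul_eq_mul] at key2
    refine ⟨-(2 * ((c.d (c.p x₁) * c.d (c.d (c.p (Sop F x₂ x₃ x₄ t)))
      - c.d (c.p (Sop F x₂ x₃ x₄ t)) * c.d (c.d (c.p x₁)))
      - (c.d (c.p x₂) * c.d (c.d (c.p (Sop F x₁ x₃ x₄ t)))
      - c.d (c.p (Sop F x₁ x₃ x₄ t)) * c.d (c.d (c.p x₂)))
      + (c.d (c.p x₃) * c.d (c.d (c.p (Sop F x₁ x₂ x₄ t)))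
      - c.d (c.p (Sop F x₁ x₂ x₄ t)) * c.d (c.d (c.p x₃)))
      - (c.d (c.p x₄) * c.d (c.d (c.p (Sop F x₁ x₂ x₃ t)))
      - c.d (c.p (Sop F x₁ x₂ x₃ t)) * c.d (c.d (c.p x₄))))), ?_, ?_⟩
    · intro y hy
      have k : ∀ x u : L, x ∈ c.g A → u ∈ c.g A →
          c.d (c.p x) * c.d (c.d (c.p u)) - c.d (c.p u) * c.d (c.d (c.p x)) ∈ c.fr y := by
        intro x u hx hu
        have hx1 := c.fr_d y _ (p_mem_fr hy hx)
        have hu1 := c.fr_d y _ (p_mem_fr hy hu)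
        exact sub_mem (mul_mem hx1 (c.fr_d y _ hu1)) (mul_mem hu1 (c.fr_d y _ hx1))
      apply neg_mem
      apply bpf_two_mul_mem
      exact sub_mem (add_mem (sub_mem (k _ _ h₁ (Sop_mem_g h₂ h₃ h₄ ht))
        (k _ _ h₂ (Sop_mem_g h₁ h₃ h₄ ht))) (k _ _ h₃ (Sop_mem_g h₁ h₂ h₄ ht)))
        (k _ _ h₄ (Sop_mem_g h₁ h₂ h₃ ht))
    · intro v
      change -(2 * Wr c.d (c.p x₁) (c.p (Sop F x₂ x₃ x₄ t)) (c.p v))
        - -(2 * Wr c.d (c.p x₂) (c.p (Sop F x₁ x₃ x₄ t)) (c.p v))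
        + -(2 * Wr c.d (c.p x₃) (c.p (Sop F x₁ x₂ x₄ t)) (c.p v))
        - -(2 * Wr c.d (c.p x₄) (c.p (Sop F x₁ x₂ x₃ t)) (c.p v)) = _
      unfold Wr
      linear_combination (-2 * c.d (c.d (c.p v))) * key1 + (2 * c.d (c.p v)) * key2

theorem frm_swap_fix {A : Finset ι} {y z : ι} (hy : y ∉ A) (hz : z ∉ A)
    {τ : L →ₗ⁅F⁆ L} (hτ : c.IsSwap y z τ) {a : L} (ha : a ∈ c.g A) : τ a = a := by
  let V : LieSubalgebra F L :=
    { carrier := {u | τ u = u}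
      add_mem' := fun {a b} (ha : τ a = a) (hb : τ b = b) => by
        change τ (a + b) = a + b
        rw [map_add, ha, hb]
      zero_mem' := map_zero τ
      smul_mem' := fun t a (ha : τ a = a) => by
        change τ (t • a) = t • a
        rw [map_smul, ha]
      lie_mem' := fun {a b} (ha : τ a = a) (hb : τ b = b) => by
        change τ ⁅a, b⁆ = ⁅a, b⁆
        rw [LieHom.map_lie, ha, hb] }
  have hV : c.g A ≤ V := by
    refine LieSubalgebra.lieSpan_le.2 ?_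
    rintro _ ⟨i, hi, rfl⟩
    have hi' : i ∈ A := by exact_mod_cast hi
    exact hτ.other i (fun h => hy (h ▸ hi')) (fun h => hz (h ▸ hi'))
  exact hV ha

theorem frm_BP_swap {A : Finset ι} {y z : ι} (hy : y ∉ A) (hz : z ∉ A)
    {τ : L →ₗ⁅F⁆ L} (hτ : c.IsSwap y z τ) {w : Module.End F L × P} (hw : w ∈ c.BP A) (v : L) :
    τ (w.1 v) = w.1 (τ v) := by
  unfold BP at hw
  induction hw using Algebra.adjoin_induction generalizing v with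
  | mem w hw =>
    obtain ⟨a, ha, b, hb, e, he, rfl⟩ := hw
    change τ (Sop F a b e v) = Sop F a b e (τ v)
    simp only [Sop_apply, map_add, LieHom.map_lie, frm_swap_fix hy hz hτ ha,
      frm_swap_fix hy hz hτ hb, frm_swap_fix hy hz hτ he]
  | algebraMap t =>
    rw [bpf_algebraMap_fst, bpf_algebraMap_fst, map_smul]
  | add w w' _ _ h h' =>
    change τ (w.1 v + w'.1 v) = w.1 (τ v) + w'.1 (τ v)
    rw [map_add, h, h']
  | mul w w' _ _ h h' =>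
    change τ (w.1 (w'.1 v)) = w.1 (w'.1 (τ v))
    rw [h, h']

/-- the elements with the conclusion of `OO_swap` -/
def frmK (c : Ctx F ι L P) (A : Finset ι) (y z : ι) (τ : L →ₗ⁅F⁆ L) :
    Submodule F (Module.End F L × P) where
  carrier := {w | ∃ θ ∈ c.BP A, w.1 (c.X z) - τ (w.1 (c.X z)) = θ.1 ⁅c.X z, c.X y⁆ ∧
    c.co y 1 w.2 = θ.2}
  add_mem' := by
    rintro w w' ⟨θ, hθ, h1, h2⟩ ⟨θ', hθ', h1', h2'⟩
    refine ⟨θ + θ', add_mem hθ hθ', ?_, ?_⟩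
    · change w.1 (c.X z) + w'.1 (c.X z) - τ (w.1 (c.X z) + w'.1 (c.X z)) =
        θ.1 ⁅c.X z, c.X y⁆ + θ'.1 ⁅c.X z, c.X y⁆
      rw [map_add, ← h1, ← h1']
      abel
    · change c.co y 1 (w.2 + w'.2) = θ.2 + θ'.2
      rw [map_add, h2, h2']
  zero_mem' := by
    refine ⟨0, zero_mem _, ?_, ?_⟩
    · change (0 : L) - τ (0 : L) = 0
      rw [map_zero, sub_zero]
    · change c.co y 1 (0 : P) = 0
      rw [map_zero]
  smul_mem' := by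
    rintro t w ⟨θ, hθ, h1, h2⟩
    refine ⟨t • θ, Subalgebra.smul_mem _ hθ t, ?_, ?_⟩
    · change t • w.1 (c.X z) - τ (t • w.1 (c.X z)) = t • θ.1 ⁅c.X z, c.X y⁆
      rw [map_smul, ← smul_sub, h1]
    · change c.co y 1 (t • w.2) = t • θ.2
      rw [map_smul, h2]

theorem frm_swap_gen0 {A : Finset ι} {y z : ι} (hy : y ∉ A) (hz : z ∉ A)
    {τ : L →ₗ⁅F⁆ L} (hτ : c.IsSwap y z τ) {η : L → Module.End F L × P} (hη : c.IsForm A η)
    (hE : ∀ v w, τ ((η v).1 w) = (η (τ v)).1 (τ w)) {b : Module.End F L × P} (hb : b ∈ c.BP A) :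
    b * η (c.X y) ∈ frmK c A y z τ := by
  refine ⟨0, zero_mem _, ?_, ?_⟩
  · change b.1 ((η (c.X y)).1 (c.X z)) - τ (b.1 ((η (c.X y)).1 (c.X z))) = 0
    rw [frm_BP_swap hy hz hτ hb, hE, hτ.left, hτ.right, hη.sym (c.X z) (c.X y), sub_self]
  · obtain ⟨r, hr, hr'⟩ := hη.val
    change c.co y 1 (b.2 * (η (c.X y)).2) = 0
    rw [hr', c.co_mul y 1 _ _ (BP_fr hy hb), c.co_mul y 1 _ _ (hr y hy), c.co_X_succ, mul_zero,
      mul_zero]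

theorem frm_swap_gen1 {A : Finset ι} {y z : ι} (hy : y ∉ A) (hz : z ∉ A)
    {τ : L →ₗ⁅F⁆ L} (hτ : c.IsSwap y z τ) {η : L → Module.End F L × P} (hη : c.IsForm A η)
    (hE : ∀ v w, τ ((η v).1 w) = (η (τ v)).1 (τ w)) {b : Module.End F L × P} (hb : b ∈ c.BP A)
    {e : L} (he : e ∈ c.g A) :
    b * η ⁅e, c.X y⁆ ∈ frmK c A y z τ := by
  refine ⟨b * η e, mul_mem hb (hη.mem e he), ?_, ?_⟩
  · change b.1 ((η ⁅e, c.X y⁆).1 (c.X z)) - τ (b.1 ((η ⁅e, c.X y⁆).1 (c.X z))) =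
      b.1 ((η e).1 ⁅c.X z, c.X y⁆)
    rw [frm_BP_swap hy hz hτ hb, hE, LieHom.map_lie, hτ.left, hτ.right, frm_swap_fix hy hz hτ he,
      ← map_sub, hη.closed']
  · obtain ⟨r, hr, hr'⟩ := hη.val
    change c.co y 1 (b.2 * (η ⁅e, c.X y⁆).2) = b.2 * (η e).2
    have h0 : c.p e ∈ c.fr y := p_mem_fr hy he
    rw [hr', hr', c.co_mul y 1 _ _ (BP_fr hy hb), c.co_mul y 1 _ _ (hr y hy), c.p_lie, map_sub,
      c.co_mul y 1 _ _ h0, c.co_d_succ, c.co_X_zero, c.co_X_succ, mul_comm (c.p (c.X y)),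
      c.co_mul y 1 _ _ (c.fr_d y _ h0), c.co_X_succ, map_zero]
    ring

/-- used in PARTD: the defect of the symmetry in `y, z` of an element of `𝒪` -/
theorem OO_swap {A : Finset ι} {y z : ι} (hy : y ∉ A) (hz : z ∉ A) (hyz : y ≠ z)
    {τ : L →ₗ⁅F⁆ L} (hτ : c.IsSwap y z τ) {w : Module.End F L × P} (hw : w ∈ c.OO A y) :
    ∃ θ ∈ c.BP A, w.1 (c.X z) - τ (w.1 (c.X z)) = θ.1 ⁅c.X z, c.X y⁆ ∧ c.co y 1 w.2 = θ.2 := by
  have hEx : ∀ f ∈ c.BP A, ∀ v w : L, τ ((c.DD v f).1 w) = (c.DD (τ v) f).1 (τ w) := by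
    intro f hf v w
    change τ (Dop v f.1 w) = Dop (τ v) f.1 (τ w)
    rw [Dop_apply, Dop_apply, map_sub, LieHom.map_lie, frm_BP_swap hy hz hτ hf,
      frm_BP_swap hy hz hτ hf, LieHom.map_lie]
  have hEc : ∀ x₁ ∈ c.g A, ∀ x₂ ∈ c.g A, ∀ x₃ ∈ c.g A, ∀ x₄ ∈ c.g A, ∀ t ∈ c.g A, ∀ v w : L,
      τ ((c.cyc x₁ x₂ x₃ x₄ t v).1 w) = (c.cyc x₁ x₂ x₃ x₄ t (τ v)).1 (τ w) := by
    intro x₁ h₁ x₂ h₂ x₃ h₃ x₄ h₄ t ht v w
    have k : ∀ x u : L, x ∈ c.g A → u ∈ c.g A → τ (Sop F x u v w) = Sop F x u (τ v) (τ w) := by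
      intro x u hx hu
      simp only [Sop_apply, map_add, LieHom.map_lie, frm_swap_fix hy hz hτ hx,
        frm_swap_fix hy hz hτ hu]
    rw [frm_cyc_fst, frm_cyc_fst, map_sub, map_add, map_sub, k _ _ h₁ (Sop_mem_g h₂ h₃ h₄ ht),
      k _ _ h₂ (Sop_mem_g h₁ h₃ h₄ ht), k _ _ h₃ (Sop_mem_g h₁ h₂ h₄ ht),
      k _ _ h₄ (Sop_mem_g h₁ h₂ h₃ ht)]
  have hle : c.OO A y ≤ frmK c A y z τ := by
    refine sup_le (sup_le ?_ ?_) (sup_le ?_ ?_)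
    · refine Submodule.span_le.2 ?_
      rintro _ ⟨b, hb, f, hf, rfl⟩
      exact frm_swap_gen0 hy hz hτ (isForm_exact hf) (hEx f hf) hb
    · refine Submodule.span_le.2 ?_
      rintro _ ⟨b, hb, f, hf, e, he, rfl⟩
      exact frm_swap_gen1 hy hz hτ (isForm_exact hf) (hEx f hf) hb he
    · refine Submodule.span_le.2 ?_
      rintro _ ⟨b, hb, x₁, h₁, x₂, h₂, x₃, h₃, x₄, h₄, t, ht, rfl⟩
      exact frm_swap_gen0 hy hz hτ (isForm_cyc h₁ h₂ h₃ h₄ ht) (hEc x₁ h₁ x₂ h₂ x₃ h₃ x₄ h₄ t ht) hb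
    · refine Submodule.span_le.2 ?_
      rintro _ ⟨b, hb, x₁, h₁, x₂, h₂, x₃, h₃, x₄, h₄, t, ht, e, he, rfl⟩
      exact frm_swap_gen1 hy hz hτ (isForm_cyc h₁ h₂ h₃ h₄ ht)
        (hEc x₁ h₁ x₂ h₂ x₃ h₃ x₄ h₄ t ht) hb he
  exact hle hw

end Forms

end Ctx

end Helper39W1
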