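import Pool.Agent.Helper39_W1.BPfacts
import Pool.Agent.Helper39_W1.Forms

set_option autoImplicit false
set_option linter.unusedSectionVars false

noncomputable section

namespace Helper39W1

universe u

namespace Ctx

variable {F : Type u} [Field F] [CharZero F] {ι : Type} [DecidableEq ι] {L P : Type u} [LieRing L]
  [LieAlgebra F L] [CommRing P] [Algebra F P] (c : Ctx F ι L P)

/-! ## auxiliary: `DD x` as a linear map -/

/-- `DD x` as a linear map -/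
def hexD (x : L) : (Module.End F L × P) →ₗ[F] (Module.End F L × P) where
  toFun := c.DD x
  map_add' := c.DD_add x
  map_smul' := fun t v => c.DD_smul t x v

@[simp] theorem hexD_apply (x : L) (w : Module.End F L × P) : c.hexD x w = c.DD x w := rfl

section HEX
variable {c}

theorem hex_DD_sub (x : L) (v w : Module.End F L × P) : c.DD x (v - w) = c.DD x v - c.DD x w := by
  have := (c.hexD x).map_sub v w
  simpa using this

theorem hex_DD_neg (x : L) (v : Module.End F L × P) : c.DD x (-v) = - c.DD x v := by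
  have := (c.hexD x).map_neg v
  simpa using this

theorem hex_DD_neg_left (x : L) (v : Module.End F L × P) : c.DD (-x) v = - c.DD x v := by
  have h := c.DD_smul_left (-1 : F) x v
  simpa using h

theorem hex_DD_sub_left (x y : L) (v : Module.End F L × P) :
    c.DD (x - y) v = c.DD x v - c.DD y v := by
  rw [sub_eq_add_neg, DD_add_left, hex_DD_neg_left, ← sub_eq_add_neg]

theorem hex_KK_mono {A : Finset ι} {y : ι} {k l : ℕ} (h : k ≤ l) : c.KK A y k ≤ c.KK A y l := by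
  apply Submodule.span_mono
  rintro w ⟨b, hb, J, hJ, hJ', a₁, h₁, a₂, h₂, rfl⟩
  exact ⟨b, hb, J, hJ.trans h, hJ', a₁, h₁, a₂, h₂, rfl⟩

theorem hex_HE_mono {A : Finset ι} {y : ι} {k l : ℕ} (h : k ≤ l) : c.HE A y k ≤ c.HE A y l :=
  sup_le_sup_left (hex_KK_mono h) _

theorem hex_HH_mono {A : Finset ι} {y : ι} {k l : ℕ} (h : k ≤ l) : c.HH A y k ≤ c.HH A y l :=
  sup_le_sup_left (hex_KK_mono h) _

theorem hex_OE0_mem {A : Finset ι} {y : ι} {b f : Module.End F L × P} (hb : b ∈ c.BP A)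
    (hf : f ∈ c.BP A) : b * c.DD (c.X y) f ∈ c.OE0 A y := Submodule.subset_span ⟨b, hb, f, hf, rfl⟩

theorem hex_OE0_mem' {A : Finset ι} {y : ι} {f : Module.End F L × P}
    (hf : f ∈ c.BP A) : c.DD (c.X y) f ∈ c.OE0 A y := by
  have := hex_OE0_mem (c := c) (y := y) (one_mem (c.BP A)) hf
  rwa [one_mul] at this

theorem hex_OE1_mem {A : Finset ι} {y : ι} {b f : Module.End F L × P} (hb : b ∈ c.BP A)
    (hf : f ∈ c.BP A) {e : L} (he : e ∈ c.g A) : b * c.DD ⁅e, c.X y⁆ f ∈ c.OE1 A y :=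
  Submodule.subset_span ⟨b, hb, f, hf, e, he, rfl⟩

theorem hex_OE1_mem' {A : Finset ι} {y : ι} {f : Module.End F L × P}
    (hf : f ∈ c.BP A) {e : L} (he : e ∈ c.g A) : c.DD ⁅e, c.X y⁆ f ∈ c.OE1 A y := by
  have := hex_OE1_mem (c := c) (y := y) (one_mem (c.BP A)) hf he
  rwa [one_mul] at this

theorem hex_KK_mem {A : Finset ι} {y : ι} {k : ℕ} {b : Module.End F L × P} (hb : b ∈ c.BP A)
    {l : List L} (hl : l.length ≤ k) (hl' : ∀ a ∈ l, a ∈ c.g A) {a₁ a₂ : L} (h₁ : a₁ ∈ c.g A)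
    (h₂ : a₂ ∈ c.g A) : b * c.DDl l (c.SS a₁ a₂ (c.X y)) ∈ c.KK A y k :=
  Submodule.subset_span ⟨b, hb, l, hl, hl', a₁, h₁, a₂, h₂, rfl⟩

theorem hex_bSS_mem {A : Finset ι} {y : ι} {k : ℕ} {b : Module.End F L × P} (hb : b ∈ c.BP A)
    {a₁ a₂ : L} (h₁ : a₁ ∈ c.g A) (h₂ : a₂ ∈ c.g A) : b * c.SS a₁ a₂ (c.X y) ∈ c.KK A y k :=
  hex_KK_mem (l := []) hb (Nat.zero_le _) (fun _ h => absurd h List.not_mem_nil) h₁ h₂

theorem hex_SS_mem {A : Finset ι} {y : ι} {k : ℕ} {a₁ a₂ : L} (h₁ : a₁ ∈ c.g A)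
    (h₂ : a₂ ∈ c.g A) : c.SS a₁ a₂ (c.X y) ∈ c.KK A y k := by
  have := hex_bSS_mem (c := c) (y := y) (k := k) (one_mem (c.BP A)) h₁ h₂
  rwa [one_mul] at this

theorem hex_OE0_le {A : Finset ι} {y : ι} : c.OE0 A y ≤ c.OE A y := le_sup_left
theorem hex_OE1_le {A : Finset ι} {y : ι} : c.OE1 A y ≤ c.OE A y := le_sup_right
theorem hex_OE_le {A : Finset ι} {y : ι} {k : ℕ} : c.OE A y ≤ c.HE A y k := le_sup_left
theorem hex_KK_le {A : Finset ι} {y : ι} {k : ℕ} : c.KK A y k ≤ c.HE A y k := le_sup_right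

/-- multiplication by an element of `BP` as a linear map -/
theorem hex_mul_span {A : Finset ι} {y : ι} {b : Module.End F L × P} (hb : b ∈ c.BP A) :
    (c.OE0 A y ≤ (c.OE0 A y).comap (LinearMap.mulLeft F b)) ∧
    (c.OE1 A y ≤ (c.OE1 A y).comap (LinearMap.mulLeft F b)) ∧
    (c.OC0 A y ≤ (c.OC0 A y).comap (LinearMap.mulLeft F b)) ∧
    (c.OC1 A y ≤ (c.OC1 A y).comap (LinearMap.mulLeft F b)) ∧
    (∀ k, c.KK A y k ≤ (c.KK A y k).comap (LinearMap.mulLeft F b)) := by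
  refine ⟨?_, ?_, ?_, ?_, fun k => ?_⟩
  · apply Submodule.span_le.2
    rintro w ⟨b', hb', f, hf, rfl⟩
    refine Submodule.subset_span ⟨b * b', mul_mem hb hb', f, hf, ?_⟩
    simp [mul_assoc]
  · apply Submodule.span_le.2
    rintro w ⟨b', hb', f, hf, e, he, rfl⟩
    refine Submodule.subset_span ⟨b * b', mul_mem hb hb', f, hf, e, he, ?_⟩
    simp [mul_assoc]
  · apply Submodule.span_le.2
    rintro w ⟨b', hb', x₁, h₁, x₂, h₂, x₃, h₃, x₄, h₄, t, ht, rfl⟩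
    refine Submodule.subset_span ⟨b * b', mul_mem hb hb', x₁, h₁, x₂, h₂, x₃, h₃, x₄, h₄, t, ht, ?_⟩
    simp [mul_assoc]
  · apply Submodule.span_le.2
    rintro w ⟨b', hb', x₁, h₁, x₂, h₂, x₃, h₃, x₄, h₄, t, ht, e, he, rfl⟩
    refine Submodule.subset_span
      ⟨b * b', mul_mem hb hb', x₁, h₁, x₂, h₂, x₃, h₃, x₄, h₄, t, ht, e, he, ?_⟩
    simp [mul_assoc]
  · apply Submodule.span_le.2
    rintro w ⟨b', hb', J, hJ, hJ', a₁, h₁, a₂, h₂, rfl⟩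
    refine Submodule.subset_span ⟨b * b', mul_mem hb hb', J, hJ, hJ', a₁, h₁, a₂, h₂, ?_⟩
    simp [mul_assoc]

theorem hex_comap_sup {V : Type u} [AddCommGroup V] [Module F V] (f : V →ₗ[F] V)
    {S S' T T' : Submodule F V} (h : S ≤ T.comap f) (h' : S' ≤ T'.comap f) :
    S ⊔ S' ≤ (T ⊔ T').comap f :=
  sup_le (h.trans (Submodule.comap_mono le_sup_left)) (h'.trans (Submodule.comap_mono le_sup_right))

end HEX

section HEX
variable {c} [St5 L]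

theorem BP_mul_OE {A : Finset ι} {y : ι} {b w : Module.End F L × P} (hb : b ∈ c.BP A)
    (hw : w ∈ c.OE A y) : b * w ∈ c.OE A y := by
  obtain ⟨h0, h1, -, -, -⟩ := hex_mul_span (y := y) hb
  exact hex_comap_sup _ h0 h1 hw

theorem BP_mul_OE0 {A : Finset ι} {y : ι} {b w : Module.End F L × P} (hb : b ∈ c.BP A)
    (hw : w ∈ c.OE0 A y) : b * w ∈ c.OE0 A y := by
  obtain ⟨h0, h1, -, -, -⟩ := hex_mul_span (y := y) hb
  exact h0 hw

theorem BP_mul_HE {A : Finset ι} {y : ι} {k : ℕ} {b w : Module.End F L × P} (hb : b ∈ c.BP A)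
    (hw : w ∈ c.HE A y k) : b * w ∈ c.HE A y k := by
  obtain ⟨h0, h1, -, -, h4⟩ := hex_mul_span (y := y) hb
  exact hex_comap_sup _ (hex_comap_sup _ h0 h1) (h4 k) hw

theorem BP_mul_HH {A : Finset ι} {y : ι} {k : ℕ} {b w : Module.End F L × P} (hb : b ∈ c.BP A)
    (hw : w ∈ c.HH A y k) : b * w ∈ c.HH A y k := by
  obtain ⟨h0, h1, h2, h3, h4⟩ := hex_mul_span (y := y) hb
  exact hex_comap_sup _ (hex_comap_sup _ (hex_comap_sup _ h0 h1) (hex_comap_sup _ h2 h3)) (h4 k) hw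

theorem DD_OE0 {A : Finset ι} {y : ι} {a : L} (ha : a ∈ c.g A) {w : Module.End F L × P}
    (hw : w ∈ c.OE0 A y) : c.DD a w ∈ c.OE A y := by
  have : c.OE0 A y ≤ (c.OE A y).comap (c.hexD a) := by
    apply Submodule.span_le.2
    rintro w ⟨b, hb, f, hf, rfl⟩
    change c.DD a (b * c.DD (c.X y) f) ∈ c.OE A y
    have e1 : c.DD a (b * c.DD (c.X y) f) = c.DD a b * c.DD (c.X y) f
        + (b * c.DD ⁅a, c.X y⁆ f + b * c.DD (c.X y) (c.DD a f)) := by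
      rw [DD_mul, ← mul_add, DD_lie]
      congr 2
      abel
    rw [e1]
    refine add_mem (hex_OE0_le (hex_OE0_mem (BP_DD ha hb) hf)) (add_mem ?_ ?_)
    · exact hex_OE1_le (hex_OE1_mem hb hf ha)
    · exact hex_OE0_le (hex_OE0_mem hb (BP_DD ha hf))
  exact this hw

/-- (G) on pairs -/
theorem G_pair {A : Finset ι} {f : Module.End F L × P} (hf : f ∈ c.BP A) (a b e : L) :
    c.SS (f.1 a) b e = f * c.SS a b e - (2 : F) • c.DD ⁅b, e⁆ (c.DD a f)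
      + (2 : F) • c.DD ⁅a, ⁅b, e⁆⁆ f := by
  apply Prod.ext
  · change Sop F (f.1 a) b e = f.1 * Sop F a b e - (2 : F) • Dop ⁅b, e⁆ (Dop a f.1)
      + (2 : F) • Dop ⁅a, ⁅b, e⁆⁆ f.1
    exact (BP_fn hf).G a b e
  · change -(2 * Wr c.d (c.p (f.1 a)) (c.p b) (c.p e)) = f.2 * (-(2 * Wr c.d (c.p a) (c.p b) (c.p e)))
      - (2 : F) • (c.p ⁅b, e⁆ * c.d (c.p a * c.d f.2))
      + (2 : F) • (c.p ⁅a, ⁅b, e⁆⁆ * c.d f.2)
    rw [BP_p hf]
    simp only [Wr, c.p_lie, Derivation.leibniz, smul_eq_mul, map_sub, map_add, two_smul, two_mul]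
    ring

theorem DD_two_mem_HE0 {A : Finset ι} {y : ι} {a e : L} (ha : a ∈ c.g A) (he : e ∈ c.g A)
    {f : Module.End F L × P} (hf : f ∈ c.BP A) : c.DD ⁅a, ⁅e, c.X y⁆⁆ f ∈ c.HE A y 0 := by
  have h := G_pair hf a e (c.X y)
  have h' : c.DD ⁅a, ⁅e, c.X y⁆⁆ f = (2⁻¹ : F) • (c.SS (f.1 a) e (c.X y)
      - f * c.SS a e (c.X y)) + c.DD ⁅e, c.X y⁆ (c.DD a f) := by
    rw [h]
    generalize c.DD ⁅a, ⁅e, c.X y⁆⁆ f = u
    generalize c.DD ⁅e, c.X y⁆ (c.DD a f) = v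
    generalize f * c.SS a e (c.X y) = z
    have h2 : (2⁻¹ : F) * 2 = 1 := by norm_num
    have : z - (2 : F) • v + (2 : F) • u - z = (2 : F) • (u - v) := by
      rw [smul_sub]; abel
    rw [this, smul_smul, h2, one_smul]
    abel
  rw [h']
  refine add_mem (hex_KK_le (Submodule.smul_mem _ _ (sub_mem ?_ ?_))) (hex_OE_le (hex_OE1_le ?_))
  · exact hex_SS_mem (BP_maps_g hf ha) he
  · exact hex_bSS_mem hf ha he
  · exact hex_OE1_mem' (BP_DD ha hf) he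

theorem DD_OE {A : Finset ι} {y : ι} {a : L} (ha : a ∈ c.g A) {w : Module.End F L × P}
    (hw : w ∈ c.OE A y) : c.DD a w ∈ c.HE A y 0 := by
  have h1 : c.OE1 A y ≤ (c.HE A y 0).comap (c.hexD a) := by
    apply Submodule.span_le.2
    rintro w ⟨b, hb, f, hf, e, he, rfl⟩
    change c.DD a (b * c.DD ⁅e, c.X y⁆ f) ∈ c.HE A y 0
    have e1 : c.DD a (b * c.DD ⁅e, c.X y⁆ f) = c.DD a b * c.DD ⁅e, c.X y⁆ f
        + (b * c.DD ⁅a, ⁅e, c.X y⁆⁆ f + b * c.DD ⁅e, c.X y⁆ (c.DD a f)) := by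
      rw [DD_mul, ← mul_add, c.DD_lie a]
      congr 2
      abel
    rw [e1]
    refine add_mem (hex_OE_le (hex_OE1_le (hex_OE1_mem (BP_DD ha hb) hf he))) (add_mem ?_ ?_)
    · exact BP_mul_HE hb (DD_two_mem_HE0 ha he hf)
    · exact hex_OE_le (hex_OE1_le (hex_OE1_mem hb (BP_DD ha hf) he))
  have h0 : c.OE0 A y ≤ (c.HE A y 0).comap (c.hexD a) := fun w hw => hex_OE_le (DD_OE0 ha hw)
  exact (sup_le h0 h1) hw

theorem DD_HE {A : Finset ι} {y : ι} {k : ℕ} {a : L} (ha : a ∈ c.g A) {w : Module.End F L × P}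
    (hw : w ∈ c.HE A y k) : c.DD a w ∈ c.HE A y (k + 1) := by
  have h0 : c.OE A y ≤ (c.HE A y (k + 1)).comap (c.hexD a) :=
    fun w hw => hex_HE_mono (Nat.zero_le _) (DD_OE ha hw)
  have h1 : c.KK A y k ≤ (c.HE A y (k + 1)).comap (c.hexD a) := by
    apply Submodule.span_le.2
    rintro w ⟨b, hb, J, hJ, hJ', a₁, h₁, a₂, h₂, rfl⟩
    change c.DD a (b * c.DDl J (c.SS a₁ a₂ (c.X y))) ∈ c.HE A y (k + 1)
    rw [DD_mul]
    refine hex_KK_le (add_mem ?_ ?_)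
    · exact hex_KK_mem (BP_DD ha hb) (hJ.trans (Nat.le_succ k)) hJ' h₁ h₂
    · refine hex_KK_mem (l := a :: J) hb ?_ ?_ h₁ h₂
      · simpa using hJ
      · intro b hb
        rcases List.mem_cons.1 hb with rfl | hb
        · exact ha
        · exact hJ' b hb
  exact (sup_le h0 h1) hw

theorem DD_O0 {A : Finset ι} {y : ι} {a : L} (ha : a ∈ c.g A) {w : Module.End F L × P}
    (hw : w ∈ c.O0 A y) : c.DD a w ∈ c.OO A y := by
  have h0 : c.OE0 A y ≤ (c.OO A y).comap (c.hexD a) :=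
    fun w hw => le_sup_left (a := c.OE0 A y ⊔ c.OE1 A y) (DD_OE0 ha hw)
  have h1 : c.OC0 A y ≤ (c.OO A y).comap (c.hexD a) := by
    apply Submodule.span_le.2
    rintro w ⟨b, hb, x₁, h₁, x₂, h₂, x₃, h₃, x₄, h₄, t, ht, rfl⟩
    change c.DD a (b * c.cyc x₁ x₂ x₃ x₄ t (c.X y)) ∈ c.OO A y
    have hform := isForm_cyc h₁ h₂ h₃ h₄ ht
    have hcl := hform.closed a (c.X y)
    rw [DD_mul]
    have e1 : c.DD a (c.cyc x₁ x₂ x₃ x₄ t (c.X y)) = c.DD (c.X y) (c.cyc x₁ x₂ x₃ x₄ t a)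
        + c.cyc x₁ x₂ x₃ x₄ t ⁅a, c.X y⁆ := by rw [← hcl]; abel
    rw [e1, mul_add]
    have hOC : (c.OC0 A y ⊔ c.OC1 A y) ≤ c.OO A y := le_sup_right
    have hOE : (c.OE0 A y ⊔ c.OE1 A y) ≤ c.OO A y := le_sup_left
    refine add_mem (hOC (Submodule.mem_sup_left ?_)) (add_mem (hOE (Submodule.mem_sup_left ?_))
      (hOC (Submodule.mem_sup_right ?_)))
    · exact Submodule.subset_span ⟨_, BP_DD ha hb, x₁, h₁, x₂, h₂, x₃, h₃, x₄, h₄, t, ht, rfl⟩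
    · exact hex_OE0_mem hb (hform.mem a ha)
    · exact Submodule.subset_span ⟨_, hb, x₁, h₁, x₂, h₂, x₃, h₃, x₄, h₄, t, ht, a, ha, rfl⟩
  exact (sup_le h0 h1) hw

/-- R3 on pairs -/
theorem R3_mem {A : Finset ι} {y : ι} {a b e : L} (ha : a ∈ c.g A) (hb : b ∈ c.g A) (he : e ∈ c.g A) :
    c.DD e (c.SS a b (c.X y)) + c.DD a (c.SS b e (c.X y)) + c.DD b (c.SS e a (c.X y)) ∈ c.OE0 A y := by
  have : c.DD e (c.SS a b (c.X y)) + c.DD a (c.SS b e (c.X y)) + c.DD b (c.SS e a (c.X y))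
      = c.DD (c.X y) (c.SS a b e) := by
    apply Prod.ext
    · exact Sop_R3 a b e (c.X y)
    · change c.p e * c.d (-(2 * Wr c.d (c.p a) (c.p b) (c.p (c.X y))))
        + c.p a * c.d (-(2 * Wr c.d (c.p b) (c.p e) (c.p (c.X y))))
        + c.p b * c.d (-(2 * Wr c.d (c.p e) (c.p a) (c.p (c.X y))))
        = c.p (c.X y) * c.d (-(2 * Wr c.d (c.p a) (c.p b) (c.p e)))
      simp only [Wr, two_mul, map_neg, map_add, map_sub, Derivation.leibniz, smul_eq_mul]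
      ring
  rw [this]
  exact hex_OE0_mem' (SS_mem_BP ha hb he)

theorem bd_mem {A : Finset ι} {y : ι} {a b e : L} (ha : a ∈ c.g A) (hb : b ∈ c.g A) (he : e ∈ c.g A) :
    c.SS ⁅a, b⁆ e (c.X y) + c.SS ⁅b, e⁆ a (c.X y) + c.SS ⁅e, a⁆ b (c.X y) ∈ c.OE0 A y := by
  have : c.SS ⁅a, b⁆ e (c.X y) + c.SS ⁅b, e⁆ a (c.X y) + c.SS ⁅e, a⁆ b (c.X y)
      = c.DD (c.X y) (c.SS a b e) := by
    apply Prod.ext
    · exact (Dop_Sop' (c.X y) a b e).symm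
    · change -(2 * Wr c.d (c.p ⁅a, b⁆) (c.p e) (c.p (c.X y)))
        + -(2 * Wr c.d (c.p ⁅b, e⁆) (c.p a) (c.p (c.X y)))
        + -(2 * Wr c.d (c.p ⁅e, a⁆) (c.p b) (c.p (c.X y)))
        = c.p (c.X y) * c.d (-(2 * Wr c.d (c.p a) (c.p b) (c.p e)))
      simp only [Wr, two_mul, c.p_lie, map_neg, map_add, map_sub, Derivation.leibniz, smul_eq_mul]
      ring
  rw [this]
  exact hex_OE0_mem' (SS_mem_BP ha hb he)

/-- R2 on pairs -/
theorem R2_mem {A : Finset ι} {y : ι} {a b d e : L} (ha : a ∈ c.g A) (hb : b ∈ c.g A)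
    (hd : d ∈ c.g A) (he : e ∈ c.g A) :
    c.DD ⁅d, e⁆ (c.SS a b (c.X y)) - c.DD ⁅a, b⁆ (c.SS d e (c.X y)) ∈ c.OE A y := by
  have key : (2 : F) • (c.DD ⁅d, e⁆ (c.SS a b (c.X y)) - c.DD ⁅a, b⁆ (c.SS d e (c.X y)))
      = c.DD (c.X y) (c.SS ⁅a, b⁆ d e) - c.DD (c.X y) (c.SS a b ⁅d, e⁆)
        - c.DD a (c.DD (c.X y) (c.SS b d e)) + c.DD b (c.DD (c.X y) (c.SS a d e))
        + c.DD ⁅d, c.X y⁆ (c.SS a b e) - c.DD ⁅e, c.X y⁆ (c.SS a b d) := by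
    rw [← lie_skew d (c.X y), ← lie_skew e (c.X y), hex_DD_neg_left, hex_DD_neg_left]
    apply Prod.ext
    · have := Sop_R2 (F := F) a b d e (c.X y)
      change (2 : F) • (Dop ⁅d, e⁆ (Sop F a b (c.X y)) - Dop ⁅a, b⁆ (Sop F d e (c.X y))) = _
      rw [this]
      change _ = Dop (c.X y) (Sop F ⁅a, b⁆ d e) - Dop (c.X y) (Sop F a b ⁅d, e⁆)
        - Dop a (Dop (c.X y) (Sop F b d e)) + Dop b (Dop (c.X y) (Sop F a d e))
        + -Dop ⁅c.X y, d⁆ (Sop F a b e) - -Dop ⁅c.X y, e⁆ (Sop F a b d)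
      abel
    · change (2 : F) • (c.p ⁅d, e⁆ * c.d (-(2 * Wr c.d (c.p a) (c.p b) (c.p (c.X y))))
          - c.p ⁅a, b⁆ * c.d (-(2 * Wr c.d (c.p d) (c.p e) (c.p (c.X y)))))
        = c.p (c.X y) * c.d (-(2 * Wr c.d (c.p ⁅a, b⁆) (c.p d) (c.p e)))
          - c.p (c.X y) * c.d (-(2 * Wr c.d (c.p a) (c.p b) (c.p ⁅d, e⁆)))
          - c.p a * c.d (c.p (c.X y) * c.d (-(2 * Wr c.d (c.p b) (c.p d) (c.p e))))
          + c.p b * c.d (c.p (c.X y) * c.d (-(2 * Wr c.d (c.p a) (c.p d) (c.p e))))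
          + -(c.p ⁅c.X y, d⁆ * c.d (-(2 * Wr c.d (c.p a) (c.p b) (c.p e))))
          - -(c.p ⁅c.X y, e⁆ * c.d (-(2 * Wr c.d (c.p a) (c.p b) (c.p d))))
      simp only [Wr, two_mul, two_smul, c.p_lie, map_neg, map_add, map_sub, Derivation.leibniz,
        smul_eq_mul]
      ring
  have h2 : c.DD ⁅d, e⁆ (c.SS a b (c.X y)) - c.DD ⁅a, b⁆ (c.SS d e (c.X y)) =
      (2⁻¹ : F) • ((2 : F) • (c.DD ⁅d, e⁆ (c.SS a b (c.X y)) - c.DD ⁅a, b⁆ (c.SS d e (c.X y)))) := by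
    rw [smul_smul]; norm_num
  rw [h2, key]
  refine Submodule.smul_mem _ _ (sub_mem (add_mem (add_mem (sub_mem (sub_mem ?_ ?_) ?_) ?_) ?_) ?_)
  · exact hex_OE0_le (hex_OE0_mem' (SS_mem_BP (LieSubalgebra.lie_mem _ ha hb) hd he))
  · exact hex_OE0_le (hex_OE0_mem' (SS_mem_BP ha hb (LieSubalgebra.lie_mem _ hd he)))
  · exact DD_OE0 ha (hex_OE0_mem' (SS_mem_BP hb hd he))
  · exact DD_OE0 hb (hex_OE0_mem' (SS_mem_BP ha hd he))
  · exact hex_OE1_le (hex_OE1_mem' (SS_mem_BP ha hb he) hd)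
  · exact hex_OE1_le (hex_OE1_mem' (SS_mem_BP ha hb hd) he)

/-- R6 on pairs -/
theorem R6_mem {A : Finset ι} {y : ι} {p q r w : L} (hp : p ∈ c.g A) (hq : q ∈ c.g A)
    (hr : r ∈ c.g A) (hw : w ∈ c.g A) :
    c.DD ⁅w, p⁆ (c.SS q r (c.X y)) + c.DD ⁅w, q⁆ (c.SS r p (c.X y)) + c.DD ⁅w, r⁆ (c.SS p q (c.X y))
      ∈ c.OE A y := by
  have key : (2 : F) • (c.DD ⁅q, r⁆ (c.SS w p (c.X y)) + c.DD ⁅r, p⁆ (c.SS w q (c.X y))
        + c.DD ⁅p, q⁆ (c.SS w r (c.X y)))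
      = c.DD (c.X y) (c.SS ⁅w, p⁆ q r) + c.DD (c.X y) (c.SS ⁅w, q⁆ r p)
        + c.DD (c.X y) (c.SS ⁅w, r⁆ p q)
        - c.DD w (c.DD (c.X y) (c.SS p q r)) - c.DD ⁅w, c.X y⁆ (c.SS p q r) := by
    rw [← lie_skew w (c.X y), hex_DD_neg_left]
    apply Prod.ext
    · have := Sop_R6 (F := F) p q r w (c.X y)
      change (2 : F) • (Dop ⁅q, r⁆ (Sop F w p (c.X y)) + Dop ⁅r, p⁆ (Sop F w q (c.X y))
        + Dop ⁅p, q⁆ (Sop F w r (c.X y))) = _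
      rw [this]
      change _ = Dop (c.X y) (Sop F ⁅w, p⁆ q r) + Dop (c.X y) (Sop F ⁅w, q⁆ r p)
        + Dop (c.X y) (Sop F ⁅w, r⁆ p q)
        - Dop w (Dop (c.X y) (Sop F p q r)) - -Dop ⁅c.X y, w⁆ (Sop F p q r)
      abel
    · change (2 : F) • (c.p ⁅q, r⁆ * c.d (-(2 * Wr c.d (c.p w) (c.p p) (c.p (c.X y))))
          + c.p ⁅r, p⁆ * c.d (-(2 * Wr c.d (c.p w) (c.p q) (c.p (c.X y))))
          + c.p ⁅p, q⁆ * c.d (-(2 * Wr c.d (c.p w) (c.p r) (c.p (c.X y)))))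
        = c.p (c.X y) * c.d (-(2 * Wr c.d (c.p ⁅w, p⁆) (c.p q) (c.p r)))
          + c.p (c.X y) * c.d (-(2 * Wr c.d (c.p ⁅w, q⁆) (c.p r) (c.p p)))
          + c.p (c.X y) * c.d (-(2 * Wr c.d (c.p ⁅w, r⁆) (c.p p) (c.p q)))
          - c.p w * c.d (c.p (c.X y) * c.d (-(2 * Wr c.d (c.p p) (c.p q) (c.p r))))
          - -(c.p ⁅c.X y, w⁆ * c.d (-(2 * Wr c.d (c.p p) (c.p q) (c.p r))))
      simp only [Wr, two_mul, two_smul, c.p_lie, map_neg, map_add, map_sub, Derivation.leibniz,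
        smul_eq_mul]
      ring
  have h1 : c.DD ⁅q, r⁆ (c.SS w p (c.X y)) + c.DD ⁅r, p⁆ (c.SS w q (c.X y))
        + c.DD ⁅p, q⁆ (c.SS w r (c.X y)) ∈ c.OE A y := by
    have h2 : c.DD ⁅q, r⁆ (c.SS w p (c.X y)) + c.DD ⁅r, p⁆ (c.SS w q (c.X y))
        + c.DD ⁅p, q⁆ (c.SS w r (c.X y)) =
        (2⁻¹ : F) • ((2 : F) • (c.DD ⁅q, r⁆ (c.SS w p (c.X y)) + c.DD ⁅r, p⁆ (c.SS w q (c.X y))
        + c.DD ⁅p, q⁆ (c.SS w r (c.X y)))) := by
      rw [smul_smul]; norm_num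
    rw [h2, key]
    refine Submodule.smul_mem _ _ (sub_mem (sub_mem (add_mem (add_mem ?_ ?_) ?_) ?_) ?_)
    · exact hex_OE0_le (hex_OE0_mem' (SS_mem_BP (LieSubalgebra.lie_mem _ hw hp) hq hr))
    · exact hex_OE0_le (hex_OE0_mem' (SS_mem_BP (LieSubalgebra.lie_mem _ hw hq) hr hp))
    · exact hex_OE0_le (hex_OE0_mem' (SS_mem_BP (LieSubalgebra.lie_mem _ hw hr) hp hq))
    · exact DD_OE0 hw (hex_OE0_mem' (SS_mem_BP hp hq hr))
    · exact hex_OE1_le (hex_OE1_mem' (SS_mem_BP hp hq hr) hw)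
  have e1 := R2_mem (c := c) (y := y) hw hp hq hr
  have e2 := R2_mem (c := c) (y := y) hw hq hr hp
  have e3 := R2_mem (c := c) (y := y) hw hr hp hq
  have := sub_mem h1 (add_mem (add_mem e1 e2) e3)
  convert this using 1
  abel

/-- R4 on pairs -/
theorem R4_mem {A : Finset ι} {y : ι} {b : Module.End F L × P} (hb : b ∈ c.BP A) {a₁ a₂ : L}
    (h₁ : a₁ ∈ c.g A) (h₂ : a₂ ∈ c.g A) :
    c.SS (b.1 a₁) a₂ (c.X y) + c.SS a₁ (b.1 a₂) (c.X y) - (2 : F) • (b * c.SS a₁ a₂ (c.X y))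
      ∈ c.OE A y := by
  have key : c.SS (b.1 a₁) a₂ (c.X y) + c.SS a₁ (b.1 a₂) (c.X y)
      - (2 : F) • (b * c.SS a₁ a₂ (c.X y))
      = - (2 : F) • c.DD ⁅a₂, c.X y⁆ (c.DD a₁ b) + (2 : F) • c.DD ⁅a₁, c.X y⁆ (c.DD a₂ b)
        + (2 : F) • c.DD ⁅⁅a₁, a₂⁆, c.X y⁆ b := by
    apply Prod.ext
    · have := Sop_R4 (F := F) (BP_fn hb) a₁ a₂ (c.X y)
      change Sop F (b.1 a₁) a₂ (c.X y) + Sop F a₁ (b.1 a₂) (c.X y)
        - (2 : F) • (b.1 * Sop F a₁ a₂ (c.X y)) = _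
      rw [this]
      change _ = - (2 : F) • Dop ⁅a₂, c.X y⁆ (Dop a₁ b.1) + (2 : F) • Dop ⁅a₁, c.X y⁆ (Dop a₂ b.1)
        + (2 : F) • Dop ⁅⁅a₁, a₂⁆, c.X y⁆ b.1
      rw [neg_smul]
      abel
    · change -(2 * Wr c.d (c.p (b.1 a₁)) (c.p a₂) (c.p (c.X y)))
          + -(2 * Wr c.d (c.p a₁) (c.p (b.1 a₂)) (c.p (c.X y)))
          - (2 : F) • (b.2 * -(2 * Wr c.d (c.p a₁) (c.p a₂) (c.p (c.X y))))
        = - (2 : F) • (c.p ⁅a₂, c.X y⁆ * c.d (c.p a₁ * c.d b.2))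
          + (2 : F) • (c.p ⁅a₁, c.X y⁆ * c.d (c.p a₂ * c.d b.2))
          + (2 : F) • (c.p ⁅⁅a₁, a₂⁆, c.X y⁆ * c.d b.2)
      rw [BP_p hb, BP_p hb]
      simp only [Wr, two_mul, neg_smul, two_smul, c.p_lie, map_neg, map_add, map_sub,
        Derivation.leibniz, smul_eq_mul]
      ring
  rw [key]
  refine hex_OE1_le (add_mem (add_mem (Submodule.smul_mem _ _ ?_) (Submodule.smul_mem _ _ ?_))
    (Submodule.smul_mem _ _ ?_))
  · exact hex_OE1_mem' (BP_DD h₁ hb) h₂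
  · exact hex_OE1_mem' (BP_DD h₂ hb) h₁
  · exact hex_OE1_mem' hb (LieSubalgebra.lie_mem _ h₁ h₂)

/-- `D_{b x} = b D_x` on pairs -/
theorem DD_BP {A B : Finset ι} {b : Module.End F L × P} (hb : b ∈ c.BP A) (x : L)
    {w : Module.End F L × P} (hw : Fn w.1) : c.DD (b.1 x) w = b * c.DD x w := by
  apply Prod.ext
  · exact BP_Dop hb hw x
  · change c.p (b.1 x) * c.d w.2 = b.2 * (c.p x * c.d w.2)
    rw [BP_p hb, mul_assoc]

end HEX

end Ctx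

end Helper39W1
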