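import Pool.Agent.Helper39_W1.EZero
import Pool.Agent.Helper39_W1.HEx
import Pool.Agent.Helper39_W1.Forms
import Pool.Agent.Helper39_W1.BPfacts
import Pool.Agent.Helper39_W1.Span
import Pool.Agent.Helper39_W1.FnCalc

set_option autoImplicit false
set_option linter.unusedSectionVars false

noncomputable section

namespace Helper39W1

universe u

namespace Ctx

variable {F : Type u} [Field F] [CharZero F] {ι : Type} [DecidableEq ι] {L P : Type u} [LieRing L]
  [LieAlgebra F L] [CommRing P] [Algebra F P] (c : Ctx F ι L P)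

section HHCaux
variable {c}

theorem hh_SS_add3 (a b e e' : L) : c.SS a b (e + e') = c.SS a b e + c.SS a b e' := by
  unfold SS
  refine Prod.ext (Sop_add3 a b e e') ?_
  simp only [Wr, map_add, Prod.snd_add]
  ring

theorem hh_SS_smul3 (t : F) (a b e : L) : c.SS a b (t • e) = t • c.SS a b e := by
  unfold SS
  refine Prod.ext (Sop_smul3 t a b e) ?_
  simp only [Wr, map_smul, Derivation.map_smul, Prod.smul_snd, mul_smul_comm, smul_mul_assoc,
    ← smul_sub, ← smul_add, smul_neg]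

theorem hh_SS_cyc (a b e : L) : c.SS b e a = c.SS a b e := by
  unfold SS
  refine Prod.ext (Sop_cyc a b e) ?_
  simp only [Wr]
  ring

theorem hh_SS_add1 (a a' b e : L) : c.SS (a + a') b e = c.SS a b e + c.SS a' b e := by
  rw [← hh_SS_cyc (a + a') b e, hh_SS_add3, hh_SS_cyc a b e, hh_SS_cyc a' b e]

theorem hh_SS_add2 (a b b' e : L) : c.SS a (b + b') e = c.SS a b e + c.SS a b' e := by
  rw [← hh_SS_cyc a (b + b') e, hh_SS_add1, hh_SS_cyc a b e, hh_SS_cyc a b' e]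

theorem hh_SS_zero3 (a b : L) : c.SS a b 0 = 0 := by
  have h := hh_SS_smul3 (c := c) (0 : F) a b 0
  rw [zero_smul, zero_smul] at h
  exact h

theorem hh_KK_mono {A : Finset ι} {y : ι} {j k : ℕ} (h : j ≤ k) : c.KK A y j ≤ c.KK A y k := by
  apply Submodule.span_mono
  rintro w ⟨b, hb, l, hl, hl', a₁, h₁, a₂, h₂, rfl⟩
  exact ⟨b, hb, l, hl.trans h, hl', a₁, h₁, a₂, h₂, rfl⟩

theorem hh_HH_mono {A : Finset ι} {y : ι} {j k : ℕ} (h : j ≤ k) : c.HH A y j ≤ c.HH A y k :=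
  sup_le_sup_left (hh_KK_mono h) _

theorem hh_OE_le_OO {A : Finset ι} {y : ι} : c.OE A y ≤ c.OO A y := le_sup_left

theorem hh_HE_le_HH {A : Finset ι} {y : ι} {k : ℕ} : c.HE A y k ≤ c.HH A y k :=
  sup_le_sup_right hh_OE_le_OO _

theorem hh_OO_le_HH {A : Finset ι} {y : ι} {k : ℕ} : c.OO A y ≤ c.HH A y k := le_sup_left

theorem hh_KK_le_HH {A : Finset ι} {y : ι} {k : ℕ} : c.KK A y k ≤ c.HH A y k := le_sup_right

theorem hh_O0_le_OO {A : Finset ι} {y : ι} : c.O0 A y ≤ c.OO A y :=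
  sup_le_sup le_sup_left le_sup_left

theorem hh_mem_KK {A : Finset ι} {y : ι} {l : List L} (hl : ∀ a ∈ l, a ∈ c.g A) {a b : L}
    (ha : a ∈ c.g A) (hb : b ∈ c.g A) : c.DDl l (c.SS a b (c.X y)) ∈ c.KK A y l.length := by
  apply Submodule.subset_span
  exact ⟨1, one_mem _, l, le_rfl, hl, a, ha, b, hb, (one_mul _).symm⟩

variable (c) in
/-- `DD x` as a linear map. -/
def hhD (x : L) : (Module.End F L × P) →ₗ[F] (Module.End F L × P) where
  toFun := c.DD x
  map_add' := fun v w => DD_add x v w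
  map_smul' := fun t v => DD_smul t x v

theorem hh_DD_sub (x : L) (v w : Module.End F L × P) : c.DD x (v - w) = c.DD x v - c.DD x w :=
  (c.hhD x).map_sub v w

theorem hh_DD_zero (x : L) : c.DD x 0 = 0 := (c.hhD x).map_zero

/-- linearity in the last argument -/
def hhS (c : Ctx F ι L P) (a b : L) : L →ₗ[F] (Module.End F L × P) where
  toFun := c.SS a b
  map_add' := fun v w => hh_SS_add3 a b v w
  map_smul' := fun t v => hh_SS_smul3 t a b v

end HHCaux

section HHC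
variable {c} [St5 L]

theorem hh_DD_OC1 {A : Finset ι} {y : ι} {a : L} (ha : a ∈ c.g A) {w : Module.End F L × P}
    (hw : w ∈ c.OC1 A y) : c.DD a w ∈ c.HH A y 1 := by
  have h : c.OC1 A y ≤ (c.HH A y 1).comap (c.hhD a) := by
    apply Submodule.span_le.mpr
    rintro _ ⟨b, hb, x₁, h₁, x₂, h₂, x₃, h₃, x₄, h₄, t, ht, e, he, rfl⟩
    change c.DD a _ ∈ c.HH A y 1
    rw [DD_mul]
    refine add_mem ?_ ?_
    · apply hh_OO_le_HH
      apply Submodule.mem_sup_right
      apply Submodule.mem_sup_right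
      apply Submodule.subset_span
      exact ⟨c.DD a b, BP_DD ha hb, x₁, h₁, x₂, h₂, x₃, h₃, x₄, h₄, t, ht, e, he, rfl⟩
    · have hf := isForm_cyc (c := c) h₁ h₂ h₃ h₄ ht
      have h5 := hf.closed e (c.X y)
      rw [← h5, hh_DD_sub, mul_sub]
      refine sub_mem ?_ ?_
      · exact hh_HE_le_HH (BP_mul_HE hb (c.ezero h₁ h₂ h₃ h₄ ht ha he))
      · apply hh_OO_le_HH
        apply hh_OE_le_OO
        apply BP_mul_OE hb
        apply DD_OE0 ha
        apply Submodule.subset_span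
        exact ⟨1, one_mem _, _, hf.mem e he, (one_mul _).symm⟩
  exact h hw

theorem DD_OO {A : Finset ι} {y : ι} {a : L} (ha : a ∈ c.g A) {w : Module.End F L × P}
    (hw : w ∈ c.OO A y) : c.DD a w ∈ c.HH A y 1 := by
  obtain ⟨w₁, hw₁, w₂, hw₂, rfl⟩ := Submodule.mem_sup.mp hw
  obtain ⟨w₃, hw₃, w₄, hw₄, rfl⟩ := Submodule.mem_sup.mp hw₂
  rw [DD_add, DD_add]
  refine add_mem ?_ (add_mem ?_ ?_)
  · exact hh_HH_mono (Nat.zero_le 1) (hh_HE_le_HH (DD_OE ha hw₁))
  · exact hh_OO_le_HH (DD_O0 ha (Submodule.mem_sup_right hw₃))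
  · exact hh_DD_OC1 ha hw₄

theorem DD_HH {A : Finset ι} {y : ι} {k : ℕ} {a : L} (ha : a ∈ c.g A)
    {w : Module.End F L × P} (hw : w ∈ c.HH A y k) : c.DD a w ∈ c.HH A y (k + 1) := by
  obtain ⟨w₁, hw₁, w₂, hw₂, rfl⟩ := Submodule.mem_sup.mp hw
  rw [DD_add]
  refine add_mem ?_ ?_
  · exact hh_HH_mono (by omega) (DD_OO ha hw₁)
  · exact hh_HE_le_HH (DD_HE ha (Submodule.mem_sup_right hw₂))

theorem DDl_O0 {A : Finset ι} {y : ι} (l : List L) (hl : ∀ a ∈ l, a ∈ c.g A) (hl' : l ≠ [])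
    {w : Module.End F L × P} (hw : w ∈ c.O0 A y) : c.DDl l w ∈ c.HH A y (l.length - 1) := by
  induction l with
  | nil => exact absurd rfl hl'
  | cons a l ih =>
    change c.DD a (c.DDl l w) ∈ _
    have ha : a ∈ c.g A := hl a List.mem_cons_self
    have hl2 : ∀ b ∈ l, b ∈ c.g A := fun b hb => hl b (List.mem_cons_of_mem _ hb)
    by_cases h : l = []
    · subst h
      exact hh_OO_le_HH (DD_O0 ha hw)
    · have h1 := DD_HH ha (ih hl2 h)
      have h2 : l.length - 1 + 1 = (a :: l).length - 1 := by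
        have : 0 < l.length := List.length_pos_of_ne_nil h
        simp
        omega
      rw [h2] at h1
      exact h1

theorem DDl_OO {A : Finset ι} {y : ι} (l : List L) (hl : ∀ a ∈ l, a ∈ c.g A)
    {w : Module.End F L × P} (hw : w ∈ c.OO A y) : c.DDl l w ∈ c.HH A y l.length := by
  induction l with
  | nil => exact hh_OO_le_HH hw
  | cons a l ih =>
    change c.DD a (c.DDl l w) ∈ _
    have ha : a ∈ c.g A := hl a List.mem_cons_self
    have hl2 : ∀ b ∈ l, b ∈ c.g A := fun b hb => hl b (List.mem_cons_of_mem _ hb)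
    exact DD_HH ha (ih hl2)

theorem DDl_perm {A : Finset ι} {y : ι} (l l' : List L) (hl : ∀ a ∈ l, a ∈ c.g A) (hp : l.Perm l')
    (hl' : l ≠ []) {a₁ a₂ : L} (h₁ : a₁ ∈ c.g A) (h₂ : a₂ ∈ c.g A) :
    c.DDl l (c.SS a₁ a₂ (c.X y)) - c.DDl l' (c.SS a₁ a₂ (c.X y)) ∈ c.HH A y (l.length - 1) := by
  induction hp with
  | nil => exact absurd rfl hl'
  | @cons x l l' hp ih =>
    have ha : x ∈ c.g A := hl x List.mem_cons_self
    have hl2 : ∀ b ∈ l, b ∈ c.g A := fun b hb => hl b (List.mem_cons_of_mem _ hb)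
    change c.DD x (c.DDl l _) - c.DD x (c.DDl l' _) ∈ _
    rw [← hh_DD_sub]
    by_cases h : l = []
    · subst h
      have h' : l' = [] := List.nil_perm.mp hp
      subst h'
      rw [sub_self, hh_DD_zero]
      exact zero_mem _
    · have h1 := DD_HH ha (ih hl2 h)
      have h2 : l.length - 1 + 1 = (x :: l).length - 1 := by
        have : 0 < l.length := List.length_pos_of_ne_nil h
        simp
        omega
      rw [h2] at h1
      exact h1
  | swap x z l =>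
    have hz : z ∈ c.g A := hl z (by simp)
    have hx : x ∈ c.g A := hl x (by simp)
    have hl2 : ∀ b ∈ l, b ∈ c.g A := fun b hb => hl b (by simp [hb])
    change c.DD z (c.DD x (c.DDl l _)) - c.DD x (c.DD z (c.DDl l _)) ∈ _
    rw [← DD_lie]
    apply hh_KK_le_HH
    have := hh_mem_KK (c := c) (A := A) (y := y) (l := ⁅z, x⁆ :: l) (by
      intro b hb
      rcases List.mem_cons.mp hb with rfl | hb
      · exact LieSubalgebra.lie_mem _ hz hx
      · exact hl2 b hb) h₁ h₂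
    have e : (z :: x :: l).length - 1 = (⁅z, x⁆ :: l).length := by simp
    rw [e]
    exact this
  | @trans l₁ l₂ l₃ hp1 hp2 ih1 ih2 =>
    have hl2 : ∀ b ∈ l₂, b ∈ c.g A := fun b hb => hl b (hp1.mem_iff.mpr hb)
    have hne : l₂ ≠ [] := by
      intro h
      subst h
      exact hl' (List.perm_nil.mp hp1)
    have e1 := ih1 hl hl'
    have e2 := ih2 hl2 hne
    rw [← hp1.length_eq] at e2
    have := add_mem e1 e2
    rwa [sub_add_sub_cancel] at this

theorem hh_SS_adl {A : Finset ι} {y : ι} (J : List L) (hJ : ∀ a ∈ J, a ∈ c.g A) {a b : L}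
    (ha : a ∈ c.g A) (hb : b ∈ c.g A) : c.SS a b (adl J (c.X y)) ∈ c.HH A y J.length := by
  induction J generalizing a b with
  | nil => exact hh_KK_le_HH (hh_mem_KK (l := []) (by simp) ha hb)
  | cons x J ih =>
    have hx : x ∈ c.g A := hJ x List.mem_cons_self
    have hJ2 : ∀ b ∈ J, b ∈ c.g A := fun b hb => hJ b (List.mem_cons_of_mem _ hb)
    have h := DD_SS (c := c) x a b (adl J (c.X y))
    change c.SS a b ⁅x, adl J (c.X y)⁆ ∈ _
    have h2 : c.SS a b ⁅x, adl J (c.X y)⁆ = c.DD x (c.SS a b (adl J (c.X y)))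
        - c.SS ⁅x, a⁆ b (adl J (c.X y)) - c.SS a ⁅x, b⁆ (adl J (c.X y)) := by
      rw [h]; abel
    rw [h2]
    refine sub_mem (sub_mem ?_ ?_) ?_
    · exact DD_HH hx (ih hJ2 ha hb)
    · exact hh_HH_mono (by simp) (ih hJ2 (LieSubalgebra.lie_mem _ hx ha) hb)
    · exact hh_HH_mono (by simp) (ih hJ2 ha (LieSubalgebra.lie_mem _ hx hb))

theorem hh_exists_add {A : Finset ι} {y : ι} {u v : Module.End F L × P}
    (hu : ∃ k, u ∈ c.HH A y k) (hv : ∃ k, v ∈ c.HH A y k) : ∃ k, u + v ∈ c.HH A y k := by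
  obtain ⟨j, hj⟩ := hu
  obtain ⟨k, hk⟩ := hv
  exact ⟨max j k, add_mem (hh_HH_mono (le_max_left _ _) hj) (hh_HH_mono (le_max_right _ _) hk)⟩

theorem BY_le (A : Finset ι) (y : ι) (hy : y ∉ A) {w : Module.End F L × P} (hw : w ∈ c.BY A y) :
    ∃ k, w ∈ c.HH A y k := by
  unfold BY at hw
  induction hw using Submodule.span_induction with
  | mem w hw =>
    obtain ⟨b, hb, a₁, h₁, a₂, h₂, v, hv, hvM, rfl⟩ := hw
    have h := mem_g_insert_M hy hv hvM
    clear hv hvM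
    induction h using Submodule.span_induction with
    | mem v hv =>
      obtain ⟨J, hJ, rfl⟩ := hv
      exact ⟨J.length, BP_mul_HH hb (hh_SS_adl J hJ h₁ h₂)⟩
    | zero =>
      rw [hh_SS_zero3, mul_zero]
      exact ⟨0, zero_mem _⟩
    | add u v _ _ hu hv =>
      rw [hh_SS_add3, mul_add]
      exact hh_exists_add hu hv
    | smul t u _ hu =>
      obtain ⟨k, hk⟩ := hu
      rw [hh_SS_smul3, mul_smul_comm]
      exact ⟨k, Submodule.smul_mem _ _ hk⟩
  | zero => exact ⟨0, zero_mem _⟩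
  | add u v _ _ hu hv => exact hh_exists_add hu hv
  | smul t u _ hu =>
    obtain ⟨k, hk⟩ := hu
    exact ⟨k, Submodule.smul_mem _ _ hk⟩

theorem hh_Sop_M {i : ι} {v : L} (hv : v ∈ c.M i) (a b u : L) : Sop F a b v u ∈ c.M i := by
  rw [Sop_apply]
  refine add_mem (add_mem ?_ ?_) ?_
  · exact lie_mem_right F L (c.M i) _ _ (lie_mem_left F L (c.M i) _ _
      (lie_mem_right F L (c.M i) _ _ hv))
  · exact lie_mem_right F L (c.M i) _ _ (lie_mem_left F L (c.M i) _ _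
      (lie_mem_left F L (c.M i) _ _ hv))
  · exact lie_mem_left F L (c.M i) _ _ hv

theorem BY_apply_M (A : Finset ι) (y : ι) {w : Module.End F L × P} (hw : w ∈ c.BY A y) (v : L) :
    w.1 v ∈ c.M y := by
  unfold BY at hw
  induction hw using Submodule.span_induction with
  | mem w hw =>
    obtain ⟨b, hb, a₁, h₁, a₂, h₂, u, hu, huM, rfl⟩ := hw
    exact BP_maps_M hb (hh_Sop_M huM a₁ a₂ v)
  | zero => exact zero_mem (c.M y)
  | add u v _ _ hu hv => exact add_mem hu hv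
  | smul t u _ hu => exact (c.M y).smul_mem t hu

theorem hh_Wr_E {i : ι} (f g : P) {h : P} (hh : h ∈ c.E i) : Wr c.d f g h ∈ c.E i := by
  unfold Wr
  have h1 := c.E_d i _ hh
  have h2 := c.E_d i _ h1
  refine add_mem (sub_mem ?_ ?_) ?_
  · exact Ideal.mul_mem_left _ _ (sub_mem (Ideal.mul_mem_left _ _ h2) (Ideal.mul_mem_right _ _ h1))
  · exact Ideal.mul_mem_left _ _ (sub_mem (Ideal.mul_mem_left _ _ h2) (Ideal.mul_mem_right _ _ h1))
  · exact Ideal.mul_mem_right _ _ hh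

theorem hh_SS_E {i : ι} (a b : L) {v : L} (hv : v ∈ c.M i) : (c.SS a b v).2 ∈ c.E i := by
  change -(2 * Wr c.d (c.p a) (c.p b) (c.p v)) ∈ c.E i
  exact neg_mem (Ideal.mul_mem_left _ _ (hh_Wr_E _ _ (c.p_M i v hv)))

theorem BY_E (A : Finset ι) (y : ι) {w : Module.End F L × P} (hw : w ∈ c.BY A y) :
    w.2 ∈ c.E y := by
  unfold BY at hw
  induction hw using Submodule.span_induction with
  | mem w hw =>
    obtain ⟨b, hb, a₁, h₁, a₂, h₂, u, hu, huM, rfl⟩ := hw
    exact Ideal.mul_mem_left _ _ (hh_SS_E a₁ a₂ huM)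
  | zero => exact zero_mem (c.E y)
  | add u v _ _ hu hv => exact add_mem hu hv
  | smul t u _ hu =>
    rw [Prod.smul_snd, Algebra.smul_def]
    exact Ideal.mul_mem_left _ _ hu

/-- two arguments in `M i` -/
theorem hh_SS_two {i : ι} {a b : L} (ha : a ∈ c.M i) (hb : b ∈ c.M i) (e : L) :
    c.SS a b e = 0 := by
  unfold SS
  refine Prod.ext ?_ ?_
  · apply LinearMap.ext
    intro z
    change Sop F a b e z = 0
    rw [Sop_apply]
    rw [c.comm i a ha _ (lie_mem_left F L (c.M i) _ _ (lie_mem_left F L (c.M i) _ _ hb)),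
      c.comm i b hb _ (lie_mem_left F L (c.M i) _ _ (lie_mem_right F L (c.M i) _ _ ha)),
      c.comm i a ha b hb, zero_lie, lie_zero]
    simp
  · change -(2 * Wr c.d (c.p a) (c.p b) (c.p e)) = 0
    have ea := c.p_M i a ha
    have eb := c.p_M i b hb
    have ea1 := c.E_d i _ ea
    have eb1 := c.E_d i _ eb
    have ea2 := c.E_d i _ ea1
    have eb2 := c.E_d i _ eb1
    have h1 := c.E_sq i _ ea _ eb1
    have h2 := c.E_sq i _ ea _ eb2
    have h3 := c.E_sq i _ ea1 _ eb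
    have h4 := c.E_sq i _ ea2 _ eb
    have h5 := c.E_sq i _ ea1 _ eb2
    have h6 := c.E_sq i _ ea2 _ eb1
    unfold Wr
    linear_combination (-2 * c.d (c.d (c.p e))) * h1 + (2 * c.d (c.p e)) * h2
      + (2 * c.d (c.d (c.p e))) * h3 - (2 * c.d (c.p e)) * h4 - (2 * c.p e) * h5 + (2 * c.p e) * h6

theorem hh_BP_mul_BY {A : Finset ι} {y : ι} {b w : Module.End F L × P} (hb : b ∈ c.BP A)
    (hw : w ∈ c.BY A y) : b * w ∈ c.BY A y := by
  unfold BY at hw
  induction hw using Submodule.span_induction with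
  | mem w hw =>
    obtain ⟨b', hb', a₁, h₁, a₂, h₂, u, hu, huM, rfl⟩ := hw
    apply Submodule.subset_span
    exact ⟨b * b', mul_mem hb hb', a₁, h₁, a₂, h₂, u, hu, huM, (mul_assoc _ _ _).symm⟩
  | zero => rw [mul_zero]; exact zero_mem _
  | add u v _ _ hu hv => rw [mul_add]; exact add_mem hu hv
  | smul t u _ hu => rw [mul_smul_comm]; exact Submodule.smul_mem _ _ hu

theorem hh_BY_fn {A : Finset ι} {y : ι} {w : Module.End F L × P} (hw : w ∈ c.BY A y) :
    Fn w.1 := by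
  unfold BY at hw
  induction hw using Submodule.span_induction with
  | mem w hw =>
    obtain ⟨b', hb', a₁, h₁, a₂, h₂, u, hu, huM, rfl⟩ := hw
    exact BP_mul_fn hb' (fn_Sop _ _ _)
  | zero =>
    have := Fn.smul (0 : F) (Fn.one (F := F) (L := L))
    rw [zero_smul] at this
    exact this
  | add u v _ _ hu hv => exact Fn.add hu hv
  | smul t u _ hu => exact Fn.smul t hu

theorem hh_BY_mul_BP {A : Finset ι} {y : ι} {b w : Module.End F L × P} (hb : b ∈ c.BP A)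
    (hw : w ∈ c.BY A y) : w * b ∈ c.BY A y := by
  have h : w * b = b * w := by
    refine Prod.ext ?_ (mul_comm _ _)
    exact (BP_comm_fn hb (hh_BY_fn hw)).symm
  rw [h]
  exact hh_BP_mul_BY hb hw

theorem hh_BY_M_zero {A : Finset ι} {y : ι} {w : Module.End F L × P} (hw : w ∈ c.BY A y) {v : L}
    (hv : v ∈ c.M y) : w.1 v = 0 := by
  unfold BY at hw
  induction hw using Submodule.span_induction with
  | mem w hw =>
    obtain ⟨b', hb', a₁, h₁, a₂, h₂, u, hu, huM, rfl⟩ := hw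
    change b'.1 (Sop F a₁ a₂ u v) = 0
    rw [Sop_apply,
      c.comm y _ (lie_mem_right F L (c.M y) a₂ u huM) v hv,
      c.comm y _ (lie_mem_left F L (c.M y) u a₁ huM) v hv,
      c.comm y u huM _ (lie_mem_right F L (c.M y) _ v hv)]
    simp
  | zero => rfl
  | add u v _ _ hu hv =>
    change u.1 _ + v.1 _ = 0
    rw [hu, hv, add_zero]
  | smul t u _ hu =>
    change t • u.1 _ = 0
    rw [hu, smul_zero]

theorem hh_BY_mul_BY {A : Finset ι} {y : ι} {v w : Module.End F L × P} (hv : v ∈ c.BY A y)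
    (hw : w ∈ c.BY A y) : v * w = 0 := by
  refine Prod.ext ?_ (c.E_sq y _ (BY_E A y hv) _ (BY_E A y hw))
  apply LinearMap.ext
  intro z
  exact hh_BY_M_zero hv (BY_apply_M A y hw z)

theorem hh_split {A : Finset ι} {y : ι} {u : L} (hu : u ∈ c.g (insert y A)) :
    ∃ u₀ ∈ c.g A, ∃ u₁ ∈ c.g (insert y A), u₁ ∈ c.M y ∧ u = u₀ + u₁ := by
  obtain ⟨u₀, h₀, u₁, h₁, rfl⟩ := mem_g_insert hu
  refine ⟨u₀, h₀, u₁, ?_, ?_, rfl⟩
  · have h := sub_mem hu (g_mono (Finset.subset_insert y A) h₀)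
    rwa [add_sub_cancel_left] at h
  · clear hu
    induction h₁ using Submodule.span_induction with
    | mem v hv =>
      obtain ⟨J, hJ, rfl⟩ := hv
      exact adl_mem_M J (c.X_mem y)
    | zero => exact zero_mem (c.M y)
    | add u v _ _ hu hv => exact add_mem hu hv
    | smul t u _ hu => exact (c.M y).smul_mem t hu

theorem hh_mem_BY {A : Finset ι} {y : ι} {a b v : L} (ha : a ∈ c.g A) (hb : b ∈ c.g A)
    (hv : v ∈ c.g (insert y A)) (hvM : v ∈ c.M y) : c.SS a b v ∈ c.BY A y := by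
  apply Submodule.subset_span
  exact ⟨1, one_mem _, a, ha, b, hb, v, hv, hvM, (one_mul _).symm⟩

set_option linter.unusedVariables false in
theorem BP_insert (A : Finset ι) (y : ι) (hy : y ∉ A) {w : Module.End F L × P}
    (hw : w ∈ c.BP (insert y A)) : ∃ w₀ ∈ c.BP A, ∃ w₁ ∈ c.BY A y, w = w₀ + w₁ := by
  unfold BP at hw
  induction hw using Algebra.adjoin_induction with
  | mem w hw =>
    obtain ⟨a, ha, b, hb, e, he, rfl⟩ := hw
    obtain ⟨a₀, ha₀, a₁, ha₁, haM, rfl⟩ := hh_split ha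
    obtain ⟨b₀, hb₀, b₁, hb₁, hbM, rfl⟩ := hh_split hb
    obtain ⟨e₀, he₀, e₁, he₁, heM, rfl⟩ := hh_split he
    refine ⟨c.SS a₀ b₀ e₀, SS_mem_BP ha₀ hb₀ he₀,
      c.SS b₀ e₀ a₁ + c.SS e₀ a₀ b₁ + c.SS a₀ b₀ e₁,
      add_mem (add_mem (hh_mem_BY hb₀ he₀ ha₁ haM) (hh_mem_BY he₀ ha₀ hb₁ hbM))
        (hh_mem_BY ha₀ hb₀ he₁ heM), ?_⟩
    have z1 : c.SS a₁ b₁ e₀ = 0 := hh_SS_two haM hbM _
    have z2 : c.SS a₁ b₁ e₁ = 0 := hh_SS_two haM hbM _
    have z3 : c.SS a₀ b₁ e₁ = 0 := by rw [← hh_SS_cyc]; exact hh_SS_two hbM heM _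
    have z4 : c.SS a₁ b₀ e₁ = 0 := by
      rw [← hh_SS_cyc, ← hh_SS_cyc]; exact hh_SS_two heM haM _
    simp only [hh_SS_add1, hh_SS_add2, hh_SS_add3]
    rw [z1, z2, z3, z4, hh_SS_cyc a₁ b₀ e₀, ← hh_SS_cyc e₀ a₀ b₁]
    abel
  | algebraMap r =>
    exact ⟨algebraMap F _ r, (c.BP A).algebraMap_mem r, 0, zero_mem _, (add_zero _).symm⟩
  | add u v _ _ hu hv =>
    obtain ⟨u₀, hu₀, u₁, hu₁, rfl⟩ := hu
    obtain ⟨v₀, hv₀, v₁, hv₁, rfl⟩ := hv
    exact ⟨u₀ + v₀, add_mem hu₀ hv₀, u₁ + v₁, add_mem hu₁ hv₁, by abel⟩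
  | mul u v _ _ hu hv =>
    obtain ⟨u₀, hu₀, u₁, hu₁, rfl⟩ := hu
    obtain ⟨v₀, hv₀, v₁, hv₁, rfl⟩ := hv
    refine ⟨u₀ * v₀, mul_mem hu₀ hv₀, u₀ * v₁ + u₁ * v₀,
      add_mem (hh_BP_mul_BY hu₀ hv₁) (hh_BY_mul_BP hv₀ hu₁), ?_⟩
    rw [add_mul, mul_add, mul_add, hh_BY_mul_BY hu₁ hv₁]
    abel

end HHC

end Ctx

end Helper39W1
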