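import Pool.Agent.Helper39_W1.Span

/-! Module PARTA: the properties `I(A, m)` for `m ≥ 2` follow from those for the smaller set. -/

set_option autoImplicit false
set_option linter.unusedSectionVars false

noncomputable section

namespace Helper39W1

universe u

theorem pa_perm_of_adj {α β : Type*} (Q : List α → Prop) (f : List α → β)
    (hQ : ∀ l l', l.Perm l' → Q l → Q l')
    (h : ∀ l1 a b l2, Q (l1 ++ a :: b :: l2) → f (l1 ++ a :: b :: l2) = f (l1 ++ b :: a :: l2)) :
    ∀ l l' : List α, l.Perm l' → ∀ l0, Q (l0 ++ l) → f (l0 ++ l) = f (l0 ++ l') := by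
  intro l l' hp
  induction hp with
  | nil => intro l0 _; rfl
  | cons x _ ih =>
    intro l0 hq
    have := ih (l0 ++ [x]) (by simpa using hq)
    simpa using this
  | swap x y l => intro l0 hq; exact h l0 y x l hq
  | trans h1 _ ih1 ih2 =>
    intro l0 hq
    exact (ih1 l0 hq).trans (ih2 l0 (hQ _ _ (h1.append_left l0) hq))

theorem pa_adl_append {L : Type u} [LieRing L] (l l' : List L) (x : L) :
    adl (l ++ l') x = adl l (adl l' x) := by
  simp [adl, List.foldr_append]

theorem pa_adl_sub {L : Type u} [LieRing L] (l : List L) (x x' : L) :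
    adl l (x - x') = adl l x - adl l x' := by
  induction l with
  | nil => rfl
  | cons a l ih =>
    change ⁅a, adl l (x - x')⁆ = ⁅a, adl l x⁆ - ⁅a, adl l x'⁆
    rw [ih, lie_sub]

namespace Ctx

variable {F : Type u} [Field F] [CharZero F] {ι : Type} [DecidableEq ι] {L P : Type u} [LieRing L]
  [LieAlgebra F L] [CommRing P] [Algebra F P] (c : Ctx F ι L P)

section PartA

variable {c}

theorem Lst.perm' {A : Finset ι} {m : ℕ} {l l' : List L} (h : c.Lst A m l) (hp : l.Perm l') :
    c.Lst A m l' :=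
  ⟨hp.length_eq ▸ h.1, fun a ha => h.2 a (hp.mem_iff.2 ha)⟩

theorem Lst.mono' {A B : Finset ι} {m : ℕ} {l : List L} (h : c.Lst A m l) (hAB : A ⊆ B) :
    c.Lst B m l := ⟨h.1, fun a ha => g_mono hAB (h.2 a ha)⟩

variable {G : Type u} [AddCommGroup G] [Module F G] {f : List L → G}

theorem Rel.mono' {A B : Finset ι} {m : ℕ} (hf : c.Rel B m f) (hAB : A ⊆ B) : c.Rel A m f where
  perm l l' h hp := hf.perm l l' (h.mono' hAB) hp
  add a b l h h' := hf.add a b l (h.mono' hAB) (h'.mono' hAB)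
  smul t a l h := hf.smul t a l (h.mono' hAB)
  T a b e l h ha hb he := hf.T a b e l (h.mono' hAB) (g_mono hAB ha) (g_mono hAB hb)
    (g_mono hAB he)
  N i a b l h ha hb := hf.N i a b l (h.mono' hAB) ha hb

theorem Rel.zero' {B : Finset ι} {m : ℕ} (hf : c.Rel B m f) {l : List L} (h : c.Lst B m (0 :: l)) :
    f (0 :: l) = 0 := by
  have := hf.smul 0 0 l h
  rwa [zero_smul, zero_smul] at this

theorem Rel.neg' {B : Finset ι} {m : ℕ} (hf : c.Rel B m f) {a : L} {l : List L}
    (h : c.Lst B m (a :: l)) : f ((-a) :: l) = - f (a :: l) := by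
  have := hf.smul (-1) a l h
  rwa [neg_one_smul, neg_one_smul] at this

theorem Lst.cons_mem {B : Finset ι} {m : ℕ} {a b : L} {l : List L} (h : c.Lst B m (a :: l))
    (hb : b ∈ c.g B) : c.Lst B m (b :: l) :=
  ⟨by simpa using h.1, by
    intro x hx
    rcases List.mem_cons.1 hx with rfl | hx
    · exact hb
    · exact h.2 x (by simp [hx])⟩

theorem Rel.sub' {B : Finset ι} {m : ℕ} (hf : c.Rel B m f) {a b : L} {l : List L}
    (h : c.Lst B m (a :: l)) (h' : c.Lst B m (b :: l)) :
    f ((a - b) :: l) = f (a :: l) - f (b :: l) := by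
  rw [sub_eq_add_neg, hf.add a (-b) l h (h'.cons_mem (neg_mem (h'.2 b (by simp)))), hf.neg' h',
    sub_eq_add_neg]

theorem Rel.last {B : Finset ι} {m : ℕ} (hf : c.Rel B m f) {x : L} {s : List L}
    (h : c.Lst B m (s ++ [x])) : f (s ++ [x]) = f (x :: s) :=
  hf.perm _ _ h (List.perm_append_comm (l₁ := s) (l₂ := [x]))

theorem Lst.last {B : Finset ι} {m : ℕ} {x : L} {s : List L}
    (h : c.Lst B m (s ++ [x])) : c.Lst B m (x :: s) :=
  h.perm' (List.perm_append_comm (l₁ := s) (l₂ := [x]))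

theorem Rel.last_sub {B : Finset ι} {m : ℕ} (hf : c.Rel B m f) {x x' : L} {s : List L}
    (h : c.Lst B m (s ++ [x])) (h' : c.Lst B m (s ++ [x'])) :
    f (s ++ [x]) - f (s ++ [x']) = f (s ++ [x - x']) := by
  have h3 : c.Lst B m ((x - x') :: s) := h.last.cons_mem (sub_mem (h.2 x (by simp)) (h'.2 x' (by simp)))
  have h4 : c.Lst B m (s ++ [x - x']) := h3.perm' (List.perm_append_comm (l₁ := [x - x']) (l₂ := s))
  rw [hf.last h, hf.last h', hf.last h4, hf.sub' h.last h'.last]

/-- the combination of a function with the product in the model -/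
def paF (c : Ctx F ι L P) (f : List L → G) (l : List L) : G × P := (f l, (l.map c.p).prod)

theorem paF_rel {B : Finset ι} {m : ℕ} (hf : c.Rel B m f) : c.Rel B m (c.paF f) where
  perm l l' h hp := by
    simp only [paF]
    rw [hf.perm l l' h hp, (hp.map c.p).prod_eq]
  add a b l h h' := by
    simp only [paF, List.map_cons, List.prod_cons, map_add, add_mul, Prod.mk_add_mk]
    rw [hf.add a b l h h']
  smul t a l h := by
    simp only [paF, List.map_cons, List.prod_cons, map_smul, smul_mul_assoc, Prod.smul_mk]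
    rw [hf.smul t a l h]
  T a b e l h ha hb he := by
    simp only [paF, List.map_cons, List.prod_cons, c.p_lie, Prod.mk_add_mk]
    rw [hf.T a b e l h ha hb he]
    refine Prod.ext rfl ?_
    change _ = (0 : P)
    ring
  N i a b l h ha hb := by
    simp only [paF, List.map_cons, List.prod_cons]
    rw [hf.N i a b l h ha hb, ← mul_assoc, c.E_sq i _ (c.p_M i a ha) _ (c.p_M i b hb), zero_mul]
    rfl

/-- the case of two letters in the first group -/
theorem pa_Q {B : Finset ι} (hf : c.Rel B 2 f) {a b e u : L} (ha : a ∈ c.g B) (hb : b ∈ c.g B)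
    (he : e ∈ c.g B) (hu : u ∈ c.g B) :
    f [a, ⁅⁅b, e⁆, u⁆] + f [b, ⁅⁅e, a⁆, u⁆] + f [e, ⁅⁅a, b⁆, u⁆] = 0 := by
  have hl : ∀ {x y : L}, x ∈ c.g B → y ∈ c.g B → ⁅x, y⁆ ∈ c.g B := fun hx hy =>
    LieSubalgebra.lie_mem _ hx hy
  have hL : ∀ {x y : L}, x ∈ c.g B → y ∈ c.g B → c.Lst B 2 [x, y] := fun hx hy =>
    ⟨rfl, by simp [hx, hy]⟩
  have hsym : ∀ {x y : L}, x ∈ c.g B → y ∈ c.g B → f [x, y] = f [y, x] := fun hx hy =>
    hf.perm _ _ (hL hx hy) (List.Perm.swap _ _ _)
  have hadd : ∀ {x y z : L}, x ∈ c.g B → y ∈ c.g B → z ∈ c.g B →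
      f [x, y + z] = f [x, y] + f [x, z] := fun hx hy hz => by
    rw [hsym hx (add_mem hy hz), hf.add _ _ _ (hL hy hx) (hL hz hx), hsym hx hy, hsym hx hz]
  have hneg : ∀ {x y : L}, x ∈ c.g B → y ∈ c.g B → f [x, -y] = - f [x, y] := fun hx hy => by
    rw [hsym hx (neg_mem hy), hf.neg' (hL hy hx), hsym hx hy]
  have hsub : ∀ {x y z : L}, x ∈ c.g B → y ∈ c.g B → z ∈ c.g B →
      f [x, y - z] = f [x, y] - f [x, z] := fun hx hy hz => by
    rw [sub_eq_add_neg, hadd hx hy (neg_mem hz), hneg hx hz, sub_eq_add_neg]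
  have hzero : ∀ {x : L}, x ∈ c.g B → f [x, 0] = 0 := fun hx => by
    have := hsub hx hx hx
    rwa [sub_self, sub_self] at this
  have hT : ∀ {x y z : L}, x ∈ c.g B → y ∈ c.g B → z ∈ c.g B →
      f [x, ⁅y, z⁆] + f [y, ⁅z, x⁆] + f [z, ⁅x, y⁆] = 0 := fun hx hy hz =>
    hf.T _ _ _ [] (hL hx (hl hy hz)) hx hy hz
  -- first family
  have h1 : ∀ {a b e : L}, a ∈ c.g B → b ∈ c.g B → e ∈ c.g B →
      f [⁅b, e⁆, ⁅a, u⁆] = f [a, ⁅⁅b, e⁆, u⁆] - f [u, ⁅⁅b, e⁆, a⁆] := by
    intro a b e ha hb he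
    have := hT (hl hb he) ha hu
    rw [← lie_skew u ⁅b, e⁆, hneg ha (hl (hl hb he) hu)] at this
    rw [← sub_eq_zero, ← this]
    abel
  have h2 : ∀ {a b e : L}, a ∈ c.g B → b ∈ c.g B → e ∈ c.g B →
      f [⁅a, u⁆, ⁅b, e⁆] = f [e, ⁅b, ⁅a, u⁆⁆] - f [b, ⁅e, ⁅a, u⁆⁆] := by
    intro a b e ha hb he
    have := hT (hl ha hu) hb he
    rw [← lie_skew ⁅a, u⁆ b, hneg he (hl hb (hl ha hu))] at this
    rw [← sub_eq_zero, ← this]
    abel
  have h3 : ∀ {a b e : L}, a ∈ c.g B → b ∈ c.g B → e ∈ c.g B →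
      f [a, ⁅⁅b, e⁆, u⁆] = f [a, ⁅b, ⁅e, u⁆⁆] - f [a, ⁅e, ⁅b, u⁆⁆] := by
    intro a b e ha hb he
    rw [lie_lie, hsub ha (hl hb (hl he hu)) (hl he (hl hb hu))]
  have h4 : f [u, ⁅⁅b, e⁆, a⁆] + f [u, ⁅⁅e, a⁆, b⁆] + f [u, ⁅⁅a, b⁆, e⁆] = 0 := by
    rw [← hadd hu (hl (hl hb he) ha) (hl (hl he ha) hb),
      ← hadd hu (add_mem (hl (hl hb he) ha) (hl (hl he ha) hb)) (hl (hl ha hb) he)]
    have : ⁅⁅b, e⁆, a⁆ + ⁅⁅e, a⁆, b⁆ + ⁅⁅a, b⁆, e⁆ = 0 := by
      have := lie_jacobi a b e
      rw [← lie_skew a ⁅b, e⁆, ← lie_skew b ⁅e, a⁆, ← lie_skew e ⁅a, b⁆] at this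
      rw [← neg_eq_zero, ← this]
      abel
    rw [this]
    exact hzero hu
  have e1 := h1 ha hb he
  have e2 := h1 hb he ha
  have e3 := h1 he ha hb
  have k1 := h2 ha hb he
  have k2 := h2 hb he ha
  have k3 := h2 he ha hb
  have j1 := h3 ha hb he
  have j2 := h3 hb he ha
  have j3 := h3 he ha hb
  have s1 := hsym (hl hb he) (hl ha hu)
  have s2 := hsym (hl he ha) (hl hb hu)
  have s3 := hsym (hl ha hb) (hl he hu)
  set R := f [a, ⁅⁅b, e⁆, u⁆] + f [b, ⁅⁅e, a⁆, u⁆] + f [e, ⁅⁅a, b⁆, u⁆] with hR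
  have hA : R = f [⁅b, e⁆, ⁅a, u⁆] + f [⁅e, a⁆, ⁅b, u⁆] + f [⁅a, b⁆, ⁅e, u⁆] := by
    rw [e1, e2, e3, hR, ← sub_eq_zero, ← h4]
    abel
  have hB : R = -(f [⁅b, e⁆, ⁅a, u⁆] + f [⁅e, a⁆, ⁅b, u⁆] + f [⁅a, b⁆, ⁅e, u⁆]) := by
    rw [s1, s2, s3, k1, k2, k3, hR, j1, j2, j3]
    abel
  have h5 : R + R = 0 := by
    nth_rewrite 2 [hB]
    nth_rewrite 1 [hA]
    abel
  have h6 : (2 : F) • R = 0 := by rw [two_smul, h5]
  exact (smul_eq_zero.1 h6).resolve_left two_ne_zero

/-- the filtration: values at lists with at most one (nested) occurrence of `y` -/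
def paFil (c : Ctx F ι L P) (A : Finset ι) (y : ι) (n : ℕ) (f : List L → G) (k : ℕ) :
    Submodule F G :=
  Submodule.span F {w | ∃ s J : List L, c.Lst A n s ∧ (∀ a ∈ J, a ∈ c.g A) ∧ J.length < k ∧
    w = f (s ++ [adl J (c.X y)])}

/-- the graded piece -/
def paG (c : Ctx F ι L P) (A : Finset ι) (y : ι) (n : ℕ) (f : List L → G) (k : ℕ) (l : List L) :
    G ⧸ c.paFil A y n f k :=
  Submodule.Quotient.mk (f (l.take n ++ [adl (l.drop n) (c.X y)]))

theorem paG_append {A : Finset ι} {y : ι} {n k : ℕ} {s t : List L} (hs : s.length = n) :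
    c.paG A y n f k (s ++ t) = Submodule.Quotient.mk (f (s ++ [adl t (c.X y)])) := by
  simp only [paG]
  rw [List.take_left' hs, List.drop_left' hs]

theorem pa_lst {A : Finset ι} {y : ι} {n k : ℕ} {s t : List L} (hs : s.length = n)
    (h : c.Lst A (n + k) (s ++ t)) : c.Lst (insert y A) (n + 1) (s ++ [adl t (c.X y)]) := by
  refine ⟨by simp [hs], ?_⟩
  intro a ha
  rcases List.mem_append.1 ha with ha | ha
  · exact g_mono (Finset.subset_insert y A) (h.2 a (by simp [ha]))
  · rw [List.mem_singleton.1 ha]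
    exact adl_mem_g t (fun b hb => g_mono (Finset.subset_insert y A) (h.2 b (by simp [hb])))
      (X_mem_g (Finset.mem_insert_self y A))

theorem pa_split {A : Finset ι} {n k : ℕ} {l : List L} (h : c.Lst A (n + k) l) :
    ∃ s t : List L, l = s ++ t ∧ s.length = n ∧ t.length = k :=
  ⟨l.take n, l.drop n, (List.take_append_drop n l).symm, by
    rw [List.length_take, h.1]; omega, by rw [List.length_drop, h.1]; omega⟩

theorem paG_rel {A : Finset ι} {y : ι} {n k : ℕ} (hn : 1 ≤ n) (hf : c.Rel (insert y A) (n + 1) f) :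
    c.Rel A (n + k) (c.paG A y n f k) := by
  have hmono : ∀ {x : L}, x ∈ c.g A → x ∈ c.g (insert y A) := fun hx =>
    g_mono (Finset.subset_insert y A) hx
  have hXy : c.X y ∈ c.g (insert y A) := X_mem_g (Finset.mem_insert_self y A)
  have hl : ∀ {x z : L}, x ∈ c.g A → z ∈ c.g A → ⁅x, z⁆ ∈ c.g A := fun hx hy =>
    LieSubalgebra.lie_mem _ hx hy
  have hl' : ∀ {x z : L}, x ∈ c.g (insert y A) → z ∈ c.g (insert y A) → ⁅x, z⁆ ∈ c.g (insert y A) :=
    fun hx hy => LieSubalgebra.lie_mem _ hx hy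
  obtain ⟨n, rfl⟩ : ∃ n', n = n' + 1 := ⟨n - 1, by omega⟩
  constructor
  · -- perm
    intro l l' h hp
    have := pa_perm_of_adj (c.Lst A (n + 1 + k)) (c.paG A y (n + 1) f k)
      (fun l l' hp h => h.perm' hp) ?_ l l' hp [] h
    · simpa using this
    intro l1 a b l2 hQ
    have hlen : l1.length + (l2.length + 2) = n + 1 + k := by
      have := hQ.1
      simpa using this
    have ha : a ∈ c.g A := hQ.2 a (by simp)
    have hb : b ∈ c.g A := hQ.2 b (by simp)
    have h1 : ∀ x ∈ l1, x ∈ c.g A := fun x hx => hQ.2 x (by simp [hx])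
    have h2 : ∀ x ∈ l2, x ∈ c.g A := fun x hx => hQ.2 x (by simp [hx])
    rcases lt_trichotomy (l1.length + 1) (n + 1) with hlt | heq | hgt
    · -- both in the first group
      obtain ⟨s, t, rfl, hs⟩ : ∃ s t, l2 = s ++ t ∧ l1.length + 2 + s.length = n + 1 :=
        ⟨l2.take (n + 1 - (l1.length + 2)), l2.drop (n + 1 - (l1.length + 2)),
          (List.take_append_drop _ _).symm, by rw [List.length_take]; omega⟩
      have e1 : l1 ++ a :: b :: (s ++ t) = (l1 ++ a :: b :: s) ++ t := by simp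
      have e2 : l1 ++ b :: a :: (s ++ t) = (l1 ++ b :: a :: s) ++ t := by simp
      have hs1 : (l1 ++ a :: b :: s).length = n + 1 := by simp; omega
      have hs2 : (l1 ++ b :: a :: s).length = n + 1 := by simp; omega
      rw [e1] at hQ ⊢
      rw [e2, paG_append hs1, paG_append hs2]
      congr 1
      refine hf.perm _ _ (pa_lst hs1 hQ) ?_
      refine List.Perm.append_right _ ?_
      exact List.Perm.append_left _ (List.Perm.swap _ _ _)
    · -- at the border
      have hs1 : (l1 ++ [a]).length = n + 1 := by simp; omega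
      have hs2 : (l1 ++ [b]).length = n + 1 := by simp; omega
      have e1 : l1 ++ a :: b :: l2 = (l1 ++ [a]) ++ (b :: l2) := by simp
      have e2 : l1 ++ b :: a :: l2 = (l1 ++ [b]) ++ (a :: l2) := by simp
      have hu : adl l2 (c.X y) ∈ c.g (insert y A) := adl_mem_g l2 (fun x hx => hmono (h2 x hx)) hXy
      rw [e1, e2, paG_append hs1, paG_append hs2, Submodule.Quotient.eq]
      change f (l1 ++ [a] ++ [⁅b, adl l2 (c.X y)⁆]) - f (l1 ++ [b] ++ [⁅a, adl l2 (c.X y)⁆]) ∈ _
      set v := adl l2 (c.X y) with hv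
      have hL : ∀ {x z : L}, x ∈ c.g (insert y A) → z ∈ c.g (insert y A) →
          c.Lst (insert y A) (n + 1 + 1) (x :: z :: l1) := by
        intro x z hx hz
        refine ⟨by simp; omega, ?_⟩
        intro w hw
        rcases List.mem_cons.1 hw with rfl | hw
        · exact hx
        rcases List.mem_cons.1 hw with rfl | hw
        · exact hz
        exact hmono (h1 w hw)
      have hP : ∀ x z : L, List.Perm (x :: z :: l1) (l1 ++ [x] ++ [z]) := by
        intro x z
        rw [List.append_assoc]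
        exact (List.perm_append_comm (l₁ := [x, z]) (l₂ := l1))
      rw [← hf.perm _ _ (hL (hmono ha) (hl' (hmono hb) hu)) (hP _ _),
        ← hf.perm _ _ (hL (hmono hb) (hl' (hmono ha) hu)) (hP _ _)]
      have hT := hf.T a b v l1 (hL (hmono ha) (hl' (hmono hb) hu)) (hmono ha) (hmono hb) hu
      have h3 : f (b :: ⁅v, a⁆ :: l1) = - f (b :: ⁅a, v⁆ :: l1) := by
        rw [hf.perm _ _ (hL (hmono hb) (hl' hu (hmono ha))) (List.Perm.swap _ _ _),
          ← lie_skew v a, hf.neg' (hL (hl' (hmono ha) hu) (hmono hb)),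
          hf.perm _ _ (hL (hl' (hmono ha) hu) (hmono hb)) (List.Perm.swap _ _ _)]
      rw [h3] at hT
      have h4 : f (a :: ⁅b, v⁆ :: l1) - f (b :: ⁅a, v⁆ :: l1) = - f (v :: ⁅a, b⁆ :: l1) := by
        rw [← sub_eq_zero, ← hT]
        abel
      rw [h4]
      refine neg_mem ?_
      rw [hf.perm _ _ (hL hu (hmono (hl ha hb)))
        (List.perm_append_comm (l₁ := [v]) (l₂ := ⁅a, b⁆ :: l1))]
      refine Submodule.subset_span ⟨⁅a, b⁆ :: l1, l2, ⟨by simp; omega, ?_⟩, h2, by omega, rfl⟩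
      intro x hx
      rcases List.mem_cons.1 hx with rfl | hx
      · exact hl ha hb
      · exact h1 x hx
    · -- both in the nested group
      obtain ⟨s, t, rfl, hs⟩ : ∃ s t, l1 = s ++ t ∧ s.length = n + 1 :=
        ⟨l1.take (n + 1), l1.drop (n + 1), (List.take_append_drop _ _).symm, by
          rw [List.length_take]; omega⟩
      have e1 : s ++ t ++ a :: b :: l2 = s ++ (t ++ a :: b :: l2) := by simp
      have e2 : s ++ t ++ b :: a :: l2 = s ++ (t ++ b :: a :: l2) := by simp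
      have hQ' : c.Lst A (n + 1 + k) (s ++ (t ++ b :: a :: l2)) := by
        rw [← e2]
        exact hQ.perm' (List.Perm.append_left _ (List.Perm.swap _ _ _))
      rw [e1] at hQ
      rw [e1, e2, paG_append hs, paG_append hs, Submodule.Quotient.eq,
        hf.last_sub (pa_lst hs hQ) (pa_lst hs hQ')]
      have e3 : adl (t ++ a :: b :: l2) (c.X y) - adl (t ++ b :: a :: l2) (c.X y) =
          adl (t ++ ⁅a, b⁆ :: l2) (c.X y) := by
        rw [pa_adl_append, pa_adl_append, pa_adl_append, ← pa_adl_sub]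
        congr 1
        change ⁅a, ⁅b, adl l2 (c.X y)⁆⁆ - ⁅b, ⁅a, adl l2 (c.X y)⁆⁆ = ⁅⁅a, b⁆, adl l2 (c.X y)⁆
        rw [lie_lie]
      rw [e3]
      refine Submodule.subset_span ⟨s, t ++ ⁅a, b⁆ :: l2, ⟨hs, fun x hx => h1 x (by simp [hx])⟩,
        ?_, ?_, rfl⟩
      · intro x hx
        rcases List.mem_append.1 hx with hx | hx
        · exact h1 x (by simp [hx])
        rcases List.mem_cons.1 hx with rfl | hx
        · exact hl ha hb
        · exact h2 x hx
      · simp at hlen ⊢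
        omega
  · -- add
    intro a b l h h'
    obtain ⟨s, t, hst, hs, ht⟩ := pa_split (n := n + 1) (k := k) h
    obtain ⟨x, s, rfl⟩ : ∃ x s', s = x :: s' := by
      cases s with
      | nil => simp at hs
      | cons x s => exact ⟨x, s, rfl⟩
    obtain ⟨rfl, rfl⟩ : a = x ∧ l = s ++ t := by simpa using hst
    have hs' : ∀ z : L, (z :: s).length = n + 1 := fun z => by simpa using hs
    have e : ∀ z : L, z :: (s ++ t) = (z :: s) ++ t := fun z => rfl
    rw [e] at h h'
    rw [e, e, e, paG_append (hs' _), paG_append (hs' _), paG_append (hs' _),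
      ← Submodule.Quotient.mk_add]
    congr 1
    exact hf.add a b _ (pa_lst (hs' _) h) (pa_lst (hs' _) h')
  · -- smul
    intro r a l h
    obtain ⟨s, t, hst, hs, ht⟩ := pa_split (n := n + 1) (k := k) h
    obtain ⟨x, s, rfl⟩ : ∃ x s', s = x :: s' := by
      cases s with
      | nil => simp at hs
      | cons x s => exact ⟨x, s, rfl⟩
    obtain ⟨rfl, rfl⟩ : a = x ∧ l = s ++ t := by simpa using hst
    have hs' : ∀ z : L, (z :: s).length = n + 1 := fun z => by simpa using hs
    have e : ∀ z : L, z :: (s ++ t) = (z :: s) ++ t := fun z => rfl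
    rw [e] at h
    rw [e, e, paG_append (hs' _), paG_append (hs' _), ← Submodule.Quotient.mk_smul]
    congr 1
    exact hf.smul r a _ (pa_lst (hs' _) h)
  · -- T
    intro a b e l h ha hb he
    have hall : ∀ x ∈ l, x ∈ c.g A := fun x hx => h.2 x (by simp [hx])
    rcases Nat.eq_zero_or_pos n with rfl | hn'
    · -- one element in the first group
      have hu : adl l (c.X y) ∈ c.g (insert y A) :=
        adl_mem_g l (fun x hx => hmono (hall x hx)) hXy
      have e0 : ∀ x z : L, x :: z :: l = [x] ++ (z :: l) := fun x z => rfl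
      have hone : ∀ x : L, [x].length = 0 + 1 := fun x => rfl
      rw [e0, e0, e0, paG_append (hone _), paG_append (hone _), paG_append (hone _),
        ← Submodule.Quotient.mk_add, ← Submodule.Quotient.mk_add]
      have := pa_Q hf (hmono ha) (hmono hb) (hmono he) hu
      change Submodule.Quotient.mk (f [a, ⁅⁅b, e⁆, adl l (c.X y)⁆] +
        f [b, ⁅⁅e, a⁆, adl l (c.X y)⁆] + f [e, ⁅⁅a, b⁆, adl l (c.X y)⁆]) = 0
      rw [this]
      rfl
    · obtain ⟨n, rfl⟩ : ∃ n', n = n' + 1 := ⟨n - 1, by omega⟩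
      have hlen : l.length + 2 = n + 1 + 1 + k := by simpa using h.1
      obtain ⟨s, t, rfl, hs⟩ : ∃ s t, l = s ++ t ∧ s.length = n :=
        ⟨l.take n, l.drop n, (List.take_append_drop _ _).symm, by
          rw [List.length_take]; omega⟩
      have e0 : ∀ x z : L, x :: z :: (s ++ t) = (x :: z :: s) ++ t := fun x z => rfl
      have hs' : ∀ x z : L, (x :: z :: s).length = n + 1 + 1 := fun x z => by simp [hs]
      rw [e0] at h
      rw [e0, e0, e0, paG_append (hs' _ _), paG_append (hs' _ _), paG_append (hs' _ _),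
        ← Submodule.Quotient.mk_add, ← Submodule.Quotient.mk_add]
      have : f (a :: ⁅b, e⁆ :: (s ++ [adl t (c.X y)])) +
        f (b :: ⁅e, a⁆ :: (s ++ [adl t (c.X y)])) +
        f (e :: ⁅a, b⁆ :: (s ++ [adl t (c.X y)])) = 0 :=
        hf.T a b e _ (pa_lst (hs' _ _) h) (hmono ha) (hmono hb) (hmono he)
      change Submodule.Quotient.mk (f (a :: ⁅b, e⁆ :: (s ++ [adl t (c.X y)])) +
        f (b :: ⁅e, a⁆ :: (s ++ [adl t (c.X y)])) +
        f (e :: ⁅a, b⁆ :: (s ++ [adl t (c.X y)]))) = 0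
      rw [this]
      rfl
  · -- N
    intro i a b l h ha hb
    have ha' : a ∈ c.g A := h.2 a (by simp)
    have hb' : b ∈ c.g A := h.2 b (by simp)
    have hall : ∀ x ∈ l, x ∈ c.g A := fun x hx => h.2 x (by simp [hx])
    rcases Nat.eq_zero_or_pos n with rfl | hn'
    · have hu : adl l (c.X y) ∈ c.g (insert y A) :=
        adl_mem_g l (fun x hx => hmono (hall x hx)) hXy
      have e0 : ∀ x z : L, x :: z :: l = [x] ++ (z :: l) := fun x z => rfl
      have hone : ∀ x : L, [x].length = 0 + 1 := fun x => rfl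
      rw [e0, paG_append (hone _)]
      have := hf.N i a ⁅b, adl l (c.X y)⁆ [] ⟨rfl, by
        simp [hmono ha', hl' (hmono hb') hu]⟩ ha (lie_mem_left F L (c.M i) _ _ hb)
      change Submodule.Quotient.mk (f [a, ⁅b, adl l (c.X y)⁆]) = 0
      rw [this]
      rfl
    · obtain ⟨n, rfl⟩ : ∃ n', n = n' + 1 := ⟨n - 1, by omega⟩
      have hlen : l.length + 2 = n + 1 + 1 + k := by simpa using h.1
      obtain ⟨s, t, rfl, hs⟩ : ∃ s t, l = s ++ t ∧ s.length = n :=
        ⟨l.take n, l.drop n, (List.take_append_drop _ _).symm, by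
          rw [List.length_take]; omega⟩
      have e0 : ∀ x z : L, x :: z :: (s ++ t) = (x :: z :: s) ++ t := fun x z => rfl
      have hs' : ∀ x z : L, (x :: z :: s).length = n + 1 + 1 := fun x z => by simp [hs]
      rw [e0] at h
      rw [e0, paG_append (hs' _ _)]
      have : f (a :: b :: (s ++ [adl t (c.X y)])) = 0 :=
        hf.N i a b _ (pa_lst (hs' _ _) h) ha hb
      change Submodule.Quotient.mk (f (a :: b :: (s ++ [adl t (c.X y)]))) = 0
      rw [this]
      rfl

theorem paFil_mono {A : Finset ι} {y : ι} {n k k' : ℕ} (h : k ≤ k') :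
    c.paFil A y n f k ≤ c.paFil A y n f k' := by
  refine Submodule.span_mono ?_
  rintro w ⟨s, J, h1, h2, h3, h4⟩
  exact ⟨s, J, h1, h2, lt_of_lt_of_le h3 h, h4⟩

/-- one step in the filtration -/
theorem pa_step {A : Finset ι} {y : ι} (hy : y ∉ A) {n k : ℕ} (hn : 1 ≤ n)
    (hf : c.Rel (insert y A) (n + 1) f) (hI : c.Iprop A (n + k)) {v : G × P}
    (hv : v ∈ c.paFil A y n (c.paF f) (k + 1)) (hv2 : v.2 = 0) :
    v ∈ c.paFil A y n (c.paF f) k := by
  have key : ∀ v ∈ c.paFil A y n (c.paF f) (k + 1),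
      ((Submodule.Quotient.mk v : (G × P) ⧸ c.paFil A y n (c.paF f) k), c.co y k v.2) ∈
        Submodule.span F {w : ((G × P) ⧸ c.paFil A y n (c.paF f) k) × P |
          ∃ l, c.Lst A (n + k) l ∧ w = (c.paG A y n (c.paF f) k l, (l.map c.p).prod)} := by
    intro v hv
    induction hv using Submodule.span_induction with
    | mem v hv =>
      obtain ⟨s, J, hs, hJ, hJk, rfl⟩ := hv
      have hco : c.co y k (c.paF f (s ++ [adl J (c.X y)])).2 =
          (s.map c.p).prod * c.co y k (c.p (adl J (c.X y))) := by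
        simp only [paF, List.map_append, List.prod_append, List.map_cons, List.map_nil,
          List.prod_cons, List.prod_nil, mul_one]
        rw [c.co_mul y k _ _ (prod_mem_fr hy s hs.2)]
      rcases Nat.lt_succ_iff_lt_or_eq.1 hJk with hlt | heq
      · rw [hco, (co_p_adl hy J hJ).2 k hlt, mul_zero]
        have : (Submodule.Quotient.mk (c.paF f (s ++ [adl J (c.X y)])) :
            (G × P) ⧸ c.paFil A y n (c.paF f) k) = 0 := by
          rw [Submodule.Quotient.mk_eq_zero]
          exact Submodule.subset_span ⟨s, J, hs, hJ, hlt, rfl⟩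
        rw [this]
        exact zero_mem _
      · subst heq
        rw [hco, (co_p_adl hy J hJ).1]
        refine Submodule.subset_span ⟨s ++ J, ⟨by simp [hs.1], ?_⟩, ?_⟩
        · intro x hx
          rcases List.mem_append.1 hx with hx | hx
          · exact hs.2 x hx
          · exact hJ x hx
        · rw [paG_append hs.1, List.map_append, List.prod_append]
    | zero =>
      have : ((Submodule.Quotient.mk (0 : G × P) : (G × P) ⧸ c.paFil A y n (c.paF f) k),
          c.co y k (0 : G × P).2) = 0 := by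
        rw [Submodule.Quotient.mk_zero, Prod.snd_zero, map_zero]
        rfl
      rw [this]
      exact zero_mem _
    | add x z _ _ hx hz =>
      have := add_mem hx hz
      rw [Prod.mk_add_mk, ← Submodule.Quotient.mk_add, ← map_add] at this
      exact this
    | smul t x _ hx =>
      have := Submodule.smul_mem _ t hx
      rw [Prod.smul_mk, ← Submodule.Quotient.mk_smul, ← map_smul] at this
      exact this
  have h1 := hI _ _ (paG_rel (k := k) hn (paF_rel hf)) _ (key v hv) (by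
    change c.co y k v.2 = 0
    rw [hv2, map_zero])
  exact (Submodule.Quotient.mk_eq_zero _).1 h1

/-- descending induction -/
theorem pa_desc {A : Finset ι} {y : ι} (hy : y ∉ A) {n : ℕ} (hn : 1 ≤ n)
    (hf : c.Rel (insert y A) (n + 1) f) (hI : ∀ m, 1 ≤ m → c.Iprop A m) :
    ∀ (k : ℕ) {v : G × P}, v ∈ c.paFil A y n (c.paF f) k → v.2 = 0 → v = 0 := by
  intro k
  induction k with
  | zero =>
    intro v hv _
    have : c.paFil A y n (c.paF f) 0 = ⊥ := by
      rw [eq_bot_iff]
      refine Submodule.span_le.2 ?_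
      rintro w ⟨s, J, _, _, h, _⟩
      exact absurd h (Nat.not_lt_zero _)
    rw [this] at hv
    exact (Submodule.mem_bot F).1 hv
  | succ k ih =>
    intro v hv hv2
    exact ih (pa_step hy hn hf (hI _ (by omega)) hv hv2) hv2

/-- an atom: an element of `g A` or a nested bracket with `y` -/
def paAtom (c : Ctx F ι L P) (A : Finset ι) (y : ι) (a : L) : Prop :=
  a ∈ c.g A ∨ ∃ J : List L, (∀ b ∈ J, b ∈ c.g A) ∧ a = adl J (c.X y)

/-- the span of the reduced values -/
def paT (c : Ctx F ι L P) (A : Finset ι) (y : ι) (n : ℕ) (f : List L → G) : Submodule F G :=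
  Submodule.span F {w | ∃ l, c.Lst A (n + 1) l ∧ w = f l} ⊔
    Submodule.span F {w | ∃ s J : List L, c.Lst A n s ∧ (∀ a ∈ J, a ∈ c.g A) ∧
      w = f (s ++ [adl J (c.X y)])}

theorem pa_atom_mem {A : Finset ι} {y : ι} {a : L} (h : c.paAtom A y a) :
    a ∈ c.g (insert y A) := by
  rcases h with h | ⟨J, hJ, rfl⟩
  · exact g_mono (Finset.subset_insert y A) h
  · exact adl_mem_g J (fun b hb => g_mono (Finset.subset_insert y A) (hJ b hb))
      (X_mem_g (Finset.mem_insert_self y A))

theorem pa_atoms {A : Finset ι} {y : ι} {n : ℕ} (hf : c.Rel (insert y A) (n + 1) f) {l : List L}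
    (hl : l.length = n + 1) (ha : ∀ a ∈ l, c.paAtom A y a) : f l ∈ c.paT A y n f := by
  have hL : c.Lst (insert y A) (n + 1) l := ⟨hl, fun a h => pa_atom_mem (ha a h)⟩
  by_cases h : ∀ a ∈ l, a ∈ c.g A
  · exact Submodule.mem_sup_left (Submodule.subset_span ⟨l, ⟨hl, h⟩, rfl⟩)
  · push Not at h
    obtain ⟨a, hal, hag⟩ := h
    obtain ⟨J, hJ, rfl⟩ := (ha a hal).resolve_left hag
    obtain ⟨s, t, rfl⟩ := List.append_of_mem hal
    have hp : (s ++ adl J (c.X y) :: t).Perm ((s ++ t) ++ [adl J (c.X y)]) := by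
      refine List.perm_middle.trans ?_
      exact (List.perm_append_comm (l₁ := [adl J (c.X y)]) (l₂ := s ++ t))
    have hp' : (s ++ adl J (c.X y) :: t).Perm (adl J (c.X y) :: (s ++ t)) := List.perm_middle
    by_cases h' : ∀ b ∈ s ++ t, b ∈ c.g A
    · refine Submodule.mem_sup_right (Submodule.subset_span ⟨s ++ t, J, ⟨?_, h'⟩, hJ, ?_⟩)
      · simp at hl ⊢
        omega
      · exact hf.perm _ _ hL hp
    · push Not at h'
      obtain ⟨b, hbl, hbg⟩ := h'
      have hb := ha b (by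
        rcases List.mem_append.1 hbl with h | h
        · simp [h]
        · simp [h])
      obtain ⟨J', hJ', rfl⟩ := hb.resolve_left hbg
      obtain ⟨s', t', hst⟩ := List.append_of_mem hbl
      have hp2 : (s ++ adl J (c.X y) :: t).Perm
          (adl J (c.X y) :: adl J' (c.X y) :: (s' ++ t')) := by
        refine hp'.trans (List.Perm.cons _ ?_)
        rw [hst]
        exact List.perm_middle
      rw [hf.perm _ _ hL hp2, hf.N y _ _ _ (hL.perm' hp2) (adl_mem_M J (c.X_mem y))
        (adl_mem_M J' (c.X_mem y))]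
      exact zero_mem _

theorem pa_reduce {A : Finset ι} {y : ι} {n : ℕ} (hf : c.Rel (insert y A) (n + 1) f) :
    ∀ (l2 l1 : List L), l1.length + l2.length = n + 1 → (∀ a ∈ l1, c.paAtom A y a) →
      (∀ a ∈ l2, a ∈ c.g (insert y A)) → f (l1 ++ l2) ∈ c.paT A y n f := by
  intro l2
  induction l2 with
  | nil =>
    intro l1 h1 h2 _
    rw [List.append_nil]
    exact pa_atoms hf (by simpa using h1) h2
  | cons a l2 ih =>
    intro l1 h1 h2 h3
    have ha : a ∈ c.g (insert y A) := h3 a (by simp)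
    have h3' : ∀ b ∈ l2, b ∈ c.g (insert y A) := fun b hb => h3 b (by simp [hb])
    have hlen : (l1 ++ l2).length + 1 = n + 1 := by simp at h1 ⊢; omega
    have hL : ∀ {z : L}, z ∈ c.g (insert y A) → c.Lst (insert y A) (n + 1) (z :: (l1 ++ l2)) := by
      intro z hz
      refine ⟨by simpa using hlen, ?_⟩
      intro x hx
      rcases List.mem_cons.1 hx with rfl | hx
      · exact hz
      rcases List.mem_append.1 hx with hx | hx
      · exact pa_atom_mem (h2 x hx)
      · exact h3' x hx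
    have hstep : ∀ {z : L}, c.paAtom A y z → f (z :: (l1 ++ l2)) ∈ c.paT A y n f := by
      intro z hz
      have := ih (z :: l1) (by simp at h1 ⊢; omega) (by
        intro x hx
        rcases List.mem_cons.1 hx with rfl | hx
        · exact hz
        · exact h2 x hx) h3'
      exact this
    have hperm : f (l1 ++ a :: l2) = f (a :: (l1 ++ l2)) :=
      (hf.perm _ _ (hL ha) List.perm_middle.symm).symm
    rw [hperm]
    obtain ⟨u₀, hu₀, u₁, hu₁, rfl⟩ := mem_g_insert ha
    have hu₀' := g_mono (c := c) (Finset.subset_insert y A) hu₀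
    have hu₁' : u₁ ∈ c.g (insert y A) := by
      have := sub_mem ha hu₀'
      rwa [add_sub_cancel_left] at this
    rw [hf.add _ _ _ (hL hu₀') (hL hu₁')]
    refine add_mem (hstep (Or.inl hu₀)) ?_
    have : u₁ ∈ c.g (insert y A) ∧ f (u₁ :: (l1 ++ l2)) ∈ c.paT A y n f := by
      clear hperm hu₁' ha h3 h1
      induction hu₁ using Submodule.span_induction with
      | mem x hx =>
        obtain ⟨J, hJ, rfl⟩ := hx
        exact ⟨pa_atom_mem (Or.inr ⟨J, hJ, rfl⟩), hstep (Or.inr ⟨J, hJ, rfl⟩)⟩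
      | zero =>
        refine ⟨zero_mem _, ?_⟩
        rw [hf.zero' (hL (zero_mem _))]
        exact zero_mem _
      | add x z _ _ hx hz =>
        refine ⟨add_mem hx.1 hz.1, ?_⟩
        rw [hf.add _ _ _ (hL hx.1) (hL hz.1)]
        exact add_mem hx.2 hz.2
      | smul t x _ hx =>
        refine ⟨SMulMemClass.smul_mem t hx.1, ?_⟩
        rw [hf.smul _ _ _ (hL hx.1)]
        exact Submodule.smul_mem _ t hx.2
    exact this.2

theorem pa_span_snd {S : Set (G × P)} {Q : P → Prop} (h0 : Q 0) (hadd : ∀ a b, Q a → Q b → Q (a + b))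
    (hsmul : ∀ (t : F) a, Q a → Q (t • a)) (hmem : ∀ w ∈ S, Q w.2) {v : G × P}
    (hv : v ∈ Submodule.span F S) : Q v.2 := by
  induction hv using Submodule.span_induction with
  | mem v hv => exact hmem v hv
  | zero => exact h0
  | add x z _ _ hx hz => exact hadd _ _ hx hz
  | smul t x _ hx => exact hsmul t _ hx

theorem partA' {A : Finset ι} {y : ι} (hy : y ∉ A) (h : ∀ m, 1 ≤ m → c.Iprop A m)
    {n : ℕ} (hn : 1 ≤ n) : c.Iprop (insert y A) (n + 1) := by
  intro G _ _ f hf v hv hv2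
  have hF := paF_rel hf
  have h1 : v ∈ c.paT A y n (c.paF f) := by
    have : Submodule.span F {w : G × P | ∃ l, c.Lst (insert y A) (n + 1) l ∧
        w = (f l, (l.map c.p).prod)} ≤ c.paT A y n (c.paF f) := by
      refine Submodule.span_le.2 ?_
      rintro _ ⟨l, hl, rfl⟩
      exact pa_reduce hF l [] (by simpa using hl.1) (by simp) hl.2
    exact this hv
  obtain ⟨v₀, hv₀, v₁, hv₁, rfl⟩ := Submodule.mem_sup.1 h1
  have e0 : v₀.2 ∈ c.fr y := by
    refine pa_span_snd (Q := fun r => r ∈ c.fr y) (zero_mem _) (fun a b ha hb => add_mem ha hb)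
      (fun t a ha => SMulMemClass.smul_mem t ha) ?_ hv₀
    rintro _ ⟨l, hl, rfl⟩
    exact prod_mem_fr hy l hl.2
  have e1 : v₁.2 ∈ c.E y := by
    refine pa_span_snd (Q := fun r => r ∈ c.E y) (zero_mem _) (fun a b ha hb => add_mem ha hb)
      (fun t a ha => Submodule.smul_of_tower_mem _ t ha) ?_ hv₁
    rintro _ ⟨s, J, hs, hJ, rfl⟩
    change ((s ++ [adl J (c.X y)]).map c.p).prod ∈ c.E y
    rw [List.map_append, List.prod_append]
    refine Ideal.mul_mem_left _ _ ?_
    simpa using c.p_M y _ (adl_mem_M J (c.X_mem y))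
  have h2 : v₀.2 = 0 := by
    have := congrArg (c.retP y) hv2
    rw [Prod.snd_add, map_add, c.retP_fr y _ e0, c.retP_E y _ e1, add_zero, map_zero] at this
    exact this
  have h3 : v₁.2 = 0 := by
    have := hv2
    rw [Prod.snd_add, h2, zero_add] at this
    exact this
  have h4 : v₀.1 = 0 :=
    h (n + 1) (by omega) G f (hf.mono' (Finset.subset_insert y A)) v₀ hv₀ h2
  have h5 : ∃ K, v₁ ∈ c.paFil A y n (c.paF f) K := by
    clear e1 h3 hv2 h1 hv
    induction hv₁ using Submodule.span_induction with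
    | mem v hv =>
      obtain ⟨s, J, hs, hJ, rfl⟩ := hv
      exact ⟨J.length + 1, Submodule.subset_span ⟨s, J, hs, hJ, Nat.lt_succ_self _, rfl⟩⟩
    | zero => exact ⟨0, zero_mem _⟩
    | add x z _ _ hx hz =>
      obtain ⟨K, hK⟩ := hx
      obtain ⟨K', hK'⟩ := hz
      exact ⟨max K K', add_mem (paFil_mono (le_max_left _ _) hK) (paFil_mono (le_max_right _ _) hK')⟩
    | smul t x _ hx =>
      obtain ⟨K, hK⟩ := hx
      exact ⟨K, Submodule.smul_mem _ t hK⟩
  obtain ⟨K, hK⟩ := h5
  have h6 : v₁ = 0 := pa_desc hy hn hf h K hK h3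
  rw [h6, add_zero, h4]

theorem pa_empty (m : ℕ) (hm : 1 ≤ m) : c.Iprop ∅ m := by
  intro G _ _ f hf v hv hv2
  have hg : ∀ a ∈ c.g (∅ : Finset ι), a = 0 := by
    intro a ha
    refine sp_induction (c := c) (A := ∅) (p := fun a => a = 0) ?_ rfl ?_ ?_ ?_ ha
    · intro i hi
      exact absurd hi (Finset.notMem_empty i)
    · rintro u v _ _ rfl rfl
      simp
    · rintro t u _ rfl
      simp
    · rintro u v _ _ rfl rfl
      simp
  have : Submodule.span F {w : G × P | ∃ l, c.Lst ∅ m l ∧ w = (f l, (l.map c.p).prod)} ≤ ⊥ := by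
    refine Submodule.span_le.2 ?_
    rintro _ ⟨l, hl, rfl⟩
    obtain ⟨a, l, rfl⟩ : ∃ a l', l = a :: l' := by
      cases l with
      | nil => have := hl.1; simp at this; omega
      | cons a l => exact ⟨a, l, rfl⟩
    obtain rfl : a = 0 := hg a (hl.2 a (by simp))
    rw [hf.zero' hl]
    simp
  have hv0 : v = 0 := (Submodule.mem_bot F).1 (this hv)
  rw [hv0]
  rfl

end PartA

theorem partA (A : Finset ι) (y : ι) (hy : y ∉ A) (h : ∀ m, 1 ≤ m → c.Iprop A m) :
    ∀ m, 2 ≤ m → c.Iprop (insert y A) m := by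
  intro m hm
  obtain ⟨n, rfl⟩ : ∃ n, m = n + 1 := ⟨m - 1, by omega⟩
  exact partA' hy h (by omega)

theorem partA_empty (m : ℕ) (hm : 1 ≤ m) : c.Iprop ∅ m := pa_empty m hm

end Ctx

end Helper39W1
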