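import Pool.Agent.Helper39_W1.Span
import Pool.Agent.Helper39_W1.BPfacts

set_option autoImplicit false

noncomputable section

namespace Helper39W1

universe u

/-- invariance under adjacent transpositions implies invariance under permutations -/
theorem pb_perm {α β : Type*} (S : α → Prop) (f : List α → β) (m : ℕ)
    (h : ∀ l₁ a b l₂, (l₁ ++ a :: b :: l₂).length = m → (∀ x ∈ l₁ ++ a :: b :: l₂, S x) →
      f (l₁ ++ a :: b :: l₂) = f (l₁ ++ b :: a :: l₂)) {l l' : List α} (hp : l.Perm l') :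
    ∀ l₁ : List α, (l₁ ++ l).length = m → (∀ x ∈ l₁ ++ l, S x) → f (l₁ ++ l) = f (l₁ ++ l') := by
  induction hp with
  | nil => intro l₁ _ _; rfl
  | cons x _ ih =>
    intro l₁ h1 h2
    have := ih (l₁ ++ [x]) (by simpa using h1) (by simpa using h2)
    simpa using this
  | swap x y l => intro l₁ h1 h2; exact h l₁ y x l h1 h2
  | trans hp1 hp2 ih1 ih2 =>
    intro l₁ h1 h2
    rw [ih1 l₁ h1 h2]
    refine ih2 l₁ ?_ ?_
    · rw [← h1]; simp [hp1.length_eq]
    · intro x hx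
      apply h2
      rw [List.mem_append] at hx ⊢
      rcases hx with hx | hx
      · exact Or.inl hx
      · exact Or.inr (hp1.mem_iff.2 hx)

theorem pb_adl_cons {L : Type u} [LieRing L] (a : L) (l : List L) (x : L) :
    adl (a :: l) x = ⁅a, adl l x⁆ := rfl

theorem pb_adl_append {L : Type u} [LieRing L] (l l' : List L) (x : L) :
    adl (l ++ l') x = adl l (adl l' x) := by
  simp [adl, List.foldr_append]

section
variable {F : Type u} [Field F] {L : Type u} [LieRing L] [LieAlgebra F L]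

theorem pb_adl_add (l : List L) (x y : L) : adl l (x + y) = adl l x + adl l y := by
  induction l with
  | nil => rfl
  | cons a l ih => rw [pb_adl_cons, pb_adl_cons, pb_adl_cons, ih, lie_add]

theorem pb_adl_sub (l : List L) (x y : L) : adl l (x - y) = adl l x - adl l y := by
  induction l with
  | nil => rfl
  | cons a l ih => rw [pb_adl_cons, pb_adl_cons, pb_adl_cons, ih, lie_sub]

end

namespace Ctx

variable {F : Type u} [Field F] [CharZero F] {ι : Type} [DecidableEq ι] {L P : Type u} [LieRing L]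
  [LieAlgebra F L] [CommRing P] [Algebra F P] (c : Ctx F ι L P)

/-- the filtration used in PARTB -/
def pbFil (A : Finset ι) (z : ι) (k : ℕ) : Submodule F (L × P) :=
  Submodule.span F {v | ∃ w ∈ c.BP A, ∃ J : List L, J.length ≤ k ∧ (∀ a ∈ J, a ∈ c.g A) ∧
    v = (w.1 (adl J (c.X z)), w.2 * c.p (adl J (c.X z)))}

/-- the span of the pure words of length `k` -/
def pbTop (A : Finset ι) (z : ι) (k : ℕ) : Submodule F (L × P) :=
  Submodule.span F {v | ∃ J : List L, J.length = k ∧ (∀ a ∈ J, a ∈ c.g A) ∧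
    v = (adl J (c.X z), c.p (adl J (c.X z)))}

variable {c}

theorem pb_mem {A : Finset ι} {z : ι} {k : ℕ} {w : Module.End F L × P} (hw : w ∈ c.BP A)
    {J : List L} (hJ : J.length ≤ k) (hJ' : ∀ a ∈ J, a ∈ c.g A) :
    (w.1 (adl J (c.X z)), w.2 * c.p (adl J (c.X z))) ∈ c.pbFil A z k :=
  Submodule.subset_span ⟨w, hw, J, hJ, hJ', rfl⟩

theorem pb_mem_one {A : Finset ι} {z : ι} {k : ℕ}
    {J : List L} (hJ : J.length ≤ k) (hJ' : ∀ a ∈ J, a ∈ c.g A) :
    (adl J (c.X z), c.p (adl J (c.X z))) ∈ c.pbFil A z k := by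
  have := pb_mem (c := c) (z := z) (one_mem (c.BP A)) hJ hJ'
  simpa using this

theorem pb_split [St5 L] (A : Finset ι) (z : ι) (k : ℕ) :
    c.pbFil A z (k + 1) ≤ c.pbTop A z (k + 1) ⊔ c.pbFil A z k := by
  rw [pbFil, Submodule.span_le]
  rintro v ⟨w, hw, J, hJ, hJ', rfl⟩
  by_cases hk : J.length ≤ k
  · exact Submodule.mem_sup_right (pb_mem hw hk hJ')
  · have hk1 : J.length = k + 1 := by omega
    cases J with
    | nil => simp at hk1
    | cons a J =>
      simp only [List.length_cons, Nat.add_right_cancel_iff] at hk1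
      have ha : a ∈ c.g A := hJ' a (by simp)
      have hJ'' : ∀ b ∈ J, b ∈ c.g A := fun b hb => hJ' b (by simp [hb])
      have h1 : w.1 ⁅a, adl J (c.X z)⁆ = ⁅w.1 a, adl J (c.X z)⁆ + Dop a w.1 (adl J (c.X z)) := by
        have := congrArg (fun φ : Module.End F L => φ (adl J (c.X z)))
          (Fn.ad_apply (BP_fn hw) a)
        simp only [LieAlgebra.ad_apply, LinearMap.sub_apply, Module.End.mul_apply] at this
        rw [this]; abel
      have h2 : ((w.1 (adl (a :: J) (c.X z)), w.2 * c.p (adl (a :: J) (c.X z))) : L × P) =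
          (adl (w.1 a :: J) (c.X z), c.p (adl (w.1 a :: J) (c.X z))) +
          ((c.DD a w).1 (adl J (c.X z)), (c.DD a w).2 * c.p (adl J (c.X z))) := by
        ext
        · simp only [pb_adl_cons, Prod.mk_add_mk]
          rw [h1]; rfl
        · simp only [pb_adl_cons, Prod.mk_add_mk, c.p_lie, BP_p hw, DD, Derivation.leibniz,
            smul_eq_mul]
          ring
      rw [SetLike.mem_coe, h2]
      refine Submodule.add_mem_sup ?_ ?_
      · refine Submodule.subset_span ⟨w.1 a :: J, by simp [hk1], ?_, rfl⟩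
        intro b hb
        rcases List.mem_cons.1 hb with rfl | hb
        · exact BP_maps_g hw ha
        · exact hJ'' b hb
      · exact pb_mem (BP_DD ha hw) hk1.le hJ''

theorem pb_co {A : Finset ι} {z : ι} (hz : z ∉ A) {k : ℕ} {v : L × P} (hv : v ∈ c.pbFil A z k)
    {j : ℕ} (hj : k < j) : c.co z j v.2 = 0 := by
  refine Submodule.span_induction (p := fun v _ => c.co z j v.2 = 0) ?_ ?_ ?_ ?_ hv
  · rintro v ⟨w, hw, J, hJ, hJ', rfl⟩
    simp only
    rw [c.co_mul _ _ _ _ (BP_fr hz hw), (co_p_adl hz J hJ').2 j (by omega), mul_zero]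
  · simp
  · intro x y _ _ hx hy
    simp [hx, hy]
  · intro a x _ hx
    simp [hx]

/-- the function used -/
def pbf (A : Finset ι) (z : ι) (k : ℕ) (l : List L) : (L × P) ⧸ c.pbFil A z k :=
  (c.pbFil A z k).mkQ (adl l (c.X z), c.p (adl l (c.X z)))

theorem pb_rel [St5 L] (A : Finset ι) (z : ι) (k : ℕ) :
    c.Rel A (k + 1) (pbf (c := c) A z k) := by
  refine ⟨?_, ?_, ?_, ?_, ?_⟩
  · intro l l' hl hp
    refine pb_perm (fun x => x ∈ c.g A) (pbf (c := c) A z k) (k + 1) ?_ hp [] hl.1 hl.2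
    intro l₁ a b l₂ h1 h2
    rw [pbf, pbf, ← sub_eq_zero, ← map_sub, Submodule.mkQ_apply, Submodule.Quotient.mk_eq_zero]
    have hmem : ∀ x ∈ l₁ ++ ⁅a, b⁆ :: l₂, x ∈ c.g A := by
      intro x hx
      rw [List.mem_append, List.mem_cons] at hx
      rcases hx with hx | rfl | hx
      · exact h2 x (by simp [hx])
      · exact (c.g A).lie_mem (h2 a (by simp)) (h2 b (by simp))
      · exact h2 x (by simp [hx])
    have hlen : (l₁ ++ ⁅a, b⁆ :: l₂).length ≤ k := by
      simp only [List.length_append, List.length_cons] at h1 ⊢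
      omega
    have key : adl (l₁ ++ a :: b :: l₂) (c.X z) - adl (l₁ ++ b :: a :: l₂) (c.X z) =
        adl (l₁ ++ ⁅a, b⁆ :: l₂) (c.X z) := by
      simp only [pb_adl_append, ← pb_adl_sub, pb_adl_cons]
      rw [lie_lie]
    have h3 := pb_mem_one (c := c) (z := z) hlen hmem
    have h4 : ((adl (l₁ ++ a :: b :: l₂) (c.X z), c.p (adl (l₁ ++ a :: b :: l₂) (c.X z))) -
        (adl (l₁ ++ b :: a :: l₂) (c.X z), c.p (adl (l₁ ++ b :: a :: l₂) (c.X z))) : L × P) =
        (adl (l₁ ++ ⁅a, b⁆ :: l₂) (c.X z), c.p (adl (l₁ ++ ⁅a, b⁆ :: l₂) (c.X z))) := by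
      rw [Prod.mk_sub_mk, ← map_sub, key]
    rw [h4]; exact h3
  · intro a b l _ _
    simp only [pbf]
    rw [← map_add, pb_adl_cons, pb_adl_cons, pb_adl_cons, add_lie, map_add, Prod.mk_add_mk]
  · intro t a l _
    simp only [pbf]
    rw [← map_smul, pb_adl_cons, pb_adl_cons, smul_lie, map_smul, Prod.smul_mk]
  · intro a b e l hl ha hb he
    simp only [pbf]
    rw [← map_add, ← map_add, Submodule.mkQ_apply, Submodule.Quotient.mk_eq_zero]
    have hl' : ∀ x ∈ l, x ∈ c.g A := fun x hx => hl.2 x (by simp [hx])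
    have hlen : l.length ≤ k := by
      have := hl.1
      simp only [List.length_cons] at this
      omega
    have h3 := pb_mem (c := c) (z := z) (SS_mem_BP ha hb he) hlen hl'
    rw [← SS_p] at h3
    have h4 : (c.SS a b e).1 (adl l (c.X z)) = ⁅a, ⁅⁅b, e⁆, adl l (c.X z)⁆⁆ +
        ⁅b, ⁅⁅e, a⁆, adl l (c.X z)⁆⁆ + ⁅e, ⁅⁅a, b⁆, adl l (c.X z)⁆⁆ := Sop_apply a b e _
    rw [h4] at h3
    simpa [pb_adl_cons, Prod.mk_add_mk, map_add] using h3
  · intro i a b l _ ha hb
    have : ⁅a, ⁅b, adl l (c.X z)⁆⁆ = 0 := c.comm i a ha _ (lie_mem_left F L (c.M i) b _ hb)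
    simp only [pbf, pb_adl_cons, this, map_zero]
    exact map_zero _

theorem pb_step [St5 L] {A : Finset ι} {z : ι} (hz : z ∉ A) (h : ∀ m, 1 ≤ m → c.Iprop A m)
    {k : ℕ} {v : L × P} (hv : v ∈ c.pbFil A z (k + 1)) (h0 : v.2 = 0) : v ∈ c.pbFil A z k := by
  obtain ⟨v₁, h₁, v₂, h₂, rfl⟩ := Submodule.mem_sup.1 (pb_split A z k hv)
  have hco2 : c.co z (k + 1) v₂.2 = 0 := pb_co hz h₂ (Nat.lt_succ_self k)
  have hco1 : c.co z (k + 1) v₁.2 = 0 := by
    have : c.co z (k + 1) (v₁ + v₂).2 = 0 := by rw [h0, map_zero]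
    rw [Prod.snd_add, map_add, hco2, add_zero] at this
    exact this
  have hspan : ((c.pbFil A z k).mkQ v₁, c.co z (k + 1) v₁.2) ∈
      Submodule.span F {w : ((L × P) ⧸ c.pbFil A z k) × P | ∃ l, c.Lst A (k + 1) l ∧
        w = (pbf (c := c) A z k l, (l.map c.p).prod)} := by
    refine Submodule.span_induction (p := fun v _ => ((c.pbFil A z k).mkQ v, c.co z (k + 1) v.2) ∈
      Submodule.span F {w : ((L × P) ⧸ c.pbFil A z k) × P | ∃ l, c.Lst A (k + 1) l ∧
        w = (pbf (c := c) A z k l, (l.map c.p).prod)}) ?_ ?_ ?_ ?_ h₁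
    · rintro v ⟨J, hJ, hJ', rfl⟩
      refine Submodule.subset_span ⟨J, ⟨hJ, hJ'⟩, ?_⟩
      have := (co_p_adl hz J hJ').1
      rw [hJ] at this
      simp only [this, pbf]
    · rw [Prod.snd_zero, map_zero, map_zero]
      exact Submodule.zero_mem _
    · intro x y _ _ hx hy
      have := Submodule.add_mem _ hx hy
      simpa [Prod.mk_add_mk] using this
    · intro a x _ hx
      have := Submodule.smul_mem _ a hx
      simpa [Prod.smul_mk] using this
  have := h (k + 1) (by omega) _ (pbf (c := c) A z k) (pb_rel A z k) _ hspan hco1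
  simp only [Submodule.mkQ_apply, Submodule.Quotient.mk_eq_zero] at this
  exact Submodule.add_mem _ this h₂

theorem pb_zero {A : Finset ι} {z : ι} {v : L × P} (hv : v ∈ c.pbFil A z 0) :
    ∃ w ∈ c.BP A, v = (w.1 (c.X z), w.2 * c.p (c.X z)) := by
  refine Submodule.span_induction (p := fun v _ => ∃ w ∈ c.BP A,
    v = (w.1 (c.X z), w.2 * c.p (c.X z))) ?_ ?_ ?_ ?_ hv
  · rintro v ⟨w, hw, J, hJ, _, rfl⟩
    have : J = [] := List.eq_nil_of_length_eq_zero (by omega)
    subst this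
    exact ⟨w, hw, rfl⟩
  · refine ⟨0, zero_mem _, ?_⟩
    simp only [Prod.fst_zero, Prod.snd_zero, LinearMap.zero_apply, zero_mul]
    rfl
  · rintro x y _ _ ⟨w, hw, rfl⟩ ⟨w', hw', rfl⟩
    exact ⟨w + w', add_mem hw hw', by simp [add_mul]⟩
  · rintro a x _ ⟨w, hw, rfl⟩
    exact ⟨a • w, Subalgebra.smul_mem _ hw a, by simp⟩

theorem pb_all [St5 L] {A : Finset ι} {z : ι} (hz : z ∉ A) (h : ∀ m, 1 ≤ m → c.Iprop A m)
    (k : ℕ) {v : L × P} (hv : v ∈ c.pbFil A z k) (h0 : v.2 = 0) : v ∈ c.pbFil A z 0 := by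
  induction k with
  | zero => exact hv
  | succ k ih => exact ih (pb_step hz h hv h0)

theorem pb_mono {A : Finset ι} {z : ι} {k l : ℕ} (h : k ≤ l) : c.pbFil A z k ≤ c.pbFil A z l := by
  apply Submodule.span_mono
  rintro v ⟨w, hw, J, hJ, hJ', rfl⟩
  exact ⟨w, hw, J, hJ.trans h, hJ', rfl⟩

variable (c)

theorem partB [St5 L] (A : Finset ι) (z : ι) (hz : z ∉ A) (h : ∀ m, 1 ≤ m → c.Iprop A m)
    (u : L) (hu : u ∈ c.g (insert z A)) (hM : u ∈ c.M z) (hp : c.p u = 0) :
    ∃ φ : Module.End F L, (φ, (0 : P)) ∈ c.BP A ∧ u = φ (c.X z) := by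
  have h1 := mem_g_insert_M hz hu hM
  have h2 : ∃ k, (u, c.p u) ∈ c.pbFil A z k := by
    refine Submodule.span_induction (p := fun u _ => ∃ k, (u, c.p u) ∈ c.pbFil A z k)
      ?_ ?_ ?_ ?_ h1
    · rintro v ⟨J, hJ, rfl⟩
      exact ⟨J.length, pb_mem_one le_rfl hJ⟩
    · refine ⟨0, ?_⟩
      rw [map_zero]
      exact Submodule.zero_mem _
    · rintro x y _ _ ⟨k, hk⟩ ⟨l, hl⟩
      refine ⟨max k l, ?_⟩
      have := Submodule.add_mem _ (pb_mono (le_max_left k l) hk) (pb_mono (le_max_right k l) hl)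
      simpa [Prod.mk_add_mk] using this
    · rintro a x _ ⟨k, hk⟩
      refine ⟨k, ?_⟩
      have := Submodule.smul_mem _ a hk
      simpa [Prod.smul_mk] using this
  obtain ⟨k, hk⟩ := h2
  rw [hp] at hk
  obtain ⟨w, hw, hw'⟩ := pb_zero (pb_all hz h k hk rfl)
  have h3 : w.2 = 0 := by
    have := congrArg (fun v : L × P => c.co z 0 v.2) hw'
    simp only [map_zero] at this
    rw [c.co_mul _ _ _ _ (BP_fr hz hw), c.co_X_zero, mul_one] at this
    exact this.symm
  refine ⟨w.1, ?_, (congrArg Prod.fst hw')⟩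
  rw [← h3]
  exact hw

end Ctx

end Helper39W1
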