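import Pool.Agent.Helper39_W1.HHClos

set_option autoImplicit false
set_option linter.unusedSectionVars false

noncomputable section

namespace Helper39W1

universe u

namespace Ctx

variable {F : Type u} [Field F] [CharZero F] {ι : Type} [DecidableEq ι] {L P : Type u} [LieRing L]
  [LieAlgebra F L] [CommRing P] [Algebra F P] (c : Ctx F ι L P)

/-- The data used in PARTC. -/
structure PC (A : Finset ι) (y : ι) where
  π : L →ₗ[F] L
  πX : ∀ i, π (c.X i) = c.X i
  πl : ∀ a b : L, π ⁅a, b⁆ = 0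
  h : L →ₗ[F] (Module.End F L × P)
  hl : ∀ a ∈ c.g A, ∀ b ∈ c.g A, h ⁅a, b⁆ - c.SS a b (c.X y) ∈ c.O0 A y
  hX : ∀ i ∈ A, h (c.X i) = 0

namespace PC
variable {c} {A : Finset ι} {y : ι} (D : c.PC A y)

theorem pi_mem {a : L} (ha : a ∈ c.g A) : D.π a ∈ c.g A := by
  unfold g at ha
  induction ha using LieSubalgebra.lieSpan_induction with
  | mem x hx =>
    obtain ⟨i, hi, rfl⟩ := hx
    rw [D.πX]
    exact X_mem_g hi
  | zero => rw [map_zero]; exact zero_mem _
  | add a b _ _ ha hb => rw [map_add]; exact add_mem ha hb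
  | smul t a _ ha => rw [map_smul]; exact (c.g A).smul_mem t ha
  | lie a b _ _ ha hb => rw [D.πl]; exact zero_mem _

theorem h_pi {a : L} (ha : a ∈ c.g A) : D.h (D.π a) = 0 := by
  unfold g at ha
  induction ha using LieSubalgebra.lieSpan_induction with
  | mem x hx =>
    obtain ⟨i, hi, rfl⟩ := hx
    rw [D.πX]
    exact D.hX i hi
  | zero => rw [map_zero, map_zero]
  | add a b _ _ ha hb => rw [map_add, map_add, ha, hb, add_zero]
  | smul t a _ ha => rw [map_smul, map_smul, ha, smul_zero]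
  | lie a b _ _ ha hb => rw [D.πl, map_zero]

/-- the span of the brackets -/
def Br (c : Ctx F ι L P) (A : Finset ι) : Submodule F L :=
  Submodule.span F {w | ∃ b ∈ c.g A, ∃ e ∈ c.g A, w = ⁅b, e⁆}

theorem pi2_mem {a : L} (ha : a ∈ c.g A) : a - D.π a ∈ Br c A := by
  unfold g at ha
  induction ha using LieSubalgebra.lieSpan_induction with
  | mem x hx =>
    obtain ⟨i, hi, rfl⟩ := hx
    rw [D.πX, sub_self]
    exact zero_mem _
  | zero => rw [map_zero, sub_zero]; exact zero_mem _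
  | add a b _ _ ha hb =>
    rw [map_add, add_sub_add_comm]; exact add_mem ha hb
  | smul t a _ ha => rw [map_smul, ← smul_sub]; exact Submodule.smul_mem _ t ha
  | lie a b ha' hb' ha hb =>
    rw [D.πl, sub_zero]
    exact Submodule.subset_span ⟨a, ha', b, hb', rfl⟩

theorem Br_le {x : L} (hx : x ∈ Br c A) : x ∈ c.g A := by
  unfold Br at hx
  induction hx using Submodule.span_induction with
  | mem w hw =>
    obtain ⟨b, hb, e, he, rfl⟩ := hw
    exact LieSubalgebra.lie_mem _ hb he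
  | zero => exact zero_mem _
  | add u v _ _ hu hv => exact add_mem hu hv
  | smul t u _ hu => exact (c.g A).smul_mem t hu

theorem h_eq {a : L} (ha : a ∈ c.g A) : D.h a = D.h (a - D.π a) := by
  rw [map_sub, D.h_pi ha, sub_zero]

theorem h_Br {x : L} (hx : x ∈ Br c A) : D.h x ∈ c.O0 A y ⊔ c.KK A y 0 := by
  unfold Br at hx
  induction hx using Submodule.span_induction with
  | mem w hw =>
    obtain ⟨b, hb, e, he, rfl⟩ := hw
    have h1 := D.hl b hb e he
    have h2 : D.h ⁅b, e⁆ = (D.h ⁅b, e⁆ - c.SS b e (c.X y)) + c.SS b e (c.X y) := by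
      rw [sub_add_cancel]
    rw [h2]
    refine Submodule.add_mem_sup h1 ?_
    exact hh_mem_KK (l := []) (by simp) hb he
  | zero => rw [map_zero]; exact zero_mem _
  | add u v _ _ hu hv => rw [map_add]; exact add_mem hu hv
  | smul t u _ hu => rw [map_smul]; exact Submodule.smul_mem _ t hu

theorem h_mem {a : L} (ha : a ∈ c.g A) : D.h a ∈ c.O0 A y ⊔ c.KK A y 0 := by
  rw [D.h_eq ha]
  exact D.h_Br (D.pi2_mem ha)

variable [St5 L]

theorem O0_le_HH {k : ℕ} : c.O0 A y ≤ c.HH A y k := hh_O0_le_OO.trans hh_OO_le_HH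

theorem h_mem_HH {a : L} (ha : a ∈ c.g A) : D.h a ∈ c.HH A y 0 :=
  (sup_le O0_le_HH hh_KK_le_HH : c.O0 A y ⊔ c.KK A y 0 ≤ c.HH A y 0) (D.h_mem ha)

omit [St5 L] in
theorem DDl_add (l : List L) (v w : Module.End F L × P) :
    c.DDl l (v + w) = c.DDl l v + c.DDl l w := by
  induction l with
  | nil => rfl
  | cons a l ih =>
    change c.DD a (c.DDl l (v + w)) = c.DD a (c.DDl l v) + c.DD a (c.DDl l w)
    rw [ih, DD_add]

omit [St5 L] in
theorem DDl_smul (t : F) (l : List L) (w : Module.End F L × P) :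
    c.DDl l (t • w) = t • c.DDl l w := by
  induction l with
  | nil => rfl
  | cons a l ih =>
    change c.DD a (c.DDl l (t • w)) = t • c.DD a (c.DDl l w)
    rw [ih, DD_smul]

omit [St5 L] in
/-- `DDl l` as a linear map. -/
def DDlin (c : Ctx F ι L P) (l : List L) : (Module.End F L × P) →ₗ[F] (Module.End F L × P) where
  toFun := c.DDl l
  map_add' := DDl_add l
  map_smul' := fun t w => DDl_smul t l w

omit [St5 L] in
theorem DDl_sub (l : List L) (v w : Module.End F L × P) :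
    c.DDl l (v - w) = c.DDl l v - c.DDl l w := (DDlin c l).map_sub v w

omit [St5 L] in
theorem DDl_zero (l : List L) : c.DDl l 0 = 0 := (DDlin c l).map_zero

omit [St5 L] in
theorem DDl_append (l l' : List L) (w : Module.End F L × P) :
    c.DDl (l ++ l') w = c.DDl l (c.DDl l' w) := by
  unfold DDl
  rw [List.foldr_append]

theorem DDl_HH {k : ℕ} (l : List L) (hl : ∀ a ∈ l, a ∈ c.g A) {w : Module.End F L × P}
    (hw : w ∈ c.HH A y k) : c.DDl l w ∈ c.HH A y (k + l.length) := by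
  induction l with
  | nil => exact hw
  | cons a l ih =>
    change c.DD a (c.DDl l w) ∈ _
    have ha : a ∈ c.g A := hl a List.mem_cons_self
    have hl2 : ∀ b ∈ l, b ∈ c.g A := fun b hb => hl b (List.mem_cons_of_mem _ hb)
    exact DD_HH ha (ih hl2)

theorem DDl_h_mem (l : List L) (hl : ∀ a ∈ l, a ∈ c.g A) {a : L} (ha : a ∈ c.g A) :
    c.DDl l (D.h a) ∈ c.HH A y l.length := by
  have := DDl_HH l hl (D.h_mem_HH ha)
  rwa [Nat.zero_add] at this

/-- permutation invariance modulo lower terms -/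
theorem DDl_perm_gen (l l' : List L) (hl : ∀ a ∈ l, a ∈ c.g A) (hp : l.Perm l')
    {w : Module.End F L × P} (hw : w ∈ c.HH A y 0) :
    c.DDl l w - c.DDl l' w ∈ c.HH A y (l.length - 1) := by
  induction hp with
  | nil => rw [sub_self]; exact zero_mem _
  | @cons x l l' hp ih =>
    have ha : x ∈ c.g A := hl x List.mem_cons_self
    have hl2 : ∀ b ∈ l, b ∈ c.g A := fun b hb => hl b (List.mem_cons_of_mem _ hb)
    change c.DD x (c.DDl l _) - c.DD x (c.DDl l' _) ∈ _
    rw [← hh_DD_sub]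
    by_cases h : l = []
    · subst h
      have h' : l' = [] := List.nil_perm.mp hp
      subst h'
      rw [sub_self, hh_DD_zero]
      exact zero_mem _
    · have h1 := DD_HH ha (ih hl2)
      have h2 : l.length - 1 + 1 = (x :: l).length - 1 := by
        have : 0 < l.length := List.length_pos_of_ne_nil h
        simp
        omega
      rw [h2] at h1
      exact h1
  | swap x z l =>
    have hz : z ∈ c.g A := hl z (by simp)
    have hx : x ∈ c.g A := hl x (by simp)
    have hl2 : ∀ b ∈ l, b ∈ c.g A := fun b hb => hl b (by simp [hb])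
    change c.DD z (c.DD x (c.DDl l _)) - c.DD x (c.DD z (c.DDl l _)) ∈ _
    rw [← DD_lie]
    have e : (z :: x :: l).length - 1 = 0 + l.length + 1 := by simp
    rw [e]
    exact DD_HH (LieSubalgebra.lie_mem _ hz hx) (DDl_HH l hl2 hw)
  | @trans l₁ l₂ l₃ hp1 hp2 ih1 ih2 =>
    have hl2 : ∀ b ∈ l₂, b ∈ c.g A := fun b hb => hl b (hp1.mem_iff.mpr hb)
    have e1 := ih1 hl
    have e2 := ih2 hl2
    rw [← hp1.length_eq] at e2
    have := add_mem e1 e2
    rwa [sub_add_sub_cancel] at this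

/-- R2 for `h`. -/
theorem R2_h {x z : L} (hx : x ∈ Br c A) (hz : z ∈ Br c A) :
    c.DD x (D.h z) - c.DD z (D.h x) ∈ c.OO A y := by
  unfold Br at hx
  induction hx using Submodule.span_induction with
  | mem w hw =>
    obtain ⟨a, ha, b, hb, rfl⟩ := hw
    unfold Br at hz
    induction hz using Submodule.span_induction with
    | mem w hw =>
      obtain ⟨d, hd, e, he, rfl⟩ := hw
      have h1 := D.hl a ha b hb
      have h2 := D.hl d hd e he
      have h3 := DD_O0 (LieSubalgebra.lie_mem _ ha hb) h2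
      have h4 := DD_O0 (LieSubalgebra.lie_mem _ hd he) h1
      have h5 := hh_OE_le_OO (R2_mem (c := c) (y := y) ha hb hd he)
      have h6 := sub_mem (sub_mem h3 h4) h5
      rw [hh_DD_sub, hh_DD_sub] at h6
      convert h6 using 1
      abel
    | zero =>
      rw [map_zero, hh_DD_zero, zero_sub]
      apply neg_mem
      have := DD_smul_left (c := c) (0 : F) 0 (D.h ⁅a, b⁆)
      rw [zero_smul, zero_smul] at this
      rw [this]
      exact zero_mem _
    | add u v _ _ hu hv =>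
      rw [map_add, DD_add, DD_add_left]
      convert add_mem hu hv using 1
      abel
    | smul t u _ hu =>
      rw [map_smul, DD_smul, DD_smul_left, ← smul_sub]
      exact Submodule.smul_mem _ _ hu
  | zero =>
    rw [map_zero, hh_DD_zero, sub_zero]
    have := DD_smul_left (c := c) (0 : F) 0 (D.h z)
    rw [zero_smul, zero_smul] at this
    rw [this]
    exact zero_mem _
  | add u v _ _ hu hv =>
    rw [map_add, DD_add, DD_add_left]
    convert add_mem hu hv using 1
    abel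
  | smul t u _ hu =>
    rw [map_smul, DD_smul, DD_smul_left, ← smul_sub]
    exact Submodule.smul_mem _ _ hu

/-- The function on lists. -/
def ff : List L → Module.End F L × P
  | [] => 0
  | a :: l => c.DDl l (D.h a) + c.DD (D.π a) (ff l)

omit [St5 L] in
theorem ff_cons (a : L) (l : List L) :
    D.ff (a :: l) = c.DDl l (D.h a) + c.DD (D.π a) (D.ff l) := rfl

theorem ff_mem (l : List L) (hl : ∀ a ∈ l, a ∈ c.g A) : D.ff l ∈ c.HH A y (l.length - 1) := by
  induction l with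
  | nil => exact zero_mem _
  | cons a l ih =>
    have ha : a ∈ c.g A := hl a List.mem_cons_self
    have hl2 : ∀ b ∈ l, b ∈ c.g A := fun b hb => hl b (List.mem_cons_of_mem _ hb)
    rw [ff_cons]
    refine add_mem ?_ ?_
    · have := D.DDl_h_mem l hl2 ha
      simpa using this
    · by_cases h : l = []
      · subst h
        change c.DD (D.π a) 0 ∈ _
        rw [hh_DD_zero]
        exact zero_mem _
      · have h1 := DD_HH (D.pi_mem ha) (ih hl2)
        have h2 : l.length - 1 + 1 = (a :: l).length - 1 := by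
          have : 0 < l.length := List.length_pos_of_ne_nil h
          simp
          omega
        rwa [h2] at h1

theorem DDl_concat_sub (l : List L) (hl : ∀ a ∈ l, a ∈ c.g A) {x : L} (hx : x ∈ c.g A)
    {w : Module.End F L × P} (hw : w ∈ c.HH A y 0) :
    c.DDl (x :: l) w - c.DDl l (c.DD x w) ∈ c.HH A y l.length := by
  have h1 := DDl_perm_gen (c := c) (A := A) (y := y) (x :: l) (l ++ [x]) (by
    intro b hb
    rcases List.mem_cons.mp hb with rfl | hb
    · exact hx
    · exact hl b hb) (List.perm_append_singleton x l).symm hw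
  rw [DDl_append] at h1
  have e : (x :: l).length - 1 = l.length := by simp
  rw [e] at h1
  exact h1

theorem ff_perm (l l' : List L) (hl : ∀ a ∈ l, a ∈ c.g A) (hp : l.Perm l') :
    D.ff l - D.ff l' ∈ c.HH A y (l.length - 2) := by
  induction hp with
  | nil => rw [sub_self]; exact zero_mem _
  | @cons x l l' hp ih =>
    have ha : x ∈ c.g A := hl x List.mem_cons_self
    have hl2 : ∀ b ∈ l, b ∈ c.g A := fun b hb => hl b (List.mem_cons_of_mem _ hb)
    rw [ff_cons, ff_cons]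
    rw [add_sub_add_comm, ← hh_DD_sub]
    refine add_mem ?_ ?_
    · have h1 := DDl_perm_gen (c := c) (A := A) (y := y) l l' hl2 hp (D.h_mem_HH ha)
      have e : (x :: l).length - 2 = l.length - 1 := by simp
      rw [e]
      exact h1
    · by_cases h : l.length ≤ 1
      · have : l = l' := by
          rcases l with _ | ⟨b, l⟩
          · exact (List.nil_perm.mp hp).symm
          · have : l = [] := by
              simp only [List.length_cons] at h
              exact List.length_eq_zero_iff.mp (by omega)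
            subst this
            exact (List.perm_singleton.mp hp.symm).symm
        subst this
        rw [sub_self, hh_DD_zero]
        exact zero_mem _
      · have h1 := DD_HH (D.pi_mem ha) (ih hl2)
        have h2 : l.length - 2 + 1 = (x :: l).length - 2 := by
          simp only [List.length_cons]
          omega
        rwa [h2] at h1
  | swap a b l =>
    have hb : b ∈ c.g A := hl b (by simp)
    have ha : a ∈ c.g A := hl a (by simp)
    have hl2 : ∀ b ∈ l, b ∈ c.g A := fun b hb => hl b (by simp [hb])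
    have e : (b :: a :: l).length - 2 = l.length := by simp
    rw [e]
    have ha2 := D.pi2_mem ha
    have hb2 := D.pi2_mem hb
    have e1 : D.ff (b :: a :: l) - D.ff (a :: b :: l) =
        (c.DDl ((a - D.π a) :: l) (D.h (b - D.π b)) - c.DDl l (c.DD (a - D.π a) (D.h (b - D.π b))))
        - (c.DDl ((b - D.π b) :: l) (D.h (a - D.π a)) - c.DDl l (c.DD (b - D.π b) (D.h (a - D.π a))))
        + c.DDl l (c.DD (a - D.π a) (D.h (b - D.π b)) - c.DD (b - D.π b) (D.h (a - D.π a)))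
        + c.DD ⁅D.π b, D.π a⁆ (D.ff l) := by
      rw [← D.h_eq ha, ← D.h_eq hb, DDl_sub, DD_lie]
      have s1 : c.DDl ((a - D.π a) :: l) (D.h b) = c.DD a (c.DDl l (D.h b))
          - c.DD (D.π a) (c.DDl l (D.h b)) := by
        have := DD_add_left (c := c) (a - D.π a) (D.π a) (c.DDl l (D.h b))
        rw [sub_add_cancel] at this
        rw [this]
        change c.DD (a - D.π a) (c.DDl l (D.h b)) = _
        abel
      have s2 : c.DDl ((b - D.π b) :: l) (D.h a) = c.DD b (c.DDl l (D.h a))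
          - c.DD (D.π b) (c.DDl l (D.h a)) := by
        have := DD_add_left (c := c) (b - D.π b) (D.π b) (c.DDl l (D.h a))
        rw [sub_add_cancel] at this
        rw [this]
        change c.DD (b - D.π b) (c.DDl l (D.h a)) = _
        abel
      rw [s1, s2]
      simp only [ff_cons, DD_add]
      change c.DD a (c.DDl l (D.h b)) + _ - (c.DD b (c.DDl l (D.h a)) + _) = _
      abel
    rw [e1]
    refine add_mem (add_mem (sub_mem ?_ ?_) ?_) ?_
    · exact DDl_concat_sub l hl2 (Br_le ha2) (D.h_mem_HH (Br_le hb2))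
    · exact DDl_concat_sub l hl2 (Br_le hb2) (D.h_mem_HH (Br_le ha2))
    · exact DDl_OO l hl2 (D.R2_h ha2 hb2)
    · by_cases h : l = []
      · subst h
        change c.DD _ 0 ∈ _
        rw [hh_DD_zero]
        exact zero_mem _
      · have h1 := DD_HH (LieSubalgebra.lie_mem _ (D.pi_mem hb) (D.pi_mem ha)) (D.ff_mem l hl2)
        have h2 : l.length - 1 + 1 = l.length := by
          have : 0 < l.length := List.length_pos_of_ne_nil h
          omega
        rwa [h2] at h1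
  | @trans l₁ l₂ l₃ hp1 hp2 ih1 ih2 =>
    have hl2 : ∀ b ∈ l₂, b ∈ c.g A := fun b hb => hl b (hp1.mem_iff.mpr hb)
    have e1 := ih1 hl
    have e2 := ih2 hl2
    rw [← hp1.length_eq] at e2
    have := add_mem e1 e2
    rwa [sub_add_sub_cancel] at this

omit [St5 L] in
theorem DD_zero_left (w : Module.End F L × P) : c.DD 0 w = 0 := by
  have := DD_smul_left (c := c) (0 : F) 0 w
  rw [zero_smul, zero_smul] at this
  exact this

/-- the value at a bracket -/
theorem ff_bracket {a b : L} (ha : a ∈ c.g A) (hb : b ∈ c.g A) (l : List L)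
    (hl : ∀ a ∈ l, a ∈ c.g A) (hne : l ≠ []) :
    D.ff (⁅a, b⁆ :: l) - c.DDl l (c.SS a b (c.X y)) ∈ c.HH A y (l.length - 1) := by
  rw [ff_cons, D.πl, DD_zero_left, add_zero, ← DDl_sub]
  exact DDl_O0 l hl hne (D.hl a ha b hb)

theorem SS_mem_HH {a b : L} (ha : a ∈ c.g A) (hb : b ∈ c.g A) :
    c.SS a b (c.X y) ∈ c.HH A y 0 :=
  hh_KK_le_HH (hh_mem_KK (l := []) (by simp) ha hb)

theorem ff_ab {a b e : L} (ha : a ∈ c.g A) (hb : b ∈ c.g A) (he : e ∈ c.g A) (l : List L)
    (hl : ∀ a ∈ l, a ∈ c.g A) :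
    D.ff (a :: ⁅b, e⁆ :: l) - c.DDl l (c.DD a (c.SS b e (c.X y))) ∈ c.HH A y l.length := by
  have hbe : ⁅b, e⁆ ∈ c.g A := LieSubalgebra.lie_mem _ hb he
  have h1 := D.ff_perm (a :: ⁅b, e⁆ :: l) (⁅b, e⁆ :: a :: l) (by
    intro x hx
    rcases List.mem_cons.mp hx with rfl | hx
    · exact ha
    rcases List.mem_cons.mp hx with rfl | hx
    · exact hbe
    · exact hl x hx) (List.Perm.swap _ _ _)
  have h2 := D.ff_bracket hb he (a :: l) (by
    intro x hx
    rcases List.mem_cons.mp hx with rfl | hx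
    · exact ha
    · exact hl x hx) (List.cons_ne_nil _ _)
  have h3 := DDl_concat_sub (c := c) (A := A) (y := y) l hl ha (SS_mem_HH hb he)
  have e1 : (a :: ⁅b, e⁆ :: l).length - 2 = l.length := by simp
  have e2 : (a :: l).length - 1 = l.length := by simp
  rw [e1] at h1
  rw [e2] at h2
  have h4 := add_mem (add_mem h1 h2) h3
  rwa [sub_add_sub_cancel, sub_add_sub_cancel] at h4

theorem ff_T {a b e : L} (ha : a ∈ c.g A) (hb : b ∈ c.g A) (he : e ∈ c.g A) (l : List L)
    (hl : ∀ a ∈ l, a ∈ c.g A) :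
    D.ff (a :: ⁅b, e⁆ :: l) + D.ff (b :: ⁅e, a⁆ :: l) + D.ff (e :: ⁅a, b⁆ :: l)
      ∈ c.HH A y l.length := by
  have h1 := D.ff_ab ha hb he l hl
  have h2 := D.ff_ab hb he ha l hl
  have h3 := D.ff_ab he ha hb l hl
  have h4 : c.DDl l (c.DD e (c.SS a b (c.X y)) + c.DD a (c.SS b e (c.X y))
      + c.DD b (c.SS e a (c.X y))) ∈ c.HH A y l.length := by
    apply DDl_OO l hl
    apply hh_O0_le_OO
    exact Submodule.mem_sup_left (R3_mem ha hb he)
  rw [DDl_add, DDl_add] at h4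
  have h5 := add_mem (add_mem (add_mem h1 h2) h3) h4
  convert h5 using 1
  abel

omit [St5 L] in
theorem pi_M {i : ι} {a : L} (ha : a ∈ c.g A) (haM : a ∈ c.M i) : D.π a ∈ c.M i := by
  have h := mem_M_span ha haM
  clear ha haM
  induction h using Submodule.span_induction with
  | mem w hw =>
    rcases hw with ⟨rfl, -⟩ | ⟨a, ha, b, hb, haM, rfl⟩
    · rw [D.πX]
      exact c.X_mem i
    · rw [D.πl]
      exact zero_mem (c.M i)
  | zero => rw [map_zero]; exact zero_mem (c.M i)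
  | add u v _ _ hu hv => rw [map_add]; exact add_mem hu hv
  | smul t u _ hu => rw [map_smul]; exact (c.M i).smul_mem t hu

theorem DD_SS_M {i : ι} {a b e : L} (ha : a ∈ c.M i) (hb : b ∈ c.M i) (v : L) :
    c.DD b (c.SS e a v) = 0 := by
  rw [DD_SS]
  rw [c.comm i b hb a ha]
  have z1 : c.SS ⁅b, e⁆ a v = 0 := hh_SS_two (lie_mem_left F L (c.M i) _ _ hb) ha _
  have z2 : c.SS e 0 v = 0 := by
    rw [← hh_SS_cyc, ← hh_SS_cyc]
    exact hh_SS_zero3 _ _
  have z3 : c.SS e a ⁅b, v⁆ = 0 := by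
    rw [← hh_SS_cyc]
    exact hh_SS_two ha (lie_mem_left F L (c.M i) _ _ hb) _
  rw [z1, z2, z3, add_zero, add_zero]

theorem DD_h_M {i : ι} {a b : L} (ha : a ∈ c.g A) (haM : a ∈ c.M i) (hb : b ∈ c.g A)
    (hbM : b ∈ c.M i) : c.DD b (D.h a) ∈ c.OO A y := by
  have h := mem_M_span ha haM
  clear ha haM
  induction h using Submodule.span_induction with
  | mem w hw =>
    rcases hw with ⟨rfl, hi⟩ | ⟨a, ha, e, he, haM, rfl⟩
    · rw [D.hX i hi, hh_DD_zero]
      exact zero_mem _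
    · have h1 := DD_O0 hb (D.hl e he a ha)
      rw [hh_DD_sub, DD_SS_M haM hbM, sub_zero] at h1
      exact h1
  | zero => rw [map_zero, hh_DD_zero]; exact zero_mem _
  | add u v _ _ hu hv => rw [map_add, DD_add]; exact add_mem hu hv
  | smul t u _ hu => rw [map_smul, DD_smul]; exact Submodule.smul_mem _ t hu

omit [St5 L] in
theorem DD_DD_M {i : ι} {a b : L} (ha : a ∈ c.M i) (hb : b ∈ c.M i) {w : Module.End F L × P}
    (hw : ∀ v ∈ c.M i, w.1 v ∈ c.M i) : c.DD a (c.DD b w) = 0 := by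
  refine Prod.ext ?_ ?_
  · apply LinearMap.ext
    intro z
    change Dop a (Dop b w.1) z = 0
    rw [Dop_apply, Dop_apply, Dop_apply]
    have h1 : ⁅a, ⁅b, w.1 z⁆ - w.1 ⁅b, z⁆⁆ = 0 :=
      c.comm i a ha _ (sub_mem (lie_mem_left F L (c.M i) _ _ hb)
        (hw _ (lie_mem_left F L (c.M i) _ _ hb)))
    have h2 : ⁅b, w.1 ⁅a, z⁆⁆ = 0 :=
      c.comm i b hb _ (hw _ (lie_mem_left F L (c.M i) _ _ ha))
    have h3 : ⁅b, ⁅a, z⁆⁆ = 0 := c.comm i b hb _ (lie_mem_left F L (c.M i) _ _ ha)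
    rw [h1, h2, h3, map_zero, sub_zero, sub_zero]
  · change c.p a * c.d (c.p b * c.d w.2) = 0
    have h1 := c.E_sq i _ (c.p_M i a ha) _ (c.p_M i b hb)
    have h2 := c.E_sq i _ (c.p_M i a ha) _ (c.E_d i _ (c.p_M i b hb))
    rw [Derivation.leibniz, smul_eq_mul, smul_eq_mul]
    linear_combination (c.d (c.d w.2)) * h1 + (c.d w.2) * h2

theorem X_mem_insert : c.X y ∈ c.g (insert y A) := X_mem_g (Finset.mem_insert_self y A)

theorem BP_le_insert {b : Module.End F L × P} (hb : b ∈ c.BP A) : b ∈ c.BP (insert y A) :=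
  BP_mono (Finset.subset_insert y A) hb

theorem g_le_insert {a : L} (ha : a ∈ c.g A) : a ∈ c.g (insert y A) :=
  g_mono (Finset.subset_insert y A) ha

theorem cyc_mem_BP {B : Finset ι} {x₁ x₂ x₃ x₄ t v : L} (h₁ : x₁ ∈ c.g B) (h₂ : x₂ ∈ c.g B)
    (h₃ : x₃ ∈ c.g B) (h₄ : x₄ ∈ c.g B) (ht : t ∈ c.g B) (hv : v ∈ c.g B) :
    c.cyc x₁ x₂ x₃ x₄ t v ∈ c.BP B := by
  unfold cyc
  exact sub_mem (add_mem (sub_mem (SS_mem_BP h₁ (Sop_mem_g h₂ h₃ h₄ ht) hv)
    (SS_mem_BP h₂ (Sop_mem_g h₁ h₃ h₄ ht) hv)) (SS_mem_BP h₃ (Sop_mem_g h₁ h₂ h₄ ht) hv))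
    (SS_mem_BP h₄ (Sop_mem_g h₁ h₂ h₃ ht) hv)

theorem O0_le_BP {w : Module.End F L × P} (hw : w ∈ c.O0 A y) : w ∈ c.BP (insert y A) := by
  have h : c.O0 A y ≤ Subalgebra.toSubmodule (c.BP (insert y A)) := by
    apply sup_le
    · apply Submodule.span_le.mpr
      rintro _ ⟨b, hb, f, hf, rfl⟩
      exact (show _ ∈ c.BP (insert y A) from
        mul_mem (BP_le_insert hb) (BP_DD X_mem_insert (BP_le_insert hf)))
    · apply Submodule.span_le.mpr
      rintro _ ⟨b, hb, x₁, h₁, x₂, h₂, x₃, h₃, x₄, h₄, t, ht, rfl⟩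
      exact (show _ ∈ c.BP (insert y A) from
        mul_mem (BP_le_insert hb) (cyc_mem_BP (g_le_insert h₁) (g_le_insert h₂)
        (g_le_insert h₃) (g_le_insert h₄) (g_le_insert ht) X_mem_insert))
  exact h hw

theorem KK_le_BP {w : Module.End F L × P} (hw : w ∈ c.KK A y 0) : w ∈ c.BP (insert y A) := by
  have h : c.KK A y 0 ≤ Subalgebra.toSubmodule (c.BP (insert y A)) := by
    apply Submodule.span_le.mpr
    rintro _ ⟨b, hb, l, hl, -, a₁, h₁, a₂, h₂, rfl⟩
    have : l = [] := List.length_eq_zero_iff.mp (Nat.le_zero.mp hl)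
    subst this
    exact (show _ ∈ c.BP (insert y A) from
      mul_mem (BP_le_insert hb) (SS_mem_BP (g_le_insert h₁) (g_le_insert h₂) X_mem_insert))
  exact h hw

theorem h_mem_BP {a : L} (ha : a ∈ c.g A) : D.h a ∈ c.BP (insert y A) := by
  obtain ⟨u, hu, v, hv, h⟩ := Submodule.mem_sup.mp (D.h_mem ha)
  rw [← h]
  exact add_mem (O0_le_BP hu) (KK_le_BP hv)

theorem DDl_mem_BP {B : Finset ι} (l : List L) (hl : ∀ a ∈ l, a ∈ c.g B)
    {w : Module.End F L × P} (hw : w ∈ c.BP B) : c.DDl l w ∈ c.BP B := by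
  induction l with
  | nil => exact hw
  | cons a l ih =>
    exact BP_DD (hl a List.mem_cons_self) (ih fun b hb => hl b (List.mem_cons_of_mem _ hb))

theorem ff_mem_BP (l : List L) (hl : ∀ a ∈ l, a ∈ c.g A) : D.ff l ∈ c.BP (insert y A) := by
  induction l with
  | nil => exact zero_mem _
  | cons a l ih =>
    have ha : a ∈ c.g A := hl a List.mem_cons_self
    have hl2 : ∀ b ∈ l, b ∈ c.g A := fun b hb => hl b (List.mem_cons_of_mem _ hb)
    exact add_mem (DDl_mem_BP l (fun b hb => g_le_insert (hl2 b hb)) (D.h_mem_BP ha))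
      (BP_DD (g_le_insert (D.pi_mem ha)) (ih hl2))

theorem ff_N {i : ι} {a b : L} (ha : a ∈ c.g A) (hb : b ∈ c.g A) (haM : a ∈ c.M i)
    (hbM : b ∈ c.M i) (l : List L) (hl : ∀ a ∈ l, a ∈ c.g A) :
    D.ff (a :: b :: l) ∈ c.HH A y l.length := by
  have e1 : D.ff (a :: b :: l) = (c.DDl (b :: l) (D.h a) - c.DDl l (c.DD b (D.h a)))
      + c.DDl l (c.DD b (D.h a)) + ((c.DDl (D.π a :: l) (D.h b) - c.DDl l (c.DD (D.π a) (D.h b)))
      + c.DDl l (c.DD (D.π a) (D.h b))) + c.DD (D.π a) (c.DD (D.π b) (D.ff l)) := by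
    simp only [ff_cons, DD_add]
    rw [sub_add_cancel, sub_add_cancel]
    change c.DDl (b :: l) (D.h a) + (c.DDl (D.π a :: l) (D.h b) + _) = _
    abel
  rw [e1, DD_DD_M (D.pi_M ha haM) (D.pi_M hb hbM)
    (fun v hv => BP_maps_M (D.ff_mem_BP l hl) hv), add_zero]
  refine add_mem (add_mem ?_ ?_) (add_mem ?_ ?_)
  · exact DDl_concat_sub l hl hb (D.h_mem_HH ha)
  · exact DDl_OO l hl (D.DD_h_M ha haM hb hbM)
  · exact DDl_concat_sub l hl (D.pi_mem ha) (D.h_mem_HH hb)
  · exact DDl_OO l hl (D.DD_h_M hb hbM (D.pi_mem ha) (D.pi_M ha haM))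

/-- the relations -/
theorem ff_rel (k : ℕ) : c.Rel A (k + 2) (fun l => (c.HH A y k).mkQ (D.ff l)) where
  perm := by
    intro l l' hl hp
    change Submodule.Quotient.mk _ = Submodule.Quotient.mk _
    rw [Submodule.Quotient.eq]
    have := D.ff_perm l l' hl.2 hp
    rwa [hl.1] at this
  add := by
    intro a b l _ _
    rw [← map_add]
    congr 1
    simp only [ff_cons, map_add, DDl_add, DD_add_left]
    abel
  smul := by
    intro t a l _
    rw [← map_smul]
    congr 1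
    simp only [ff_cons, map_smul, DDl_smul, DD_smul_left, smul_add]
  T := by
    intro a b e l hl ha hb he
    rw [← map_add, ← map_add]
    change Submodule.Quotient.mk _ = 0
    rw [Submodule.Quotient.mk_eq_zero]
    have hlen : l.length = k := by
      have := hl.1
      simp only [List.length_cons] at this
      omega
    have := D.ff_T ha hb he l (fun x hx => hl.2 x (by simp [hx]))
    rwa [hlen] at this
  N := by
    intro i a b l hl haM hbM
    change Submodule.Quotient.mk _ = 0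
    rw [Submodule.Quotient.mk_eq_zero]
    have hlen : l.length = k := by
      have := hl.1
      simp only [List.length_cons] at this
      omega
    have := D.ff_N (hl.2 a (by simp)) (hl.2 b (by simp)) haM hbM l (fun x hx => hl.2 x (by simp [hx]))
    rwa [hlen] at this

end PC

theorem pc_two_mul (F : Type u) [Field F] [CharZero F] {P : Type u} [CommRing P] [Algebra F P]
    {x : P} (h : -(2 * x) = 0) : x = 0 := by
  have h1 : (2 : F) • x = 0 := by
    rw [Algebra.smul_def, map_ofNat]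
    exact neg_eq_zero.mp h
  rcases smul_eq_zero.mp h1 with h2 | h2
  · exact absurd h2 two_ne_zero
  · exact h2

section CO
variable {c} {A : Finset ι} {y : ι}

theorem pc_co_d1_zero : c.co y 0 (c.d (c.p (c.X y))) = 0 := by
  rw [c.co_d_zero, c.co_X_zero, Derivation.map_one_eq_zero]

theorem pc_co_d1_one : c.co y 1 (c.d (c.p (c.X y))) = 1 := by
  rw [c.co_d_succ y 0, c.co_X_zero, c.co_X_succ, map_zero, add_zero]

theorem pc_co_d1_high (j : ℕ) : c.co y (j + 2) (c.d (c.p (c.X y))) = 0 := by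
  rw [c.co_d_succ y (j + 1), c.co_X_succ, c.co_X_succ, map_zero, add_zero]

theorem pc_co_d2_two : c.co y 2 (c.d (c.d (c.p (c.X y)))) = 1 := by
  rw [c.co_d_succ y 1, pc_co_d1_one, pc_co_d1_high 0, map_zero, add_zero]

theorem pc_co_d2_high (j : ℕ) : c.co y (j + 3) (c.d (c.d (c.p (c.X y)))) = 0 := by
  rw [c.co_d_succ y (j + 2), pc_co_d1_high, pc_co_d1_high (j + 1), map_zero, add_zero]

theorem pc_co_SS (hy : y ∉ A) {a b : L} (ha : a ∈ c.g A) (hb : b ∈ c.g A) :
    c.co y 2 (c.SS a b (c.X y)).2 = -(2 * c.p ⁅a, b⁆) ∧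
      ∀ j, c.co y (j + 3) (c.SS a b (c.X y)).2 = 0 := by
  have hf := p_mem_fr hy ha
  have hg := p_mem_fr hy hb
  have hf1 := c.fr_d y _ hf
  have hg1 := c.fr_d y _ hg
  have hf2 := c.fr_d y _ hf1
  have hg2 := c.fr_d y _ hg1
  have two : (2 : P) ∈ c.fr y := by
    have := (c.fr y).natCast_mem 2
    rwa [Nat.cast_ofNat] at this
  have h2 : -(2 * (c.p a * c.d (c.p b) - c.p b * c.d (c.p a))) ∈ c.fr y :=
    neg_mem (mul_mem two (sub_mem (mul_mem hf hg1) (mul_mem hg hf1)))
  have h1 : 2 * (c.p a * c.d (c.d (c.p b)) - c.p b * c.d (c.d (c.p a))) ∈ c.fr y :=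
    mul_mem two (sub_mem (mul_mem hf hg2) (mul_mem hg hf2))
  have h0 : -(2 * (c.d (c.p a) * c.d (c.d (c.p b)) - c.d (c.p b) * c.d (c.d (c.p a)))) ∈ c.fr y :=
    neg_mem (mul_mem two (sub_mem (mul_mem hf1 hg2) (mul_mem hg1 hf2)))
  have e : (c.SS a b (c.X y)).2 =
      -(2 * (c.p a * c.d (c.p b) - c.p b * c.d (c.p a))) * c.d (c.d (c.p (c.X y)))
      + 2 * (c.p a * c.d (c.d (c.p b)) - c.p b * c.d (c.d (c.p a))) * c.d (c.p (c.X y))
      + -(2 * (c.d (c.p a) * c.d (c.d (c.p b)) - c.d (c.p b) * c.d (c.d (c.p a)))) * c.p (c.X y) := by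
    change -(2 * Wr c.d (c.p a) (c.p b) (c.p (c.X y))) = _
    unfold Wr
    ring
  rw [e]
  constructor
  · rw [map_add, map_add, c.co_mul _ _ _ _ h2, c.co_mul _ _ _ _ h1, c.co_mul _ _ _ _ h0,
      pc_co_d2_two, pc_co_d1_high 0, c.co_X_succ, c.p_lie]
    ring
  · intro j
    rw [map_add, map_add, c.co_mul _ _ _ _ h2, c.co_mul _ _ _ _ h1, c.co_mul _ _ _ _ h0,
      pc_co_d2_high, pc_co_d1_high (j + 1), c.co_X_succ]
    ring

theorem pc_co_BP (hy : y ∉ A) {b w : Module.End F L × P} (hb : b ∈ c.BP A) (j : ℕ) :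
    c.co y j (b * w).2 = b.2 * c.co y j w.2 :=
  c.co_mul y j b.2 w.2 (BP_fr hy hb)

theorem pc_co_DD (hy : y ∉ A) {x : L} (hx : x ∈ c.g A) (w : Module.End F L × P) (j : ℕ) :
    c.co y (j + 1) (c.DD x w).2 = c.p x * (c.co y j w.2 + c.d (c.co y (j + 1) w.2)) := by
  change c.co y (j + 1) (c.p x * c.d w.2) = _
  rw [c.co_mul _ _ _ _ (p_mem_fr hy hx), c.co_d_succ]

theorem pc_co_DDl (hy : y ∉ A) (l : List L) (hl : ∀ a ∈ l, a ∈ c.g A) {w : Module.End F L × P}
    {n : ℕ} (hw : ∀ j, n < j → c.co y j w.2 = 0) :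
    c.co y (n + l.length) (c.DDl l w).2 = (l.map c.p).prod * c.co y n w.2 ∧
      ∀ j, n + l.length < j → c.co y j (c.DDl l w).2 = 0 := by
  induction l with
  | nil => exact ⟨by simp [DDl], fun j hj => hw j (by simpa using hj)⟩
  | cons a l ih =>
    have ha : a ∈ c.g A := hl a List.mem_cons_self
    obtain ⟨i1, i2⟩ := ih fun b hb => hl b (List.mem_cons_of_mem _ hb)
    constructor
    · change c.co y (n + l.length + 1) (c.DD a (c.DDl l w)).2 = _
      rw [pc_co_DD hy ha, i1, i2 _ (by omega), map_zero, add_zero, List.map_cons, List.prod_cons,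
        mul_assoc]
    · intro j hj
      simp only [List.length_cons] at hj
      obtain ⟨j, rfl⟩ : ∃ j', j = j' + 1 := ⟨j - 1, by omega⟩
      change c.co y (j + 1) (c.DD a (c.DDl l w)).2 = _
      rw [pc_co_DD hy ha, i2 j (by omega), i2 (j + 1) (by omega), map_zero, add_zero, mul_zero]

theorem pc_co_eps_high (x : P) (j : ℕ) (hx : x ∈ c.fr y) :
    c.co y (j + 2) (x * c.d (c.p (c.X y))) = 0 ∧ c.co y (j + 1) (x * c.p (c.X y)) = 0 := by
  constructor
  · rw [c.co_mul _ _ _ _ hx, pc_co_d1_high, mul_zero]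
  · rw [c.co_mul _ _ _ _ hx, c.co_X_succ, mul_zero]

/-- values `r p([e,y])` -/
theorem pc_co_lie (hy : y ∉ A) {e : L} (he : e ∈ c.g A) (j : ℕ) :
    c.co y (j + 2) (c.p ⁅e, c.X y⁆) = 0 := by
  rw [c.p_lie, map_sub, mul_comm (c.p (c.X y))]
  rw [(pc_co_eps_high (c.p e) j (p_mem_fr hy he)).1,
    (pc_co_eps_high (c.d (c.p e)) (j + 1) (c.fr_d y _ (p_mem_fr hy he))).2, sub_zero]

variable [St5 L]

theorem pc_co_OO (hy : y ∉ A) {w : Module.End F L × P} (hw : w ∈ c.OO A y) (j : ℕ) :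
    c.co y (j + 2) w.2 = 0 := by
  have key : c.OO A y ≤ LinearMap.ker ((c.co y (j + 2)).comp (LinearMap.snd F (Module.End F L) P)) := by
    refine sup_le (sup_le ?_ ?_) (sup_le ?_ ?_)
    · apply Submodule.span_le.mpr
      rintro _ ⟨b, hb, f, hf, rfl⟩
      change c.co y (j + 2) (b.2 * (c.p (c.X y) * c.d f.2)) = 0
      rw [c.co_mul _ _ _ _ (BP_fr hy hb), mul_comm (c.p (c.X y)),
        (pc_co_eps_high _ (j + 1) (c.fr_d y _ (BP_fr hy hf))).2, mul_zero]
    · apply Submodule.span_le.mpr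
      rintro _ ⟨b, hb, f, hf, e, he, rfl⟩
      change c.co y (j + 2) (b.2 * (c.p ⁅e, c.X y⁆ * c.d f.2)) = 0
      rw [c.co_mul _ _ _ _ (BP_fr hy hb), mul_comm (c.p _), c.co_mul _ _ _ _ (c.fr_d y _ (BP_fr hy hf)),
        pc_co_lie hy he, mul_zero, mul_zero]
    · apply Submodule.span_le.mpr
      rintro _ ⟨b, hb, x₁, h₁, x₂, h₂, x₃, h₃, x₄, h₄, t, ht, rfl⟩
      change c.co y (j + 2) (b.2 * (c.cyc x₁ x₂ x₃ x₄ t (c.X y)).2) = 0
      obtain ⟨r, hr, hv⟩ := (isForm_cyc (c := c) h₁ h₂ h₃ h₄ ht).val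
      rw [c.co_mul _ _ _ _ (BP_fr hy hb), hv, (pc_co_eps_high _ (j + 1) (hr y hy)).2, mul_zero]
    · apply Submodule.span_le.mpr
      rintro _ ⟨b, hb, x₁, h₁, x₂, h₂, x₃, h₃, x₄, h₄, t, ht, e, he, rfl⟩
      change c.co y (j + 2) (b.2 * (c.cyc x₁ x₂ x₃ x₄ t ⁅e, c.X y⁆).2) = 0
      obtain ⟨r, hr, hv⟩ := (isForm_cyc (c := c) h₁ h₂ h₃ h₄ ht).val
      rw [c.co_mul _ _ _ _ (BP_fr hy hb), hv, c.co_mul _ _ _ _ (hr y hy), pc_co_lie hy he,
        mul_zero, mul_zero]
  exact key hw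

theorem pc_top (hy : y ∉ A) (D : c.PC A y) (k : ℕ) {w : Module.End F L × P}
    (hw : w ∈ c.HH A y (k + 1)) :
    ∃ v ∈ Submodule.span F {w : ((Module.End F L × P) ⧸ c.HH A y k) × P |
      ∃ l, c.Lst A (k + 2) l ∧ w = ((c.HH A y k).mkQ (D.ff l), (l.map c.p).prod)},
      v.1 = (c.HH A y k).mkQ w ∧ c.co y (k + 3) w.2 = -(2 * v.2) := by
  obtain ⟨w₁, hw₁, w₂, hw₂, rfl⟩ := Submodule.mem_sup.mp hw
  have m1 : (c.HH A y k).mkQ w₁ = 0 := by
    rw [Submodule.mkQ_apply, Submodule.Quotient.mk_eq_zero]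
    exact hh_OO_le_HH hw₁
  rw [map_add, m1, zero_add, Prod.snd_add, map_add, pc_co_OO hy hw₁ (k + 1), zero_add]
  clear hw m1 hw₁
  unfold KK at hw₂
  induction hw₂ using Submodule.span_induction with
  | mem w hw =>
    obtain ⟨b, hb, l, hl, hl', a₁, h₁, a₂, h₂, rfl⟩ := hw
    obtain ⟨s1, s2⟩ := pc_co_SS hy h₁ h₂
    have s3 : ∀ j, 2 < j → c.co y j (c.SS a₁ a₂ (c.X y)).2 = 0 := by
      intro j hj
      obtain ⟨j, rfl⟩ : ∃ j', j = j' + 3 := ⟨j - 3, by omega⟩
      exact s2 j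
    obtain ⟨t1, t2⟩ := pc_co_DDl hy l hl' s3
    by_cases hlen : l.length ≤ k
    · refine ⟨0, zero_mem _, ?_, ?_⟩
      · change (0 : (Module.End F L × P) ⧸ c.HH A y k) = _
        symm
        rw [Submodule.mkQ_apply, Submodule.Quotient.mk_eq_zero]
        apply hh_KK_le_HH
        apply Submodule.subset_span
        exact ⟨b, hb, l, hlen, hl', a₁, h₁, a₂, h₂, rfl⟩
      · rw [pc_co_BP hy hb, t2 _ (by omega)]
        simp
    · have hlen : l.length = k + 1 := by omega
      rcases l with _ | ⟨x, l⟩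
      · simp at hlen
      have hlen2 : l.length = k := by simpa using hlen
      have hx : x ∈ c.g A := hl' x List.mem_cons_self
      have hl2 : ∀ b ∈ l, b ∈ c.g A := fun b hb => hl' b (List.mem_cons_of_mem _ hb)
      have hbx : b.1 x ∈ c.g A := BP_maps_g hb hx
      have hL : ∀ z ∈ (b.1 x) :: l, z ∈ c.g A := by
        intro z hz
        rcases List.mem_cons.mp hz with rfl | hz
        · exact hbx
        · exact hl2 z hz
      have hW : c.DDl l (c.SS a₁ a₂ (c.X y)) ∈ c.BP (insert y A) :=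
        PC.DDl_mem_BP l (fun b hb => PC.g_le_insert (hl2 b hb))
          (SS_mem_BP (PC.g_le_insert h₁) (PC.g_le_insert h₂) PC.X_mem_insert)
      have e1 : b * c.DDl (x :: l) (c.SS a₁ a₂ (c.X y)) =
          c.DDl ((b.1 x) :: l) (c.SS a₁ a₂ (c.X y)) := by
        change b * c.DD x (c.DDl l _) = c.DD (b.1 x) (c.DDl l _)
        rw [DD_BP (B := A) hb x (BP_fn hW)]
      refine ⟨((c.HH A y k).mkQ (D.ff (⁅a₁, a₂⁆ :: (b.1 x) :: l)),
        ((⁅a₁, a₂⁆ :: (b.1 x) :: l).map c.p).prod), ?_, ?_, ?_⟩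
      · apply Submodule.subset_span
        refine ⟨⁅a₁, a₂⁆ :: (b.1 x) :: l, ⟨by simp [hlen2], ?_⟩, rfl⟩
        intro z hz
        rcases List.mem_cons.mp hz with rfl | hz
        · exact LieSubalgebra.lie_mem _ h₁ h₂
        · exact hL z hz
      · have h3 := D.ff_bracket h₁ h₂ ((b.1 x) :: l) hL (List.cons_ne_nil _ _)
        have e2 : ((b.1 x) :: l).length - 1 = k := by simp [hlen2]
        rw [e2] at h3
        rw [e1]
        change Submodule.Quotient.mk _ = Submodule.Quotient.mk _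
        rw [Submodule.Quotient.eq]
        exact h3
      · rw [pc_co_BP hy hb]
        have e3 : 2 + (x :: l).length = k + 3 := by rw [hlen]; ring
        rw [e3, s1] at t1
        rw [t1]
        simp only [List.map_cons, List.prod_cons]
        rw [BP_p hb x]
        ring
  | zero => exact ⟨0, zero_mem _, by rw [map_zero]; rfl, by simp⟩
  | add u v _ _ hu hv =>
    obtain ⟨u', hu1, hu2, hu3⟩ := hu
    obtain ⟨v', hv1, hv2, hv3⟩ := hv
    refine ⟨u' + v', add_mem hu1 hv1, ?_, ?_⟩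
    · rw [map_add, Prod.fst_add, hu2, hv2]
    · rw [Prod.snd_add, Prod.snd_add, map_add, hu3, hv3]
      ring
  | smul t u _ hu =>
    obtain ⟨u', hu1, hu2, hu3⟩ := hu
    refine ⟨t • u', Submodule.smul_mem _ t hu1, ?_, ?_⟩
    · rw [map_smul, Prod.smul_fst, hu2]
    · rw [Prod.smul_snd, Prod.smul_snd, map_smul, hu3, mul_smul_comm, smul_neg]

theorem pc_bottom (hy : y ∉ A) (D : c.PC A y) {w : Module.End F L × P}
    (hw : w ∈ c.HH A y 0) :
    ∃ u ∈ c.g A, w - D.h u ∈ c.OO A y ∧ c.co y 2 w.2 = -(2 * c.p u) := by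
  obtain ⟨w₁, hw₁, w₂, hw₂, rfl⟩ := Submodule.mem_sup.mp hw
  clear hw
  suffices h : ∃ u ∈ c.g A, w₂ - D.h u ∈ c.OO A y ∧ c.co y 2 w₂.2 = -(2 * c.p u) by
    obtain ⟨u, hu, h1, h2⟩ := h
    refine ⟨u, hu, ?_, ?_⟩
    · rw [add_sub_assoc]
      exact add_mem hw₁ h1
    · rw [Prod.snd_add, map_add, pc_co_OO hy hw₁ 0, zero_add, h2]
  clear hw₁
  unfold KK at hw₂
  induction hw₂ using Submodule.span_induction with
  | mem w hw =>
    obtain ⟨b, hb, l, hl, hl', a₁, h₁, a₂, h₂, rfl⟩ := hw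
    have : l = [] := List.length_eq_zero_iff.mp (Nat.le_zero.mp hl)
    subst this
    change ∃ u ∈ c.g A, b * c.SS a₁ a₂ (c.X y) - D.h u ∈ c.OO A y ∧
      c.co y 2 (b * c.SS a₁ a₂ (c.X y)).2 = -(2 * c.p u)
    refine ⟨b.1 ⁅a₁, a₂⁆, BP_maps_g hb (LieSubalgebra.lie_mem _ h₁ h₂), ?_, ?_⟩
    · have r4 := hh_OE_le_OO (R4_mem (c := c) (y := y) hb h₁ h₂)
      have q1 := hh_O0_le_OO (D.hl _ (BP_maps_g hb h₁) _ h₂)
      have q2 := hh_O0_le_OO (D.hl _ h₁ _ (BP_maps_g hb h₂))
      have fl := Fn.lie (BP_fn hb) a₁ a₂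
      have q3 := add_mem q1 q2
      have q4 : D.h ⁅b.1 a₁, a₂⁆ + D.h ⁅a₁, b.1 a₂⁆ = (2 : F) • D.h (b.1 ⁅a₁, a₂⁆) := by
        rw [← map_add, fl, map_smul]
      have q5 := add_mem q3 r4
      have q6 : (2 : F) • (D.h (b.1 ⁅a₁, a₂⁆) - b * c.SS a₁ a₂ (c.X y)) ∈ c.OO A y := by
        rw [smul_sub, ← q4]
        convert q5 using 1
        abel
      have q7 := Submodule.smul_mem _ ((2 : F)⁻¹) q6
      rw [smul_smul, inv_mul_cancel₀ two_ne_zero, one_smul] at q7
      have q8 := neg_mem q7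
      rwa [neg_sub] at q8
    · rw [pc_co_BP hy hb, (pc_co_SS hy h₁ h₂).1, BP_p hb]
      ring
  | zero =>
    refine ⟨0, zero_mem _, ?_, ?_⟩
    · rw [map_zero, sub_zero]; exact zero_mem _
    · simp
  | add u v _ _ hu hv =>
    obtain ⟨u', hu1, hu2, hu3⟩ := hu
    obtain ⟨v', hv1, hv2, hv3⟩ := hv
    refine ⟨u' + v', add_mem hu1 hv1, ?_, ?_⟩
    · rw [map_add, add_sub_add_comm]
      exact add_mem hu2 hv2
    · rw [Prod.snd_add, map_add, map_add, hu3, hv3]
      ring
  | smul t u _ hu =>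
    obtain ⟨u', hu1, hu2, hu3⟩ := hu
    refine ⟨t • u', (c.g A).smul_mem t hu1, ?_, ?_⟩
    · rw [map_smul, ← smul_sub]
      exact Submodule.smul_mem _ t hu2
    · rw [Prod.smul_snd, map_smul, map_smul, hu3, mul_smul_comm, smul_neg]

theorem pc_exists (h2 : c.H2prop A) (hpi : c.PiProp) : Nonempty (c.PC A y) := by
  obtain ⟨π, hπX, hπl⟩ := hpi
  have smul1 : ∀ (t : F) (a b : L), c.SS (t • a) b (c.X y) = t • c.SS a b (c.X y) := by
    intro t a b
    rw [← hh_SS_cyc (t • a) b, hh_SS_smul3, hh_SS_cyc]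
  have smul2 : ∀ (t : F) (a b : L), c.SS a (t • b) (c.X y) = t • c.SS a b (c.X y) := by
    intro t a b
    rw [← hh_SS_cyc a (t • b), ← hh_SS_cyc (t • b) (c.X y), hh_SS_smul3, hh_SS_cyc (c.X y) a b,
      hh_SS_cyc b (c.X y) a]
  let q : L →ₗ[F] L →ₗ[F] ((Module.End F L × P) ⧸ c.O0 A y) :=
    LinearMap.mk₂ F (fun a b => (c.O0 A y).mkQ (c.SS a b (c.X y)))
      (fun a a' b => by rw [hh_SS_add1, map_add])
      (fun t a b => by rw [smul1, map_smul])
      (fun a b b' => by rw [hh_SS_add2, map_add])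
      (fun t a b => by rw [smul2, map_smul])
  have hq : ∀ a b, q a b = (c.O0 A y).mkQ (c.SS a b (c.X y)) := fun a b => rfl
  obtain ⟨hbar, hb1, hb2⟩ := h2 _ q (by
      intro a _
      rw [hq]
      have : c.SS a a (c.X y) = 0 := by
        unfold SS
        refine Prod.ext (Sop_self12 a _) ?_
        simp only [Wr]
        change _ = (0 : P)
        ring
      rw [this, map_zero])
    (by
      intro a ha b hb e he
      rw [hq, hq, hq, ← map_add, ← map_add, Submodule.mkQ_apply, Submodule.Quotient.mk_eq_zero]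
      exact Submodule.mem_sup_left (bd_mem ha hb he))
    (by
      intro i a _ b _ haM hbM
      rw [hq, hh_SS_two haM hbM, map_zero])
    (by
      intro x₁ h₁ x₂ h₂ x₃ h₃ x₄ h₄ t ht
      rw [hq, hq, hq, hq, ← map_sub, ← map_add, ← map_sub, Submodule.mkQ_apply,
        Submodule.Quotient.mk_eq_zero]
      apply Submodule.mem_sup_right
      apply Submodule.subset_span
      exact ⟨1, one_mem _, x₁, h₁, x₂, h₂, x₃, h₃, x₄, h₄, t, ht, (one_mul _).symm⟩)
  obtain ⟨s, hs⟩ := (c.O0 A y).mkQ.exists_rightInverse_of_surjective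
    (LinearMap.range_eq_top.mpr (Submodule.mkQ_surjective _))
  have hs' : ∀ z, (c.O0 A y).mkQ (s z) = z := fun z => LinearMap.congr_fun hs z
  refine ⟨{ π := π, πX := hπX, πl := hπl, h := s.comp hbar, hl := ?_, hX := ?_ }⟩
  · intro a ha b hb
    rw [← Submodule.Quotient.mk_eq_zero, ← Submodule.mkQ_apply, map_sub]
    change (c.O0 A y).mkQ (s (hbar ⁅a, b⁆)) - _ = 0
    rw [hs', hb1 a ha b hb, hq, sub_self]
  · intro i hi
    change s (hbar (c.X i)) = 0
    rw [hb2 i hi, map_zero]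

end CO

theorem partC_step [St5 L] (A : Finset ι) (y : ι) (hy : y ∉ A) (h2 : c.H2prop A) (hpi : c.PiProp)
    (hI : ∀ m, 1 ≤ m → c.Iprop A m) (k : ℕ) {w : Module.End F L × P} (hw : w ∈ c.HH A y k)
    (h0 : w.2 = 0) : w ∈ c.OO A y := by
  obtain ⟨D⟩ := pc_exists (c := c) (y := y) h2 hpi
  induction k with
  | zero =>
    obtain ⟨u, hu, h1, h3⟩ := pc_bottom hy D hw
    rw [h0, map_zero] at h3
    have hpu : c.p u = 0 := pc_two_mul F h3.symm
    have hu0 : u = 0 := (inj_iff (c := c) A).mp (hI 1 le_rfl) u hu hpu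
    rw [hu0, map_zero, sub_zero] at h1
    exact h1
  | succ k ih =>
    apply ih
    obtain ⟨v, hv, h1, h3⟩ := pc_top hy D k hw
    rw [h0, map_zero] at h3
    have hv2 : v.2 = 0 := pc_two_mul F h3.symm
    have hv1 := hI (k + 2) (by omega) _ _ (D.ff_rel k) v hv hv2
    rw [h1, Submodule.mkQ_apply, Submodule.Quotient.mk_eq_zero] at hv1
    exact hv1

theorem partC [St5 L] (A : Finset ι) (y : ι) (hy : y ∉ A) (h2 : c.H2prop A) (hpi : c.PiProp)
    (hI : ∀ m, 1 ≤ m → c.Iprop A m) {w : Module.End F L × P} (hw : w ∈ c.BY A y)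
    (h0 : w.2 = 0) : w ∈ c.OO A y := by
  obtain ⟨k, hk⟩ := BY_le A y hy hw
  exact c.partC_step A y hy h2 hpi hI k hk h0

end Ctx

end Helper39W1
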