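import Pool.Agent.Helper39_W1.PartA
import Pool.Agent.Helper39_W1.PartB
import Pool.Agent.Helper39_W1.PartC

set_option autoImplicit false
set_option linter.unusedSectionVars false

noncomputable section

namespace Helper39W1

universe u

namespace Ctx

variable {F : Type u} [Field F] [CharZero F] {ι : Type} [DecidableEq ι] {L P : Type u} [LieRing L]
  [LieAlgebra F L] [CommRing P] [Algebra F P] (c : Ctx F ι L P)

theorem partD [St5 L] (C : Finset ι) (y z : ι) (hy : y ∈ C) (hz : z ∈ C) (hyz : y ≠ z)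
    (hI : ∀ B, B ⊂ C → ∀ m, 1 ≤ m → c.Iprop B m) (h2 : ∀ A, c.H2prop A) (hpi : c.PiProp)
    (τ : L →ₗ⁅F⁆ L) (hτ : c.IsSwap y z τ) (u : L) (hu : u ∈ c.g C) (huM : ∀ i ∈ C, u ∈ c.M i)
    (hp : c.p u = 0) : τ u = u := by
  have hyA : y ∈ C.erase z := Finset.mem_erase.mpr ⟨hyz, hy⟩
  have hA : C.erase z ⊂ C := Finset.erase_ssubset hz
  have hA0 : (C.erase z).erase y ⊂ C := (Finset.erase_ssubset hyA).trans hA
  have hins : insert y ((C.erase z).erase y) = C.erase z := Finset.insert_erase hyA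
  have hy0 : y ∉ (C.erase z).erase y := Finset.notMem_erase _ _
  have hz0 : z ∉ (C.erase z).erase y := fun h => Finset.notMem_erase z C (Finset.mem_of_mem_erase h)
  have hinsz : insert z ((C.erase z).erase y) ⊂ C := by
    refine Finset.ssubset_iff_subset_ne.mpr ⟨?_, ?_⟩
    · intro i hi
      rcases Finset.mem_insert.mp hi with rfl | hi
      · exact hz
      · exact Finset.mem_of_mem_erase (Finset.mem_of_mem_erase hi)
    · intro h
      have : y ∈ insert z ((C.erase z).erase y) := by rw [h]; exact hy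
      rcases Finset.mem_insert.mp this with h | h
      · exact hyz h
      · exact hy0 h
  obtain ⟨φ, hφ, hφu⟩ := partB c (C.erase z) z (Finset.notMem_erase _ _) (hI _ hA) u
    (by rw [Finset.insert_erase hz]; exact hu) (huM z hz) hp
  rw [← hins] at hφ
  obtain ⟨w₀, hw₀, w₁, hw₁, hsum⟩ := BP_insert _ y hy0 hφ
  have h1 : φ = w₀.1 + w₁.1 := congrArg Prod.fst hsum
  have h2' : (0 : P) = w₀.2 + w₁.2 := congrArg Prod.snd hsum
  have hw02 : w₀.2 = 0 := by
    have := congrArg (c.retP y) h2'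
    rw [map_zero, map_add, c.retP_fr y _ (BP_fr hy0 hw₀), c.retP_E y _ (BY_E _ y hw₁), add_zero] at this
    exact this.symm
  have hw12 : w₁.2 = 0 := by rw [hw02, zero_add] at h2'; exact h2'.symm
  have hw0z : w₀.1 (c.X z) = 0 := by
    have h3 : c.ret y u = 0 := c.ret_M y u (huM y hy)
    rw [hφu, h1, LinearMap.add_apply, map_add, BP_ret hy0 hw₀, c.ret_X y z hyz.symm,
      c.ret_M y _ (BY_apply_M _ y hw₁ _), add_zero] at h3
    exact h3
  have hu1 : u = w₁.1 (c.X z) := by
    rw [hφu, h1, LinearMap.add_apply, hw0z, zero_add]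
  have hOO := partC c _ y hy0 (h2 _) hpi (hI _ hA0) hw₁ hw12
  obtain ⟨θ, hθ, hθ1, hθ2⟩ := OO_swap hy0 hz0 hyz hτ hOO
  rw [hw12, map_zero] at hθ2
  rw [← hu1] at hθ1
  have hzero : ∀ i, insert i ((C.erase z).erase y) ⊂ C → θ.1 (c.X i) = 0 := by
    intro i hi
    have hinj := (inj_iff _).mp (hI _ hi 1 le_rfl)
    refine hinj _ (BP_maps_g' (Finset.subset_insert _ _) hθ (X_mem_g (Finset.mem_insert_self _ _))) ?_
    rw [BP_p hθ, ← hθ2, zero_mul]
  have hy' : θ.1 (c.X y) = 0 := hzero y (by rw [hins]; exact hA)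
  have hz' : θ.1 (c.X z) = 0 := hzero z hinsz
  have hlie := (BP_fn hθ).lie (c.X z) (c.X y)
  rw [hy', hz', zero_lie, lie_zero, add_zero] at hlie
  have : θ.1 ⁅c.X z, c.X y⁆ = 0 := by
    rcases smul_eq_zero.mp hlie.symm with h | h
    · exact absurd h two_ne_zero
    · exact h
  rw [this] at hθ1
  exact (sub_eq_zero.mp hθ1).symm

theorem g_empty {v : L} (hv : v ∈ c.g ∅) : v = 0 := by
  have : c.g ∅ = ⊥ := by
    rw [g]; simp
  rw [this] at hv
  exact (LieSubalgebra.mem_bot _).mp hv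

theorem inj_singleton [Nontrivial P] (i : ι) : c.Inj {i} := by
  intro u hu hp
  have hu' : u ∈ c.g (insert i ∅) := by simpa using hu
  obtain ⟨u₀, hu₀, u₁, hu₁, rfl⟩ := mem_g_insert hu'
  rw [c.g_empty hu₀, zero_add] at hp ⊢
  have hsp : u₁ ∈ Submodule.span F {c.X i} := by
    refine Submodule.span_le.mpr ?_ hu₁
    rintro w ⟨J, hJ, rfl⟩
    cases J with
    | nil => exact Submodule.subset_span rfl
    | cons a J =>
      have ha : a = 0 := c.g_empty (hJ a (by simp))
      subst ha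
      simp [adl]
  obtain ⟨t, rfl⟩ := Submodule.mem_span_singleton.mp hsp
  have h3 := congrArg (c.co i 0) hp
  rw [map_smul, map_smul, c.co_X_zero, map_zero] at h3
  have : t = 0 := by
    rcases smul_eq_zero.mp h3 with h | h
    · exact h
    · exact absurd h one_ne_zero
  rw [this, zero_smul]

theorem main_Iprop [St5 L] [Nontrivial P] (h2 : ∀ A, c.H2prop A) (hpi : c.PiProp)
    (hsym : ∀ C, c.SymProp C)
    (hswap : ∀ y z, y ≠ z → ∃ τ : L →ₗ⁅F⁆ L, c.IsSwap y z τ) (C : Finset ι) :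
    ∀ m, 1 ≤ m → c.Iprop C m := by
  induction C using Finset.strongInduction with
  | H C ih =>
    intro m hm
    rcases C.eq_empty_or_nonempty with rfl | ⟨y, hy⟩
    · exact partA_empty c m hm
    rcases Nat.lt_or_ge 1 m with hm1 | hm1
    · have := partA c (C.erase y) y (Finset.notMem_erase _ _) (ih _ (Finset.erase_ssubset hy)) m hm1
      rwa [Finset.insert_erase hy] at this
    have hm' : m = 1 := le_antisymm hm1 hm
    subst hm'
    rw [inj_iff]
    rcases Nat.lt_or_ge 1 C.card with hc | hc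
    · intro u hu hp
      have huM : ∀ i ∈ C, u ∈ c.M i := by
        intro i hi
        have h3 : c.ret i u = 0 := by
          have hinj := (inj_iff _).mp (ih _ (Finset.erase_ssubset hi) 1 le_rfl)
          refine hinj _ (ret_mem_erase hu) ?_
          rw [← c.retP_p, hp, map_zero]
        have h4 := sub_ret_mem (y := i) hu
        rwa [h3, sub_zero] at h4
      refine hsym C hc u hu huM fun y hy z hz hyz => ?_
      obtain ⟨τ, hτ⟩ := hswap y z hyz
      exact ⟨τ, hτ, partD c C y z hy hz hyz ih h2 hpi τ hτ u hu huM hp⟩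
    · obtain ⟨i, rfl⟩ := Finset.card_eq_one.mp (le_antisymm hc (Finset.card_pos.mpr ⟨y, hy⟩))
      exact c.inj_singleton i

theorem main_inj [St5 L] [Nontrivial P] (h2 : ∀ A, c.H2prop A) (hpi : c.PiProp)
    (hsym : ∀ C, c.SymProp C)
    (hswap : ∀ y z, y ≠ z → ∃ τ : L →ₗ⁅F⁆ L, c.IsSwap y z τ) (C : Finset ι) : c.Inj C :=
  (inj_iff C).mp (c.main_Iprop h2 hpi hsym hswap C 1 le_rfl)

end Ctx

end Helper39W1
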