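import Pool.Agent.Helper39_W1.Level0

set_option autoImplicit false

noncomputable section

namespace Helper39W1

universe u

section WLie
variable {F : Type u} [Field F] {P : Type u} [CommRing P] [Algebra F P] (d : Derivation F P P)

theorem W_Sop (a b e z : P) : Sop F (W.mk F d a) (W.mk F d b) (W.mk F d e) (W.mk F d z) =
    W.mk F d (-(2 * Wr d a b e) * z) := by
  rw [Sop_apply]
  simp only [W.mk_lie, ← map_add, Wr]
  congr 1
  simp only [map_sub, map_add, Derivation.leibniz, smul_eq_mul]
  ring

theorem Wr_boundary (a b e f : P) :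
    Wr d (a * d b - b * d a) e f - Wr d (a * d e - e * d a) b f + Wr d (a * d f - f * d a) b e
      + Wr d (b * d e - e * d b) a f - Wr d (b * d f - f * d b) a e + Wr d (e * d f - f * d e) a b
      = 0 := by
  simp only [Wr, map_sub, map_add, Derivation.leibniz, smul_eq_mul]
  ring

instance : St5 (W F d) where
  eq_zero x z := by
    have hx : x = ![x 0, x 1, x 2, x 3] := by
      funext i; fin_cases i <;> rfl
    rw [hx, st5_eq' (F := F)]
    obtain ⟨a, ha⟩ := (W.mk F d).surjective (x 0)
    obtain ⟨b, hb⟩ := (W.mk F d).surjective (x 1)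
    obtain ⟨e, he⟩ := (W.mk F d).surjective (x 2)
    obtain ⟨f, hf⟩ := (W.mk F d).surjective (x 3)
    obtain ⟨z', rfl⟩ := (W.mk F d).surjective z
    rw [← ha, ← hb, ← he, ← hf]
    simp only [LinearMap.add_apply, LinearMap.sub_apply, W.mk_lie, W_Sop, ← map_add, ← map_sub]
    have := Wr_boundary d a b e f
    rw [← map_zero (W.mk F d)]
    congr 1
    linear_combination (-2 * z') * this

end WLie

end Helper39W1
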